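import Pool.Agent.Q106.UR.Mean2

/-!
# Accurate means of the numbers of tuples in intervals
-/

set_option autoImplicit false

namespace Pool.Agent.Q106.MD

open Finset MeasureTheory ProbabilityTheory Filter Pool.Agent.Q120.GM Pool.Agent.Q106.UR

/-- Abel summation. -/
theorem abel {f w : ℕ → ℝ} {a : ℕ} {B : ℝ} (hf : ∀ m, a ≤ m → f (m + 1) ≤ f m) (hf0 : ∀ m, a ≤ m → 0 ≤ f m)
    (hw : ∀ b, a ≤ b → |∑ m ∈ Ico a b, w m| ≤ B) (b : ℕ) (hab : a ≤ b) : |∑ m ∈ Ico a b, w m * f m| ≤ B * f a := by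
  have key : ∀ b, a ≤ b → |∑ m ∈ Ico a b, w m * f m - (∑ m ∈ Ico a b, w m) * f b| ≤ B * (f a - f b) := by
    intro b hb
    induction b, hb using Nat.le_induction with
    | base => simp
    | succ b hb ih =>
      rw [sum_Ico_succ_top hb, sum_Ico_succ_top hb]
      have h1 : ∑ m ∈ Ico a b, w m * f m + w b * f b - (∑ m ∈ Ico a b, w m + w b) * f (b + 1) =
          (∑ m ∈ Ico a b, w m * f m - (∑ m ∈ Ico a b, w m) * f b) + (∑ m ∈ Ico a (b + 1), w m) * (f b - f (b + 1)) := by
        rw [sum_Ico_succ_top hb]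
        ring
      rw [h1]
      refine (abs_add_le _ _).trans ?_
      rw [abs_mul, abs_of_nonneg (show 0 ≤ f b - f (b + 1) by linarith [hf b hb])]
      have h2 := mul_le_mul_of_nonneg_right (hw (b + 1) (by omega)) (show 0 ≤ f b - f (b + 1) by linarith [hf b hb])
      linarith
  have h1 := key b hab
  have h2 : |(∑ m ∈ Ico a b, w m) * f b| ≤ B * f b := by
    rw [abs_mul, abs_of_nonneg (hf0 b hab)]
    exact mul_le_mul_of_nonneg_right (hw b hab) (hf0 b hab)
  have h3 : ∑ m ∈ Ico a b, w m * f m = (∑ m ∈ Ico a b, w m * f m - (∑ m ∈ Ico a b, w m) * f b) +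
      (∑ m ∈ Ico a b, w m) * f b := by ring
  rw [h3]
  refine (abs_add_le _ _).trans ?_
  linarith

theorem prod_close {S : Finset ℕ} {a : ℝ} {f : ℕ → ℝ} (ha1 : a ≤ 1) (hf0 : ∀ h ∈ S, 0 ≤ f h) (hfa : ∀ h ∈ S, f h ≤ a)
    (ha0 : 0 ≤ a) : 0 ≤ a ^ S.card - ∏ h ∈ S, f h ∧ a ^ S.card - ∏ h ∈ S, f h ≤ ∑ h ∈ S, (a - f h) := by
  induction S using Finset.induction_on with
  | empty => simp
  | insert b S hb ih =>
    obtain ⟨i1, i2⟩ := ih (fun h hh => hf0 h (mem_insert_of_mem hh)) (fun h hh => hfa h (mem_insert_of_mem hh))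
    rw [card_insert_of_notMem hb, prod_insert hb, sum_insert hb]
    have h1 := hf0 b (mem_insert_self _ _)
    have h2 := hfa b (mem_insert_self _ _)
    have h3 : 0 ≤ ∏ h ∈ S, f h := prod_nonneg (fun h hh => hf0 h (mem_insert_of_mem hh))
    have h4 : ∏ h ∈ S, f h ≤ 1 := prod_le_one (fun h hh => hf0 h (mem_insert_of_mem hh))
      (fun h hh => (hfa h (mem_insert_of_mem hh)).trans ha1)
    have h5 : a ^ (S.card + 1) - f b * ∏ h ∈ S, f h = a * (a ^ S.card - ∏ h ∈ S, f h) + (a - f b) * ∏ h ∈ S, f h := by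
      ring
    rw [h5]
    constructor
    · have := mul_nonneg ha0 i1
      have := mul_nonneg (show 0 ≤ a - f b by linarith) h3
      linarith
    · have h6 : a * (a ^ S.card - ∏ h ∈ S, f h) ≤ 1 * (a ^ S.card - ∏ h ∈ S, f h) := mul_le_mul_of_nonneg_right ha1 i1
      have h7 : (a - f b) * ∏ h ∈ S, f h ≤ (a - f b) * 1 := mul_le_mul_of_nonneg_left h4 (by linarith)
      linarith

theorem pos_of_log {m : ℕ} (h : 1 ≤ Real.log m) : (1 : ℝ) ≤ m := by
  have hm0 : (0 : ℝ) < m := by
    rcases Nat.eq_zero_or_pos m with h0 | h0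
    · rw [h0] at h
      norm_num at h
    · exact_mod_cast h0
  have := Real.log_le_sub_one_of_pos hm0
  linarith

/-- The probability of the tuple, accurately. -/
theorem PP_close {Q : ℕ} (hQ : 1 ≤ Q) (H : Finset ℕ) {m : ℕ} (hm1 : 1 ≤ Real.log m) (hq : qq Q ≤ Real.log m) :
    |PP Q H m - (if Good Q H m then 1 else 0) * (qq Q / Real.log m) ^ H.card| ≤ qq Q ^ H.card * ((∑ h ∈ H, (h : ℝ)) / m) := by
  have hm0 := pos_of_log hm1
  have hq0 := qq_pos hQ
  by_cases hg : Good Q H m
  · rw [if_pos hg, one_mul]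
    have h1 : ∀ h ∈ H, level Q (m + h) = qq Q * (Real.log ((m : ℝ) + h))⁻¹ := by
      intro h hh
      have h2 : (0 : ℝ) ≤ h := Nat.cast_nonneg h
      have h3 : Real.log m ≤ Real.log ((m : ℝ) + h) := Real.log_le_log (by linarith) (by linarith)
      unfold level
      rw [if_pos (hg h hh)]
      push_cast
      rw [min_eq_right]
      · rfl
      · rw [div_le_one (by linarith)]
        unfold qq at hq
        linarith
    rw [PP_eq, prod_congr rfl h1, prod_mul_distrib, prod_const, div_pow]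
    have h2 := prod_close (S := H) (a := (Real.log m)⁻¹) (f := fun h => (Real.log ((m : ℝ) + h))⁻¹)
      (inv_le_one_of_one_le₀ hm1)
      (fun h _ => by
        have h2 : (0 : ℝ) ≤ h := Nat.cast_nonneg h
        exact inv_nonneg.2 (Real.log_nonneg (by linarith)))
      (fun h _ => by
        have h2 : (0 : ℝ) ≤ h := Nat.cast_nonneg h
        exact inv_anti₀ (by linarith) (Real.log_le_log (by linarith) (by linarith)))
      (inv_nonneg.2 (by linarith))
    have h3 : ∀ h ∈ H, (Real.log m)⁻¹ - (Real.log ((m : ℝ) + h))⁻¹ ≤ (h : ℝ) / m := by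
      intro h _
      have h2 : (0 : ℝ) ≤ h := Nat.cast_nonneg h
      have h4 : Real.log m ≤ Real.log ((m : ℝ) + h) := Real.log_le_log (by linarith) (by linarith)
      have h5 : Real.log ((m : ℝ) + h) - Real.log m ≤ (h : ℝ) / m := by
        rw [← Real.log_div (by linarith) (by linarith)]
        refine (Real.log_le_sub_one_of_pos (by positivity)).trans (le_of_eq ?_)
        field_simp
        ring
      have h6 : (Real.log m)⁻¹ - (Real.log ((m : ℝ) + h))⁻¹ =
          (Real.log ((m : ℝ) + h) - Real.log m) * ((Real.log m)⁻¹ * (Real.log ((m : ℝ) + h))⁻¹) := by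
        have : Real.log m ≠ 0 := by linarith
        have : Real.log ((m : ℝ) + h) ≠ 0 := by linarith
        field_simp
      rw [h6]
      have h7 : (Real.log m)⁻¹ * (Real.log ((m : ℝ) + h))⁻¹ ≤ 1 := by
        have e1 : (Real.log m)⁻¹ ≤ 1 := inv_le_one_of_one_le₀ hm1
        have e2 : (Real.log ((m : ℝ) + h))⁻¹ ≤ 1 := inv_le_one_of_one_le₀ (by linarith)
        have e3 : 0 ≤ (Real.log ((m : ℝ) + h))⁻¹ := inv_nonneg.2 (by linarith)
        have e4 : 0 ≤ (Real.log m)⁻¹ := inv_nonneg.2 (by linarith)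
        nlinarith
      have h8 : 0 ≤ Real.log ((m : ℝ) + h) - Real.log m := by linarith
      calc (Real.log ((m : ℝ) + h) - Real.log m) * ((Real.log m)⁻¹ * (Real.log ((m : ℝ) + h))⁻¹) ≤
          (Real.log ((m : ℝ) + h) - Real.log m) * 1 := mul_le_mul_of_nonneg_left h7 h8
        _ ≤ _ := by linarith
    have h4 := h2.2.trans (sum_le_sum h3)
    rw [← sum_div] at h4
    have h5 : qq Q ^ H.card * ∏ h ∈ H, (Real.log ((m : ℝ) + h))⁻¹ - qq Q ^ H.card / Real.log m ^ H.card =
        -(qq Q ^ H.card * ((Real.log m)⁻¹ ^ H.card - ∏ h ∈ H, (Real.log ((m : ℝ) + h))⁻¹)) := by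
      rw [inv_pow]
      field_simp
      ring
    rw [h5, abs_neg, abs_of_nonneg (mul_nonneg (by positivity) h2.1)]
    exact mul_le_mul_of_nonneg_left h4 (by positivity)
  · rw [if_neg hg, zero_mul, sub_zero]
    have h1 : PP Q H m = 0 := by
      unfold Good at hg
      push Not at hg
      obtain ⟨h, hh, hc⟩ := hg
      rw [PP_eq]
      refine prod_eq_zero hh ?_
      unfold level
      rw [if_neg hc]
    rw [h1, abs_zero]
    have : 0 ≤ ∑ h ∈ H, (h : ℝ) := sum_nonneg (fun _ _ => Nat.cast_nonneg _)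
    positivity

/-- The sum of `1 / (log m)^K`. -/
noncomputable def li (K a b : ℕ) : ℝ := ∑ m ∈ Ico a b, 1 / Real.log m ^ K

/-- **The mean number of tuples in an interval.** -/
theorem mean_win {Q : ℕ} (hQ : 1 ≤ Q) (H : Finset ℕ) {a b : ℕ} (hab : a ≤ b) (ha1 : 1 ≤ Real.log a)
    (hq : qq Q ≤ Real.log a) :
    |∑ m ∈ Ico a b, PP Q H m - sing Q H * li H.card a b| ≤
      Q + qq Q ^ H.card * (∑ h ∈ H, (h : ℝ)) * (((b : ℝ) - a) / a) := by
  have ha0 := pos_of_log ha1
  have hq0 := qq_pos hQ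
  have hlog : ∀ m, a ≤ m → Real.log a ≤ Real.log m := by
    intro m hm
    have : (a : ℝ) ≤ m := by exact_mod_cast hm
    exact Real.log_le_log (by linarith) this
  have h1 : |∑ m ∈ Ico a b, PP Q H m - ∑ m ∈ Ico a b, (if Good Q H m then 1 else 0) * (qq Q / Real.log m) ^ H.card| ≤
      qq Q ^ H.card * (∑ h ∈ H, (h : ℝ)) * (((b : ℝ) - a) / a) := by
    rw [← sum_sub_distrib]
    refine (abs_sum_le_sum_abs _ _).trans ?_
    have h2 : ∀ m ∈ Ico a b, |PP Q H m - (if Good Q H m then 1 else 0) * (qq Q / Real.log m) ^ H.card| ≤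
        qq Q ^ H.card * ((∑ h ∈ H, (h : ℝ)) / a) := by
      intro m hm
      rw [mem_Ico] at hm
      have h3 := hlog m hm.1
      refine (PP_close hQ H (by linarith) (by linarith)).trans ?_
      refine mul_le_mul_of_nonneg_left ?_ (by positivity)
      refine div_le_div_of_nonneg_left (sum_nonneg (fun _ _ => Nat.cast_nonneg _)) (by linarith) ?_
      exact_mod_cast hm.1
    refine (sum_le_sum h2).trans (le_of_eq ?_)
    rw [sum_const, Nat.card_Ico, nsmul_eq_mul, Nat.cast_sub hab]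
    ring
  have h2 : |∑ m ∈ Ico a b, ((if Good Q H m then (1 : ℝ) else 0) - (cc Q H : ℝ) / Q) * (qq Q / Real.log m) ^ H.card| ≤ Q := by
    have hQ0 : (0 : ℝ) < Q := by exact_mod_cast hQ
    have hccQ : (cc Q H : ℝ) ≤ Q := by
      have : cc Q H ≤ Q := by
        unfold cc
        exact (card_filter_le _ _).trans (by rw [card_range])
      exact_mod_cast this
    have h3 := abel (f := fun m => (qq Q / Real.log m) ^ H.card)
      (w := fun m => (if Good Q H m then (1 : ℝ) else 0) - (cc Q H : ℝ) / Q) (a := a) (B := Q) ?_ ?_ ?_ b hab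
    · refine h3.trans ?_
      have h4 : (qq Q / Real.log a) ^ H.card ≤ 1 := by
        refine pow_le_one₀ (div_nonneg hq0.le (by linarith)) ?_
        rw [div_le_one (by linarith)]
        exact hq
      have := mul_le_mul_of_nonneg_left h4 hQ0.le
      linarith
    · intro m hm
      have h4 := hlog m hm
      have h5 : Real.log m ≤ Real.log ((m + 1 : ℕ) : ℝ) := by
        have : (a : ℝ) ≤ m := by exact_mod_cast hm
        refine Real.log_le_log (by linarith) ?_
        push_cast
        linarith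
      refine pow_le_pow_left₀ (div_nonneg hq0.le (by linarith)) ?_ _
      exact div_le_div_of_nonneg_left hq0.le (by linarith) h5
    · intro m hm
      have h4 := hlog m hm
      exact pow_nonneg (div_nonneg hq0.le (by linarith)) _
    · intro b' hb'
      rw [sum_sub_distrib, sum_const, Nat.card_Ico, nsmul_eq_mul, Nat.cast_sub hb', ← sum_filter, sum_const, nsmul_eq_mul,
        mul_one]
      have h4 := count_real hQ H a (b' - a)
      rw [show a + (b' - a) = b' by omega, Nat.cast_sub hb'] at h4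
      have h5 : 0 ≤ (cc Q H : ℝ) / Q := by positivity
      have h6 : (Q : ℝ) * ((cc Q H : ℝ) / Q) = cc Q H := by field_simp
      rw [abs_le]
      constructor
      · have : ((b' : ℝ) - a - Q) * ((cc Q H : ℝ) / Q) = ((b' : ℝ) - a) * ((cc Q H : ℝ) / Q) - Q * ((cc Q H : ℝ) / Q) := by
          ring
        linarith [h4.1]
      · have : ((b' : ℝ) - a + Q) * ((cc Q H : ℝ) / Q) = ((b' : ℝ) - a) * ((cc Q H : ℝ) / Q) + Q * ((cc Q H : ℝ) / Q) := by
          ring
        linarith [h4.2]
  have h3 : ∑ m ∈ Ico a b, PP Q H m - sing Q H * li H.card a b =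
      (∑ m ∈ Ico a b, PP Q H m - ∑ m ∈ Ico a b, (if Good Q H m then 1 else 0) * (qq Q / Real.log m) ^ H.card) +
      ∑ m ∈ Ico a b, ((if Good Q H m then (1 : ℝ) else 0) - (cc Q H : ℝ) / Q) * (qq Q / Real.log m) ^ H.card := by
    have h4 : sing Q H * li H.card a b = ∑ m ∈ Ico a b, (cc Q H : ℝ) / Q * (qq Q / Real.log m) ^ H.card := by
      unfold li
      rw [sing_eq, mul_sum]
      refine sum_congr rfl (fun m _ => ?_)
      rw [div_pow]
      ring
    rw [h4, ← sum_sub_distrib, ← sum_sub_distrib, ← sum_add_distrib]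
    refine sum_congr rfl (fun m _ => ?_)
    ring
  rw [h3]
  refine (abs_add_le _ _).trans ?_
  linarith

end Pool.Agent.Q106.MD
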