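import Pool.Agent.Q106.MD.Ball
import Pool.Agent.Q106.MD.Acc

/-!
# Systems of tuples in intervals
-/

set_option autoImplicit false

namespace Pool.Agent.Q106.MD

open Finset MeasureTheory ProbabilityTheory Filter Pool.Agent.Q120.GM Pool.Agent.Q106.UR

theorem tl_inj {H H' : Finset ℕ} {m m' : ℕ} (h0 : 0 ∈ H) (h0' : 0 ∈ H') (h : tl m H = tl m' H') : m = m' ∧ H = H' := by
  have h1 : m ∈ tl m' H' := by
    rw [← h]
    exact mem_tl.2 ⟨0, h0, rfl⟩
  have h2 : m' ∈ tl m H := by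
    rw [h]
    exact mem_tl.2 ⟨0, h0', rfl⟩
  rw [mem_tl] at h1 h2
  obtain ⟨x, _, hx⟩ := h1
  obtain ⟨y, _, hy⟩ := h2
  have h3 : m = m' := by omega
  refine ⟨h3, ?_⟩
  rw [h3] at h
  unfold tl at h
  exact image_injective (add_right_injective m') h

theorem meets_card {r : ℕ} (H : Fin r → Finset ℕ) (J : Fin r → Finset ℕ) (i : Fin r) (m : ℕ) :
    (((univ.sigma J).filter (fun x => ¬ Disjoint (tl x.2 (H x.1)) (tl m (H i)))).card : ℝ) ≤
      (∑ j, ((H j).card : ℝ)) ^ 2 + 1 := by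
  have h1 : (univ.sigma J).filter (fun x => ¬ Disjoint (tl x.2 (H x.1)) (tl m (H i))) ⊆
      univ.sigma (fun j => (H i ×ˢ H j).image (fun q : ℕ × ℕ => m + q.1 - q.2)) := by
    rintro ⟨j, m'⟩ hx
    rw [mem_filter, Finset.not_disjoint_iff] at hx
    obtain ⟨_, b, h2, h3⟩ := hx
    simp only at h2 h3
    rw [mem_tl] at h2 h3
    obtain ⟨x, hx, e1⟩ := h2
    obtain ⟨y, hy, e2⟩ := h3
    rw [mem_sigma]
    refine ⟨mem_univ _, ?_⟩
    rw [mem_image]
    exact ⟨(y, x), mem_product.2 ⟨hy, hx⟩, by show m + y - x = m'; omega⟩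
  have h2 : (((univ.sigma J).filter (fun x => ¬ Disjoint (tl x.2 (H x.1)) (tl m (H i)))).card : ℝ) ≤
      ∑ j, ((H i).card : ℝ) * (H j).card := by
    have h3 := card_le_card h1
    rw [card_sigma] at h3
    have h4 : ∑ j, ((H i ×ˢ H j).image (fun q : ℕ × ℕ => m + q.1 - q.2)).card ≤ ∑ j, (H i).card * (H j).card := by
      refine sum_le_sum (fun j _ => card_image_le.trans ?_)
      rw [card_product]
    have h5 := h3.trans h4
    exact_mod_cast h5
  refine h2.trans ?_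
  rw [← mul_sum]
  have h3 : ((H i).card : ℝ) ≤ ∑ j, ((H j).card : ℝ) :=
    single_le_sum (f := fun j => ((H j).card : ℝ)) (fun _ _ => Nat.cast_nonneg _) (mem_univ i)
  have h4 : (0 : ℝ) ≤ ∑ j, ((H j).card : ℝ) := sum_nonneg (fun _ _ => Nat.cast_nonneg _)
  nlinarith

theorem li_ge {K a b : ℕ} {β : ℝ} {R : ℕ} (hab : a ≤ b) (ha : 1 ≤ Real.log a) (hβ : (b : ℝ) ≤ β) (hR : K ≤ R) :
    ((b : ℝ) - a) / Real.log β ^ R ≤ li K a b := by
  have ha0 := pos_of_log ha
  rcases hab.eq_or_lt with h0 | h0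
  · rw [h0]
    unfold li
    simp
  have hab' : (a : ℝ) < b := by exact_mod_cast h0
  have h1 : ∀ m ∈ Ico a b, 1 / Real.log β ^ R ≤ 1 / Real.log m ^ K := by
    intro m hm
    rw [mem_Ico] at hm
    have h2 : (a : ℝ) ≤ m := by exact_mod_cast hm.1
    have h3 : (m : ℝ) ≤ b := by exact_mod_cast hm.2.le
    have h4 : Real.log a ≤ Real.log m := Real.log_le_log (by linarith) h2
    have h5 : Real.log m ≤ Real.log β := Real.log_le_log (by linarith) (by linarith)
    refine one_div_le_one_div_of_le (pow_pos (by linarith) _) ?_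
    calc Real.log m ^ K ≤ Real.log m ^ R := pow_le_pow_right₀ (by linarith) hR
      _ ≤ Real.log β ^ R := pow_le_pow_left₀ (by linarith) h5 _
  have h2 := sum_le_sum h1
  rw [sum_const, Nat.card_Ico, nsmul_eq_mul, Nat.cast_sub hab] at h2
  unfold li
  refine le_trans (le_of_eq ?_) h2
  ring

theorem win_sys {K : Type*} {l : Filter K} {Q : ℕ} (hQ : 1 ≤ Q) {r : ℕ} (H : Fin r → Finset ℕ) (h0 : ∀ i, 0 ∈ H i)
    (hs : ∀ i, 0 < sing Q (H i)) (J : K → Fin r → Finset ℕ) (a b : K → Fin r → ℕ) (N L β : K → ℝ) {c C : ℝ}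
    (hc : 0 < c) (hC : 0 ≤ C) (hL : Tendsto L l atTop) (hab : ∀ n i, a n i ≤ b n i)
    (hJ : ∀ n i, J n i ⊆ Ico (a n i) (b n i)) (hJc : ∀ n i, ((Ico (a n i) (b n i) \ J n i).card : ℝ) ≤ C)
    (hdis : ∀ n i j, i ≠ j → H i = H j → Disjoint (J n i) (J n j))
    (hlow : ∀ᶠ n in l, ∀ i, c * N n ≤ (b n i : ℝ) - a n i)
    (hup : ∀ᶠ n in l, ∀ i, (b n i : ℝ) - a n i ≤ C * N n)
    (ha : ∀ R : ℝ, ∀ᶠ n in l, ∀ i, R ≤ a n i)
    (hba : ∀ᶠ n in l, ∀ i, (b n i : ℝ) - a n i ≤ C * a n i)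
    (hβ : ∀ᶠ n in l, ∀ i, (b n i : ℝ) ≤ β n) (hβ1 : ∀ᶠ n in l, 1 ≤ Real.log (β n))
    (hrat : ∀ R : ℕ, ∀ η > 0, ∀ᶠ n in l, L n * Real.log (β n) ^ R ≤ η * N n) :
    PSys (level Q) l J (fun _ i m => tl m (H i)) (fun n i => sing Q (H i) * li (H i).card (a n i) (b n i))
      (fun n => c / Q * (N n / Real.log (β n) ^ (∑ j, (H j).card))) L ((∑ j, ((H j).card : ℝ)) ^ 2 + 1) := by
  have hQ0 : (0 : ℝ) < Q := by exact_mod_cast hQ
  have hq0 := qq_pos hQ
  obtain ⟨R, hR⟩ : ∃ R, R = ∑ j, (H j).card := ⟨_, rfl⟩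
  have hcR : ∀ i, (H i).card ≤ R := fun i => by
    rw [hR]
    exact single_le_sum (f := fun j => (H j).card) (fun _ _ => Nat.zero_le _) (mem_univ i)
  have hlogA : ∀ M : ℝ, ∀ᶠ n in l, ∀ i, M ≤ Real.log (a n i) := by
    intro M
    filter_upwards [ha (Real.exp M)] with n h1 i
    rw [Real.le_log_iff_exp_le (lt_of_lt_of_le (Real.exp_pos M) (h1 i))]
    exact h1 i
  have hbig : ∀ M : ℝ, ∀ᶠ n in l, M * L n ≤ c / Q * (N n / Real.log (β n) ^ R) := by
    intro M
    filter_upwards [hrat R (c / Q / (|M| + 1)) (by positivity), hβ1, hL.eventually_ge_atTop 0] with n h1 h2 h3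
    have h4 : 0 < Real.log (β n) ^ R := pow_pos (by linarith) _
    rw [mul_div_assoc', le_div_iff₀ h4]
    have h5 : (|M| + 1) * (L n * Real.log (β n) ^ R) ≤ (|M| + 1) * (c / Q / (|M| + 1) * N n) :=
      mul_le_mul_of_nonneg_left h1 (by positivity)
    have h6 : (|M| + 1) * (c / Q / (|M| + 1) * N n) = c / Q * N n := by field_simp
    have h7 : M * (L n * Real.log (β n) ^ R) ≤ (|M| + 1) * (L n * Real.log (β n) ^ R) :=
      mul_le_mul_of_nonneg_right (by linarith [le_abs_self M]) (mul_nonneg h3 h4.le)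
    linarith
  have hle : ∀ᶠ n in l, ∀ i, c / Q * (N n / Real.log (β n) ^ R) ≤
      sing Q (H i) * li (H i).card (a n i) (b n i) := by
    filter_upwards [hlow, hβ, hβ1, hlogA 1, hbig 0] with n h1 h2 h3 h4 h5 i
    have h6 := li_ge (hab n i) (h4 i) (h2 i) (hcR i)
    have h7 := sing_ge hQ (hs i)
    have h8 : 0 < Real.log (β n) ^ R := pow_pos (by linarith) _
    have h9 : c * N n / Real.log (β n) ^ R ≤ ((b n i : ℝ) - a n i) / Real.log (β n) ^ R :=
      div_le_div_of_nonneg_right (h1 i) h8.le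
    have h10 : c / Q * (N n / Real.log (β n) ^ R) = 1 / Q * (c * N n / Real.log (β n) ^ R) := by ring
    have h11 : 0 ≤ c * N n / Real.log (β n) ^ R := by
      have h12 : 0 ≤ c / Q * (N n / Real.log (β n) ^ R) := by linarith
      rw [h10] at h12
      have h13 : 0 < 1 / (Q : ℝ) := by positivity
      exact (mul_nonneg_iff_of_pos_left h13).1 h12
    rw [h10]
    exact mul_le_mul h7 (h9.trans h6) h11 (by linarith [hs i])
  have hcard : ∀ᶠ n in l, (((univ.sigma (J n)).card : ℕ) : ℝ) ≤ r * (C * N n) := by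
    filter_upwards [hup] with n h1
    rw [card_sigma]
    push_cast
    refine (sum_le_sum (g := fun _ => C * N n) (fun i _ => ?_)).trans (by simp)
    have h2 := card_le_card (hJ n i)
    rw [Nat.card_Ico] at h2
    have h3 : ((J n i).card : ℝ) ≤ ((b n i - a n i : ℕ) : ℝ) := by exact_mod_cast h2
    rw [Nat.cast_sub (hab n i)] at h3
    linarith [h1 i]
  rw [← hR]
  refine ⟨hL, ?_, ?_, ?_, ?_, ?_, hle, hbig, ?_, ?_⟩
  · intro n i j i' j' hj hj' h
    obtain ⟨h1, h2⟩ := tl_inj (h0 i) (h0 i') h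
    refine ⟨?_, h1⟩
    by_contra hne
    rw [← h1] at hj'
    exact Finset.disjoint_left.1 (hdis n i i' hne h2) hj hj'
  · intro n i j _
    exact ⟨j, mem_tl.2 ⟨0, h0 i, rfl⟩⟩
  · have := sq_nonneg (∑ j, ((H j).card : ℝ))
    linarith
  · intro n i j _
    exact meets_card H (J n) i j
  · intro s hs'
    filter_upwards [hlogA (qq Q / s), hlogA 1] with n h1 h2 i m hm b' hb'
    have h3 := (mem_Ico.1 (hJ n i hm)).1
    rw [mem_tl] at hb'
    obtain ⟨h, _, rfl⟩ := hb'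
    have h4 : (a n i : ℝ) ≤ m := by exact_mod_cast h3
    have h5 := h2 i
    have h6 := pos_of_log h5
    refine (level_le (x := (a n i : ℝ)) (by linarith) (by linarith) ?_).trans ?_
    · push_cast
      have : (0 : ℝ) ≤ h := Nat.cast_nonneg h
      linarith
    · have h7 := h1 i
      rw [div_le_iff₀ hs'] at h7
      rw [div_le_iff₀ (by linarith)]
      linarith
  · intro η hη
    obtain ⟨M, hM⟩ : ∃ M, M = Q + ∑ i, qq Q ^ (H i).card * (∑ h ∈ H i, (h : ℝ)) * C + C := ⟨_, rfl⟩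
    have hM0 : 0 ≤ M := by
      rw [hM]
      have : 0 ≤ ∑ i, qq Q ^ (H i).card * (∑ h ∈ H i, (h : ℝ)) * C :=
        sum_nonneg (fun i _ => by
          have : 0 ≤ ∑ h ∈ H i, (h : ℝ) := sum_nonneg (fun _ _ => Nat.cast_nonneg _)
          positivity)
      linarith
    filter_upwards [hle, hbig ((M / η) ^ 2), hL.eventually_ge_atTop 1, hlogA 1, hlogA (qq Q), hba] with n h1 h2 h3 h4 h5 h6 i
    have h7 : |∑ j ∈ J n i, pT (level Q) (tl j (H i)) - sing Q (H i) * li (H i).card (a n i) (b n i)| ≤ M := by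
      have e1 := mean_win hQ (H i) (hab n i) (h4 i) (h5 i)
      have e2 : ∑ m ∈ Ico (a n i) (b n i), PP Q (H i) m = ∑ m ∈ Ico (a n i) (b n i) \ J n i, PP Q (H i) m +
          ∑ m ∈ J n i, PP Q (H i) m := (sum_sdiff (hJ n i)).symm
      have e3 : 0 ≤ ∑ m ∈ Ico (a n i) (b n i) \ J n i, PP Q (H i) m := sum_nonneg (fun m _ => PP_nonneg Q (H i) m)
      have e4 : ∑ m ∈ Ico (a n i) (b n i) \ J n i, PP Q (H i) m ≤ C := by
        refine le_trans (sum_le_sum (g := fun _ => (1 : ℝ)) (fun m _ => ?_)) ?_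
        · rw [PP_eq]
          exact prod_le_one (fun _ _ => level_nonneg Q _) (fun _ _ => level_le_one Q _)
        · rw [sum_const, nsmul_eq_mul, mul_one]
          exact hJc n i
      have e5 : ∑ j ∈ J n i, pT (level Q) (tl j (H i)) = ∑ m ∈ J n i, PP Q (H i) m := rfl
      have e6 : qq Q ^ (H i).card * (∑ h ∈ H i, (h : ℝ)) * (((b n i : ℝ) - a n i) / a n i) ≤
          qq Q ^ (H i).card * (∑ h ∈ H i, (h : ℝ)) * C := by
        have e7 : 0 ≤ ∑ h ∈ H i, (h : ℝ) := sum_nonneg (fun _ _ => Nat.cast_nonneg _)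
        refine mul_le_mul_of_nonneg_left ?_ (by positivity)
        have e8 := pos_of_log (h4 i)
        rw [div_le_iff₀ (by linarith)]
        exact h6 i
      have e7 : qq Q ^ (H i).card * (∑ h ∈ H i, (h : ℝ)) * C ≤
          ∑ i, qq Q ^ (H i).card * (∑ h ∈ H i, (h : ℝ)) * C :=
        single_le_sum (f := fun i => qq Q ^ (H i).card * (∑ h ∈ H i, (h : ℝ)) * C) (fun i _ => by
          have : 0 ≤ ∑ h ∈ H i, (h : ℝ) := sum_nonneg (fun _ _ => Nat.cast_nonneg _)
          positivity) (mem_univ i)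
      rw [e5]
      rw [e2, abs_le] at e1
      rw [hM, abs_le]
      constructor
      · linarith [e1.1]
      · linarith [e1.2]
    refine h7.trans ?_
    have h8 : (M / η) ^ 2 ≤ sing Q (H i) * li (H i).card (a n i) (b n i) := by
      have := h1 i
      have h9 := mul_le_mul_of_nonneg_left h3 (sq_nonneg (M / η))
      linarith
    have h9 : M / η ≤ Real.sqrt (sing Q (H i) * li (H i).card (a n i) (b n i)) := Real.le_sqrt_of_sq_le h8
    rw [div_le_iff₀ hη] at h9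
    linarith
  · intro η hη
    obtain ⟨M, hM⟩ : ∃ M, M = (r * C) ^ 2 + 1 := ⟨_, rfl⟩
    have hM0 : 0 < M := by rw [hM]; positivity
    filter_upwards [hcard, hrat (3 * R) (η * (c / Q) ^ 3 / M) (by positivity), hβ1, hL.eventually_ge_atTop 1, hrat 0 1 one_pos]
      with n h1 h2 h3 h4 h5
    have h6 : 0 < Real.log (β n) ^ R := pow_pos (by linarith) _
    have hN : 0 < N n := by
      rw [pow_zero, mul_one, one_mul] at h5
      linarith
    have h7 : (c / Q * (N n / Real.log (β n) ^ R)) ^ 3 = (c / Q) ^ 3 * N n ^ 3 / Real.log (β n) ^ (3 * R) := by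
      rw [mul_pow, div_pow (N n), ← pow_mul, mul_comm R 3]
      ring
    rw [h7, mul_div_assoc', le_div_iff₀ (pow_pos (by linarith) _)]
    have h8 : (((univ.sigma (J n)).card : ℕ) : ℝ) ^ 2 ≤ M * N n ^ 2 := by
      have e1 := pow_le_pow_left₀ (Nat.cast_nonneg _) h1 2
      have e2 : (r * (C * N n)) ^ 2 = (r * C) ^ 2 * N n ^ 2 := by ring
      rw [e2] at e1
      refine e1.trans (mul_le_mul_of_nonneg_right (by rw [hM]; linarith) (sq_nonneg _))
    have h9 : L n * (((univ.sigma (J n)).card : ℕ) : ℝ) ^ 2 * Real.log (β n) ^ (3 * R) ≤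
        (L n * Real.log (β n) ^ (3 * R)) * (M * N n ^ 2) := by
      have e1 : L n * (((univ.sigma (J n)).card : ℕ) : ℝ) ^ 2 * Real.log (β n) ^ (3 * R) =
          (L n * Real.log (β n) ^ (3 * R)) * (((univ.sigma (J n)).card : ℕ) : ℝ) ^ 2 := by ring
      rw [e1]
      exact mul_le_mul_of_nonneg_left h8 (mul_nonneg (by linarith) (pow_nonneg (by linarith) _))
    refine h9.trans ?_
    have h10 := mul_le_mul_of_nonneg_right h2 (by positivity : 0 ≤ M * N n ^ 2)
    refine h10.trans (le_of_eq ?_)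
    field_simp

end Pool.Agent.Q106.MD
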