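import Pool.Agent.Q106.MD.Pow
import Pool.Agent.Q120.GM.Count

/-!
# The number of the windows with given deviations
-/

set_option autoImplicit false

namespace Pool.Agent.Q106.MD

open Finset MeasureTheory ProbabilityTheory Filter Pool.Agent.Q120.GM Pool.Agent.Q106.UR
open scoped Topology

variable {Ω : Type*} [MeasurableSpace Ω] {μ : Measure Ω} [IsProbabilityMeasure μ] {ι : Type*}
  {p : ι → ℝ} {A : Ω → Set ι} {r : ℕ} {D : ℕ → Fin r → Ω → ℝ}

theorem meas_near_F (S : ℕ → Set ι) (hm : ∀ n i, Measurable[F A (S n)] (D n i)) (d : Fin r → ℝ) (ε : ℝ) (n : ℕ) :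
    MeasurableSet[F A (S n)] (near D n d ε) := by
  have h3 : near D n d ε = ⋂ i, {ω | |D n i ω - d i| < ε} := by
    ext ω
    simp [near]
  rw [h3]
  let _ : MeasurableSpace Ω := F A (S n)
  exact MeasurableSet.iInter (fun i => measurableSet_lt ((hm n i).sub_const _).abs measurable_const)

theorem exp_log_rpow {n : ℕ} (hn : 1 ≤ n) (s : ℝ) : Real.exp (-(Real.log n * s)) = (n : ℝ) ^ (-s) := by
  have : (0 : ℝ) < n := by exact_mod_cast hn
  rw [Real.rpow_def_of_pos this]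
  congr 1
  ring

theorem spec_low (hA : IsModel μ p A) (S : ℕ → Set ι) (hd : ∀ i j, i ≠ j → Disjoint (S i) (S j))
    (hm : ∀ n i, Measurable[F A (S n)] (D n i)) (hG : Gau μ atTop D (fun n => Real.log n)) (d : Fin r → ℝ)
    (hd1 : ∑ i, d i ^ 2 < 1) {ε δ : ℝ} (hε : 0 < ε) (hδ : 0 < δ) :
    ∀ᵐ ω ∂μ, ∀ᶠ x : ℕ in atTop, (x : ℝ) ^ (1 - ∑ i, d i ^ 2 - δ) ≤ num (range (x + 1)) (fun n => near D n d ε) ω := by
  obtain ⟨v, hv⟩ : ∃ v, v = ∑ i, d i ^ 2 := ⟨_, rfl⟩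
  have hv0 : 0 ≤ v := by rw [hv]; exact sum_nonneg (fun _ _ => sq_nonneg _)
  rw [← hv] at hd1 ⊢
  obtain ⟨η, hη⟩ : ∃ η, η = min (δ / 4) ((1 - v) / 4) := ⟨_, rfl⟩
  have hη0 : 0 < η := by rw [hη]; exact lt_min (by linarith) (by linarith)
  have hη1 : η ≤ δ / 4 := by rw [hη]; exact min_le_left _ _
  have hη2 : η ≤ (1 - v) / 4 := by rw [hη]; exact min_le_right _ _
  have hlow := hG.lower d hε hη0
  rw [← hv] at hlow
  obtain ⟨N, hN⟩ := eventually_atTop.1 hlow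
  have h1 := lower_count (μ := μ) (E := fun n => near D n d ε)
    (fun n => F_le hA _ _ (meas_near_F S hm d ε n)) (P := fun k => Ico (2 ^ (k - 1)) (2 ^ k)) (σ := 1 - v - 2 * η)
    (by linarith) ?_ (r := 1) one_pos ?_ hη0
  · filter_upwards [h1] with ω hω
    filter_upwards [hω, eventually_ge_atTop 1] with x h2 h3
    have hx1 : (1 : ℝ) ≤ x := by exact_mod_cast h3
    refine ((Real.rpow_le_rpow_of_exponent_le hx1 (by linarith)).trans h2).trans (num_mono ?_ _ _)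
    intro n hn
    rw [mem_Ico] at hn
    rw [mem_range]
    have h4 : 2 ^ (Nat.log 2 x) ≤ x := Nat.pow_log_le_self 2 (by omega)
    omega
  · have g1 : ∀ᶠ k : ℕ in atTop, (2 : ℝ) ≤ ((2 : ℝ) ^ k) ^ η := by
      have h2 : Tendsto (fun k : ℕ => ((2 : ℝ) ^ k) ^ η) atTop atTop :=
        (tendsto_rpow_atTop hη0).comp (tendsto_pow_atTop_atTop_of_one_lt (by norm_num))
      exact h2.eventually_ge_atTop 2
    have g2 : ∀ᶠ k : ℕ in atTop, N ≤ 2 ^ k := two_pow_tendsto.eventually_ge_atTop N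
    have g3 : ∀ᶠ k : ℕ in atTop, N ≤ 2 ^ (k - 1) := (tendsto_sub_atTop_nat 1).eventually g2
    filter_upwards [g1, g3, eventually_ge_atTop 1] with k h2 h3 h4
    obtain ⟨X, hX⟩ : ∃ X : ℝ, X = (2 : ℝ) ^ k := ⟨_, rfl⟩
    have hX0 : 0 < X := by rw [hX]; positivity
    rw [← hX] at h2 ⊢
    have h5 : ∀ n ∈ Ico (2 ^ (k - 1)) (2 ^ k), X ^ (-(v + η)) ≤ μ.real (near D n d ε) := by
      intro n hn
      rw [mem_Ico] at hn
      have hn1 : 1 ≤ n := le_trans Nat.one_le_two_pow hn.1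
      refine le_trans ?_ (hN n (h3.trans hn.1))
      rw [exp_log_rpow hn1]
      have hn0 : (0 : ℝ) < n := by exact_mod_cast hn1
      have hnX : (n : ℝ) ≤ X := by
        rw [hX]
        exact_mod_cast hn.2.le
      exact Real.rpow_le_rpow_of_nonpos hn0 hnX (by linarith)
    have h6 := sum_le_sum h5
    rw [sum_const, Nat.card_Ico, nsmul_eq_mul] at h6
    have h7 : ((2 ^ k - 2 ^ (k - 1) : ℕ) : ℝ) = X / 2 := by
      obtain ⟨j, rfl⟩ : ∃ j, k = j + 1 := ⟨k - 1, by omega⟩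
      rw [hX, Nat.add_sub_cancel, pow_succ, pow_succ]
      have : 2 ^ j * 2 - 2 ^ j = 2 ^ j := by omega
      rw [this]
      push_cast
      ring
    rw [h7] at h6
    refine le_trans ?_ h6
    have h8 : X / 2 * X ^ (-(v + η)) = X ^ (1 - v - 2 * η) * (X ^ η / 2) := by
      have e1 : X * X ^ (-(v + η)) = X ^ (1 - v - 2 * η) * X ^ η := by
        rw [← Real.rpow_add hX0]
        nth_rw 1 [← Real.rpow_one X]
        rw [← Real.rpow_add hX0]
        congr 1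
        ring
      linarith
    rw [h8]
    have h9 : 0 < X ^ (1 - v - 2 * η) := Real.rpow_pos_of_pos hX0 _
    have h10 : 1 ≤ X ^ η / 2 := by linarith
    nlinarith
  · filter_upwards with k i _ j _ hij
    have h2 := indep_real hA (hd i j hij) (meas_near_F S hm d ε i) (meas_near_F S hm d ε j)
    rw [h2]
    have h3 : 0 ≤ μ.real (near D i d ε) * μ.real (near D j d ε) := mul_nonneg measureReal_nonneg measureReal_nonneg
    have h4 : (0 : ℝ) < ((2 : ℝ) ^ k) ^ (-(1 : ℝ)) := by positivity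
    nlinarith

theorem spec_up (hG : Gau μ atTop D (fun n => Real.log n)) (d : Fin r → ℝ)
    {η δ : ℝ} (hη : 0 < η) (hδ0 : 0 < δ) (hδ : 2 * δ * ∑ i, |d i| ≤ η / 2) (hd1 : ∑ i, d i ^ 2 - η ≤ 1) :
    ∀ᵐ ω ∂μ, ∀ᶠ x : ℕ in atTop, num (range (x + 1)) (fun n => near D n d δ) ω ≤ (x : ℝ) ^ (1 - ∑ i, d i ^ 2 + 2 * η) := by
  have h1 := upper_count (μ := μ) (E := fun n => near D n d δ) (fun n => meas_near hG n d δ) hd1 ?_ hη
  · filter_upwards [h1] with ω hω
    filter_upwards [hω] with x h2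
    refine h2.trans (le_of_eq ?_)
    congr 1
    ring
  · filter_upwards [hG.upper_at d hη hδ0 hδ, eventually_ge_atTop 1] with n h2 h3
    rwa [exp_log_rpow h3] at h2

/-- **The spectrum of the deviations.** -/
theorem spectrum (hA : IsModel μ p A) (S : ℕ → Set ι) (hd : ∀ i j, i ≠ j → Disjoint (S i) (S j))
    (hm : ∀ n i, Measurable[F A (S n)] (D n i)) (hG : Gau μ atTop D (fun n => Real.log n)) :
    ∀ᵐ ω ∂μ, ∀ d : Fin r → ℝ, ∑ i, d i ^ 2 < 1 → ∀ δ > 0, ∃ ε₀ > 0, ∀ ε, 0 < ε → ε ≤ ε₀ → ∀ᶠ x : ℕ in atTop,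
      (x : ℝ) ^ (1 - ∑ i, d i ^ 2 - δ) ≤ num (range (x + 1)) (fun n => near D n d ε) ω ∧
      num (range (x + 1)) (fun n => near D n d ε) ω ≤ (x : ℝ) ^ (1 - ∑ i, d i ^ 2 + δ) := by
  have h1 : ∀ᵐ ω ∂μ, ∀ q : Fin r → ℚ, ∀ m j : ℕ, ∑ i, (q i : ℝ) ^ 2 < 1 → ∀ᶠ x : ℕ in atTop,
      (x : ℝ) ^ (1 - ∑ i, (q i : ℝ) ^ 2 - 1 / ((j : ℝ) + 1)) ≤
        num (range (x + 1)) (fun n => near D n (fun i => (q i : ℝ)) (1 / ((m : ℝ) + 1))) ω := by
    refine ae_all_iff.2 (fun q => ae_all_iff.2 (fun m => ae_all_iff.2 (fun j => ?_)))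
    by_cases hq : ∑ i, (q i : ℝ) ^ 2 < 1
    · filter_upwards [spec_low hA S hd hm hG (fun i => (q i : ℝ)) hq (ε := 1 / ((m : ℝ) + 1)) (δ := 1 / ((j : ℝ) + 1))
        (by positivity) (by positivity)] with ω hω _
      exact hω
    · exact Eventually.of_forall (fun ω h2 => absurd h2 hq)
  have h2 : ∀ᵐ ω ∂μ, ∀ q : Fin r → ℚ, ∀ m j : ℕ, ∑ i, (q i : ℝ) ^ 2 < 1 →
      2 * (1 / ((m : ℝ) + 1)) * ∑ i, |(q i : ℝ)| ≤ 1 / ((j : ℝ) + 1) / 2 → ∀ᶠ x : ℕ in atTop,
        num (range (x + 1)) (fun n => near D n (fun i => (q i : ℝ)) (1 / ((m : ℝ) + 1))) ω ≤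
      (x : ℝ) ^ (1 - ∑ i, (q i : ℝ) ^ 2 + 2 * (1 / ((j : ℝ) + 1))) := by
    refine ae_all_iff.2 (fun q => ae_all_iff.2 (fun m => ae_all_iff.2 (fun j => ?_)))
    by_cases hq : ∑ i, (q i : ℝ) ^ 2 < 1
    · by_cases hq2 : 2 * (1 / ((m : ℝ) + 1)) * ∑ i, |(q i : ℝ)| ≤ 1 / ((j : ℝ) + 1) / 2
      · have h0 : (0 : ℝ) < 1 / ((j : ℝ) + 1) := by positivity
        filter_upwards [spec_up hG (fun i => (q i : ℝ)) (η := 1 / ((j : ℝ) + 1)) (δ := 1 / ((m : ℝ) + 1))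
          h0 (by positivity) hq2 (by linarith)] with ω hω _ _
        exact hω
      · exact Eventually.of_forall (fun ω _ h3 => absurd h3 hq2)
    · exact Eventually.of_forall (fun ω h2 => absurd h2 hq)
  have hdense : DenseRange (Pi.map (fun (_ : Fin r) (q : ℚ) => (q : ℝ))) := DenseRange.piMap (fun _ => Rat.denseRange_cast)
  have happ : ∀ (d : Fin r → ℝ) (t s : ℝ), 0 < t → 0 < s → ∃ q : Fin r → ℚ, (∀ i, |(q i : ℝ) - d i| < t) ∧
      ∑ i, (q i : ℝ) ^ 2 < ∑ i, d i ^ 2 + s ∧ ∑ i, d i ^ 2 - s < ∑ i, (q i : ℝ) ^ 2 := by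
    intro d t s ht hs
    have hopen : IsOpen ((⋂ i, {d' : Fin r → ℝ | |d' i - d i| < t}) ∩ ({d' : Fin r → ℝ | ∑ i, d' i ^ 2 < ∑ i, d i ^ 2 + s} ∩
        {d' : Fin r → ℝ | ∑ i, d i ^ 2 - s < ∑ i, d' i ^ 2})) := by
      refine IsOpen.inter (isOpen_iInter_of_finite (fun i => ?_)) (IsOpen.inter ?_ ?_)
      · exact isOpen_lt ((continuous_apply i).sub continuous_const).abs continuous_const
      · exact isOpen_lt (continuous_finset_sum _ (fun i _ => (continuous_apply i).pow 2)) continuous_const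
      · exact isOpen_lt continuous_const (continuous_finset_sum _ (fun i _ => (continuous_apply i).pow 2))
    obtain ⟨q, hq1, hq2, hq3⟩ := hdense.exists_mem_open hopen ⟨d, by
      rw [Set.mem_iInter]
      intro i
      show |d i - d i| < t
      rw [sub_self, abs_zero]
      exact ht, by
      show ∑ i, d i ^ 2 < ∑ i, d i ^ 2 + s
      linarith, by
      show ∑ i, d i ^ 2 - s < ∑ i, d i ^ 2
      linarith⟩
    rw [Set.mem_iInter] at hq1
    exact ⟨q, hq1, hq2, hq3⟩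
  filter_upwards [h1, h2] with ω hlow hup d hd1 δ hδ
  obtain ⟨B, hB⟩ : ∃ B, B = ∑ i, |d i| := ⟨_, rfl⟩
  have hB0 : 0 ≤ B := by rw [hB]; exact sum_nonneg (fun _ _ => abs_nonneg _)
  obtain ⟨j, hj⟩ := exists_nat_one_div_lt (show (0 : ℝ) < δ / 4 by positivity)
  have hj0 : (0 : ℝ) < 1 / ((j : ℝ) + 1) := by positivity
  obtain ⟨m, hm'⟩ := exists_nat_one_div_lt (show (0 : ℝ) < 1 / ((j : ℝ) + 1) / (4 * (B + r + 1)) by positivity)
  have hm0 : (0 : ℝ) < 1 / ((m : ℝ) + 1) := by positivity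
  refine ⟨1 / ((m : ℝ) + 1) / 2, by positivity, fun ε hε hε2 => ?_⟩
  have hv1 : 0 < 1 - ∑ i, d i ^ 2 := by linarith
  -- the upper bound
  obtain ⟨q, hq1, hq2, hq3⟩ := happ d (min (1 / ((m : ℝ) + 1) / 2) 1) (min (δ / 4) (1 - ∑ i, d i ^ 2))
    (lt_min (by positivity) one_pos) (lt_min (by positivity) hv1)
  have hU := hup q m j (by
    have := min_le_right (δ / 4) (1 - ∑ i, d i ^ 2)
    linarith) (by
    have e1 : ∑ i, |(q i : ℝ)| ≤ B + r := by
      have e2 : ∑ i, |(q i : ℝ)| ≤ ∑ i, (|d i| + 1) := by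
        refine sum_le_sum (fun i _ => ?_)
        have e3 : |(q i : ℝ) - d i| ≤ 1 := (hq1 i).le.trans (min_le_right _ _)
        have e4 : |(q i : ℝ)| ≤ |(q i : ℝ) - d i| + |d i| := by
          have := abs_add_le ((q i : ℝ) - d i) (d i)
          simpa using this
        linarith
      refine e2.trans (le_of_eq ?_)
      rw [sum_add_distrib, ← hB]
      simp
    have e2 : 1 / ((m : ℝ) + 1) * (4 * (B + r + 1)) ≤ 1 / ((j : ℝ) + 1) := by
      rw [← le_div_iff₀ (by positivity)]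
      exact hm'.le
    have e3 : 2 * (1 / ((m : ℝ) + 1)) * ∑ i, |(q i : ℝ)| ≤ 2 * (1 / ((m : ℝ) + 1)) * (B + r + 1) :=
      mul_le_mul_of_nonneg_left (by linarith) (by positivity)
    linarith)
  -- the lower bound
  obtain ⟨m', hm''⟩ := exists_nat_one_div_lt (show (0 : ℝ) < ε / 2 by positivity)
  obtain ⟨q', hq1', hq2', hq3'⟩ := happ d (ε / 2) (min (δ / 4) (1 - ∑ i, d i ^ 2)) (by positivity)
    (lt_min (by positivity) hv1)
  have hLw := hlow q' m' j (by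
    have := min_le_right (δ / 4) (1 - ∑ i, d i ^ 2)
    linarith)
  filter_upwards [hU, hLw, eventually_ge_atTop 1] with x h3 h4 h5
  have hx1 : (1 : ℝ) ≤ x := by exact_mod_cast h5
  have hmin := min_le_left (δ / 4) (1 - ∑ i, d i ^ 2)
  constructor
  · refine ((Real.rpow_le_rpow_of_exponent_le hx1 (by linarith)).trans h4).trans (num_mono' (fun n _ hn i => ?_))
    have e1 : |D n i ω - q' i| < 1 / ((m' : ℝ) + 1) := hn i
    have e2 := hq1' i
    have e3 : D n i ω - d i = (D n i ω - q' i) + (q' i - d i) := by ring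
    rw [e3]
    refine (abs_add_le _ _).trans_lt ?_
    linarith
  · refine ((num_mono' (fun n _ hn i => ?_)).trans h3).trans (Real.rpow_le_rpow_of_exponent_le hx1 (by linarith))
    have e1 : |D n i ω - d i| < ε := hn i
    have e2 : |(q i : ℝ) - d i| < 1 / ((m : ℝ) + 1) / 2 := (hq1 i).trans_le (min_le_left _ _)
    have e3 : D n i ω - (q i : ℝ) = (D n i ω - d i) + (d i - q i) := by ring
    rw [e3]
    refine (abs_add_le _ _).trans_lt ?_
    rw [abs_sub_comm (d i)]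
    linarith

end Pool.Agent.Q106.MD
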