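import Pool.Agent.Q106.UR.Mean

/-!
# The law of a sequence of vectors only depends on the sequence up to a null sequence
-/

set_option autoImplicit false

namespace Pool.Agent.Q106.MD

open Finset Filter
open scoped Topology

variable {r : ℕ}

/-- The `n ≤ x` for which the vector is near `d`. -/
def nearSet (D : ℕ → Fin r → ℝ) (d : Fin r → ℝ) (ε : ℝ) (x : ℕ) : Set ℕ := {n : ℕ | n ≤ x ∧ ∀ i, |D n i - d i| < ε}

/-- The law: the unit ball is the limit set, and the number of the `n ≤ x` for which the vector is near `d` is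
`x^(1 - |d|^2)` up to `x^(±δ)`. -/
def Law (D : ℕ → Fin r → ℝ) : Prop :=
  (∀ ε > 0, ∀ᶠ n in atTop, ∑ i, D n i ^ 2 ≤ 1 + ε) ∧
  (∀ d : Fin r → ℝ, ∑ i, d i ^ 2 ≤ 1 → ∀ ε > 0, ∃ᶠ n in atTop, ∀ i, |D n i - d i| < ε) ∧
  ∀ d : Fin r → ℝ, ∑ i, d i ^ 2 < 1 → ∀ δ > 0, ∃ ε₀ > 0, ∀ ε, 0 < ε → ε ≤ ε₀ → ∀ᶠ x : ℕ in atTop,
    (x : ℝ) ^ (1 - ∑ i, d i ^ 2 - δ) ≤ ((nearSet D d ε x).ncard : ℝ) ∧
    ((nearSet D d ε x).ncard : ℝ) ≤ (x : ℝ) ^ (1 - ∑ i, d i ^ 2 + δ)

theorem nearSet_finite (D : ℕ → Fin r → ℝ) (d : Fin r → ℝ) (ε : ℝ) (x : ℕ) : (nearSet D d ε x).Finite :=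
  (Set.finite_Iic x).subset (fun _ hn => hn.1)

theorem nearSet_le {D D' : ℕ → Fin r → ℝ} {d : Fin r → ℝ} {ε ε' : ℝ} {N : ℕ}
    (h : ∀ n, N ≤ n → (∀ i, |D n i - d i| < ε) → ∀ i, |D' n i - d i| < ε') (x : ℕ) :
    ((nearSet D d ε x).ncard : ℝ) ≤ N + ((nearSet D' d ε' x).ncard : ℝ) := by
  have h1 : nearSet D d ε x ⊆ (Finset.range N : Set ℕ) ∪ nearSet D' d ε' x := by
    intro n hn
    by_cases h2 : n < N
    · left
      rw [Finset.mem_coe, mem_range]
      exact h2
    · right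
      exact ⟨hn.1, h n (by omega) hn.2⟩
  have h2 : (nearSet D d ε x).ncard ≤ ((Finset.range N : Set ℕ) ∪ nearSet D' d ε' x).ncard :=
    Set.ncard_le_ncard h1 ((Finset.finite_toSet _).union (nearSet_finite D' d ε' x))
  have h3 := Set.ncard_union_le (Finset.range N : Set ℕ) (nearSet D' d ε' x)
  rw [Set.ncard_coe_finset, card_range] at h3
  have h4 := h2.trans h3
  exact_mod_cast h4

theorem rpow_absorb {N a b : ℝ} (ha : 0 < a) (hab : a < b) : ∀ᶠ x : ℕ in atTop, N + (x : ℝ) ^ a ≤ (x : ℝ) ^ b := by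
  have h1 : Tendsto (fun x : ℕ => (x : ℝ) ^ (b - a)) atTop atTop :=
    (tendsto_rpow_atTop (by linarith)).comp tendsto_natCast_atTop_atTop
  have h2 : Tendsto (fun x : ℕ => (x : ℝ) ^ a) atTop atTop :=
    (tendsto_rpow_atTop ha).comp tendsto_natCast_atTop_atTop
  filter_upwards [h1.eventually_ge_atTop 2, h2.eventually_ge_atTop |N|, eventually_ge_atTop 1] with x h3 h4 h5
  have hx : (0 : ℝ) < x := by exact_mod_cast h5
  have h6 : (x : ℝ) ^ b = (x : ℝ) ^ (b - a) * (x : ℝ) ^ a := by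
    rw [← Real.rpow_add hx]
    congr 1
    ring
  rw [h6]
  have h7 := le_abs_self N
  have h8 : 0 < (x : ℝ) ^ a := Real.rpow_pos_of_pos hx _
  nlinarith

/-- **Transfer.** -/
theorem Law.congr {D D' : ℕ → Fin r → ℝ} (hL : Law D) (h : ∀ i, Tendsto (fun n => D' n i - D n i) atTop (𝓝 0)) :
    Law D' := by
  obtain ⟨h1, h2, h3⟩ := hL
  have hcl : ∀ ε > 0, ∀ᶠ n in atTop, ∀ i, |D' n i - D n i| < ε := by
    intro ε hε
    refine eventually_all.2 (fun i => ?_)
    have := (Metric.tendsto_nhds.1 (h i)) ε hε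
    filter_upwards [this] with n hn
    rwa [Real.dist_eq, sub_zero] at hn
  refine ⟨?_, ?_, ?_⟩
  · intro ε hε
    filter_upwards [h1 1 one_pos, h1 (ε / 2) (by positivity), hcl (min 1 (ε / (2 * (5 * (r + 1)))))
      (lt_min one_pos (by positivity))] with n h4 h5 h6
    have h7 : ∀ i, D' n i ^ 2 ≤ D n i ^ 2 + 5 * (ε / (2 * (5 * (r + 1)))) := by
      intro i
      have e1 : D n i ^ 2 ≤ 2 := by
        have e2 : D n i ^ 2 ≤ ∑ i, D n i ^ 2 := single_le_sum (f := fun i => D n i ^ 2) (fun _ _ => sq_nonneg _) (mem_univ i)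
        linarith
      have e3 : |D n i| ≤ 2 := abs_le_of_sq_le_sq (by linarith) (by norm_num)
      have e4 := h6 i
      have e5 : |D' n i - D n i| ≤ 1 := e4.le.trans (min_le_left _ _)
      have e6 : |D' n i - D n i| ≤ ε / (2 * (5 * (r + 1))) := e4.le.trans (min_le_right _ _)
      have e7 : D' n i ^ 2 = D n i ^ 2 + (D' n i - D n i) * (2 * D n i + (D' n i - D n i)) := by ring
      rw [e7]
      have e8 : (D' n i - D n i) * (2 * D n i + (D' n i - D n i)) ≤ |D' n i - D n i| * 5 := by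
        refine (le_abs_self _).trans ?_
        rw [abs_mul]
        refine mul_le_mul_of_nonneg_left ?_ (abs_nonneg _)
        refine (abs_add_le _ _).trans ?_
        rw [abs_mul, abs_two]
        linarith
      linarith
    have h8 : ∑ i, D' n i ^ 2 ≤ ∑ i, D n i ^ 2 + ε / 2 := by
      refine (sum_le_sum (fun i _ => h7 i)).trans ?_
      rw [sum_add_distrib]
      have : ∑ _i : Fin r, 5 * (ε / (2 * (5 * ((r : ℝ) + 1)))) ≤ ε / 2 := by
        rw [sum_const, card_univ, Fintype.card_fin, nsmul_eq_mul]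
        have e1 : (r : ℝ) * (5 * (ε / (2 * (5 * ((r : ℝ) + 1))))) = ε / 2 * (r / (r + 1)) := by
          field_simp
        rw [e1]
        have e2 : (r : ℝ) / (r + 1) ≤ 1 := by
          rw [div_le_one (by positivity)]
          linarith
        have : 0 < ε / 2 := by positivity
        nlinarith
      linarith
    linarith
  · intro d hd ε hε
    refine ((h2 d hd (ε / 2) (by positivity)).and_eventually (hcl (ε / 2) (by positivity))).mono (fun n hn i => ?_)
    have e1 := hn.1 i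
    have e2 := hn.2 i
    have e3 : D' n i - d i = (D' n i - D n i) + (D n i - d i) := by ring
    rw [e3]
    refine (abs_add_le _ _).trans_lt ?_
    linarith
  · intro d hd δ hδ
    obtain ⟨v, hv⟩ : ∃ v, v = ∑ i, d i ^ 2 := ⟨_, rfl⟩
    obtain ⟨δ', hδ'⟩ : ∃ δ', δ' = min (δ / 2) ((1 - v) / 2) := ⟨_, rfl⟩
    rw [← hv] at hd
    have hδ'0 : 0 < δ' := by rw [hδ']; exact lt_min (by positivity) (by linarith)
    have hδ'1 : δ' ≤ δ / 2 := by rw [hδ']; exact min_le_left _ _
    have hδ'2 : δ' ≤ (1 - v) / 2 := by rw [hδ']; exact min_le_right _ _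
    obtain ⟨ε₁, hε₁, h4⟩ := h3 d (by rw [← hv]; exact hd) δ' hδ'0
    refine ⟨ε₁ / 2, by positivity, fun ε hε hε2 => ?_⟩
    obtain ⟨N, hN⟩ := eventually_atTop.1 (hcl (ε / 2) (by positivity))
    rw [← hv] at h4 ⊢
    have hv0 : 0 ≤ v := by rw [hv]; exact sum_nonneg (fun _ _ => sq_nonneg _)
    filter_upwards [h4 (2 * ε) (by positivity) (by linarith), h4 (ε / 2) (by positivity) (by linarith),
      rpow_absorb (N := N) (a := 1 - v + δ') (b := 1 - v + δ) (by linarith) (by linarith),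
      rpow_absorb (N := N) (a := max (1 - v - δ) ((1 - v - δ') / 2)) (b := 1 - v - δ')
        (lt_max_of_lt_right (by linarith)) (max_lt (by linarith) (by linarith)),
      (eventually_ge_atTop 1)] with x h5 h6 h7 h8 h10
    have hx1 : (1 : ℝ) ≤ x := by exact_mod_cast h10
    constructor
    · have e1 := nearSet_le (D := D) (D' := D') (d := d) (ε := ε / 2) (ε' := ε) (N := N) (fun n hn h11 i => by
        have e1 := h11 i
        have e2 := hN n hn i
        have e3 : D' n i - d i = (D' n i - D n i) + (D n i - d i) := by ring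
        rw [e3]
        refine (abs_add_le _ _).trans_lt ?_
        linarith) x
      have e2 : (x : ℝ) ^ (1 - v - δ) ≤ (x : ℝ) ^ (max (1 - v - δ) ((1 - v - δ') / 2)) :=
        Real.rpow_le_rpow_of_exponent_le hx1 (le_max_left _ _)
      linarith [h6.1]
    · have e1 := nearSet_le (D := D') (D' := D) (d := d) (ε := ε) (ε' := 2 * ε) (N := N) (fun n hn h11 i => by
        have e1 := h11 i
        have e2 := hN n hn i
        have e3 : D n i - d i = -(D' n i - D n i) + (D' n i - d i) := by ring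
        rw [e3]
        refine (abs_add_le _ _).trans_lt ?_
        rw [abs_neg]
        linarith) x
      linarith [h5.2]

end Pool.Agent.Q106.MD
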