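import Pool.Agent.Q106.MD.PowAll
import Pool.Agent.Q106.MD.Tr
import Pool.Agent.Q106.UR.Exi

/-!
# Exact configurations between consecutive powers
-/

set_option autoImplicit false

namespace Pool.Agent.Q106.MD

open Finset MeasureTheory ProbabilityTheory Filter Pool.Agent.Q120.GM Pool.Agent.Q106.UR
open scoped Topology

variable {Ω : Type*} {A : Ω → Set ℕ}

/-- The positions between `0` and the largest element which are not in `H`. -/
def gaps (H : Finset ℕ) : Finset ℕ := range (H.sup id + 1) \ H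

theorem ind_tl_union (m : ℕ) (H T : Finset ℕ) (ω : Ω) :
    ind A (tl m H) ω * ∏ j ∈ T, ind A {m + j} ω = ind A (tl m (H ∪ T)) ω := by
  induction T using Finset.induction_on with
  | empty => simp
  | insert a T ha ih =>
    rw [prod_insert ha]
    have h1 : ind A (tl m H) ω * (ind A {m + a} ω * ∏ j ∈ T, ind A {m + j} ω) =
        ind A {m + a} ω * (ind A (tl m H) ω * ∏ j ∈ T, ind A {m + j} ω) := by ring
    rw [h1, ih, ind_mul]
    congr 1
    unfold tl
    rw [union_insert, image_insert, insert_eq]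

/-- Inclusion and exclusion. -/
theorem incl_excl (m : ℕ) (H B : Finset ℕ) (ω : Ω) :
    ind A (tl m H) ω * ∏ j ∈ B, (1 - ind A {m + j} ω) =
      ∑ T ∈ B.powerset, (-1 : ℝ) ^ T.card * ind A (tl m (H ∪ T)) ω := by
  have h1 : ∏ j ∈ B, (1 - ind A {m + j} ω) = ∏ j ∈ B, (-ind A {m + j} ω + 1) :=
    prod_congr rfl (fun j _ => by ring)
  rw [h1, prod_add, mul_sum]
  refine sum_congr rfl (fun T _ => ?_)
  rw [prod_const_one, mul_one, prod_neg, ← ind_tl_union m H T ω]
  ring

/-- The number of the exact configurations. -/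
noncomputable def exN (A : Ω → Set ℕ) (J : Finset ℕ) (H : Finset ℕ) (ω : Ω) : ℝ :=
  ∑ m ∈ J, ind A (tl m H) ω * ∏ j ∈ gaps H, (1 - ind A {m + j} ω)

theorem exN_eq (J : Finset ℕ) (H : Finset ℕ) (ω : Ω) :
    exN A J H ω = ∑ T ∈ (gaps H).powerset, (-1 : ℝ) ^ T.card * nm A J (fun m => tl m (H ∪ T)) ω := by
  unfold exN nm
  simp_rw [incl_excl, mul_sum]
  rw [sum_comm]

theorem exN_card (J : Finset ℕ) (H : Finset ℕ) (ω : Ω) :
    exN A J H ω = ({m : ℕ | m ∈ J ∧ (∀ h ∈ H, m + h ∈ A ω) ∧ ∀ j ≤ H.sup id, m + j ∈ A ω → j ∈ H}.ncard : ℝ) := by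
  classical
  have h1 : ∀ m, ind A (tl m H) ω * ∏ j ∈ gaps H, (1 - ind A {m + j} ω) =
      if (∀ h ∈ H, m + h ∈ A ω) ∧ ∀ j ≤ H.sup id, m + j ∈ A ω → j ∈ H then 1 else 0 := by
    intro m
    have e1 : ω ∈ all A (tl m H) ↔ ∀ h ∈ H, m + h ∈ A ω := by
      constructor
      · intro h h' hh'
        exact h _ (mem_tl.2 ⟨h', hh', rfl⟩)
      · intro h b hb
        obtain ⟨h', hh', rfl⟩ := mem_tl.1 hb
        exact h h' hh'
    have e2 : ∀ j, ω ∈ all A {m + j} ↔ m + j ∈ A ω := by
      intro j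
      constructor
      · intro h
        exact h _ (mem_singleton_self _)
      · intro h b hb
        rw [mem_singleton] at hb
        rw [hb]
        exact h
    rcases ind_zero_or (A := A) (tl m H) ω with h | h
    · rw [h.1, zero_mul, if_neg]
      rintro ⟨h2, _⟩
      exact h.2 (e1.2 h2)
    · rw [h.1, one_mul]
      by_cases h3 : ∀ j ≤ H.sup id, m + j ∈ A ω → j ∈ H
      · rw [if_pos ⟨e1.1 h.2, h3⟩]
        refine prod_eq_one (fun j hj => ?_)
        unfold gaps at hj
        rw [Finset.mem_sdiff, mem_range] at hj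
        rcases ind_zero_or (A := A) {m + j} ω with h4 | h4
        · rw [h4.1, sub_zero]
        · exact absurd (h3 j (by omega) ((e2 j).1 h4.2)) hj.2
      · rw [if_neg (fun h4 => h3 h4.2)]
        push Not at h3
        obtain ⟨j, hj1, hj2, hj3⟩ := h3
        refine prod_eq_zero (i := j) ?_ ?_
        · unfold gaps
          rw [Finset.mem_sdiff, mem_range]
          exact ⟨by omega, hj3⟩
        · rcases ind_zero_or (A := A) {m + j} ω with h4 | h4
          · exact absurd ((e2 j).2 hj2) h4.2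
          · rw [h4.1, sub_self]
  unfold exN
  simp_rw [h1]
  rw [← sum_filter, sum_const, nsmul_eq_mul, mul_one]
  congr 1
  rw [← Set.ncard_coe_finset]
  congr 1
  ext m
  rw [Finset.mem_coe, mem_filter]
  rfl

/-- The prediction. -/
noncomputable def prP (Q k : ℕ) (H : Finset ℕ) (u v : ℚ) (n : ℕ) : ℝ := sing Q H * li H.card (lo k n u) (hi k n v)

/-- The prediction for exact configurations. -/
noncomputable def exP (Q k : ℕ) (H : Finset ℕ) (u v : ℚ) (n : ℕ) : ℝ :=
  ∑ T ∈ (gaps H).powerset, (-1 : ℝ) ^ T.card * prP Q k (H ∪ T) u v n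

/-- The index set. -/
noncomputable def Jq (k : ℕ) (H : Finset ℕ) (u v : ℚ) (n : ℕ) : Finset ℕ :=
  (Ico (lo k n u) (hi k n v)).filter (fun m => m + H.sup id < (n + 1) ^ k)

theorem sup_gap {H T : Finset ℕ} (hT : T ⊆ gaps H) : (H ∪ T).sup id = H.sup id := by
  rw [Finset.sup_union]
  refine sup_eq_left.2 (Finset.sup_le (fun j hj => ?_))
  have h1 := hT hj
  unfold gaps at h1
  rw [Finset.mem_sdiff, mem_range] at h1
  show j ≤ H.sup id
  omega

theorem Jq_union {H T : Finset ℕ} (hT : T ⊆ gaps H) (k : ℕ) (u v : ℚ) (n : ℕ) : Jq k (H ∪ T) u v n = Jq k H u v n := by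
  unfold Jq
  rw [sup_gap hT]

theorem card_union_gap {H T : Finset ℕ} (hT : T ⊆ gaps H) (hne : T ≠ ∅) : H.card + 1 ≤ (H ∪ T).card := by
  have h1 : Disjoint H T := by
    rw [Finset.disjoint_left]
    intro a ha haT
    have h2 := hT haT
    unfold gaps at h2
    rw [Finset.mem_sdiff] at h2
    exact h2.2 ha
  rw [card_union_of_disjoint h1]
  have : 0 < T.card := card_pos.2 (nonempty_iff_ne_empty.2 hne)
  omega

theorem prP_pos {Q k : ℕ} (hk : 2 ≤ k) {H : Finset ℕ} (hs : 0 < sing Q H) {u v : ℚ} (hu : 0 ≤ u)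
    (huv : u < v) : ∀ᶠ n in atTop, 0 < prP Q k H u v n := by
  have huv' : (0 : ℝ) < (v : ℝ) - u := by
    have : (u : ℝ) < v := by exact_mod_cast huv
    linarith
  filter_upwards [eventually_ge_atTop 2, tendsto_natCast_atTop_atTop.eventually_ge_atTop (2 / ((v : ℝ) - u))] with n hn hn2
  have hn1 : (2 : ℝ) ≤ n := by exact_mod_cast hn
  unfold prP
  refine mul_pos hs ?_
  unfold li
  have h1 := hi_sub_lo_ge (k := k) (n := n) (v := v) (by omega) hu
  have h2 := (len_bounds (n := n) (show 1 ≤ k by omega)).1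
  have h3 : (n : ℝ) ≤ (n : ℝ) ^ (k - 1) := by
    calc (n : ℝ) = (n : ℝ) ^ 1 := (pow_one _).symm
      _ ≤ _ := pow_le_pow_right₀ (by linarith) (by omega)
  rw [div_le_iff₀ huv'] at hn2
  have h4 : (lo k n u : ℝ) < hi k n v := by nlinarith
  have h5 : lo k n u < hi k n v := by exact_mod_cast h4
  refine sum_pos (fun m hm => ?_) ⟨lo k n u, mem_Ico.2 ⟨le_rfl, h5⟩⟩
  rw [mem_Ico] at hm
  have h6 := lo_ge (k := k) (n := n) (u := u)
  have h7 : (lo k n u : ℝ) ≤ m := by exact_mod_cast hm.1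
  have h8 : (n : ℝ) ≤ (n : ℝ) ^ k := by
    calc (n : ℝ) = (n : ℝ) ^ 1 := (pow_one _).symm
      _ ≤ _ := pow_le_pow_right₀ (by linarith) (by omega)
  have h9 : 0 < Real.log m := Real.log_pos (by linarith)
  positivity

/-- Larger sets are rarer. -/
theorem prP_ratio {Q k : ℕ} (hk : 2 ≤ k) {H S : Finset ℕ} (hs : 0 < sing Q H) {u v : ℚ} (hu : 0 ≤ u)
    (huv : u < v) (hc : H.card + 1 ≤ S.card) : Tendsto (fun n => prP Q k S u v n / prP Q k H u v n) atTop (𝓝 0) := by
  have hS0 : 0 ≤ sing Q S := by unfold sing; positivity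
  have h1 : ∀ᶠ n : ℕ in atTop, ‖prP Q k S u v n / prP Q k H u v n‖ ≤ sing Q S / sing Q H / Real.log n := by
    filter_upwards [prP_pos hk hs hu huv, log_tendsto.eventually_ge_atTop 1, eventually_ge_atTop 1] with n h2 h3 h4
    have hn1 : (1 : ℝ) ≤ n := by exact_mod_cast h4
    have h5 : li S.card (lo k n u) (hi k n v) ≤ li H.card (lo k n u) (hi k n v) / Real.log n := by
      unfold li
      rw [sum_div]
      refine sum_le_sum (fun m hm => ?_)
      rw [mem_Ico] at hm
      have h6 := lo_ge (k := k) (n := n) (u := u)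
      have h7 : (lo k n u : ℝ) ≤ m := by exact_mod_cast hm.1
      have h8 : (n : ℝ) ≤ (n : ℝ) ^ k := by
        calc (n : ℝ) = (n : ℝ) ^ 1 := (pow_one _).symm
          _ ≤ _ := pow_le_pow_right₀ (by linarith) (by omega)
      have h9 : Real.log n ≤ Real.log m := Real.log_le_log (by linarith) (by linarith)
      rw [div_div]
      refine one_div_le_one_div_of_le (mul_pos (pow_pos (by linarith) _) (by linarith)) ?_
      calc Real.log m ^ H.card * Real.log n ≤ Real.log m ^ H.card * Real.log m :=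
            mul_le_mul_of_nonneg_left h9 (pow_nonneg (by linarith) _)
        _ = Real.log m ^ (H.card + 1) := (pow_succ _ _).symm
        _ ≤ _ := pow_le_pow_right₀ (by linarith) hc
    have hli0 : 0 ≤ li S.card (lo k n u) (hi k n v) := by
      unfold li
      exact sum_nonneg (fun m _ => div_nonneg zero_le_one (pow_nonneg (Real.log_natCast_nonneg m) _))
    have h6 : 0 ≤ prP Q k S u v n := by
      unfold prP
      exact mul_nonneg hS0 hli0
    rw [Real.norm_of_nonneg (div_nonneg h6 h2.le), div_le_iff₀ h2]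
    unfold prP
    have h7 := mul_le_mul_of_nonneg_left h5 hS0
    refine h7.trans (le_of_eq ?_)
    field_simp
  exact squeeze_zero_norm' h1 (log_tendsto.const_div_atTop _)

/-- If the series vanishes then there are no tuples. -/
theorem nm_zero {Q : ℕ} (hQ : 1 ≤ Q) {S : Finset ℕ} (hs : ¬ 0 < sing Q S) (J : Finset ℕ) {ω : Ω}
    (hcop : ∀ n ∈ A ω, n.Coprime Q) : sing Q S = 0 ∧ nm A J (fun m => tl m S) ω = 0 := by
  have hQ0 : (0 : ℝ) < Q := by exact_mod_cast hQ
  have hq := qq_pos hQ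
  have hc : cc Q S = 0 := by
    by_contra hcon
    apply hs
    rw [sing_eq]
    have h1 : 0 < cc Q S := Nat.pos_of_ne_zero hcon
    have h2 : (0 : ℝ) < cc Q S := by exact_mod_cast h1
    positivity
  constructor
  · rw [sing_eq, hc]
    norm_num
  · unfold nm
    refine sum_eq_zero (fun m _ => ?_)
    rcases ind_zero_or (A := A) (tl m S) ω with h | h
    · exact h.1
    · exfalso
      have h1 : Good Q S m := fun s hs' => hcop _ (h.2 _ (mem_tl.2 ⟨s, hs', rfl⟩))
      have h2 : Good Q S (m % Q) := by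
        have h3 := (good_periodic Q S).map_mod_nat m
        rw [h3]
        exact h1
      have h3 : m % Q ∈ (range Q).filter (Good Q S) := mem_filter.2 ⟨mem_range.2 (Nat.mod_lt _ hQ), h2⟩
      unfold cc at hc
      rw [card_eq_zero] at hc
      rw [hc] at h3
      exact notMem_empty _ h3

/-- The deviation of the number of tuples. -/
noncomputable def dv1 (Q : ℕ) (A : Ω → Set ℕ) (k : ℕ) (H : Finset ℕ) (u v : ℚ) (n : ℕ) (ω : Ω) : ℝ :=
  (nm A (Jq k H u v n) (fun m => tl m H) ω - prP Q k H u v n) / Real.sqrt (2 * prP Q k H u v n * Real.log n)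

/-- The deviation of the number of exact configurations. -/
noncomputable def dvx (Q : ℕ) (A : Ω → Set ℕ) (k : ℕ) (H : Finset ℕ) (u v : ℚ) (n : ℕ) (ω : Ω) : ℝ :=
  (exN A (Jq k H u v n) H ω - exP Q k H u v n) / Real.sqrt (2 * exP Q k H u v n * Real.log n)

theorem exP_ratio {Q k : ℕ} (hk : 2 ≤ k) {H : Finset ℕ} (hs : 0 < sing Q H) {u v : ℚ} (hu : 0 ≤ u)
    (huv : u < v) : Tendsto (fun n => exP Q k H u v n / prP Q k H u v n) atTop (𝓝 1) := by
  have h1 : ∀ T ∈ (gaps H).powerset, Tendsto (fun n => (-1 : ℝ) ^ T.card * prP Q k (H ∪ T) u v n / prP Q k H u v n) atTop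
      (𝓝 (if T = ∅ then 1 else 0)) := by
    intro T hT
    rw [mem_powerset] at hT
    by_cases h0 : T = ∅
    · rw [if_pos h0, h0]
      refine tendsto_const_nhds.congr' ?_
      filter_upwards [prP_pos hk hs hu huv] with n hn
      rw [card_empty, pow_zero, one_mul, union_empty, div_self hn.ne']
    · rw [if_neg h0]
      have h2 := (prP_ratio hk hs hu huv (card_union_gap hT h0)).const_mul ((-1 : ℝ) ^ T.card)
      rw [mul_zero] at h2
      refine h2.congr (fun n => ?_)
      ring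
  have h2 := tendsto_finsetSum _ h1
  rw [Finset.sum_ite_eq' (gaps H).powerset ∅, if_pos (empty_mem_powerset _)] at h2
  refine h2.congr (fun n => ?_)
  unfold exP
  rw [sum_div]

theorem close_of (Q : ℕ) (hQ : 1 ≤ Q) {k : ℕ} (hk : 2 ≤ k) {H : Finset ℕ} (h0 : 0 ∈ H) (hs : 0 < sing Q H) {u v : ℚ}
    (hu : 0 ≤ u) (huv : u < v) {ω : Ω} (hcop : ∀ n ∈ A ω, n.Coprime Q)
    (hall : ∀ S : Finset ℕ, 0 ∈ S → 0 < sing Q S → ∀ᶠ n in atTop, dv1 Q A k S u v n ω ^ 2 ≤ 2) :
    Tendsto (fun n => dvx Q A k H u v n ω - dv1 Q A k H u v n ω) atTop (𝓝 0) := by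
  obtain ⟨P, hP⟩ : ∃ P : ℕ → ℝ, P = fun n => prP Q k H u v n := ⟨_, rfl⟩
  obtain ⟨X, hX⟩ : ∃ X : ℕ → ℝ, X = fun n => exP Q k H u v n := ⟨_, rfl⟩
  have hP0 : ∀ᶠ n in atTop, 0 < P n := by rw [hP]; exact prP_pos hk hs hu huv
  have hXP : Tendsto (fun n => X n / P n) atTop (𝓝 1) := by rw [hX, hP]; exact exP_ratio hk hs hu huv
  have hX0 : ∀ᶠ n in atTop, 0 < X n := by
    filter_upwards [hP0, hXP.eventually (lt_mem_nhds (show (1 / 2 : ℝ) < 1 by norm_num))] with n h1 h2
    rw [lt_div_iff₀ h1] at h2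
    linarith
  obtain ⟨ρ, hρ⟩ : ∃ ρ : ℕ → ℝ, ρ = fun n => Real.sqrt (P n / X n) := ⟨_, rfl⟩
  have hρ1 : Tendsto ρ atTop (𝓝 1) := by
    rw [hρ]
    have h1 : Tendsto (fun n => (X n / P n)⁻¹) atTop (𝓝 (1 : ℝ)⁻¹) := hXP.inv₀ one_ne_zero
    rw [inv_one] at h1
    have h2 := h1.sqrt
    rw [Real.sqrt_one] at h2
    refine h2.congr (fun n => ?_)
    rw [inv_div]
  -- the remainders
  obtain ⟨R, hR⟩ : ∃ R : Finset ℕ → ℕ → ℝ, R = fun T n =>
    (nm A (Jq k H u v n) (fun m => tl m (H ∪ T)) ω - prP Q k (H ∪ T) u v n) / Real.sqrt (2 * P n * Real.log n) := ⟨_, rfl⟩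
  have hRT : ∀ T ∈ (gaps H).powerset, T ≠ ∅ → Tendsto (R T) atTop (𝓝 0) := by
    intro T hT hne
    rw [mem_powerset] at hT
    by_cases hsT : 0 < sing Q (H ∪ T)
    · have h1 := prP_ratio hk hs hu huv (S := H ∪ T) (card_union_gap hT hne)
      have h2 : Tendsto (fun n => Real.sqrt 2 * Real.sqrt (prP Q k (H ∪ T) u v n / P n)) atTop (𝓝 0) := by
        have h3 := (h1.sqrt).const_mul (Real.sqrt 2)
        rw [Real.sqrt_zero, mul_zero] at h3
        rw [hP]
        exact h3
      refine squeeze_zero_norm' ?_ h2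
      filter_upwards [hall (H ∪ T) (mem_union_left _ h0) hsT, prP_pos hk hsT hu huv, hP0,
        log_tendsto.eventually_ge_atTop 1] with n h3 h4 h5 h6
      rw [Real.norm_eq_abs, hR]
      simp only
      unfold dv1 at h3
      rw [Jq_union hT] at h3
      obtain ⟨d, hd⟩ : ∃ d, d = nm A (Jq k H u v n) (fun m => tl m (H ∪ T)) ω - prP Q k (H ∪ T) u v n := ⟨_, rfl⟩
      rw [← hd] at h3 ⊢
      have h7 : 0 < 2 * prP Q k (H ∪ T) u v n * Real.log n := by positivity
      rw [div_pow, Real.sq_sqrt h7.le, div_le_iff₀ h7] at h3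
      rw [abs_div, abs_of_nonneg (Real.sqrt_nonneg _)]
      have h8 : |d| ≤ Real.sqrt (2 * (2 * prP Q k (H ∪ T) u v n * Real.log n)) := Real.abs_le_sqrt h3
      refine (div_le_div_of_nonneg_right h8 (Real.sqrt_nonneg _)).trans (le_of_eq ?_)
      rw [← Real.sqrt_div (by positivity), ← Real.sqrt_mul (by norm_num)]
      congr 1
      field_simp
    · have h1 : R T = fun _ => 0 := by
        funext n
        obtain ⟨h2, h3⟩ := nm_zero hQ hsT (Jq k H u v n) hcop
        rw [hR]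
        simp only
        rw [h3]
        unfold prP
        rw [h2]
        simp
      rw [h1]
      exact tendsto_const_nhds
  obtain ⟨q, hq⟩ : ∃ q : ℕ → ℝ, q = fun n => ∑ T ∈ (gaps H).powerset.erase ∅, (-1 : ℝ) ^ T.card * R T n := ⟨_, rfl⟩
  have hq0 : Tendsto q atTop (𝓝 0) := by
    rw [hq]
    have h1 : Tendsto (fun n => ∑ T ∈ (gaps H).powerset.erase ∅, (-1 : ℝ) ^ T.card * R T n) atTop
        (𝓝 (∑ _T ∈ (gaps H).powerset.erase ∅, (0 : ℝ))) := by
      refine tendsto_finsetSum _ (fun T hT => ?_)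
      rw [mem_erase] at hT
      have h2 := (hRT T hT.2 hT.1).const_mul ((-1 : ℝ) ^ T.card)
      rwa [mul_zero] at h2
    rwa [sum_const_zero] at h1
  -- the identity
  have hid : ∀ᶠ n in atTop, dvx Q A k H u v n ω - dv1 Q A k H u v n ω = dv1 Q A k H u v n ω * (ρ n - 1) + q n * ρ n := by
    filter_upwards [hP0, hX0, log_tendsto.eventually_ge_atTop 1] with n h1 h2 h3
    have h4 : 0 < Real.sqrt (2 * P n * Real.log n) := Real.sqrt_pos.2 (by positivity)
    have h5 : 0 < Real.sqrt (2 * X n * Real.log n) := Real.sqrt_pos.2 (by positivity)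
    have h6 : ρ n * Real.sqrt (2 * X n * Real.log n) = Real.sqrt (2 * P n * Real.log n) := by
      rw [hρ]
      simp only
      rw [← Real.sqrt_mul (by positivity)]
      congr 1
      field_simp
    have h7 : exN A (Jq k H u v n) H ω - exP Q k H u v n =
        (dv1 Q A k H u v n ω + q n) * Real.sqrt (2 * P n * Real.log n) := by
      have e1 : exN A (Jq k H u v n) H ω - exP Q k H u v n = ∑ T ∈ (gaps H).powerset, (-1 : ℝ) ^ T.card *
          (nm A (Jq k H u v n) (fun m => tl m (H ∪ T)) ω - prP Q k (H ∪ T) u v n) := by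
        rw [exN_eq]
        unfold exP
        rw [← sum_sub_distrib]
        exact sum_congr rfl (fun T _ => by ring)
      have e2 := add_sum_erase (gaps H).powerset (fun T => (-1 : ℝ) ^ T.card *
          (nm A (Jq k H u v n) (fun m => tl m (H ∪ T)) ω - prP Q k (H ∪ T) u v n)) (empty_mem_powerset _)
      rw [e1, ← e2, add_mul, hq]
      simp only
      rw [card_empty, pow_zero, one_mul, union_empty, sum_mul]
      congr 1
      · unfold dv1
        rw [hP] at h4 ⊢
        rw [div_mul_cancel₀ _ h4.ne']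
      · refine sum_congr rfl (fun T _ => ?_)
        rw [hR]
        simp only
        rw [mul_assoc, div_mul_cancel₀ _ h4.ne']
    have h8 : dvx Q A k H u v n ω = (dv1 Q A k H u v n ω + q n) * ρ n := by
      unfold dvx
      rw [h7, ← h6]
      have : Real.sqrt (2 * exP Q k H u v n * Real.log n) = Real.sqrt (2 * X n * Real.log n) := by rw [hX]
      rw [this, ← mul_assoc, mul_div_assoc, div_self h5.ne', mul_one]
    rw [h8]
    ring
  refine Tendsto.congr' (hid.mono (fun n h => h.symm)) ?_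
  have h1 : Tendsto (fun n => 2 * |ρ n - 1| + |q n * ρ n|) atTop (𝓝 0) := by
    have e1 : Tendsto (fun n => ρ n - 1) atTop (𝓝 0) := by
      have := hρ1.sub_const 1
      rwa [sub_self] at this
    have e2 : Tendsto (fun n => q n * ρ n) atTop (𝓝 0) := by
      have := hq0.mul hρ1
      rwa [zero_mul] at this
    have e3 := (e1.abs.const_mul 2).add e2.abs
    rw [abs_zero, mul_zero, add_zero] at e3
    exact e3
  refine squeeze_zero_norm' ?_ h1
  filter_upwards [hall H h0 hs] with n h2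
  rw [Real.norm_eq_abs]
  refine (abs_add_le _ _).trans ?_
  rw [abs_mul (dv1 Q A k H u v n ω)]
  have h3 : |dv1 Q A k H u v n ω| ≤ 2 := abs_le_of_sq_le_sq (by linarith) (by norm_num)
  have := mul_le_mul_of_nonneg_right h3 (abs_nonneg (ρ n - 1))
  linarith

theorem dvp_eq {r : ℕ} (Q k : ℕ) (H : Fin r → Finset ℕ) (u v : Fin r → ℚ) (n : ℕ) (i : Fin r) (ω : Ω) :
    dvp Q A k H u v n i ω = dv1 Q A k (H i) (u i) (v i) n ω := rfl

/-- **The law of the exact configurations.** -/
theorem cons_all {Ω : Type*} [MeasurableSpace Ω] {μ : Measure Ω} [IsProbabilityMeasure μ] {A : Ω → Set ℕ} {Q : ℕ}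
    (hA : IsModel μ (level Q) A) (hQ : 1 ≤ Q) :
    ∀ᵐ ω ∂μ, ∀ k, 2 ≤ k → ∀ (r : ℕ) (H : Fin r → Finset ℕ) (u v : Fin r → ℚ), Cells Q H u v →
      Law (fun n i => dvx Q A k (H i) (u i) (v i) n ω) := by
  classical
  filter_upwards [pow_all hA hQ, ae_coprime hA] with ω hω hcop k hk r H u v hc
  have hlaw : Law (fun n i => dvp Q A k H u v n i ω) := by
    obtain ⟨h1, h2, h3⟩ := hω k hk r H u v hc
    refine ⟨h1, h2, fun d hd δ hδ => ?_⟩
    obtain ⟨ε₀, hε₀, h4⟩ := h3 d hd δ hδ
    refine ⟨ε₀, hε₀, fun ε hε hε2 => ?_⟩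
    filter_upwards [h4 ε hε hε2] with x h5
    have h6 : ((nearSet (fun n i => dvp Q A k H u v n i ω) d ε x).ncard : ℝ) =
        num (range (x + 1)) (fun n => near (dvp Q A k H u v) n d ε) ω := by
      rw [num_card]
      congr 1
      rw [← Set.ncard_coe_finset]
      congr 1
      ext n
      rw [Finset.mem_coe, mem_filter, mem_range, Nat.lt_succ_iff]
      rfl
    rw [h6]
    exact h5
  refine hlaw.congr (fun i => ?_)
  obtain ⟨hc1, _⟩ := hc
  have hci := hc1 i
  refine close_of Q hQ hk hci.1 hci.2.1 hci.2.2.1 hci.2.2.2.1 hcop (fun S h0 hs => ?_)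
  have h1 := (hω k hk 1 (fun _ => S) (fun _ => u i) (fun _ => v i) ⟨fun _ => ⟨h0, hs, hci.2.2⟩, fun a b hab =>
    absurd (Subsingleton.elim a b) hab⟩).1 1 one_pos
  filter_upwards [h1] with n h2
  rw [Fin.sum_univ_one] at h2
  have h3 : dvp Q A k (fun _ : Fin 1 => S) (fun _ => u i) (fun _ => v i) n 0 ω = dv1 Q A k S (u i) (v i) n ω := rfl
  rw [h3] at h2
  linarith

end Pool.Agent.Q106.MD
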