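import Pool.Agent.Q106.MD.Pat

/-!
# The limit set of a sequence of independent vectors of deviations is the unit ball
-/

set_option autoImplicit false

namespace Pool.Agent.Q106.MD

open Finset MeasureTheory ProbabilityTheory Filter Pool.Agent.Q120.GM Pool.Agent.Q106.UR
open scoped Topology

variable {Ω : Type*} [MeasurableSpace Ω] {μ : Measure Ω} [IsProbabilityMeasure μ] {ι : Type*}
  {p : ι → ℝ} {A : Ω → Set ι} {r : ℕ} {D : ℕ → Fin r → Ω → ℝ} {L : ℕ → ℝ}

/-- Borel-Cantelli for independent events determined by disjoint blocks. -/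
theorem bc2 (hA : IsModel μ p A) (S : ℕ → Set ι) (hd : ∀ i j, i ≠ j → Disjoint (S i) (S j)) (E : ℕ → Set Ω)
    (hE : ∀ i, MeasurableSet[F A (S i)] (E i)) {g : ℕ → ℝ} (hg0 : ∀ n, 0 ≤ g n) (hg : ¬ Summable g)
    (h : ∀ᶠ n in atTop, g n ≤ μ.real (E n)) : ∀ᵐ ω ∂μ, ∃ᶠ n in atTop, ω ∈ E n := by
  have hm : ∀ n, MeasurableSet (E n) := fun n => F_le hA _ _ (hE n)
  have hind : iIndepSet E μ := by
    rw [iIndepSet_iff_meas_biInter hm]
    intro s
    rw [← ENNReal.toReal_eq_toReal_iff' (measure_ne_top _ _) (ENNReal.prod_ne_top (fun i _ => measure_ne_top _ _)),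
      ENNReal.toReal_prod]
    exact indep_many hA s S (fun i _ j _ hij => hd i j hij) E (fun i _ => hE i)
  have htop : ∑' n, μ (E n) = ⊤ := by
    by_contra hcon
    have h1 : Summable (fun k => (μ (E k)).toReal) := ENNReal.summable_toReal hcon
    apply hg
    obtain ⟨N, hN⟩ := eventually_atTop.1 h
    rw [← summable_nat_add_iff N] at h1 ⊢
    exact Summable.of_nonneg_of_le (fun n => hg0 _) (fun n => hN (n + N) (by omega)) h1
  have h1 := measure_limsup_eq_one hm hind htop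
  have h2 : ∀ᵐ ω ∂μ, ω ∈ limsup E atTop := by
    have h3 : MeasurableSet (limsup E atTop) := MeasurableSet.measurableSet_limsup hm
    exact (mem_ae_iff_prob_eq_one h3).2 h1
  filter_upwards [h2] with ω hω
  rwa [mem_limsup_iff_frequently_mem] at hω

/-- **No limit points outside the ball.** -/
theorem ball_up (hG : Gau μ atTop D L) (hsum : ∀ a > 1, Summable (fun n => Real.exp (-(L n * a)))) :
    ∀ᵐ ω ∂μ, ∀ ε > 0, ∀ᶠ n in atTop, ∑ i, D n i ω ^ 2 ≤ 1 + ε := by
  have key : ∀ ε : ℝ, 0 < ε → ∀ᵐ ω ∂μ, ∀ᶠ n in atTop, ∑ i, D n i ω ^ 2 ≤ 1 + ε := by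
    intro ε hε
    obtain ⟨Kε, hK⟩ : ∃ Kε : Set (Fin r → ℝ), Kε = (Set.univ.pi fun _ => Set.Icc (-2 : ℝ) 2) ∩ {d | 1 + ε ≤ ∑ i, d i ^ 2} :=
      ⟨_, rfl⟩
    have hcomp : IsCompact Kε := by
      rw [hK]
      refine (isCompact_univ_pi (fun _ => isCompact_Icc)).inter_right ?_
      exact isClosed_le continuous_const (continuous_finset_sum _ (fun i _ => (continuous_apply i).pow 2))
    have h1 : ∀ d : Fin r → ℝ, ∃ δ > 0, ∀ᶠ n in atTop,
        μ.real (near D n d δ) ≤ Real.exp (-(L n * (∑ i, d i ^ 2 - ε / 2))) := fun d => hG.upper d (by positivity)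
    choose δ hδ0 hδ using h1
    have hU : ∀ d ∈ Kε, {d' : Fin r → ℝ | ∀ i, |d' i - d i| < δ d} ∈ 𝓝 d := by
      intro d _
      have : {d' : Fin r → ℝ | ∀ i, |d' i - d i| < δ d} = ⋂ i, {d' : Fin r → ℝ | |d' i - d i| < δ d} := by
        ext d'
        simp
      rw [this]
      refine IsOpen.mem_nhds (isOpen_iInter_of_finite (fun i => ?_)) ?_
      · exact isOpen_lt ((continuous_apply i).sub continuous_const).abs continuous_const
      · rw [Set.mem_iInter]
        intro i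
        show |d i - d i| < δ d
        rw [sub_self, abs_zero]
        exact hδ0 d
    obtain ⟨t, ht1, ht2⟩ := hcomp.elim_nhds_subcover _ hU
    have h2 : ∀ d ∈ t, ∀ᵐ ω ∂μ, ∀ᶠ n in atTop, ω ∉ near D n d (δ d) := by
      intro d hd
      refine bc (hsum (1 + ε / 2) (by linarith)) ?_
      filter_upwards [hδ d, hG.lim.eventually_ge_atTop 0] with n h3 h4
      refine h3.trans (Real.exp_le_exp.2 (neg_le_neg (mul_le_mul_of_nonneg_left ?_ h4)))
      have h5 := ht1 d hd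
      rw [hK] at h5
      have h6 : 1 + ε ≤ ∑ i, d i ^ 2 := h5.2
      linarith
    have h3 : ∀ i, ∀ᵐ ω ∂μ, ∀ᶠ n in atTop, |D n i ω| < 3 / 2 := by
      intro i
      have e1 : ∀ᵐ ω ∂μ, ∀ᶠ n in atTop, ω ∉ {ω | 3 / 2 ≤ D n i ω} := by
        refine bc (hsum 2 (by norm_num)) ?_
        filter_upwards [hG.large i (R := 3 / 2) (η := 1 / 4) (by norm_num) (by norm_num)] with n h4
        refine h4.1.trans (Real.exp_le_exp.2 (le_of_eq ?_))
        norm_num
      have e2 : ∀ᵐ ω ∂μ, ∀ᶠ n in atTop, ω ∉ {ω | D n i ω ≤ -(3 / 2)} := by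
        refine bc (hsum 2 (by norm_num)) ?_
        filter_upwards [hG.large i (R := 3 / 2) (η := 1 / 4) (by norm_num) (by norm_num)] with n h4
        refine h4.2.trans (Real.exp_le_exp.2 (le_of_eq ?_))
        norm_num
      filter_upwards [e1, e2] with ω h4 h5
      filter_upwards [h4, h5] with n h6 h7
      have h6' : ¬ 3 / 2 ≤ D n i ω := h6
      have h7' : ¬ D n i ω ≤ -(3 / 2) := h7
      push Not at h6' h7'
      rw [abs_lt]
      exact ⟨h7', h6'⟩
    have h4 : ∀ᵐ ω ∂μ, ∀ d ∈ t, ∀ᶠ n in atTop, ω ∉ near D n d (δ d) := (Finset.eventually_all t).2 h2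
    filter_upwards [h4, ae_all_iff.2 h3] with ω h5 h6
    have h7 : ∀ᶠ n in atTop, ∀ d ∈ t, ω ∉ near D n d (δ d) := (Finset.eventually_all t).2 h5
    filter_upwards [h7, eventually_all.2 h6] with n h8 h9
    by_contra hcon
    push Not at hcon
    have h10 : (fun i => D n i ω) ∈ Kε := by
      rw [hK]
      refine ⟨?_, hcon.le⟩
      rw [Set.mem_univ_pi]
      intro i
      have := h9 i
      rw [abs_lt] at this
      exact ⟨by linarith [this.1], by linarith [this.2]⟩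
    have h11 := ht2 h10
    rw [Set.mem_iUnion₂] at h11
    obtain ⟨d, hd, h12⟩ := h11
    exact h8 d hd h12
  have h1 : ∀ᵐ ω ∂μ, ∀ m : ℕ, ∀ᶠ n in atTop, ∑ i, D n i ω ^ 2 ≤ 1 + 1 / ((m : ℝ) + 1) :=
    ae_all_iff.2 (fun m => key _ (by positivity))
  filter_upwards [h1] with ω hω ε hε
  obtain ⟨m, hm⟩ := exists_nat_one_div_lt hε
  filter_upwards [hω m] with n hn
  linarith

/-- **All points of the ball are limit points.** -/
theorem ball_low (hA : IsModel μ p A) (S : ℕ → Set ι) (hd : ∀ i j, i ≠ j → Disjoint (S i) (S j))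
    (hm : ∀ n i, Measurable[F A (S n)] (D n i)) (hG : Gau μ atTop D L)
    (hdiv : ∀ a < 1, ¬ Summable (fun n => Real.exp (-(L n * a)))) :
    ∀ᵐ ω ∂μ, ∀ d : Fin r → ℝ, ∑ i, d i ^ 2 ≤ 1 → ∀ ε > 0, ∃ᶠ n in atTop, ∀ i, |D n i ω - d i| < ε := by
  have key : ∀ d : Fin r → ℚ, ∀ m : ℕ, ∀ᵐ ω ∂μ, ∑ i, (d i : ℝ) ^ 2 < 1 →
      ∃ᶠ n in atTop, ∀ i, |D n i ω - d i| < 1 / ((m : ℝ) + 1) := by
    intro d m
    by_cases h1 : ∑ i, (d i : ℝ) ^ 2 < 1
    · have h2 := hG.lower (fun i => (d i : ℝ)) (ε := 1 / ((m : ℝ) + 1)) (η := (1 - ∑ i, (d i : ℝ) ^ 2) / 2) (by positivity)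
        (by linarith)
      have hE : ∀ n, MeasurableSet[F A (S n)] (near D n (fun i => (d i : ℝ)) (1 / ((m : ℝ) + 1))) := by
        intro n
        have h3 : near D n (fun i => (d i : ℝ)) (1 / ((m : ℝ) + 1)) = ⋂ i, {ω | |D n i ω - d i| < 1 / ((m : ℝ) + 1)} := by
          ext ω
          simp [near]
        rw [h3]
        let _ : MeasurableSpace Ω := F A (S n)
        exact MeasurableSet.iInter (fun i => measurableSet_lt ((hm n i).sub_const _).abs measurable_const)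
      have h3 := bc2 hA S hd _ hE (fun n => (Real.exp_pos _).le)
        (hdiv (∑ i, (d i : ℝ) ^ 2 + (1 - ∑ i, (d i : ℝ) ^ 2) / 2) (by linarith)) h2
      filter_upwards [h3] with ω hω _
      exact hω
    · exact Eventually.of_forall (fun ω h2 => absurd h2 h1)
  have h1 : ∀ᵐ ω ∂μ, ∀ d : Fin r → ℚ, ∀ m : ℕ, ∑ i, (d i : ℝ) ^ 2 < 1 →
      ∃ᶠ n in atTop, ∀ i, |D n i ω - d i| < 1 / ((m : ℝ) + 1) :=
    ae_all_iff.2 (fun d => ae_all_iff.2 (fun m => key d m))
  filter_upwards [h1] with ω hω d hd1 ε hε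
  -- a rational point of the open ball
  have hopen : IsOpen ({d' : Fin r → ℝ | ∑ i, d' i ^ 2 < 1} ∩ ⋂ i, {d' : Fin r → ℝ | |d' i - d i| < ε / 2}) := by
    refine IsOpen.inter ?_ (isOpen_iInter_of_finite (fun i => ?_))
    · exact isOpen_lt (continuous_finset_sum _ (fun i _ => (continuous_apply i).pow 2)) continuous_const
    · exact isOpen_lt ((continuous_apply i).sub continuous_const).abs continuous_const
  have hne : ({d' : Fin r → ℝ | ∑ i, d' i ^ 2 < 1} ∩ ⋂ i, {d' : Fin r → ℝ | |d' i - d i| < ε / 2}).Nonempty := by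
    obtain ⟨t, ht⟩ : ∃ t, t = min (1 / 2) (ε / 4) := ⟨_, rfl⟩
    have ht0 : 0 < t := by rw [ht]; exact lt_min (by norm_num) (by positivity)
    have ht1 : t ≤ 1 / 2 := by rw [ht]; exact min_le_left _ _
    have ht2 : t ≤ ε / 4 := by rw [ht]; exact min_le_right _ _
    refine ⟨fun i => (1 - t) * d i, ?_, ?_⟩
    · show ∑ i, ((1 - t) * d i) ^ 2 < 1
      have e1 : ∑ i, ((1 - t) * d i) ^ 2 = (1 - t) ^ 2 * ∑ i, d i ^ 2 := by
        rw [mul_sum]
        exact sum_congr rfl (fun i _ => by ring)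
      rw [e1]
      have e2 : (1 - t) ^ 2 < 1 := by nlinarith
      have e3 : 0 ≤ ∑ i, d i ^ 2 := sum_nonneg (fun _ _ => sq_nonneg _)
      nlinarith [sq_nonneg (1 - t)]
    · rw [Set.mem_iInter]
      intro i
      show |(1 - t) * d i - d i| < ε / 2
      have e1 : (1 - t) * d i - d i = -(t * d i) := by ring
      have e2 : |d i| ≤ 1 := by
        have e3 : d i ^ 2 ≤ ∑ i, d i ^ 2 := single_le_sum (f := fun i => d i ^ 2) (fun _ _ => sq_nonneg _) (mem_univ i)
        rw [abs_le_one_iff_mul_self_le_one]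
        nlinarith
      rw [e1, abs_neg, abs_mul, abs_of_pos ht0]
      nlinarith [abs_nonneg (d i)]
  have hdense : DenseRange (Pi.map (fun (_ : Fin r) (q : ℚ) => (q : ℝ))) := DenseRange.piMap (fun _ => Rat.denseRange_cast)
  obtain ⟨q, hq1, hq2⟩ := hdense.exists_mem_open hopen hne
  obtain ⟨m, hm'⟩ := exists_nat_one_div_lt (show (0 : ℝ) < ε / 2 by positivity)
  refine (hω q m hq1).mono (fun n hn i => ?_)
  rw [Set.mem_iInter] at hq2
  have e1 : |(q i : ℝ) - d i| < ε / 2 := hq2 i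
  have e2 := hn i
  have e3 : D n i ω - d i = (D n i ω - q i) + (q i - d i) := by ring
  rw [e3]
  refine (abs_add_le _ _).trans_lt ?_
  linarith

end Pool.Agent.Q106.MD
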