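import Pool.Agent.Q106.MD.Mgf

/-!
# From exponential moments to probabilities of vectors of deviations

If `E exp (L ∑ θ i D i) = exp (L ((∑ θ i ^ 2) / 4 + o(1)))` for all `θ` then the vector `D` is close to `d` with
probability `exp (- L (∑ d i ^ 2 + o(1)))`.
-/

set_option autoImplicit false

namespace Pool.Agent.Q106.MD

open Finset MeasureTheory ProbabilityTheory Filter

variable {Ω : Type*} [MeasurableSpace Ω] {μ : Measure Ω} [IsProbabilityMeasure μ] {K : Type*} {l : Filter K} {r : ℕ}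
  {D : K → Fin r → Ω → ℝ} {L : K → ℝ}

/-- The exponential moments of a vector of deviations. -/
structure Gau (μ : Measure Ω) (l : Filter K) (D : K → Fin r → Ω → ℝ) (L : K → ℝ) : Prop where
  lim : Tendsto L l atTop
  meas : ∀ n i, Measurable (D n i)
  int : ∀ n (θ : Fin r → ℝ), Integrable (fun ω => Real.exp (L n * ∑ i, θ i * D n i ω)) μ
  up : ∀ (θ : Fin r → ℝ) (η : ℝ), 0 < η → ∀ᶠ n in l,
    ∫ ω, Real.exp (L n * ∑ i, θ i * D n i ω) ∂μ ≤ Real.exp (L n * ((∑ i, θ i ^ 2) / 4 + η))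
  low : ∀ (θ : Fin r → ℝ) (η : ℝ), 0 < η → ∀ᶠ n in l,
    Real.exp (L n * ((∑ i, θ i ^ 2) / 4 - η)) ≤ ∫ ω, Real.exp (L n * ∑ i, θ i * D n i ω) ∂μ

/-- The vector is close to `d`. -/
def near (D : K → Fin r → Ω → ℝ) (n : K) (d : Fin r → ℝ) (ε : ℝ) : Set Ω := {ω | ∀ i, |D n i ω - d i| < ε}

theorem meas_near (hG : Gau μ l D L) (n : K) (d : Fin r → ℝ) (ε : ℝ) : MeasurableSet (near D n d ε) := by
  have h1 : near D n d ε = ⋂ i, {ω | |D n i ω - d i| < ε} := by
    ext ω
    simp [near]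
  rw [h1]
  exact MeasurableSet.iInter (fun i => measurableSet_lt ((hG.meas n i).sub_const _).abs measurable_const)

/-- **Upper bound.** -/
theorem Gau.upper_at (hG : Gau μ l D L) (d : Fin r → ℝ) {η δ : ℝ} (hη : 0 < η) (hδ0 : 0 < δ)
    (hδ : 2 * δ * ∑ i, |d i| ≤ η / 2) : ∀ᶠ n in l,
    μ.real (near D n d δ) ≤ Real.exp (-(L n * (∑ i, d i ^ 2 - η))) := by
  obtain ⟨B, hB⟩ : ∃ B, B = ∑ i, |d i| := ⟨_, rfl⟩
  have hB0 : 0 ≤ B := by rw [hB]; exact sum_nonneg (fun _ _ => abs_nonneg _)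
  have hδ1 : 2 * δ * B ≤ η / 2 := by rw [hB]; exact hδ
  filter_upwards [hG.up (fun i => 2 * d i) (η / 2) (by positivity), hG.lim.eventually_ge_atTop 1] with n h1 h2
  have hL : 0 < L n := by linarith
  have hsq : (∑ i, (2 * d i) ^ 2) / 4 = ∑ i, d i ^ 2 := by
    rw [sum_div]
    refine sum_congr rfl (fun i _ => ?_)
    ring
  rw [hsq] at h1
  have hpt : ∀ ω, (near D n d δ).indicator (fun _ => Real.exp (L n * (2 * ∑ i, d i ^ 2 - η / 2))) ω ≤
      Real.exp (L n * ∑ i, (2 * d i) * D n i ω) := by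
    intro ω
    by_cases hω : ω ∈ near D n d δ
    · rw [Set.indicator_of_mem hω]
      refine Real.exp_le_exp.2 (mul_le_mul_of_nonneg_left ?_ hL.le)
      have e1 : ∑ i, (2 * d i) * D n i ω = 2 * ∑ i, d i ^ 2 + ∑ i, 2 * d i * (D n i ω - d i) := by
        rw [mul_sum, ← sum_add_distrib]
        refine sum_congr rfl (fun i _ => ?_)
        ring
      have e2 : -(2 * δ * B) ≤ ∑ i, 2 * d i * (D n i ω - d i) := by
        have e3 : |∑ i, 2 * d i * (D n i ω - d i)| ≤ 2 * δ * B := by
          rw [hB, mul_sum]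
          refine (abs_sum_le_sum_abs _ _).trans (sum_le_sum (fun i _ => ?_))
          rw [abs_mul, abs_mul, abs_two]
          have e4 := (hω i).le
          have e5 := abs_nonneg (d i)
          nlinarith
        have := neg_abs_le (∑ i, 2 * d i * (D n i ω - d i))
        linarith
      linarith
    · rw [Set.indicator_of_notMem hω]
      exact (Real.exp_pos _).le
  have h3 := integral_mono ((integrable_const _).indicator (meas_near hG n d δ)) (hG.int n (fun i => 2 * d i)) hpt
  rw [integral_indicator_const _ (meas_near hG n d δ), smul_eq_mul] at h3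
  have h4 := h3.trans h1
  have h5 : μ.real (near D n d δ) ≤ Real.exp (L n * (∑ i, d i ^ 2 + η / 2)) / Real.exp (L n * (2 * ∑ i, d i ^ 2 - η / 2)) := by
    rw [le_div_iff₀ (Real.exp_pos _)]
    exact h4
  refine h5.trans (le_of_eq ?_)
  rw [← Real.exp_sub]
  congr 1
  ring

theorem Gau.upper (hG : Gau μ l D L) (d : Fin r → ℝ) {η : ℝ} (hη : 0 < η) : ∃ δ > 0, ∀ᶠ n in l,
    μ.real (near D n d δ) ≤ Real.exp (-(L n * (∑ i, d i ^ 2 - η))) := by
  obtain ⟨B, hB⟩ : ∃ B, B = ∑ i, |d i| := ⟨_, rfl⟩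
  have hB0 : 0 ≤ B := by rw [hB]; exact sum_nonneg (fun _ _ => abs_nonneg _)
  refine ⟨η / (4 * (B + 1)), by positivity, hG.upper_at d hη (by positivity) ?_⟩
  rw [← hB]
  have e1 : η / (4 * (B + 1)) * (4 * (B + 1)) = η := by field_simp
  nlinarith [show 0 < η / (4 * (B + 1)) by positivity]

/-- **Large values.** -/
theorem Gau.large (hG : Gau μ l D L) (i : Fin r) {R η : ℝ} (hR : 0 ≤ R) (hη : 0 < η) : ∀ᶠ n in l,
    μ.real {ω | R ≤ D n i ω} ≤ Real.exp (-(L n * (R ^ 2 - η))) ∧
    μ.real {ω | D n i ω ≤ -R} ≤ Real.exp (-(L n * (R ^ 2 - η))) := by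
  classical
  have key : ∀ s : ℝ, s ^ 2 = 1 → ∀ᶠ n in l, μ.real {ω | R ≤ s * D n i ω} ≤ Real.exp (-(L n * (R ^ 2 - η))) := by
    intro s hs
    filter_upwards [hG.up (fun j => if j = i then 2 * R * s else 0) η hη, hG.lim.eventually_ge_atTop 1] with n h1 h2
    have hL : 0 < L n := by linarith
    have hsq : (∑ j, (if j = i then 2 * R * s else 0) ^ 2) / 4 = R ^ 2 := by
      have e1 : ∑ j, (if j = i then 2 * R * s else 0) ^ 2 = (2 * R * s) ^ 2 := by
        rw [Finset.sum_eq_single i]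
        · rw [if_pos rfl]
        · intro b _ hb
          rw [if_neg hb]
          norm_num
        · intro h
          exact absurd (mem_univ i) h
      rw [e1, mul_pow, hs]
      ring
    rw [hsq] at h1
    have hm : MeasurableSet {ω | R ≤ s * D n i ω} := measurableSet_le measurable_const ((hG.meas n i).const_mul s)
    have hpt : ∀ ω, ({ω | R ≤ s * D n i ω} : Set Ω).indicator (fun _ => Real.exp (L n * (2 * R ^ 2))) ω ≤
        Real.exp (L n * ∑ j, (if j = i then 2 * R * s else 0) * D n j ω) := by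
      intro ω
      by_cases hω : ω ∈ {ω | R ≤ s * D n i ω}
      · rw [Set.indicator_of_mem hω]
        refine Real.exp_le_exp.2 (mul_le_mul_of_nonneg_left ?_ hL.le)
        have e1 : ∑ j, (if j = i then 2 * R * s else 0) * D n j ω = 2 * R * s * D n i ω := by
          rw [Finset.sum_eq_single i]
          · rw [if_pos rfl]
          · intro b _ hb
            rw [if_neg hb, zero_mul]
          · intro h
            exact absurd (mem_univ i) h
        rw [e1]
        have e2 : R ≤ s * D n i ω := hω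
        nlinarith
      · rw [Set.indicator_of_notMem hω]
        exact (Real.exp_pos _).le
    have h3 := integral_mono ((integrable_const _).indicator hm) (hG.int n (fun j => if j = i then 2 * R * s else 0)) hpt
    rw [integral_indicator_const _ hm, smul_eq_mul] at h3
    have h4 := h3.trans h1
    have h5 : μ.real {ω | R ≤ s * D n i ω} ≤ Real.exp (L n * (R ^ 2 + η)) / Real.exp (L n * (2 * R ^ 2)) := by
      rw [le_div_iff₀ (Real.exp_pos _)]
      exact h4
    refine h5.trans (le_of_eq ?_)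
    rw [← Real.exp_sub]
    congr 1
    ring
  filter_upwards [key 1 (by norm_num), key (-1) (by norm_num)] with n h1 h2
  constructor
  · refine le_trans (le_of_eq ?_) h1
    congr 1
    ext ω
    simp
  · refine le_trans (le_of_eq ?_) h2
    congr 1
    ext ω
    simp only [Set.mem_setOf_eq]
    constructor <;> intro h <;> linarith

/-- **Lower bound.** -/
theorem Gau.lower (hG : Gau μ l D L) (d : Fin r → ℝ) {ε η : ℝ} (hε : 0 < ε) (hη : 0 < η) : ∀ᶠ n in l,
    Real.exp (-(L n * (∑ i, d i ^ 2 + η))) ≤ μ.real (near D n d ε) := by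
  classical
  obtain ⟨B, hB⟩ : ∃ B, B = ∑ i, |d i| := ⟨_, rfl⟩
  have hB0 : 0 ≤ B := by rw [hB]; exact sum_nonneg (fun _ _ => abs_nonneg _)
  obtain ⟨δ, hδ⟩ : ∃ δ, δ = min (min ε 1) (η / (8 * (B + 1))) := ⟨_, rfl⟩
  have hδ0 : 0 < δ := by rw [hδ]; exact lt_min (lt_min hε one_pos) (by positivity)
  have hδε : δ ≤ ε := by rw [hδ]; exact (min_le_left _ _).trans (min_le_left _ _)
  have hδ1 : δ ≤ 1 := by rw [hδ]; exact (min_le_left _ _).trans (min_le_right _ _)
  have hδη : δ * (8 * (B + 1)) ≤ η := by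
    have h1 : δ ≤ η / (8 * (B + 1)) := by rw [hδ]; exact min_le_right _ _
    rwa [le_div_iff₀ (by positivity)] at h1
  -- the perturbed exponents
  obtain ⟨θ, hθ⟩ : ∃ θ : Fin r → ℝ → Fin r → ℝ, θ = fun i s j => 2 * d j + if j = i then 2 * δ * s else 0 := ⟨_, rfl⟩
  have hsqθ : ∀ i s, s ^ 2 = 1 → (∑ j, θ i s j ^ 2) / 4 = ∑ j, d j ^ 2 + 2 * δ * s * d i + δ ^ 2 := by
    intro i s hs
    have e1 : ∀ j, θ i s j ^ 2 = 4 * d j ^ 2 + if j = i then (8 * δ * s * d i + 4 * δ ^ 2) else 0 := by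
      intro j
      rw [hθ]
      by_cases hj : j = i
      · subst hj
        simp only [if_true]
        nlinarith
      · simp only [if_neg hj]
        ring
    rw [sum_congr rfl (fun j _ => e1 j), sum_add_distrib, ← mul_sum, Finset.sum_ite_eq' univ i, if_pos (mem_univ i)]
    ring
  have hup : ∀ i s, ∀ᶠ n in l, ∫ ω, Real.exp (L n * ∑ j, θ i s j * D n j ω) ∂μ ≤
      Real.exp (L n * ((∑ j, θ i s j ^ 2) / 4 + δ ^ 2 / 4)) := fun i s => hG.up (θ i s) (δ ^ 2 / 4) (by positivity)
  have hup1 : ∀ᶠ n in l, ∀ i, ∫ ω, Real.exp (L n * ∑ j, θ i 1 j * D n j ω) ∂μ ≤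
      Real.exp (L n * ((∑ j, θ i 1 j ^ 2) / 4 + δ ^ 2 / 4)) := eventually_all.2 (fun i => hup i 1)
  have hup2 : ∀ᶠ n in l, ∀ i, ∫ ω, Real.exp (L n * ∑ j, θ i (-1) j * D n j ω) ∂μ ≤
      Real.exp (L n * ((∑ j, θ i (-1) j ^ 2) / 4 + δ ^ 2 / 4)) := eventually_all.2 (fun i => hup i (-1))
  filter_upwards [hup1, hup2, hG.low (fun i => 2 * d i) (δ ^ 2 / 4) (by positivity), hG.lim.eventually_ge_atTop 1,
    hG.lim.eventually_ge_atTop (2 * Real.log (4 * r + 1) / δ ^ 2), hG.lim.eventually_ge_atTop (2 * Real.log 2 / η)]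
    with n h1 h2 h3 h4 h5 h6
  have hL : 0 < L n := by linarith
  have hsq : (∑ i, (2 * d i) ^ 2) / 4 = ∑ i, d i ^ 2 := by
    rw [sum_div]
    refine sum_congr rfl (fun i _ => ?_)
    ring
  rw [hsq] at h3
  obtain ⟨S, hS⟩ : ∃ S, S = ∑ i, d i ^ 2 := ⟨_, rfl⟩
  rw [← hS] at h3 ⊢
  -- the pointwise bound
  obtain ⟨W, hW⟩ : ∃ W : Ω → ℝ, W = fun ω => ∑ i, Real.exp (-(L n * (2 * δ * d i + 2 * δ ^ 2))) *
    Real.exp (L n * ∑ j, θ i 1 j * D n j ω) := ⟨_, rfl⟩
  obtain ⟨W', hW'⟩ : ∃ W' : Ω → ℝ, W' = fun ω => ∑ i, Real.exp (-(L n * (-(2 * δ * d i) + 2 * δ ^ 2))) *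
    Real.exp (L n * ∑ j, θ i (-1) j * D n j ω) := ⟨_, rfl⟩
  have hθsum : ∀ i s ω, ∑ j, θ i s j * D n j ω = ∑ j, (2 * d j) * D n j ω + 2 * δ * s * D n i ω := by
    intro i s ω
    rw [hθ]
    have e1 : ∀ j, (2 * d j + if j = i then 2 * δ * s else 0) * D n j ω =
        (2 * d j) * D n j ω + if j = i then 2 * δ * s * D n i ω else 0 := by
      intro j
      by_cases hj : j = i
      · subst hj
        simp only [if_true]
        ring
      · simp only [if_neg hj]
        ring
    simp only [e1]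
    rw [sum_add_distrib, Finset.sum_ite_eq' univ i, if_pos (mem_univ i)]
  have hWn : ∀ ω, 0 ≤ W ω := fun ω => by
    rw [hW]
    exact sum_nonneg (fun i _ => by positivity)
  have hWn' : ∀ ω, 0 ≤ W' ω := fun ω => by
    rw [hW']
    exact sum_nonneg (fun i _ => by positivity)
  have hpt : ∀ ω, Real.exp (L n * ∑ j, (2 * d j) * D n j ω) ≤
      (near D n d ε).indicator (fun _ => Real.exp (L n * (2 * S + 2 * δ * B))) ω + (W ω + W' ω) := by
    intro ω
    by_cases hω : ∀ i, |D n i ω - d i| < δ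
    · have hmem : ω ∈ near D n d ε := fun i => (hω i).trans_le hδε
      rw [Set.indicator_of_mem hmem]
      have e0 : Real.exp (L n * ∑ j, (2 * d j) * D n j ω) ≤ Real.exp (L n * (2 * S + 2 * δ * B)) := by
        refine Real.exp_le_exp.2 (mul_le_mul_of_nonneg_left ?_ hL.le)
        have e1 : ∑ i, (2 * d i) * D n i ω = 2 * ∑ i, d i ^ 2 + ∑ i, 2 * d i * (D n i ω - d i) := by
          rw [mul_sum, ← sum_add_distrib]
          refine sum_congr rfl (fun i _ => ?_)
          ring
        have e3 : |∑ i, 2 * d i * (D n i ω - d i)| ≤ 2 * δ * B := by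
          rw [hB, mul_sum]
          refine (abs_sum_le_sum_abs _ _).trans (sum_le_sum (fun i _ => ?_))
          rw [abs_mul, abs_mul, abs_two]
          have e4 := (hω i).le
          have e5 := abs_nonneg (d i)
          nlinarith
        have := le_abs_self (∑ i, 2 * d i * (D n i ω - d i))
        rw [e1, ← hS]
        linarith
      have := hWn ω
      have := hWn' ω
      linarith
    · push Not at hω
      obtain ⟨i, hi⟩ := hω
      have hind : 0 ≤ (near D n d ε).indicator (fun _ => Real.exp (L n * (2 * S + 2 * δ * B))) ω :=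
        Set.indicator_nonneg (fun _ _ => (Real.exp_pos _).le) ω
      rcases le_abs.1 hi with hi | hi
      · have e1 : Real.exp (-(L n * (2 * δ * d i + 2 * δ ^ 2))) * Real.exp (L n * ∑ j, θ i 1 j * D n j ω) ≤ W ω := by
          rw [hW]
          exact single_le_sum (f := fun i => Real.exp (-(L n * (2 * δ * d i + 2 * δ ^ 2))) *
            Real.exp (L n * ∑ j, θ i 1 j * D n j ω)) (fun i _ => by positivity) (mem_univ i)
        have e2 : Real.exp (L n * ∑ j, (2 * d j) * D n j ω) ≤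
            Real.exp (-(L n * (2 * δ * d i + 2 * δ ^ 2))) * Real.exp (L n * ∑ j, θ i 1 j * D n j ω) := by
          rw [← Real.exp_add, hθsum]
          refine Real.exp_le_exp.2 ?_
          have e3 : 0 ≤ L n * (2 * δ * (D n i ω - d i - δ)) := by
            have : 0 ≤ D n i ω - d i - δ := by linarith
            positivity
          nlinarith
        have := hWn' ω
        linarith
      · have e1 : Real.exp (-(L n * (-(2 * δ * d i) + 2 * δ ^ 2))) * Real.exp (L n * ∑ j, θ i (-1) j * D n j ω) ≤ W' ω := by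
          rw [hW']
          exact single_le_sum (f := fun i => Real.exp (-(L n * (-(2 * δ * d i) + 2 * δ ^ 2))) *
            Real.exp (L n * ∑ j, θ i (-1) j * D n j ω)) (fun i _ => by positivity) (mem_univ i)
        have e2 : Real.exp (L n * ∑ j, (2 * d j) * D n j ω) ≤
            Real.exp (-(L n * (-(2 * δ * d i) + 2 * δ ^ 2))) * Real.exp (L n * ∑ j, θ i (-1) j * D n j ω) := by
          rw [← Real.exp_add, hθsum]
          refine Real.exp_le_exp.2 ?_
          have e3 : 0 ≤ L n * (2 * δ * (d i - D n i ω - δ)) := by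
            have : 0 ≤ d i - D n i ω - δ := by linarith
            positivity
          nlinarith
        have := hWn ω
        linarith
  have hWint : Integrable W μ := by
    rw [hW]
    exact integrable_finset_sum _ (fun i _ => (hG.int n (θ i 1)).const_mul _)
  have hWint' : Integrable W' μ := by
    rw [hW']
    exact integrable_finset_sum _ (fun i _ => (hG.int n (θ i (-1))).const_mul _)
  have hi0 : Integrable ((near D n d ε).indicator (fun _ => Real.exp (L n * (2 * S + 2 * δ * B)))) μ :=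
    (integrable_const _).indicator (meas_near hG n d ε)
  have h7 := integral_mono (hG.int n (fun j => 2 * d j)) (hi0.add (hWint.add hWint')) hpt
  have h8 : ∫ ω, ((near D n d ε).indicator (fun _ => Real.exp (L n * (2 * S + 2 * δ * B))) + (W + W')) ω ∂μ =
      μ.real (near D n d ε) * Real.exp (L n * (2 * S + 2 * δ * B)) + (∫ ω, W ω ∂μ + ∫ ω, W' ω ∂μ) := by
    rw [integral_add' hi0 (hWint.add hWint'), integral_add' hWint hWint', integral_indicator_const _ (meas_near hG n d ε),
      smul_eq_mul]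
  rw [h8] at h7
  have h9 : ∫ ω, W ω ∂μ ≤ r * Real.exp (L n * (S - 3 / 4 * δ ^ 2)) := by
    rw [hW, integral_finset_sum _ (fun i _ => (hG.int n (θ i 1)).const_mul _)]
    refine (sum_le_sum (fun i _ => ?_)).trans (le_of_eq (by simp : ∑ _i : Fin r, Real.exp (L n * (S - 3 / 4 * δ ^ 2)) = _))
    rw [integral_const_mul]
    refine (mul_le_mul_of_nonneg_left (h1 i) (Real.exp_pos _).le).trans (le_of_eq ?_)
    rw [← Real.exp_add, hsqθ i 1 (by norm_num), ← hS]
    congr 1
    ring
  have h10 : ∫ ω, W' ω ∂μ ≤ r * Real.exp (L n * (S - 3 / 4 * δ ^ 2)) := by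
    rw [hW', integral_finset_sum _ (fun i _ => (hG.int n (θ i (-1))).const_mul _)]
    refine (sum_le_sum (fun i _ => ?_)).trans (le_of_eq (by simp : ∑ _i : Fin r, Real.exp (L n * (S - 3 / 4 * δ ^ 2)) = _))
    rw [integral_const_mul]
    refine (mul_le_mul_of_nonneg_left (h2 i) (Real.exp_pos _).le).trans (le_of_eq ?_)
    rw [← Real.exp_add, hsqθ i (-1) (by norm_num), ← hS]
    congr 1
    ring
  -- the conclusion
  have h11 : 2 * (r * Real.exp (L n * (S - 3 / 4 * δ ^ 2))) ≤ 1 / 2 * Real.exp (L n * (S - δ ^ 2 / 4)) := by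
    have e1 : (4 * r + 1 : ℝ) ≤ Real.exp (L n * (δ ^ 2 / 2)) := by
      have e2 : Real.log (4 * r + 1) ≤ L n * (δ ^ 2 / 2) := by
        rw [div_le_iff₀ (by positivity)] at h5
        linarith
      calc (4 * r + 1 : ℝ) = Real.exp (Real.log (4 * r + 1)) := (Real.exp_log (by positivity)).symm
        _ ≤ _ := Real.exp_le_exp.2 e2
    have e2 : Real.exp (L n * (S - δ ^ 2 / 4)) = Real.exp (L n * (S - 3 / 4 * δ ^ 2)) * Real.exp (L n * (δ ^ 2 / 2)) := by
      rw [← Real.exp_add]
      congr 1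
      ring
    rw [e2]
    have e3 := mul_le_mul_of_nonneg_left e1 (Real.exp_pos (L n * (S - 3 / 4 * δ ^ 2))).le
    have e4 := Real.exp_pos (L n * (S - 3 / 4 * δ ^ 2))
    nlinarith
  have h12 : 1 / 2 * Real.exp (L n * (S - δ ^ 2 / 4)) ≤ μ.real (near D n d ε) * Real.exp (L n * (2 * S + 2 * δ * B)) := by
    linarith
  have h13 : Real.exp (-(L n * (S + η))) * Real.exp (L n * (2 * S + 2 * δ * B)) ≤ 1 / 2 * Real.exp (L n * (S - δ ^ 2 / 4)) := by
    have e1 : 2 ≤ Real.exp (L n * (η / 2)) := by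
      have e2 : Real.log 2 ≤ L n * (η / 2) := by
        rw [div_le_iff₀ hη] at h6
        linarith
      calc (2 : ℝ) = Real.exp (Real.log 2) := (Real.exp_log (by norm_num)).symm
        _ ≤ _ := Real.exp_le_exp.2 e2
    have e2 : Real.exp (-(L n * (S + η))) * Real.exp (L n * (2 * S + 2 * δ * B)) * Real.exp (L n * (η / 2)) ≤
        Real.exp (L n * (S - δ ^ 2 / 4)) := by
      rw [← Real.exp_add, ← Real.exp_add]
      refine Real.exp_le_exp.2 ?_
      have e3 : 2 * δ * B + δ ^ 2 / 4 ≤ η / 2 := by nlinarith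
      have e4 := mul_le_mul_of_nonneg_left e3 hL.le
      nlinarith
    have e3 : 0 ≤ Real.exp (-(L n * (S + η))) * Real.exp (L n * (2 * S + 2 * δ * B)) := by positivity
    nlinarith
  exact le_of_mul_le_mul_right (h13.trans h12) (Real.exp_pos _)

end Pool.Agent.Q106.MD
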