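import Pool.Agent.Q106.UR.Chern

/-!
# Exponential moments of sums of local functions of a random set

`Y j` is a bounded centred function of `A ∩ U j`. If every `U j` meets at most `D` of the `U i` then the exponential
moment of `∑ Y j` at `h` is `exp (h² / 2 · variance)` up to a factor `exp (± 29 D² |h|³ · number of terms)`.
-/

set_option autoImplicit false

namespace Pool.Agent.Q106.MD

open Finset MeasureTheory ProbabilityTheory Filter Pool.Agent.Q120.GM Pool.Agent.Q106.UR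

variable {Ω : Type*} [MeasurableSpace Ω] {μ : Measure Ω} [IsProbabilityMeasure μ] {ι κ : Type*} [DecidableEq ι]
  [DecidableEq κ] {p : ι → ℝ} {A : Ω → Set ι}

omit [DecidableEq ι] [DecidableEq κ] in
theorem int_bdd {f : Ω → ℝ} (hf : Measurable f) (C : ℝ) (h : ∀ ω, |f ω| ≤ C) : Integrable f μ :=
  Integrable.of_bound hf.aestronglyMeasurable C (Eventually.of_forall (fun ω => by
    rw [Real.norm_eq_abs]
    exact h ω))

theorem int_cmp {f g w : Ω → ℝ} (hf : Integrable f μ) (hg : Integrable g μ) (hw : Integrable w μ) {c : ℝ}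
    (h : ∀ ω, |f ω - g ω| ≤ c * w ω) : |∫ ω, f ω ∂μ - ∫ ω, g ω ∂μ| ≤ c * ∫ ω, w ω ∂μ := by
  rw [← integral_sub hf hg, ← integral_const_mul]
  refine (abs_integral_le_integral_abs).trans ?_
  exact integral_mono (hf.sub hg).abs (hw.const_mul c) h

/-- The sum. -/
def SS (Y : κ → Ω → ℝ) (J : Finset κ) (ω : Ω) : ℝ := ∑ j ∈ J, Y j ω

/-- The variance. -/
noncomputable def VV (μ : Measure Ω) (Y : κ → Ω → ℝ) (J : Finset κ) : ℝ := ∑ i ∈ J, ∑ j ∈ J, ∫ ω, Y i ω * Y j ω ∂μ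

/-- The indices in `J` whose supports meet that of `j`. -/
def nb (U : κ → Finset ι) (J : Finset κ) (j : κ) : Finset κ := J.filter (fun i => ¬ Disjoint (U i) (U j))

theorem VV_insert (Y : κ → Ω → ℝ) {J : Finset κ} {a : κ} (ha : a ∉ J) :
    VV μ Y (insert a J) = VV μ Y J + (∫ ω, Y a ω * Y a ω ∂μ + 2 * ∑ i ∈ J, ∫ ω, Y i ω * Y a ω ∂μ) := by
  unfold VV
  rw [sum_insert ha, sum_insert ha]
  have h1 : ∀ i, ∑ j ∈ insert a J, ∫ ω, Y i ω * Y j ω ∂μ = ∫ ω, Y i ω * Y a ω ∂μ + ∑ j ∈ J, ∫ ω, Y i ω * Y j ω ∂μ :=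
    fun i => sum_insert ha
  simp_rw [h1]
  rw [sum_add_distrib]
  have h2 : ∑ j ∈ J, ∫ ω, Y a ω * Y j ω ∂μ = ∑ i ∈ J, ∫ ω, Y i ω * Y a ω ∂μ := by
    refine sum_congr rfl (fun i _ => ?_)
    congr 1
    ext ω
    ring
  rw [h2]
  ring

variable {U : κ → Finset ι} {Y : κ → Ω → ℝ}

omit [DecidableEq ι] in
theorem SS_meas (hY : ∀ j, Measurable[F A (U j : Set ι)] (Y j)) {J : Finset κ} {S : Set ι}
    (hS : ∀ j ∈ J, (U j : Set ι) ⊆ S) : Measurable[F A S] (SS Y J) := by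
  let _ : MeasurableSpace Ω := F A S
  unfold SS
  exact Finset.measurable_fun_sum J (fun j hj => (hY j).mono (F_mono (hS j hj)) le_rfl)

omit [DecidableEq ι] in
theorem SS_meas' (hA : IsModel μ p A) (hY : ∀ j, Measurable[F A (U j : Set ι)] (Y j)) (J : Finset κ) :
    Measurable (SS Y J) :=
  (SS_meas hY (S := Set.univ) (fun _ _ => Set.subset_univ _)).mono (F_le hA _) le_rfl

omit [MeasurableSpace Ω] in
theorem SS_le (hb : ∀ j ω, |Y j ω| ≤ 1) (J : Finset κ) (ω : Ω) : |SS Y J ω| ≤ J.card := by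
  unfold SS
  refine (abs_sum_le_sum_abs _ _).trans ((sum_le_sum (fun j _ => hb j ω)).trans ?_)
  simp

omit [MeasurableSpace Ω] in
theorem SS_split (J : Finset κ) (N : Finset κ) (hN : N ⊆ J) (ω : Ω) : SS Y J ω = SS Y (J \ N) ω + SS Y N ω := by
  unfold SS
  exact (sum_sdiff hN).symm

omit [DecidableEq ι] in
theorem int_exp (hA : IsModel μ p A) (hY : ∀ j, Measurable[F A (U j : Set ι)] (Y j)) (hb : ∀ j ω, |Y j ω| ≤ 1)
    (J : Finset κ) (h : ℝ) : Integrable (fun ω => Real.exp (h * SS Y J ω)) μ := by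
  refine int_bdd (((SS_meas' hA hY J).const_mul h).exp) (Real.exp (|h| * J.card)) (fun ω => ?_)
  rw [abs_of_pos (Real.exp_pos _)]
  refine Real.exp_le_exp.2 ((le_abs_self _).trans ?_)
  rw [abs_mul]
  exact mul_le_mul_of_nonneg_left (SS_le hb J ω) (abs_nonneg h)

theorem pos_exp (hA : IsModel μ p A) (hY : ∀ j, Measurable[F A (U j : Set ι)] (Y j)) (hb : ∀ j ω, |Y j ω| ≤ 1)
    (J : Finset κ) (h : ℝ) : 0 < ∫ ω, Real.exp (h * SS Y J ω) ∂μ :=
  integral_exp_pos (int_exp hA hY hb J h)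

/-- Changing few terms does not change the exponential moment much. -/
theorem exp_change (hA : IsModel μ p A) (hY : ∀ j, Measurable[F A (U j : Set ι)] (Y j)) (hb : ∀ j ω, |Y j ω| ≤ 1)
    {J N : Finset κ} (hN : N ⊆ J) {h d : ℝ} (hd : (N.card : ℝ) ≤ d) (hh : |h| * d ≤ 1) :
    ∫ ω, Real.exp (h * SS Y (J \ N) ω) ∂μ ≤ 3 * ∫ ω, Real.exp (h * SS Y J ω) ∂μ ∧
    |∫ ω, Real.exp (h * SS Y (J \ N) ω) ∂μ - ∫ ω, Real.exp (h * SS Y J ω) ∂μ| ≤
      6 * (|h| * d) * ∫ ω, Real.exp (h * SS Y J ω) ∂μ := by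
  have hsmall : ∀ ω, |h * SS Y N ω| ≤ |h| * d := by
    intro ω
    rw [abs_mul]
    exact mul_le_mul_of_nonneg_left ((SS_le hb N ω).trans hd) (abs_nonneg h)
  have h1 : ∀ ω, Real.exp (h * SS Y (J \ N) ω) ≤ 3 * Real.exp (h * SS Y J ω) := by
    intro ω
    have e1 : Real.exp (h * SS Y (J \ N) ω) = Real.exp (-(h * SS Y N ω)) * Real.exp (h * SS Y J ω) := by
      rw [← Real.exp_add, SS_split J N hN ω]
      congr 1
      ring
    rw [e1]
    refine mul_le_mul_of_nonneg_right ?_ (Real.exp_pos _).le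
    have e2 : -(h * SS Y N ω) ≤ 1 := (neg_le_abs _).trans ((hsmall ω).trans hh)
    refine (Real.exp_le_exp.2 e2).trans ?_
    have := Real.exp_one_lt_d9
    linarith
  have hi1 := int_exp hA hY hb (J \ N) h
  have hi2 := int_exp hA hY hb J h
  have h2 : ∫ ω, Real.exp (h * SS Y (J \ N) ω) ∂μ ≤ 3 * ∫ ω, Real.exp (h * SS Y J ω) ∂μ := by
    rw [← integral_const_mul]
    exact integral_mono hi1 (hi2.const_mul 3) h1
  refine ⟨h2, ?_⟩
  have h3 := int_cmp hi1 hi2 hi1 (c := 2 * (|h| * d)) (fun ω => by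
    have e1 : Real.exp (h * SS Y J ω) = Real.exp (h * SS Y N ω) * Real.exp (h * SS Y (J \ N) ω) := by
      rw [← Real.exp_add, SS_split J N hN ω]
      congr 1
      ring
    rw [e1]
    have e2 : Real.exp (h * SS Y (J \ N) ω) - Real.exp (h * SS Y N ω) * Real.exp (h * SS Y (J \ N) ω) =
        -((Real.exp (h * SS Y N ω) - 1) * Real.exp (h * SS Y (J \ N) ω)) := by ring
    rw [e2, abs_neg, abs_mul, abs_of_pos (Real.exp_pos (h * SS Y (J \ N) ω))]
    refine mul_le_mul_of_nonneg_right ?_ (Real.exp_pos _).le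
    refine (Real.abs_exp_sub_one_le ((hsmall ω).trans hh)).trans ?_
    exact mul_le_mul_of_nonneg_left (hsmall ω) (by norm_num))
  refine h3.trans ?_
  have h4 : 0 ≤ 2 * (|h| * d) := by
    have : 0 ≤ |h| * d := mul_nonneg (abs_nonneg h) ((Nat.cast_nonneg _).trans hd)
    linarith
  have h5 := mul_le_mul_of_nonneg_left h2 h4
  linarith

/-- One more term. -/
theorem step (hA : IsModel μ p A) (hY : ∀ j, Measurable[F A (U j : Set ι)] (Y j)) (hb : ∀ j ω, |Y j ω| ≤ 1)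
    (h0 : ∀ j, ∫ ω, Y j ω ∂μ = 0) {J : Finset κ} {a : κ} {D h : ℝ} (hD : 1 ≤ D) (hh : 2 * (|h| * D) ≤ 1)
    (ha : a ∉ J) (hdeg : ∀ j ∈ insert a J, ((nb U J j).card : ℝ) ≤ D) :
    |∫ ω, Real.exp (h * SS Y (insert a J) ω) ∂μ - (∫ ω, Real.exp (h * SS Y J ω) ∂μ) *
      (1 + h ^ 2 / 2 * (∫ ω, Y a ω * Y a ω ∂μ + 2 * ∑ i ∈ J, ∫ ω, Y i ω * Y a ω ∂μ))| ≤
      28 * (D ^ 2 * |h| ^ 3) * ∫ ω, Real.exp (h * SS Y J ω) ∂μ := by
  obtain ⟨φ, hφ⟩ : ∃ φ, φ = ∫ ω, Real.exp (h * SS Y J ω) ∂μ := ⟨_, rfl⟩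
  have hφ0 : 0 < φ := by rw [hφ]; exact pos_exp hA hY hb J h
  have hh0 : 0 ≤ |h| := abs_nonneg h
  have hhD : |h| * D ≤ 1 := by nlinarith
  have hh1 : |h| ≤ 1 := by nlinarith
  have hint := int_exp hA hY hb J h
  have hYm : ∀ j, Measurable (Y j) := fun j => (hY j).mono (F_le hA _) le_rfl
  have hem : ∀ K : Finset κ, Measurable (fun ω => Real.exp (h * SS Y K ω)) :=
    fun K => ((SS_meas' hA hY K).const_mul h).exp
  have hieY : ∀ (K : Finset κ) (f : Ω → ℝ), Measurable f → (∀ ω, |f ω| ≤ 1) →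
      Integrable (fun ω => Real.exp (h * SS Y K ω) * f ω) μ := by
    intro K f hf hf1
    refine (int_exp hA hY hb K h).mul_bdd (c := 1) hf.aestronglyMeasurable (Eventually.of_forall (fun ω => ?_))
    rw [Real.norm_eq_abs]
    exact hf1 ω
  have hYY1 : ∀ i j ω, |Y i ω * Y j ω| ≤ 1 := by
    intro i j ω
    rw [abs_mul]
    have e1 := hb i ω
    have e2 := hb j ω
    have e3 := abs_nonneg (Y i ω)
    have e4 := abs_nonneg (Y j ω)
    nlinarith
  rw [← hφ]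
  obtain ⟨N, hN⟩ : ∃ N, N = nb U J a := ⟨_, rfl⟩
  have hNJ : N ⊆ J := by rw [hN]; exact filter_subset _ _
  have hNc : (N.card : ℝ) ≤ D := by rw [hN]; exact hdeg a (mem_insert_self _ _)
  obtain ⟨c1, c2⟩ := exp_change hA hY hb hNJ hNc hhD
  rw [← hφ] at c1 c2
  -- the independence
  have hind1 : ∀ f : Ω → ℝ, Measurable[F A (U a : Set ι)] f →
      ∫ ω, Real.exp (h * SS Y (J \ N) ω) * f ω ∂μ = (∫ ω, Real.exp (h * SS Y (J \ N) ω) ∂μ) * ∫ ω, f ω ∂μ := by
    intro f hf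
    refine int_mul hA (S := ⋃ i ∈ J \ N, (U i : Set ι)) (T := (U a : Set ι)) ?_ ?_ hf
    · rw [Set.disjoint_iUnion₂_left]
      intro i hi
      rw [Finset.mem_sdiff, hN] at hi
      unfold nb at hi
      rw [mem_filter, not_and, not_not] at hi
      rw [Finset.disjoint_coe]
      exact hi.2 hi.1
    · have := SS_meas (A := A) hY (J := J \ N) (S := ⋃ i ∈ J \ N, (U i : Set ι))
        (fun j hj => Set.subset_biUnion_of_mem (u := fun i => (U i : Set ι)) hj)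
      exact (this.const_mul h).exp
  -- the first order term
  have hfirst : |∫ ω, Real.exp (h * SS Y J ω) * Y a ω ∂μ - h * (φ * ∑ i ∈ J, ∫ ω, Y i ω * Y a ω ∂μ)| ≤
      21 * (|h| ^ 2 * D ^ 2) * φ := by
    -- the terms of the neighbours
    have hterm : ∀ i ∈ N, |∫ ω, Real.exp (h * SS Y (J \ N) ω) * (Y i ω * Y a ω) ∂μ - φ * ∫ ω, Y i ω * Y a ω ∂μ| ≤
        18 * (|h| * D) * φ := by
      intro i hi
      obtain ⟨M, hM⟩ : ∃ M, M = nb U (J \ N) i := ⟨_, rfl⟩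
      have hMJ : M ⊆ J \ N := by rw [hM]; exact filter_subset _ _
      have hMc : (M.card : ℝ) ≤ D := by
        have e1 : M ⊆ nb U J i := by
          rw [hM]
          exact filter_subset_filter _ sdiff_subset
        have e2 : M.card ≤ (nb U J i).card := card_le_card e1
        have e3 : (M.card : ℝ) ≤ (nb U J i).card := by exact_mod_cast e2
        exact e3.trans (hdeg i (mem_insert_of_mem (hNJ hi)))
      obtain ⟨d1, d2⟩ := exp_change hA hY hb hMJ hMc hhD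
      have hNM : N ∪ M ⊆ J := union_subset hNJ (hMJ.trans sdiff_subset)
      have hNMc : (((N ∪ M).card : ℕ) : ℝ) ≤ 2 * D := by
        have e1 : ((N ∪ M).card : ℝ) ≤ N.card + M.card := by exact_mod_cast card_union_le N M
        linarith
      obtain ⟨f1, f2⟩ := exp_change hA hY hb hNM hNMc (h := h) (by linarith)
      have hset : (J \ N) \ M = J \ (N ∪ M) := sdiff_sdiff_left
      rw [hset] at d1 d2
      rw [← hφ] at f1 f2
      have hind2 : ∫ ω, Real.exp (h * SS Y (J \ (N ∪ M)) ω) * (Y i ω * Y a ω) ∂μ =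
          (∫ ω, Real.exp (h * SS Y (J \ (N ∪ M)) ω) ∂μ) * ∫ ω, Y i ω * Y a ω ∂μ := by
        refine int_mul hA (S := ⋃ l ∈ J \ (N ∪ M), (U l : Set ι)) (T := (U i : Set ι) ∪ (U a : Set ι)) ?_ ?_ ?_
        · rw [Set.disjoint_iUnion₂_left]
          intro l hl
          rw [Finset.mem_sdiff, mem_union, not_or] at hl
          obtain ⟨hl1, hl2, hl3⟩ := hl
          rw [Set.disjoint_union_right, Finset.disjoint_coe, Finset.disjoint_coe]
          constructor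
          · rw [hM] at hl3
            unfold nb at hl3
            rw [mem_filter, not_and, not_not] at hl3
            exact hl3 (Finset.mem_sdiff.2 ⟨hl1, hl2⟩)
          · rw [hN] at hl2
            unfold nb at hl2
            rw [mem_filter, not_and, not_not] at hl2
            exact hl2 hl1
        · have := SS_meas (A := A) hY (J := J \ (N ∪ M)) (S := ⋃ i ∈ J \ (N ∪ M), (U i : Set ι))
            (fun j hj => Set.subset_biUnion_of_mem (u := fun i => (U i : Set ι)) hj)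
          exact (this.const_mul h).exp
        · have e1 := (hY i).mono (F_mono (A := A) (Set.subset_union_left (s := (U i : Set ι)) (t := (U a : Set ι)))) le_rfl
          have e2 := (hY a).mono (F_mono (A := A) (Set.subset_union_right (s := (U i : Set ι)) (t := (U a : Set ι)))) le_rfl
          exact e1.mul e2
      have g1 := int_cmp (hieY (J \ N) (fun ω => Y i ω * Y a ω) ((hYm i).mul (hYm a)) (hYY1 i a))
        (hieY (J \ (N ∪ M)) (fun ω => Y i ω * Y a ω) ((hYm i).mul (hYm a)) (hYY1 i a))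
        (int_exp hA hY hb (J \ (N ∪ M)) h) (c := 2 * (|h| * D)) (fun ω => by
          have e1 : Real.exp (h * SS Y (J \ N) ω) = Real.exp (h * SS Y M ω) * Real.exp (h * SS Y (J \ (N ∪ M)) ω) := by
            rw [← Real.exp_add, SS_split (J \ N) M hMJ ω, hset]
            congr 1
            ring
          rw [e1]
          have e2 : Real.exp (h * SS Y M ω) * Real.exp (h * SS Y (J \ (N ∪ M)) ω) * (Y i ω * Y a ω) -
              Real.exp (h * SS Y (J \ (N ∪ M)) ω) * (Y i ω * Y a ω) =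
              (Real.exp (h * SS Y M ω) - 1) * (Y i ω * Y a ω) * Real.exp (h * SS Y (J \ (N ∪ M)) ω) := by ring
          rw [e2, abs_mul, abs_mul, abs_of_pos (Real.exp_pos (h * SS Y (J \ (N ∪ M)) ω))]
          refine mul_le_mul_of_nonneg_right ?_ (Real.exp_pos _).le
          have e3 : |h * SS Y M ω| ≤ |h| * D := by
            rw [abs_mul]
            exact mul_le_mul_of_nonneg_left ((SS_le hb M ω).trans hMc) hh0
          have e4 := Real.abs_exp_sub_one_le (e3.trans hhD)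
          have e5 := hYY1 i a ω
          have e6 := abs_nonneg (Real.exp (h * SS Y M ω) - 1)
          calc |Real.exp (h * SS Y M ω) - 1| * |Y i ω * Y a ω| ≤ |Real.exp (h * SS Y M ω) - 1| * 1 :=
                mul_le_mul_of_nonneg_left e5 e6
            _ ≤ 2 * (|h| * D) := by linarith)
      rw [hind2] at g1
      obtain ⟨ψ, hψ⟩ : ∃ ψ, ψ = ∫ ω, Real.exp (h * SS Y (J \ (N ∪ M)) ω) ∂μ := ⟨_, rfl⟩
      rw [← hψ] at g1 f1 f2
      obtain ⟨C, hC⟩ : ∃ C, C = ∫ ω, Y i ω * Y a ω ∂μ := ⟨_, rfl⟩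
      have hC1 : |C| ≤ 1 := by
        rw [hC]
        refine (abs_integral_le_integral_abs).trans ?_
        have e1 : ∫ ω, |Y i ω * Y a ω| ∂μ ≤ ∫ _ω, (1 : ℝ) ∂μ :=
          integral_mono (int_bdd ((hYm i).mul (hYm a)) 1 (hYY1 i a)).abs (integrable_const 1) (hYY1 i a)
        simpa using e1
      rw [← hC] at g1 ⊢
      obtain ⟨X, hX⟩ : ∃ X, X = ∫ ω, Real.exp (h * SS Y (J \ N) ω) * (Y i ω * Y a ω) ∂μ := ⟨_, rfl⟩
      rw [← hX] at g1 ⊢
      have g2 : |ψ * C - φ * C| ≤ 12 * (|h| * D) * φ := by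
        rw [← sub_mul, abs_mul]
        have e1 := abs_nonneg (ψ - φ)
        calc |ψ - φ| * |C| ≤ |ψ - φ| * 1 := mul_le_mul_of_nonneg_left hC1 e1
          _ ≤ 6 * (|h| * (2 * D)) * φ := by linarith
          _ = 12 * (|h| * D) * φ := by ring
      have g3 : 2 * (|h| * D) * ψ ≤ 6 * (|h| * D) * φ := by
        have e1 : 0 ≤ |h| * D := by positivity
        nlinarith
      have g4 : |X - φ * C| ≤ |X - ψ * C| + |ψ * C - φ * C| := abs_sub_le _ _ _
      linarith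
    -- the expansion
    have hzero : ∫ ω, Real.exp (h * SS Y (J \ N) ω) * Y a ω ∂μ = 0 := by
      rw [hind1 (Y a) (hY a), h0, mul_zero]
    have hTint : Integrable (fun ω => Real.exp (h * SS Y (J \ N) ω) * (SS Y N ω * Y a ω)) μ := by
      refine (int_exp hA hY hb (J \ N) h).mul_bdd (c := N.card) ((SS_meas' hA hY N).mul (hYm a)).aestronglyMeasurable
        (Eventually.of_forall (fun ω => ?_))
      rw [Real.norm_eq_abs, abs_mul]
      have e1 := SS_le hb N ω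
      have e2 := hb a ω
      have e3 := abs_nonneg (SS Y N ω)
      have e4 := abs_nonneg (Y a ω)
      nlinarith
    have hexp := int_cmp (hieY J (Y a) (hYm a) (hb a))
      ((hieY (J \ N) (Y a) (hYm a) (hb a)).add (hTint.const_mul h)) (int_exp hA hY hb (J \ N) h)
      (c := |h| ^ 2 * D ^ 2) (fun ω => by
        have e1 : Real.exp (h * SS Y J ω) = Real.exp (h * SS Y N ω) * Real.exp (h * SS Y (J \ N) ω) := by
          rw [← Real.exp_add, SS_split J N hNJ ω]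
          congr 1
          ring
        rw [e1]
        have e2 : Real.exp (h * SS Y N ω) * Real.exp (h * SS Y (J \ N) ω) * Y a ω -
            (Real.exp (h * SS Y (J \ N) ω) * Y a ω + h * (Real.exp (h * SS Y (J \ N) ω) * (SS Y N ω * Y a ω))) =
            (Real.exp (h * SS Y N ω) - 1 - h * SS Y N ω) * Y a ω * Real.exp (h * SS Y (J \ N) ω) := by ring
        show |Real.exp (h * SS Y N ω) * Real.exp (h * SS Y (J \ N) ω) * Y a ω -
            (Real.exp (h * SS Y (J \ N) ω) * Y a ω + h * (Real.exp (h * SS Y (J \ N) ω) * (SS Y N ω * Y a ω)))| ≤ _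
        rw [e2, abs_mul, abs_mul, abs_of_pos (Real.exp_pos (h * SS Y (J \ N) ω))]
        refine mul_le_mul_of_nonneg_right ?_ (Real.exp_pos _).le
        have e3 : |h * SS Y N ω| ≤ |h| * D := by
          rw [abs_mul]
          exact mul_le_mul_of_nonneg_left ((SS_le hb N ω).trans hNc) hh0
        have e4 := Real.abs_exp_sub_one_sub_id_le (e3.trans hhD)
        have e5 := hb a ω
        have e6 := abs_nonneg (Real.exp (h * SS Y N ω) - 1 - h * SS Y N ω)
        have e7 : (h * SS Y N ω) ^ 2 ≤ |h| ^ 2 * D ^ 2 := by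
          rw [← sq_abs, ← mul_pow]
          exact pow_le_pow_left₀ (abs_nonneg _) e3 2
        calc |Real.exp (h * SS Y N ω) - 1 - h * SS Y N ω| * |Y a ω| ≤ |Real.exp (h * SS Y N ω) - 1 - h * SS Y N ω| * 1 :=
              mul_le_mul_of_nonneg_left e5 e6
          _ ≤ |h| ^ 2 * D ^ 2 := by linarith)
    have hsplit : ∫ ω, ((fun ω => Real.exp (h * SS Y (J \ N) ω) * Y a ω) +
        (fun ω => h * (Real.exp (h * SS Y (J \ N) ω) * (SS Y N ω * Y a ω)))) ω ∂μ =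
        h * ∑ i ∈ N, ∫ ω, Real.exp (h * SS Y (J \ N) ω) * (Y i ω * Y a ω) ∂μ := by
      have e1 : ∫ ω, ((fun ω => Real.exp (h * SS Y (J \ N) ω) * Y a ω) +
          (fun ω => h * (Real.exp (h * SS Y (J \ N) ω) * (SS Y N ω * Y a ω)))) ω ∂μ =
          ∫ ω, (Real.exp (h * SS Y (J \ N) ω) * Y a ω + h * (Real.exp (h * SS Y (J \ N) ω) * (SS Y N ω * Y a ω))) ∂μ := rfl
      rw [e1, integral_add (hieY (J \ N) (Y a) (hYm a) (hb a)) (hTint.const_mul h), hzero, zero_add, integral_const_mul]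
      congr 1
      rw [← integral_finset_sum N (fun i _ => hieY (J \ N) (fun ω => Y i ω * Y a ω) ((hYm i).mul (hYm a)) (hYY1 i a))]
      congr 1
      ext ω
      rw [← mul_sum, ← sum_mul]
      rfl
    rw [hsplit] at hexp
    -- the sum over the neighbours
    have hsumN : ∑ i ∈ J, ∫ ω, Y i ω * Y a ω ∂μ = ∑ i ∈ N, ∫ ω, Y i ω * Y a ω ∂μ := by
      refine (sum_subset hNJ (fun i hi hiN => ?_)).symm
      have e1 : Disjoint (U i) (U a) := by
        rw [hN] at hiN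
        unfold nb at hiN
        rw [mem_filter, not_and, not_not] at hiN
        exact hiN hi
      rw [int_mul hA (S := (U i : Set ι)) (T := (U a : Set ι)) (Finset.disjoint_coe.2 e1) (hY i) (hY a), h0, zero_mul]
    rw [hsumN]
    have hsum2 : |∑ i ∈ N, ∫ ω, Real.exp (h * SS Y (J \ N) ω) * (Y i ω * Y a ω) ∂μ -
        φ * ∑ i ∈ N, ∫ ω, Y i ω * Y a ω ∂μ| ≤ D * (18 * (|h| * D) * φ) := by
      rw [mul_sum, ← sum_sub_distrib]
      refine (abs_sum_le_sum_abs _ _).trans ((sum_le_sum hterm).trans ?_)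
      rw [sum_const, nsmul_eq_mul]
      exact mul_le_mul_of_nonneg_right hNc (by positivity)
    obtain ⟨X, hX⟩ : ∃ X, X = ∑ i ∈ N, ∫ ω, Real.exp (h * SS Y (J \ N) ω) * (Y i ω * Y a ω) ∂μ := ⟨_, rfl⟩
    obtain ⟨Z, hZ⟩ : ∃ Z, Z = φ * ∑ i ∈ N, ∫ ω, Y i ω * Y a ω ∂μ := ⟨_, rfl⟩
    rw [← hX] at hexp hsum2
    rw [← hZ] at hsum2 ⊢
    have g1 : |h * X - h * Z| ≤ 18 * (|h| ^ 2 * D ^ 2) * φ := by
      rw [← mul_sub, abs_mul]
      have := mul_le_mul_of_nonneg_left hsum2 hh0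
      calc |h| * |X - Z| ≤ |h| * (D * (18 * (|h| * D) * φ)) := this
        _ = _ := by ring
    have g2 : |h| ^ 2 * D ^ 2 * ∫ ω, Real.exp (h * SS Y (J \ N) ω) ∂μ ≤ 3 * (|h| ^ 2 * D ^ 2) * φ := by
      have e1 : 0 ≤ |h| ^ 2 * D ^ 2 := by positivity
      nlinarith
    have g3 := abs_sub_le (∫ ω, Real.exp (h * SS Y J ω) * Y a ω ∂μ) (h * X) (h * Z)
    linarith
  -- the second order term
  have hsecond : |∫ ω, Real.exp (h * SS Y J ω) * (Y a ω * Y a ω) ∂μ - φ * ∫ ω, Y a ω * Y a ω ∂μ| ≤ 12 * (|h| * D) * φ := by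
    have e0 := hind1 (fun ω => Y a ω * Y a ω) ((hY a).mul (hY a))
    have g1 := int_cmp (hieY J (fun ω => Y a ω * Y a ω) ((hYm a).mul (hYm a)) (hYY1 a a))
      (hieY (J \ N) (fun ω => Y a ω * Y a ω) ((hYm a).mul (hYm a)) (hYY1 a a))
      (int_exp hA hY hb (J \ N) h) (c := 2 * (|h| * D)) (fun ω => by
        have e1 : Real.exp (h * SS Y J ω) = Real.exp (h * SS Y N ω) * Real.exp (h * SS Y (J \ N) ω) := by
          rw [← Real.exp_add, SS_split J N hNJ ω]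
          congr 1
          ring
        rw [e1]
        have e2 : Real.exp (h * SS Y N ω) * Real.exp (h * SS Y (J \ N) ω) * (Y a ω * Y a ω) -
            Real.exp (h * SS Y (J \ N) ω) * (Y a ω * Y a ω) =
            (Real.exp (h * SS Y N ω) - 1) * (Y a ω * Y a ω) * Real.exp (h * SS Y (J \ N) ω) := by ring
        rw [e2, abs_mul, abs_mul, abs_of_pos (Real.exp_pos (h * SS Y (J \ N) ω))]
        refine mul_le_mul_of_nonneg_right ?_ (Real.exp_pos _).le
        have e3 : |h * SS Y N ω| ≤ |h| * D := by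
          rw [abs_mul]
          exact mul_le_mul_of_nonneg_left ((SS_le hb N ω).trans hNc) hh0
        have e4 := Real.abs_exp_sub_one_le (e3.trans hhD)
        have e5 := hYY1 a a ω
        have e6 := abs_nonneg (Real.exp (h * SS Y N ω) - 1)
        calc |Real.exp (h * SS Y N ω) - 1| * |Y a ω * Y a ω| ≤ |Real.exp (h * SS Y N ω) - 1| * 1 :=
              mul_le_mul_of_nonneg_left e5 e6
          _ ≤ 2 * (|h| * D) := by linarith)
    rw [e0] at g1
    obtain ⟨ψ, hψ⟩ : ∃ ψ, ψ = ∫ ω, Real.exp (h * SS Y (J \ N) ω) ∂μ := ⟨_, rfl⟩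
    rw [← hψ] at g1 c1 c2
    obtain ⟨C, hC⟩ : ∃ C, C = ∫ ω, Y a ω * Y a ω ∂μ := ⟨_, rfl⟩
    have hC1 : |C| ≤ 1 := by
      rw [hC]
      refine (abs_integral_le_integral_abs).trans ?_
      have e1 : ∫ ω, |Y a ω * Y a ω| ∂μ ≤ ∫ _ω, (1 : ℝ) ∂μ :=
        integral_mono (int_bdd ((hYm a).mul (hYm a)) 1 (hYY1 a a)).abs (integrable_const 1) (hYY1 a a)
      simpa using e1
    rw [← hC] at g1 ⊢
    obtain ⟨X, hX⟩ : ∃ X, X = ∫ ω, Real.exp (h * SS Y J ω) * (Y a ω * Y a ω) ∂μ := ⟨_, rfl⟩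
    rw [← hX] at g1 ⊢
    have g2 : |ψ * C - φ * C| ≤ 6 * (|h| * D) * φ := by
      rw [← sub_mul, abs_mul]
      have e1 := abs_nonneg (ψ - φ)
      calc |ψ - φ| * |C| ≤ |ψ - φ| * 1 := mul_le_mul_of_nonneg_left hC1 e1
        _ ≤ 6 * (|h| * D) * φ := by linarith
    have g3 : 2 * (|h| * D) * ψ ≤ 6 * (|h| * D) * φ := by
      have e1 : 0 ≤ |h| * D := by positivity
      nlinarith
    have g4 : |X - φ * C| ≤ |X - ψ * C| + |ψ * C - φ * C| := abs_sub_le _ _ _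
    linarith
  -- the full expansion
  have i1 := hieY J (Y a) (hYm a) (hb a)
  have i2 := hieY J (fun ω => Y a ω * Y a ω) ((hYm a).mul (hYm a)) (hYY1 a a)
  have hg : Integrable (fun ω => Real.exp (h * SS Y J ω) + h * (Real.exp (h * SS Y J ω) * Y a ω) +
      h ^ 2 / 2 * (Real.exp (h * SS Y J ω) * (Y a ω * Y a ω))) μ :=
    (hint.add (i1.const_mul h)).add (i2.const_mul (h ^ 2 / 2))
  have hthird := int_cmp (int_exp hA hY hb (insert a J) h) hg hint (c := |h| ^ 3) (fun ω => by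
      show |Real.exp (h * SS Y (insert a J) ω) - (Real.exp (h * SS Y J ω) + h * (Real.exp (h * SS Y J ω) * Y a ω) +
        h ^ 2 / 2 * (Real.exp (h * SS Y J ω) * (Y a ω * Y a ω)))| ≤ _
      have e1 : Real.exp (h * SS Y (insert a J) ω) = Real.exp (h * Y a ω) * Real.exp (h * SS Y J ω) := by
        rw [← Real.exp_add]
        congr 1
        unfold SS
        rw [sum_insert ha]
        ring
      rw [e1]
      have e2 : Real.exp (h * Y a ω) * Real.exp (h * SS Y J ω) - (Real.exp (h * SS Y J ω) +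
          h * (Real.exp (h * SS Y J ω) * Y a ω) + h ^ 2 / 2 * (Real.exp (h * SS Y J ω) * (Y a ω * Y a ω))) =
          (Real.exp (h * Y a ω) - (1 + h * Y a ω + (h * Y a ω) ^ 2 / 2)) * Real.exp (h * SS Y J ω) := by ring
      rw [e2, abs_mul, abs_of_pos (Real.exp_pos (h * SS Y J ω))]
      refine mul_le_mul_of_nonneg_right ?_ (Real.exp_pos _).le
      have e3 : |h * Y a ω| ≤ |h| := by
        rw [abs_mul]
        have := hb a ω
        nlinarith
      have e4 := Real.exp_bound (e3.trans hh1) (n := 3) (by norm_num)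
      have e5 : ∑ m ∈ range 3, (h * Y a ω) ^ m / (m.factorial : ℝ) = 1 + h * Y a ω + (h * Y a ω) ^ 2 / 2 := by
        rw [sum_range_succ, sum_range_succ, sum_range_one]
        norm_num [Nat.factorial]
      rw [e5] at e4
      refine e4.trans ?_
      have e6 : |h * Y a ω| ^ 3 ≤ |h| ^ 3 := pow_le_pow_left₀ (abs_nonneg _) e3 3
      have e7 : ((Nat.succ 3 : ℕ) : ℝ) / ((Nat.factorial 3 : ℕ) * (3 : ℕ)) ≤ 1 := by norm_num [Nat.factorial]
      have e8 : 0 ≤ |h * Y a ω| ^ 3 := by positivity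
      calc |h * Y a ω| ^ 3 * (((Nat.succ 3 : ℕ) : ℝ) / ((Nat.factorial 3 : ℕ) * (3 : ℕ))) ≤ |h * Y a ω| ^ 3 * 1 :=
            mul_le_mul_of_nonneg_left e7 e8
        _ ≤ |h| ^ 3 := by linarith)
  have hsp : ∫ ω, (Real.exp (h * SS Y J ω) + h * (Real.exp (h * SS Y J ω) * Y a ω) +
      h ^ 2 / 2 * (Real.exp (h * SS Y J ω) * (Y a ω * Y a ω))) ∂μ =
      φ + h * ∫ ω, Real.exp (h * SS Y J ω) * Y a ω ∂μ + h ^ 2 / 2 * ∫ ω, Real.exp (h * SS Y J ω) * (Y a ω * Y a ω) ∂μ := by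
    have e1 : ∫ ω, (Real.exp (h * SS Y J ω) + h * (Real.exp (h * SS Y J ω) * Y a ω) +
        h ^ 2 / 2 * (Real.exp (h * SS Y J ω) * (Y a ω * Y a ω))) ∂μ =
        ∫ ω, (Real.exp (h * SS Y J ω) + h * (Real.exp (h * SS Y J ω) * Y a ω)) ∂μ +
        ∫ ω, h ^ 2 / 2 * (Real.exp (h * SS Y J ω) * (Y a ω * Y a ω)) ∂μ :=
      integral_add (f := fun ω => Real.exp (h * SS Y J ω) + h * (Real.exp (h * SS Y J ω) * Y a ω))
        (hint.add (i1.const_mul h)) (i2.const_mul (h ^ 2 / 2))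
    have e2 : ∫ ω, (Real.exp (h * SS Y J ω) + h * (Real.exp (h * SS Y J ω) * Y a ω)) ∂μ =
        ∫ ω, Real.exp (h * SS Y J ω) ∂μ + ∫ ω, h * (Real.exp (h * SS Y J ω) * Y a ω) ∂μ :=
      integral_add hint (i1.const_mul h)
    rw [e1, e2, hφ, integral_const_mul, integral_const_mul]
  rw [hsp, ← hφ] at hthird
  obtain ⟨X1, hX1⟩ : ∃ X, X = ∫ ω, Real.exp (h * SS Y J ω) * Y a ω ∂μ := ⟨_, rfl⟩
  obtain ⟨X2, hX2⟩ : ∃ X, X = ∫ ω, Real.exp (h * SS Y J ω) * (Y a ω * Y a ω) ∂μ := ⟨_, rfl⟩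
  obtain ⟨C1, hC1⟩ : ∃ X, X = ∑ i ∈ J, ∫ ω, Y i ω * Y a ω ∂μ := ⟨_, rfl⟩
  obtain ⟨C2, hC2⟩ : ∃ X, X = ∫ ω, Y a ω * Y a ω ∂μ := ⟨_, rfl⟩
  obtain ⟨X0, hX0⟩ : ∃ X, X = ∫ ω, Real.exp (h * SS Y (insert a J) ω) ∂μ := ⟨_, rfl⟩
  rw [← hX1, ← hC1] at hfirst
  rw [← hX2, ← hC2] at hsecond
  rw [← hX0, ← hX1, ← hX2] at hthird
  rw [← hX0, ← hC1, ← hC2]
  have k1 : |h * X1 - h * (h * (φ * C1))| ≤ 21 * (|h| ^ 3 * D ^ 2) * φ := by
    rw [← mul_sub, abs_mul]
    have := mul_le_mul_of_nonneg_left hfirst hh0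
    calc |h| * |X1 - h * (φ * C1)| ≤ |h| * (21 * (|h| ^ 2 * D ^ 2) * φ) := this
      _ = _ := by ring
  have k2 : |h ^ 2 / 2 * X2 - h ^ 2 / 2 * (φ * C2)| ≤ 6 * (|h| ^ 3 * D) * φ := by
    rw [← mul_sub, abs_mul, abs_of_nonneg (by positivity : 0 ≤ h ^ 2 / 2)]
    have := mul_le_mul_of_nonneg_left hsecond (by positivity : 0 ≤ h ^ 2 / 2)
    calc h ^ 2 / 2 * |X2 - φ * C2| ≤ h ^ 2 / 2 * (12 * (|h| * D) * φ) := this
      _ = 6 * (h ^ 2 * |h| * D) * φ := by ring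
      _ = 6 * (|h| ^ 3 * D) * φ := by rw [← sq_abs]; ring
  have k3 : X0 - φ * (1 + h ^ 2 / 2 * (C2 + 2 * C1)) = (X0 - (φ + h * X1 + h ^ 2 / 2 * X2)) +
      (h * X1 - h * (h * (φ * C1))) + (h ^ 2 / 2 * X2 - h ^ 2 / 2 * (φ * C2)) := by ring
  rw [k3]
  have k4 := abs_add_le ((X0 - (φ + h * X1 + h ^ 2 / 2 * X2)) + (h * X1 - h * (h * (φ * C1))))
    (h ^ 2 / 2 * X2 - h ^ 2 / 2 * (φ * C2))
  have k5 := abs_add_le (X0 - (φ + h * X1 + h ^ 2 / 2 * X2)) (h * X1 - h * (h * (φ * C1)))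
  have k6 : |h| ^ 3 * D ≤ |h| ^ 3 * D ^ 2 :=
    mul_le_mul_of_nonneg_left (by nlinarith : D ≤ D ^ 2) (by positivity)
  have k7 : |h| ^ 3 ≤ |h| ^ 3 * D ^ 2 := by
    have e1 := mul_le_mul_of_nonneg_left (by nlinarith : 1 ≤ D ^ 2) (show 0 ≤ |h| ^ 3 by positivity)
    rwa [mul_one] at e1
  have k8 : |h| ^ 3 * φ + 21 * (|h| ^ 3 * D ^ 2) * φ + 6 * (|h| ^ 3 * D) * φ ≤ 28 * (D ^ 2 * |h| ^ 3) * φ := by
    have e1 := mul_le_mul_of_nonneg_right k6 hφ0.le
    have e2 := mul_le_mul_of_nonneg_right k7 hφ0.le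
    nlinarith
  linarith

theorem exp_low {y : ℝ} (hy : -(1 / 2) ≤ y) : Real.exp (y - 2 * y ^ 2) ≤ 1 + y := by
  have h1 : 1 - (y - 2 * y ^ 2) ≤ Real.exp (-(y - 2 * y ^ 2)) := by
    have := Real.add_one_le_exp (-(y - 2 * y ^ 2))
    linarith
  have h2 : 0 < 1 - (y - 2 * y ^ 2) := by nlinarith [sq_nonneg (y - 1 / 4)]
  have h3 : Real.exp (y - 2 * y ^ 2) * Real.exp (-(y - 2 * y ^ 2)) = 1 := by
    rw [← Real.exp_add, add_neg_cancel, Real.exp_zero]
  have h4 : 1 ≤ (1 + y) * (1 - (y - 2 * y ^ 2)) := by nlinarith [mul_nonneg (sq_nonneg y) (by linarith : 0 ≤ 1 + 2 * y)]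
  have h5 : 0 ≤ 1 + y := by linarith
  have h6 : (1 + y) * (1 - (y - 2 * y ^ 2)) ≤ (1 + y) * Real.exp (-(y - 2 * y ^ 2)) := mul_le_mul_of_nonneg_left h1 h5
  have h7 : Real.exp (y - 2 * y ^ 2) * Real.exp (-(y - 2 * y ^ 2)) ≤ (1 + y) * Real.exp (-(y - 2 * y ^ 2)) := by linarith
  exact le_of_mul_le_mul_right h7 (Real.exp_pos _)

/-- **The exponential moments.** -/
theorem mgf (hA : IsModel μ p A) (hY : ∀ j, Measurable[F A (U j : Set ι)] (Y j)) (hb : ∀ j ω, |Y j ω| ≤ 1)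
    (h0 : ∀ j, ∫ ω, Y j ω ∂μ = 0) {D h : ℝ} (hD : 1 ≤ D) (hh : 56 * (D * |h|) ≤ 1) (J : Finset κ)
    (hdeg : ∀ j ∈ J, ((nb U J j).card : ℝ) ≤ D) :
    Real.exp (h ^ 2 / 2 * VV μ Y J - 29 * (D ^ 2 * |h| ^ 3) * J.card) ≤ ∫ ω, Real.exp (h * SS Y J ω) ∂μ ∧
      ∫ ω, Real.exp (h * SS Y J ω) ∂μ ≤ Real.exp (h ^ 2 / 2 * VV μ Y J + 29 * (D ^ 2 * |h| ^ 3) * J.card) := by
  have hYm : ∀ j, Measurable (Y j) := fun j => (hY j).mono (F_le hA _) le_rfl
  have hh0 : 0 ≤ |h| := abs_nonneg h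
  have hYY1 : ∀ i j ω, |Y i ω * Y j ω| ≤ 1 := by
    intro i j ω
    rw [abs_mul]
    have e1 := hb i ω
    have e2 := hb j ω
    have e3 := abs_nonneg (Y i ω)
    have e4 := abs_nonneg (Y j ω)
    nlinarith
  have hcov : ∀ i j, |∫ ω, Y i ω * Y j ω ∂μ| ≤ 1 := by
    intro i j
    refine (abs_integral_le_integral_abs).trans ?_
    have e1 : ∫ ω, |Y i ω * Y j ω| ∂μ ≤ ∫ _ω, (1 : ℝ) ∂μ :=
      integral_mono (int_bdd ((hYm i).mul (hYm j)) 1 (hYY1 i j)).abs (integrable_const 1) (hYY1 i j)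
    simpa using e1
  induction J using Finset.induction_on with
  | empty => simp [VV, SS]
  | insert a J ha ih =>
    have hnb : ∀ j ∈ insert a J, ((nb U J j).card : ℝ) ≤ D := by
      intro j hj
      refine le_trans ?_ (hdeg j hj)
      have : (nb U J j).card ≤ (nb U (insert a J) j).card :=
        card_le_card (filter_subset_filter _ (subset_insert _ _))
      exact_mod_cast this
    obtain ⟨ih1, ih2⟩ := ih (fun j hj => hnb j (mem_insert_of_mem hj))
    have hst := step hA hY hb h0 hD (by nlinarith : 2 * (|h| * D) ≤ 1) ha hnb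
    obtain ⟨v, hv⟩ : ∃ v, v = ∫ ω, Y a ω * Y a ω ∂μ + 2 * ∑ i ∈ J, ∫ ω, Y i ω * Y a ω ∂μ := ⟨_, rfl⟩
    rw [VV_insert Y ha, ← hv]
    rw [← hv] at hst
    obtain ⟨φ, hφ⟩ : ∃ φ, φ = ∫ ω, Real.exp (h * SS Y J ω) ∂μ := ⟨_, rfl⟩
    obtain ⟨φ', hφ'⟩ : ∃ φ', φ' = ∫ ω, Real.exp (h * SS Y (insert a J) ω) ∂μ := ⟨_, rfl⟩
    have hφ0 : 0 < φ := by rw [hφ]; exact pos_exp hA hY hb J h
    rw [← hφ, ← hφ'] at hst
    rw [← hφ] at ih1 ih2
    rw [← hφ']
    -- the size of `v`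
    have hvb : |v| ≤ 3 * D := by
      have e1 : |∑ i ∈ J, ∫ ω, Y i ω * Y a ω ∂μ| ≤ D := by
        have e2 : ∑ i ∈ J, ∫ ω, Y i ω * Y a ω ∂μ = ∑ i ∈ nb U J a, ∫ ω, Y i ω * Y a ω ∂μ := by
          refine (sum_subset (filter_subset _ _) (fun i hi hiN => ?_)).symm
          have e3 : Disjoint (U i) (U a) := by
            unfold nb at hiN
            rw [mem_filter, not_and, not_not] at hiN
            exact hiN hi
          rw [int_mul hA (S := (U i : Set ι)) (T := (U a : Set ι)) (Finset.disjoint_coe.2 e3) (hY i) (hY a), h0, zero_mul]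
        rw [e2]
        refine (abs_sum_le_sum_abs _ _).trans ((sum_le_sum (fun i _ => hcov i a)).trans ?_)
        rw [sum_const, nsmul_eq_mul, mul_one]
        exact hnb a (mem_insert_self _ _)
      have e3 := hcov a a
      rw [hv]
      refine (abs_add_le _ _).trans ?_
      rw [abs_mul, abs_two]
      linarith
    obtain ⟨x, hx⟩ : ∃ x, x = h ^ 2 / 2 * v := ⟨_, rfl⟩
    obtain ⟨b, hbd⟩ : ∃ b, b = 28 * (D ^ 2 * |h| ^ 3) := ⟨_, rfl⟩
    rw [← hx, ← hbd] at hst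
    have hsq : h ^ 2 = |h| ^ 2 := (sq_abs h).symm
    have hb0 : 0 ≤ b := by rw [hbd]; positivity
    have hDh : 0 ≤ D * |h| ^ 2 := by positivity
    have hb1 : b ≤ 1 / 2 * (D * |h| ^ 2) := by
      have e1 : b = (28 * (D * |h|)) * (D * |h| ^ 2) := by rw [hbd]; ring
      rw [e1]
      exact mul_le_mul_of_nonneg_right (by linarith) hDh
    have hx1 : |x| ≤ 3 / 2 * (D * |h| ^ 2) := by
      rw [hx, abs_mul, abs_of_nonneg (by positivity : 0 ≤ h ^ 2 / 2), hsq]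
      have := mul_le_mul_of_nonneg_left hvb (show 0 ≤ |h| ^ 2 / 2 by positivity)
      linarith
    have hh1 : |h| ≤ 1 / 56 := by nlinarith
    have hsm : D * |h| ^ 2 ≤ 1 / 56 * |h| := by nlinarith
    have hy2 : 2 * (|x| + b) ^ 2 ≤ D ^ 2 * |h| ^ 3 := by
      have e1 : |x| + b ≤ 2 * (D * |h| ^ 2) := by linarith
      have e2 : 0 ≤ |x| + b := by positivity
      have e3 : (|x| + b) ^ 2 ≤ (2 * (D * |h| ^ 2)) ^ 2 := pow_le_pow_left₀ e2 e1 2
      have e4 : 2 * (2 * (D * |h| ^ 2)) ^ 2 = (8 * |h|) * (D ^ 2 * |h| ^ 3) := by ring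
      have e5 : (8 * |h|) * (D ^ 2 * |h| ^ 3) ≤ 1 * (D ^ 2 * |h| ^ 3) :=
        mul_le_mul_of_nonneg_right (by linarith) (by positivity)
      linarith
    have hxabs := abs_le.1 (le_refl |x|)
    rw [abs_le] at hst
    have hcard : ((insert a J).card : ℝ) = J.card + 1 := by
      rw [card_insert_of_notMem ha]
      push_cast
      ring
    rw [hcard]
    constructor
    · -- from below
      have e1 : φ * (1 + (x - b)) ≤ φ' := by linarith
      have e2 : -(1 / 2) ≤ x - b := by nlinarith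
      have e3 := exp_low e2
      have e4 : 2 * (x - b) ^ 2 ≤ D ^ 2 * |h| ^ 3 := by
        have e5 : (x - b) ^ 2 ≤ (|x| + b) ^ 2 := by
          rw [← sq_abs (x - b)]
          refine pow_le_pow_left₀ (abs_nonneg _) ?_ 2
          rw [abs_le]
          constructor <;> linarith
        linarith
      have e6 : Real.exp (x - 29 * (D ^ 2 * |h| ^ 3)) ≤ 1 + (x - b) := by
        refine le_trans (Real.exp_le_exp.2 ?_) e3
        rw [hbd] at e4 ⊢
        linarith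
      have e7 : Real.exp (h ^ 2 / 2 * (VV μ Y J + v) - 29 * (D ^ 2 * |h| ^ 3) * (J.card + 1)) =
          Real.exp (h ^ 2 / 2 * VV μ Y J - 29 * (D ^ 2 * |h| ^ 3) * J.card) * Real.exp (x - 29 * (D ^ 2 * |h| ^ 3)) := by
        rw [← Real.exp_add, hx]
        congr 1
        ring
      rw [e7]
      refine le_trans (mul_le_mul ih1 e6 (Real.exp_pos _).le hφ0.le) e1
    · have e1 : φ' ≤ φ * (1 + (x + b)) := by linarith
      have e2 : 1 + (x + b) ≤ Real.exp (x + 29 * (D ^ 2 * |h| ^ 3)) := by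
        have e3 := Real.add_one_le_exp (x + b)
        have e4 : Real.exp (x + b) ≤ Real.exp (x + 29 * (D ^ 2 * |h| ^ 3)) := by
          refine Real.exp_le_exp.2 ?_
          have : 0 ≤ D ^ 2 * |h| ^ 3 := by positivity
          rw [hbd]
          linarith
        linarith
      have e7 : Real.exp (h ^ 2 / 2 * (VV μ Y J + v) + 29 * (D ^ 2 * |h| ^ 3) * (J.card + 1)) =
          Real.exp (h ^ 2 / 2 * VV μ Y J + 29 * (D ^ 2 * |h| ^ 3) * J.card) * Real.exp (x + 29 * (D ^ 2 * |h| ^ 3)) := by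
        rw [← Real.exp_add, hx]
        congr 1
        ring
      rw [e7]
      have e8 := e1.trans (mul_le_mul_of_nonneg_left e2 hφ0.le)
      exact e8.trans (mul_le_mul_of_nonneg_right ih2 (Real.exp_pos _).le)

end Pool.Agent.Q106.MD
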