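import Pool.Agent.Q106.MD.Dev

/-!
# Moderate deviations for the numbers of configurations inside a random set
-/

set_option autoImplicit false

namespace Pool.Agent.Q106.MD

open Finset MeasureTheory ProbabilityTheory Filter Pool.Agent.Q120.GM Pool.Agent.Q106.UR

variable {Ω : Type*} [MeasurableSpace Ω] {μ : Measure Ω} [IsProbabilityMeasure μ] {ι κ : Type*} [DecidableEq ι]
  [DecidableEq κ] {p : ι → ℝ} {A : Ω → Set ι}

omit [DecidableEq κ] in
/-- The covariance of the indicators. -/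
theorem int_cov (hA : IsModel μ p A) (T U : Finset ι) :
    ∫ ω, (ind A T ω - pT p T) * (ind A U ω - pT p U) ∂μ = pT p (T ∪ U) - pT p T * pT p U := by
  obtain ⟨h1, h2⟩ := int_ind hA T
  obtain ⟨h3, h4⟩ := int_ind hA U
  obtain ⟨h5, h6⟩ := int_ind hA (T ∪ U)
  have e1 : ∀ ω, (ind A T ω - pT p T) * (ind A U ω - pT p U) =
      ind A (T ∪ U) ω - pT p U * ind A T ω - pT p T * ind A U ω + pT p T * pT p U := by
    intro ω
    rw [← ind_mul]
    ring
  simp_rw [e1]
  have k1 : Integrable (fun ω => pT p U * ind A T ω) μ := h1.const_mul _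
  have k2 : Integrable (fun ω => pT p T * ind A U ω) μ := h3.const_mul _
  have k3 : Integrable (fun ω => ind A (T ∪ U) ω - pT p U * ind A T ω) μ := h5.sub k1
  have k4 : Integrable (fun ω => ind A (T ∪ U) ω - pT p U * ind A T ω - pT p T * ind A U ω) μ := k3.sub k2
  rw [integral_add k4 (integrable_const _), integral_sub k3 k2, integral_sub h5 k1, integral_const_mul,
    integral_const_mul, h2, h4, h6, integral_const]
  simp
  ring

omit [DecidableEq κ] in
theorem pT_anti (hA : IsModel μ p A) {T U : Finset ι} (h : T ⊆ U) : pT p U ≤ pT p T := by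
  unfold pT
  rw [← prod_sdiff h]
  have h1 : ∏ i ∈ U \ T, p i ≤ 1 := prod_le_one (fun i _ => p_nonneg hA i) (fun i _ => p_le_one hA i)
  have h2 : 0 ≤ ∏ i ∈ T, p i := prod_nonneg (fun i _ => p_nonneg hA i)
  nlinarith

omit [MeasurableSpace Ω] [DecidableEq κ] in
theorem pT_union (T U : Finset ι) : pT p (T ∪ U) = pT p T * pT p (U \ T) := by
  unfold pT
  rw [← prod_union disjoint_sdiff, union_sdiff_self_eq_union]

omit [MeasurableSpace Ω] [DecidableEq κ] in
theorem cov_disjoint {T U : Finset ι} (h : Disjoint T U) : pT p (T ∪ U) - pT p T * pT p U = 0 := by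
  unfold pT
  rw [prod_union h, sub_self]

omit [DecidableEq κ] in
theorem cov_nonneg (hA : IsModel μ p A) (T U : Finset ι) : 0 ≤ pT p (T ∪ U) - pT p T * pT p U := by
  have h1 : pT p U ≤ pT p (U \ T) := pT_anti hA sdiff_subset
  rw [pT_union]
  have := pT_nonneg hA T
  nlinarith

omit [DecidableEq κ] in
theorem union_le (hA : IsModel μ p A) {T U : Finset ι} {s : ℝ} (hU : ∀ b ∈ U, p b ≤ s) (h : ¬ U ⊆ T) :
    pT p (T ∪ U) ≤ s * pT p T := by
  rw [Finset.not_subset] at h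
  obtain ⟨b, hb1, hb2⟩ := h
  have h2 : insert b T ⊆ T ∪ U := by
    intro c hc
    rw [mem_insert] at hc
    rcases hc with rfl | hc
    · exact mem_union_right _ hb1
    · exact mem_union_left _ hc
  refine (pT_anti hA h2).trans ?_
  unfold pT
  rw [prod_insert hb2]
  exact mul_le_mul_of_nonneg_right (hU b hb1) (prod_nonneg (fun i _ => p_nonneg hA i))

theorem amgm {a c P s x y : ℝ} (hs : 0 < s) (hP : 0 ≤ P) (h1 : P ≤ s ^ 2 * a) (h2 : P ≤ c) :
    |x * y| * P ≤ s / 2 * (x ^ 2 * a + y ^ 2 * c) := by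
  have e1 : 2 * s * (|x| * |y|) ≤ x ^ 2 + s ^ 2 * y ^ 2 := by
    have := sq_nonneg (|x| - s * |y|)
    have e2 := sq_abs x
    have e3 := sq_abs y
    nlinarith
  have e4 : 2 * s * (|x| * |y|) * P ≤ (x ^ 2 + s ^ 2 * y ^ 2) * P := mul_le_mul_of_nonneg_right e1 hP
  have e5 : x ^ 2 * P ≤ x ^ 2 * (s ^ 2 * a) := mul_le_mul_of_nonneg_left h1 (sq_nonneg x)
  have e6 : s ^ 2 * y ^ 2 * P ≤ s ^ 2 * y ^ 2 * c := mul_le_mul_of_nonneg_left h2 (by positivity)
  rw [abs_mul]
  refine le_of_mul_le_mul_left ?_ (by positivity : 0 < 2 * s)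
  nlinarith

omit [DecidableEq κ] in
theorem cov_le (hA : IsModel μ p A) {T U : Finset ι} (hTU : T ≠ U) {s : ℝ} (hs : 0 < s) (hT : ∀ b ∈ T, p b ≤ s ^ 2)
    (hU : ∀ b ∈ U, p b ≤ s ^ 2) (x y : ℝ) :
    |x * y * (pT p (T ∪ U) - pT p T * pT p U)| ≤ s / 2 * (x ^ 2 * pT p T + y ^ 2 * pT p U) := by
  have h0 := cov_nonneg hA T U
  have h1 : pT p (T ∪ U) - pT p T * pT p U ≤ pT p (T ∪ U) := by
    have := mul_nonneg (pT_nonneg hA T) (pT_nonneg hA U)
    linarith
  rw [abs_mul, abs_of_nonneg h0]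
  refine (mul_le_mul_of_nonneg_left h1 (abs_nonneg _)).trans ?_
  have h2 := pT_nonneg hA (T ∪ U)
  by_cases h : U ⊆ T
  · have h3 : ¬ T ⊆ U := fun h4 => hTU (Subset.antisymm h4 h)
    have h4 := union_le hA hT h3
    rw [union_comm] at h4
    have h5 := amgm (x := y) (y := x) hs h2 h4 (pT_anti hA subset_union_left)
    rw [mul_comm x y]
    linarith
  · exact amgm hs h2 (union_le hA hU h) (pT_anti hA subset_union_right)

/-- The variance of a linear combination. -/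
theorem var_bound (hA : IsModel μ p A) (J : Finset κ) (T : κ → Finset ι) (c : κ → ℝ) {D s : ℝ} (hs : 0 < s)
    (hs1 : s ≤ 1) (hp : ∀ j ∈ J, ∀ b ∈ T j, p b ≤ s ^ 2) (hne : ∀ j ∈ J, (T j).Nonempty)
    (hinj : ∀ i ∈ J, ∀ j ∈ J, T i = T j → i = j) (hdeg : ∀ j ∈ J, ((nb T J j).card : ℝ) ≤ D) :
    |∑ i ∈ J, ∑ j ∈ J, c i * c j * (pT p (T i ∪ T j) - pT p (T i) * pT p (T j)) - ∑ i ∈ J, c i ^ 2 * pT p (T i)| ≤
      s * D * ∑ i ∈ J, c i ^ 2 * pT p (T i) := by
  obtain ⟨w, hw⟩ : ∃ w : κ → ℝ, w = fun i => c i ^ 2 * pT p (T i) := ⟨_, rfl⟩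
  have hw0 : ∀ i, 0 ≤ w i := fun i => by
    rw [hw]
    exact mul_nonneg (sq_nonneg _) (pT_nonneg hA _)
  have hwi : ∀ i, c i ^ 2 * pT p (T i) = w i := fun i => by rw [hw]
  have h1 : ∀ i ∈ J, ∀ j ∈ J, |c i * c j * (pT p (T i ∪ T j) - pT p (T i) * pT p (T j)) - if i = j then w i else 0| ≤
      if ¬ Disjoint (T j) (T i) then s / 2 * (w i + w j) else 0 := by
    intro i hi j hj
    by_cases hij : i = j
    · subst hij
      have hnd : ¬ Disjoint (T i) (T i) := by
        rw [disjoint_self, Finset.bot_eq_empty]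
        exact (hne i hi).ne_empty
      rw [if_pos rfl, if_pos hnd, union_self]
      have e1 : pT p (T i) ≤ s ^ 2 := by
        obtain ⟨b, hb⟩ := hne i hi
        have e2 : pT p (T i) ≤ pT p {b} := pT_anti hA (singleton_subset_iff.2 hb)
        have e3 : pT p {b} = p b := by simp [pT]
        rw [e3] at e2
        exact e2.trans (hp i hi b hb)
      have e2 : c i * c i * (pT p (T i) - pT p (T i) * pT p (T i)) - w i = -(w i * pT p (T i)) := by
        rw [hw]
        ring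
      rw [e2, abs_neg, abs_of_nonneg (mul_nonneg (hw0 i) (pT_nonneg hA _))]
      have e3 := mul_le_mul_of_nonneg_left e1 (hw0 i)
      have e4 : w i * s ^ 2 ≤ w i * s := mul_le_mul_of_nonneg_left (by nlinarith) (hw0 i)
      linarith
    · rw [if_neg hij, sub_zero]
      by_cases hd : Disjoint (T j) (T i)
      · rw [if_neg (not_not.2 hd), cov_disjoint hd.symm, mul_zero, abs_zero]
      · rw [if_pos hd, ← hwi i, ← hwi j]
        exact cov_le hA (fun h => hij (hinj i hi j hj h)) hs (hp i hi) (hp j hj) _ _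
  have h2 : ∑ i ∈ J, ∑ j ∈ J, c i * c j * (pT p (T i ∪ T j) - pT p (T i) * pT p (T j)) - ∑ i ∈ J, w i =
      ∑ i ∈ J, ∑ j ∈ J, (c i * c j * (pT p (T i ∪ T j) - pT p (T i) * pT p (T j)) - if i = j then w i else 0) := by
    rw [← sum_sub_distrib]
    refine sum_congr rfl (fun i hi => ?_)
    rw [sum_sub_distrib, Finset.sum_ite_eq J i, if_pos hi]
  simp_rw [hwi]
  rw [h2]
  have h3 : |∑ i ∈ J, ∑ j ∈ J, (c i * c j * (pT p (T i ∪ T j) - pT p (T i) * pT p (T j)) - if i = j then w i else 0)| ≤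
      ∑ i ∈ J, ∑ j ∈ J, if ¬ Disjoint (T j) (T i) then s / 2 * (w i + w j) else 0 := by
    refine (abs_sum_le_sum_abs _ _).trans (sum_le_sum (fun i hi => ?_))
    exact (abs_sum_le_sum_abs _ _).trans (sum_le_sum (fun j hj => h1 i hi j hj))
  refine h3.trans ?_
  have h4 : ∑ i ∈ J, ∑ j ∈ J, (if ¬ Disjoint (T j) (T i) then s / 2 * (w i + w j) else 0) =
      s / 2 * (∑ i ∈ J, ∑ j ∈ J, if ¬ Disjoint (T j) (T i) then w i else 0) +
      s / 2 * (∑ i ∈ J, ∑ j ∈ J, if ¬ Disjoint (T j) (T i) then w j else 0) := by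
    rw [mul_sum, mul_sum, ← sum_add_distrib]
    refine sum_congr rfl (fun i _ => ?_)
    rw [mul_sum, mul_sum, ← sum_add_distrib]
    refine sum_congr rfl (fun j _ => ?_)
    split_ifs <;> ring
  have h5 : ∀ i ∈ J, (∑ j ∈ J, if ¬ Disjoint (T j) (T i) then w i else 0) ≤ D * w i := by
    intro i hi
    rw [← sum_filter, sum_const, nsmul_eq_mul]
    exact mul_le_mul_of_nonneg_right (hdeg i hi) (hw0 i)
  have h6 : (∑ i ∈ J, ∑ j ∈ J, if ¬ Disjoint (T j) (T i) then w j else 0) ≤ ∑ i ∈ J, D * w i := by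
    rw [sum_comm]
    refine sum_le_sum (fun j hj => ?_)
    refine le_trans (le_of_eq ?_) (h5 j hj)
    exact sum_congr rfl (fun i _ => if_congr (not_congr disjoint_comm) rfl rfl)
  have h7 := sum_le_sum h5
  rw [← mul_sum] at h6 h7
  rw [h4]
  nlinarith

/-- **Exponential moments of a linear combination of indicators.** -/
theorem pat (hA : IsModel μ p A) (J : Finset κ) (T : κ → Finset ι) (c : κ → ℝ) {h D s : ℝ} (hh : 0 ≤ h)
    (hc : ∀ j ∈ J, |c j| ≤ h) (hD : 1 ≤ D) (hhD : 56 * (D * h) ≤ 1) (hs : 0 < s)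
    (hs1 : s ≤ 1) (hp : ∀ j ∈ J, ∀ b ∈ T j, p b ≤ s ^ 2) (hne : ∀ j ∈ J, (T j).Nonempty)
    (hinj : ∀ i ∈ J, ∀ j ∈ J, T i = T j → i = j) (hdeg : ∀ j ∈ J, ((nb T J j).card : ℝ) ≤ D) {W : ℝ}
    (hW : W = ∑ i ∈ J, c i ^ 2 * pT p (T i)) :
    Real.exp (W / 2 - s * D * W / 2 - 29 * (D ^ 2 * h ^ 3) * J.card) ≤
      ∫ ω, Real.exp (∑ j ∈ J, c j * (ind A (T j) ω - pT p (T j))) ∂μ ∧
    ∫ ω, Real.exp (∑ j ∈ J, c j * (ind A (T j) ω - pT p (T j))) ∂μ ≤
      Real.exp (W / 2 + s * D * W / 2 + 29 * (D ^ 2 * h ^ 3) * J.card) := by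
  rcases hh.eq_or_lt with h0 | h0
  · have hc0 : ∀ j ∈ J, c j = 0 := by
      intro j hj
      have := hc j hj
      rw [← h0] at this
      exact abs_nonpos_iff.1 this
    have hW0 : W = 0 := by
      rw [hW]
      refine sum_eq_zero (fun j hj => ?_)
      rw [hc0 j hj]
      ring
    have e1 : ∀ ω, ∑ j ∈ J, c j * (ind A (T j) ω - pT p (T j)) = 0 := by
      intro ω
      refine sum_eq_zero (fun j hj => ?_)
      rw [hc0 j hj]
      ring
    simp_rw [e1]
    rw [hW0, ← h0]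
    simp
  · obtain ⟨b, hb⟩ : ∃ b : κ → ℝ, b = fun j => (if j ∈ J then c j else 0) / h := ⟨_, rfl⟩
    have hb1 : ∀ j, |b j| ≤ 1 := by
      intro j
      rw [hb]
      simp only
      rw [abs_div, abs_of_pos h0, div_le_one h0]
      split_ifs with hj
      · exact hc j hj
      · rw [abs_zero]
        exact hh
    have hbJ : ∀ j ∈ J, h * b j = c j := by
      intro j hj
      rw [hb]
      simp only [if_pos hj]
      field_simp
    obtain ⟨Y, hY⟩ : ∃ Y : κ → Ω → ℝ, Y = fun j ω => b j * (ind A (T j) ω - pT p (T j)) := ⟨_, rfl⟩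
    have hYm : ∀ j, Measurable[F A (T j : Set ι)] (Y j) := by
      intro j
      rw [hY]
      let _ : MeasurableSpace Ω := F A (T j : Set ι)
      exact ((F_ind (A := A) (S := (T j : Set ι)) (fun i hi => hi)).sub_const _).const_mul _
    have hYb : ∀ j ω, |Y j ω| ≤ 1 := by
      intro j ω
      rw [hY]
      simp only
      rw [abs_mul]
      have e1 : |ind A (T j) ω - pT p (T j)| ≤ 1 := by
        rw [abs_le]
        have := ind_nonneg (A := A) (T j) ω
        have := ind_le_one (A := A) (T j) ω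
        have := pT_nonneg hA (T j)
        have := pT_le_one hA (T j)
        constructor <;> linarith
      have e2 := hb1 j
      have e3 := abs_nonneg (b j)
      have e4 := abs_nonneg (ind A (T j) ω - pT p (T j))
      nlinarith
    have hY0 : ∀ j, ∫ ω, Y j ω ∂μ = 0 := by
      intro j
      rw [hY]
      simp only
      obtain ⟨h1, h2⟩ := int_ind hA (T j)
      rw [integral_const_mul, integral_sub h1 (integrable_const _), h2, integral_const]
      simp
    have hm := mgf hA hYm hYb hY0 hD (h := h) (by rw [abs_of_pos h0]; exact hhD) J hdeg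
    rw [abs_of_pos h0] at hm
    have e1 : ∀ ω, h * SS Y J ω = ∑ j ∈ J, c j * (ind A (T j) ω - pT p (T j)) := by
      intro ω
      unfold SS
      rw [mul_sum]
      refine sum_congr rfl (fun j hj => ?_)
      rw [hY]
      simp only
      rw [← mul_assoc, hbJ j hj]
    simp_rw [e1] at hm
    have e2 : h ^ 2 / 2 * VV μ Y J =
        (∑ i ∈ J, ∑ j ∈ J, c i * c j * (pT p (T i ∪ T j) - pT p (T i) * pT p (T j))) / 2 := by
      unfold VV
      rw [mul_sum, sum_div]
      refine sum_congr rfl (fun i hi => ?_)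
      rw [mul_sum, sum_div]
      refine sum_congr rfl (fun j hj => ?_)
      have e3 : ∀ ω, Y i ω * Y j ω = (b i * b j) * ((ind A (T i) ω - pT p (T i)) * (ind A (T j) ω - pT p (T j))) := by
        intro ω
        rw [hY]
        ring
      simp_rw [e3]
      rw [integral_const_mul, int_cov hA, ← hbJ i hi, ← hbJ j hj]
      ring
    rw [e2] at hm
    have hv := var_bound hA J T c hs hs1 hp hne hinj hdeg
    rw [← hW, abs_le] at hv
    refine ⟨le_trans (Real.exp_le_exp.2 ?_) hm.1, hm.2.trans (Real.exp_le_exp.2 ?_)⟩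
    · linarith
    · linarith

/-- Systems of configurations. -/
structure PSys {K : Type*} {r : ℕ} (p : ι → ℝ) (l : Filter K) (J : K → Fin r → Finset κ)
    (T : K → Fin r → κ → Finset ι) (e : K → Fin r → ℝ) (e₀ L : K → ℝ) (D : ℝ) : Prop where
  lim : Tendsto L l atTop
  inj : ∀ n i j i' j', j ∈ J n i → j' ∈ J n i' → T n i j = T n i' j' → i = i' ∧ j = j'
  ne : ∀ n i, ∀ j ∈ J n i, (T n i j).Nonempty
  oneD : 1 ≤ D
  deg : ∀ n i, ∀ j ∈ J n i,
    (((univ.sigma (J n)).filter (fun x => ¬ Disjoint (T n x.1 x.2) (T n i j))).card : ℝ) ≤ D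
  small : ∀ s > 0, ∀ᶠ n in l, ∀ i, ∀ j ∈ J n i, ∀ b ∈ T n i j, p b ≤ s
  le : ∀ᶠ n in l, ∀ i, e₀ n ≤ e n i
  big : ∀ R : ℝ, ∀ᶠ n in l, R * L n ≤ e₀ n
  mean : ∀ η > 0, ∀ᶠ n in l, ∀ i, |∑ j ∈ J n i, pT p (T n i j) - e n i| ≤ η * Real.sqrt (e n i)
  rat : ∀ η > 0, ∀ᶠ n in l, L n * ((univ.sigma (J n)).card : ℝ) ^ 2 ≤ η * e₀ n ^ 3

/-- The normalized deviations. -/
noncomputable def dev {K : Type*} {r : ℕ} (A : Ω → Set ι) (J : K → Fin r → Finset κ)
    (T : K → Fin r → κ → Finset ι) (e : K → Fin r → ℝ) (L : K → ℝ) (n : K) (i : Fin r) (ω : Ω) : ℝ :=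
  (nm A (J n i) (T n i) ω - e n i) / Real.sqrt (2 * e n i * L n)

theorem sqrt_id {e L : ℝ} (he : 0 < e) (hL : 0 < L) (x : ℝ) :
    L * (x / Real.sqrt (2 * e * L)) = Real.sqrt (L / (2 * e)) * x := by
  have h1 : Real.sqrt (L / (2 * e)) * Real.sqrt (2 * e * L) = L := by
    rw [← Real.sqrt_mul (by positivity)]
    have : L / (2 * e) * (2 * e * L) = L ^ 2 := by field_simp
    rw [this, Real.sqrt_sq hL.le]
  have h2 : 0 < Real.sqrt (2 * e * L) := Real.sqrt_pos.2 (by positivity)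
  rw [mul_div_assoc', div_eq_iff h2.ne']
  calc L * x = (Real.sqrt (L / (2 * e)) * Real.sqrt (2 * e * L)) * x := by rw [h1]
    _ = _ := by ring

omit [DecidableEq ι] [DecidableEq κ] in
theorem dev_meas {K : Type*} {r : ℕ} (hA : IsModel μ p A) (J : K → Fin r → Finset κ) (T : K → Fin r → κ → Finset ι)
    (e : K → Fin r → ℝ) (L : K → ℝ) (n : K) (i : Fin r) : Measurable (dev A J T e L n i) :=
  ((meas_nm hA _ _).sub_const _).div_const _

omit [DecidableEq ι] [DecidableEq κ] in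
theorem dev_int {K : Type*} {r : ℕ} (hA : IsModel μ p A) (J : K → Fin r → Finset κ) (T : K → Fin r → κ → Finset ι)
    (e : K → Fin r → ℝ) (L : K → ℝ) (n : K) (θ : Fin r → ℝ) :
    Integrable (fun ω => Real.exp (L n * ∑ i, θ i * dev A J T e L n i ω)) μ := by
  have hm : Measurable (fun ω => L n * ∑ i, θ i * dev A J T e L n i ω) :=
    (Finset.measurable_fun_sum _ (fun i _ => (dev_meas hA J T e L n i).const_mul _)).const_mul _
  refine int_bdd hm.exp
    (Real.exp (|L n| * ∑ i, |θ i| * (((J n i).card + |e n i|) / Real.sqrt (2 * e n i * L n)))) (fun ω => ?_)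
  rw [abs_of_pos (Real.exp_pos _)]
  refine Real.exp_le_exp.2 ((le_abs_self _).trans ?_)
  rw [abs_mul]
  refine mul_le_mul_of_nonneg_left ?_ (abs_nonneg _)
  refine (abs_sum_le_sum_abs _ _).trans (sum_le_sum (fun i _ => ?_))
  rw [abs_mul]
  refine mul_le_mul_of_nonneg_left ?_ (abs_nonneg _)
  unfold dev
  rw [abs_div, abs_of_nonneg (Real.sqrt_nonneg _)]
  refine div_le_div_of_nonneg_right ?_ (Real.sqrt_nonneg _)
  have h1 := nm_nonneg (A := A) (J n i) (T n i) ω
  have h2 := nm_le (A := A) (J n i) (T n i) ω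
  have h3 := neg_abs_le (e n i)
  have h4 := le_abs_self (e n i)
  rw [abs_le]
  constructor <;> linarith

/-- The exponential moments of the deviations. -/
theorem core {K : Type*} {l : Filter K} {r : ℕ} {J : K → Fin r → Finset κ} {T : K → Fin r → κ → Finset ι}
    {e : K → Fin r → ℝ} {e₀ L : K → ℝ} {D : ℝ} (hA : IsModel μ p A) (hS : PSys p l J T e e₀ L D)
    (θ : Fin r → ℝ) {η : ℝ} (hη : 0 < η) : ∀ᶠ n in l,
    Real.exp (L n * ((∑ i, θ i ^ 2) / 4 - η)) ≤ ∫ ω, Real.exp (L n * ∑ i, θ i * dev A J T e L n i ω) ∂μ ∧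
    ∫ ω, Real.exp (L n * ∑ i, θ i * dev A J T e L n i ω) ∂μ ≤ Real.exp (L n * ((∑ i, θ i ^ 2) / 4 + η)) := by
  obtain ⟨B, hB⟩ : ∃ B, B = ∑ i, |θ i| := ⟨_, rfl⟩
  obtain ⟨S, hSd⟩ : ∃ S, S = ∑ i, θ i ^ 2 := ⟨_, rfl⟩
  have hB0 : 0 ≤ B := by rw [hB]; exact sum_nonneg (fun _ _ => abs_nonneg _)
  have hS0 : 0 ≤ S := by rw [hSd]; exact sum_nonneg (fun _ _ => sq_nonneg _)
  have hD := hS.oneD
  have hD0 : 0 < D := by linarith
  obtain ⟨C, hC⟩ : ∃ C, C = B + S + 29 * (D ^ 2 * B ^ 3) + 1 := ⟨_, rfl⟩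
  have hC0 : 0 < C := by rw [hC]; positivity
  obtain ⟨δ, hδ⟩ : ∃ δ, δ = min 1 (η / C) := ⟨_, rfl⟩
  have hδ0 : 0 < δ := by rw [hδ]; exact lt_min one_pos (by positivity)
  have hδ1 : δ ≤ 1 := by rw [hδ]; exact min_le_left _ _
  have hδC : δ * C ≤ η := by
    have h1 : δ ≤ η / C := by rw [hδ]; exact min_le_right _ _
    rwa [le_div_iff₀ hC0] at h1
  have hs0 : 0 < δ / D := by positivity
  have hs1 : δ / D ≤ 1 := by
    rw [div_le_one hD0]
    linarith
  filter_upwards [hS.lim.eventually_ge_atTop 1, hS.small ((δ / D) ^ 2) (by positivity), hS.le,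
    hS.big ((56 * D * B) ^ 2 + 1), hS.mean δ hδ0, hS.rat (δ ^ 2) (by positivity)] with n hL hsm hle hbig hmean hrat
  have hL0 : 0 < L n := by linarith
  have he0 : L n ≤ e₀ n := by nlinarith [sq_nonneg (56 * D * B)]
  have he1 : 1 ≤ e₀ n := by linarith
  have he : ∀ i, 1 ≤ e n i := fun i => he1.trans (hle i)
  obtain ⟨g, hg⟩ : ∃ g : Fin r → ℝ, g = fun i => Real.sqrt (L n / (2 * e n i)) := ⟨_, rfl⟩
  obtain ⟨g₀, hg₀⟩ : ∃ g₀, g₀ = Real.sqrt (L n / (2 * e₀ n)) := ⟨_, rfl⟩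
  have hg0 : ∀ i, 0 ≤ g i := fun i => by rw [hg]; exact Real.sqrt_nonneg _
  have hg₀0 : 0 ≤ g₀ := by rw [hg₀]; exact Real.sqrt_nonneg _
  have hgle : ∀ i, g i ≤ g₀ := by
    intro i
    rw [hg, hg₀]
    refine Real.sqrt_le_sqrt ?_
    have := hle i
    gcongr
  have hg2 : ∀ i, g i ^ 2 = L n / (2 * e n i) := by
    intro i
    have := he i
    rw [hg]
    exact Real.sq_sqrt (by positivity)
  have hg₀2 : g₀ ^ 2 = L n / (2 * e₀ n) := by
    rw [hg₀]
    exact Real.sq_sqrt (by positivity)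
  obtain ⟨X, hX⟩ : ∃ X : Finset ((_ : Fin r) × κ), X = univ.sigma (J n) := ⟨_, rfl⟩
  obtain ⟨c, hc⟩ : ∃ c : ((_ : Fin r) × κ) → ℝ, c = fun x => θ x.1 * g x.1 := ⟨_, rfl⟩
  have hmemX : ∀ x, x ∈ X ↔ x.2 ∈ J n x.1 := by
    intro x
    rw [hX, mem_sigma]
    simp
  have hθB : ∀ i, |θ i| ≤ B := fun i => by
    rw [hB]
    exact single_le_sum (f := fun i => |θ i|) (fun _ _ => abs_nonneg _) (mem_univ i)
  have hcb : ∀ x ∈ X, |c x| ≤ B * g₀ := by
    intro x _
    rw [hc]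
    simp only
    rw [abs_mul, abs_of_nonneg (hg0 x.1)]
    exact mul_le_mul (hθB x.1) (hgle x.1) (hg0 x.1) hB0
  have hh0 : 0 ≤ B * g₀ := mul_nonneg hB0 hg₀0
  have hhD : 56 * (D * (B * g₀)) ≤ 1 := by
    by_contra hcon
    push Not at hcon
    have h1 : 1 < (56 * (D * (B * g₀))) ^ 2 := by nlinarith
    have h2 : (56 * (D * (B * g₀))) ^ 2 = (56 * D * B) ^ 2 * (L n / (2 * e₀ n)) := by
      rw [← hg₀2]
      ring
    rw [h2, mul_div_assoc', lt_div_iff₀ (by positivity)] at h1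
    nlinarith
  obtain ⟨W, hW⟩ : ∃ W, W = ∑ x ∈ X, c x ^ 2 * pT p (T n x.1 x.2) := ⟨_, rfl⟩
  obtain ⟨M, hM⟩ : ∃ M : Fin r → ℝ, M = fun i => ∑ j ∈ J n i, pT p (T n i j) := ⟨_, rfl⟩
  obtain ⟨I, hI⟩ : ∃ I, I = ∫ ω, Real.exp (∑ x ∈ X, c x * (ind A (T n x.1 x.2) ω - pT p (T n x.1 x.2))) ∂μ := ⟨_, rfl⟩
  have hpat := pat hA X (fun x => T n x.1 x.2) c hh0 hcb hD hhD hs0 hs1
    (fun x hx b hb => hsm x.1 x.2 ((hmemX x).1 hx) b hb) (fun x hx => hS.ne n x.1 x.2 ((hmemX x).1 hx))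
    (fun x hx y hy hxy => by
      have h1 := hS.inj n x.1 x.2 y.1 y.2 ((hmemX x).1 hx) ((hmemX y).1 hy) hxy
      obtain ⟨x1, x2⟩ := x
      obtain ⟨y1, y2⟩ := y
      simp only at h1
      rw [Sigma.mk.injEq]
      exact ⟨h1.1, heq_of_eq h1.2⟩)
    (fun x hx => by
      have h1 := hS.deg n x.1 x.2 ((hmemX x).1 hx)
      rw [← hX] at h1
      exact h1) hW
  rw [← hI] at hpat
  -- the integral
  have hR : ∀ ω, L n * ∑ i, θ i * dev A J T e L n i ω = ∑ i, θ i * g i * (M i - e n i) +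
      ∑ x ∈ X, c x * (ind A (T n x.1 x.2) ω - pT p (T n x.1 x.2)) := by
    intro ω
    rw [hX, sum_sigma, mul_sum, ← sum_add_distrib]
    refine sum_congr rfl (fun i _ => ?_)
    rw [hc, hM]
    simp only
    rw [← mul_sum, sum_sub_distrib]
    have h1 : ∑ j ∈ J n i, ind A (T n i j) ω = nm A (J n i) (T n i) ω := rfl
    rw [h1]
    have h2 := sqrt_id (show 0 < e n i by linarith [he i]) hL0 (nm A (J n i) (T n i) ω - e n i)
    unfold dev
    calc L n * (θ i * ((nm A (J n i) (T n i) ω - e n i) / Real.sqrt (2 * e n i * L n))) =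
        θ i * (L n * ((nm A (J n i) (T n i) ω - e n i) / Real.sqrt (2 * e n i * L n))) := by ring
      _ = _ := by
        rw [h2, hg]
        ring
  obtain ⟨R, hRd⟩ : ∃ R, R = ∑ i, θ i * g i * (M i - e n i) := ⟨_, rfl⟩
  have hint : ∫ ω, Real.exp (L n * ∑ i, θ i * dev A J T e L n i ω) ∂μ = Real.exp R * I := by
    rw [hI, ← integral_const_mul]
    congr 1
    ext ω
    rw [hR ω, ← hRd, Real.exp_add]
  rw [hint]
  -- the remainder
  have hRb : |R| ≤ δ * L n * B := by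
    rw [hRd, hB, mul_sum]
    refine (abs_sum_le_sum_abs _ _).trans (sum_le_sum (fun i _ => ?_))
    rw [abs_mul, abs_mul, abs_of_nonneg (hg0 i)]
    have h1 : |M i - e n i| ≤ δ * Real.sqrt (e n i) := by
      rw [hM]
      exact hmean i
    have h2 : g i * Real.sqrt (e n i) ≤ L n := by
      rw [hg]
      simp only
      have h3 := he i
      rw [← Real.sqrt_mul (by positivity)]
      have h4 : L n / (2 * e n i) * e n i = L n / 2 := by field_simp
      rw [h4, Real.sqrt_le_left hL0.le]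
      nlinarith
    have h3 : |θ i| * g i * |M i - e n i| ≤ |θ i| * g i * (δ * Real.sqrt (e n i)) :=
      mul_le_mul_of_nonneg_left h1 (mul_nonneg (abs_nonneg _) (hg0 i))
    have h4 : |θ i| * g i * (δ * Real.sqrt (e n i)) = δ * |θ i| * (g i * Real.sqrt (e n i)) := by ring
    have h5 : δ * |θ i| * (g i * Real.sqrt (e n i)) ≤ δ * |θ i| * L n :=
      mul_le_mul_of_nonneg_left h2 (mul_nonneg hδ0.le (abs_nonneg _))
    linarith
  have hWe : W = ∑ i, θ i ^ 2 * (L n / (2 * e n i)) * M i := by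
    rw [hW, hX, sum_sigma]
    refine sum_congr rfl (fun i _ => ?_)
    rw [hM]
    simp only
    rw [mul_sum]
    refine sum_congr rfl (fun j _ => ?_)
    rw [hc, ← hg2 i]
    ring
  have hWb : |W / 2 - L n * S / 4| ≤ δ * L n * S / 4 := by
    have h1 : W / 2 - L n * S / 4 = ∑ i, L n * θ i ^ 2 / 4 * ((M i - e n i) / e n i) := by
      rw [hWe, hSd, mul_sum, sum_div, sum_div, ← sum_sub_distrib]
      refine sum_congr rfl (fun i _ => ?_)
      have := he i
      field_simp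
      ring
    rw [h1, hSd, mul_sum, sum_div]
    refine (abs_sum_le_sum_abs _ _).trans (sum_le_sum (fun i _ => ?_))
    have h2 := he i
    rw [abs_mul, abs_of_nonneg (by positivity : 0 ≤ L n * θ i ^ 2 / 4), abs_div, abs_of_pos (by linarith : 0 < e n i)]
    have h3 : |M i - e n i| / e n i ≤ δ := by
      rw [div_le_iff₀ (by linarith)]
      have h4 : |M i - e n i| ≤ δ * Real.sqrt (e n i) := by
        rw [hM]
        exact hmean i
      have h5 : Real.sqrt (e n i) ≤ e n i := by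
        rw [Real.sqrt_le_left (by linarith)]
        nlinarith
      exact h4.trans (mul_le_mul_of_nonneg_left h5 hδ0.le)
    have h4 := mul_le_mul_of_nonneg_left h3 (by positivity : 0 ≤ L n * θ i ^ 2 / 4)
    linarith
  have hW0 : 0 ≤ W := by
    rw [hW]
    exact sum_nonneg (fun x _ => mul_nonneg (sq_nonneg _) (pT_nonneg hA _))
  have hsD : δ / D * D * W / 2 = δ * W / 2 := by field_simp
  rw [hsD] at hpat
  have hcard : 29 * (D ^ 2 * (B * g₀) ^ 3) * X.card ≤ 29 * (D ^ 2 * B ^ 3) * (δ * L n) := by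
    have h1 : g₀ ^ 3 * X.card ≤ δ * L n := by
      by_contra hcon
      push Not at hcon
      have h2 := pow_lt_pow_left₀ hcon (by positivity) two_ne_zero
      have h3 : (g₀ ^ 3 * (X.card : ℝ)) ^ 2 = (g₀ ^ 2) ^ 3 * (X.card : ℝ) ^ 2 := by ring
      rw [h3, hg₀2] at h2
      have h4 : (L n / (2 * e₀ n)) ^ 3 * (X.card : ℝ) ^ 2 = L n ^ 2 * (L n * (X.card : ℝ) ^ 2) / (8 * e₀ n ^ 3) := by
        field_simp
        ring
      rw [h4, lt_div_iff₀ (by positivity)] at h2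
      rw [← hX] at hrat
      have h5 := mul_le_mul_of_nonneg_left hrat (by positivity : 0 ≤ L n ^ 2)
      have h6 : 0 < (δ * L n) ^ 2 * e₀ n ^ 3 := by positivity
      nlinarith
    have h2 : 29 * (D ^ 2 * (B * g₀) ^ 3) * X.card = 29 * (D ^ 2 * B ^ 3) * (g₀ ^ 3 * X.card) := by ring
    rw [h2]
    exact mul_le_mul_of_nonneg_left h1 (by positivity)
  rw [← hSd]
  rw [abs_le] at hRb hWb
  have hfin : δ * L n * B + δ * L n * S / 4 + δ * W / 2 + 29 * (D ^ 2 * B ^ 3) * (δ * L n) ≤ η * L n := by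
    have h1 : W / 2 ≤ L n * S / 2 := by
      have h2 : δ * L n * S / 4 ≤ L n * S / 4 := by
        have := mul_le_mul_of_nonneg_right hδ1 (by positivity : 0 ≤ L n * S / 4)
        linarith
      linarith [hWb.2]
    have h2 : δ * W / 2 ≤ δ * (L n * S / 2) := by
      have := mul_le_mul_of_nonneg_left h1 hδ0.le
      linarith
    have h3 : δ * C * L n ≤ η * L n := mul_le_mul_of_nonneg_right hδC hL0.le
    have h4 : δ * C * L n = δ * L n * B + δ * L n * S + 29 * (D ^ 2 * B ^ 3) * (δ * L n) + δ * L n := by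
      rw [hC]
      ring
    have h5 : 0 ≤ δ * L n * S := by positivity
    have h6 : 0 ≤ δ * L n := by positivity
    linarith
  constructor
  · refine le_trans ?_ (mul_le_mul_of_nonneg_left hpat.1 (Real.exp_pos R).le)
    rw [← Real.exp_add]
    refine Real.exp_le_exp.2 ?_
    linarith [hRb.1, hWb.1]
  · refine (mul_le_mul_of_nonneg_left hpat.2 (Real.exp_pos R).le).trans ?_
    rw [← Real.exp_add]
    refine Real.exp_le_exp.2 ?_
    linarith [hRb.2, hWb.2]

/-- **The deviations of a system.** -/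
theorem gau_of {K : Type*} {l : Filter K} {r : ℕ} {J : K → Fin r → Finset κ} {T : K → Fin r → κ → Finset ι}
    {e : K → Fin r → ℝ} {e₀ L : K → ℝ} {D : ℝ} (hA : IsModel μ p A) (hS : PSys p l J T e e₀ L D) :
    Gau μ l (dev A J T e L) L where
  lim := hS.lim
  meas := fun n i => dev_meas hA J T e L n i
  int := fun n θ => dev_int hA J T e L n θ
  up := fun θ _ hη => (core hA hS θ hη).mono (fun _ h => h.2)
  low := fun θ _ hη => (core hA hS θ hη).mono (fun _ h => h.1)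

end Pool.Agent.Q106.MD
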