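import Pool.Agent.Q106.MD.Sys

/-!
# Tuples between consecutive powers
-/

set_option autoImplicit false

namespace Pool.Agent.Q106.MD

open Finset MeasureTheory ProbabilityTheory Filter Pool.Agent.Q120.GM Pool.Agent.Q106.UR

theorem log_summable {a : ℝ} : Summable (fun n : ℕ => Real.exp (-(Real.log n * a))) ↔ 1 < a := by
  rw [← summable_nat_add_iff 1]
  have h1 : ∀ n : ℕ, Real.exp (-(Real.log ((n + 1 : ℕ) : ℝ) * a)) = ((n + 1 : ℕ) : ℝ) ^ (-a) := by
    intro n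
    have : (0 : ℝ) < ((n + 1 : ℕ) : ℝ) := by positivity
    rw [Real.rpow_def_of_pos this]
    congr 1
    ring
  simp_rw [h1]
  rw [summable_nat_add_iff (f := fun n : ℕ => (n : ℝ) ^ (-a)) 1, Real.summable_nat_rpow]
  constructor <;> intro h <;> linarith

/-- The length of the window. -/
noncomputable def len (k n : ℕ) : ℝ := ((n : ℝ) + 1) ^ k - (n : ℝ) ^ k

theorem len_bounds {k n : ℕ} (hk : 1 ≤ k) : (n : ℝ) ^ (k - 1) ≤ len k n ∧ len k n ≤ k * ((n : ℝ) + 1) ^ (k - 1) := by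
  obtain ⟨j, rfl⟩ : ∃ j, k = j + 1 := ⟨k - 1, by omega⟩
  simp only [Nat.add_sub_cancel]
  have hn : (0 : ℝ) ≤ n := Nat.cast_nonneg n
  unfold len
  constructor
  · have h1 : (n : ℝ) ^ j ≤ ((n : ℝ) + 1) ^ j := pow_le_pow_left₀ hn (by linarith) j
    rw [pow_succ, pow_succ]
    nlinarith
  · induction j with
    | zero => simp
    | succ j ih =>
      have h1 : ((n : ℝ) + 1) ^ (j + 1 + 1) - (n : ℝ) ^ (j + 1 + 1) =
          n * (((n : ℝ) + 1) ^ (j + 1) - (n : ℝ) ^ (j + 1)) + ((n : ℝ) + 1) ^ (j + 1) := by ring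
      rw [h1]
      have h2 := mul_le_mul_of_nonneg_left (ih (by omega)) hn
      have h3 : 0 ≤ ((j + 1 : ℕ) : ℝ) * ((n : ℝ) + 1) ^ j := by positivity
      have h4 : ((j + 1 + 1 : ℕ) : ℝ) * ((n : ℝ) + 1) ^ (j + 1) =
          (n : ℝ) * (((j + 1 : ℕ) : ℝ) * ((n : ℝ) + 1) ^ j) + ((j + 1 : ℕ) : ℝ) * ((n : ℝ) + 1) ^ j + ((n : ℝ) + 1) ^ (j + 1) := by
        push_cast
        ring
      rw [h4]
      linarith

theorem len_up {k n : ℕ} (hk : 1 ≤ k) (hn : 1 ≤ n) : len k n ≤ k * 2 ^ k * (n : ℝ) ^ (k - 1) := by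
  have h1 := (len_bounds (n := n) hk).2
  have hn1 : (1 : ℝ) ≤ n := by exact_mod_cast hn
  have h2 : ((n : ℝ) + 1) ^ (k - 1) ≤ (2 * (n : ℝ)) ^ (k - 1) := pow_le_pow_left₀ (by positivity) (by linarith) _
  rw [mul_pow] at h2
  have h3 : (2 : ℝ) ^ (k - 1) ≤ 2 ^ k := pow_le_pow_right₀ (by norm_num) (by omega)
  have h4 : 0 ≤ (n : ℝ) ^ (k - 1) := by positivity
  have h5 : (2 : ℝ) ^ (k - 1) * (n : ℝ) ^ (k - 1) ≤ 2 ^ k * (n : ℝ) ^ (k - 1) := mul_le_mul_of_nonneg_right h3 h4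
  have h6 : (k : ℝ) * ((n : ℝ) + 1) ^ (k - 1) ≤ k * (2 ^ k * (n : ℝ) ^ (k - 1)) :=
    mul_le_mul_of_nonneg_left (h2.trans h5) (Nat.cast_nonneg k)
  linarith

/-- The ends of the cells. -/
noncomputable def lo (k n : ℕ) (u : ℚ) : ℕ := max (n ^ k + 1) ⌈(n : ℝ) ^ k + u * len k n⌉₊

noncomputable def hi (k n : ℕ) (v : ℚ) : ℕ := ⌈(n : ℝ) ^ k + v * len k n⌉₊

theorem len_pos {k n : ℕ} (hk : 1 ≤ k) : 0 < len k n := by
  unfold len
  have hn : (0 : ℝ) ≤ n := Nat.cast_nonneg n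
  have := pow_lt_pow_left₀ (show (n : ℝ) < n + 1 by linarith) hn (by omega : k ≠ 0)
  linarith

theorem lo_le_hi {k n : ℕ} (hk : 1 ≤ k) {u v : ℚ} (hu : 0 ≤ u) (huv : u < v) : lo k n u ≤ hi k n v := by
  have hl := len_pos (n := n) hk
  have hv : (0 : ℝ) < v := by exact_mod_cast hu.trans_lt huv
  have huv' : (u : ℝ) < v := by exact_mod_cast huv
  unfold lo hi
  refine max_le ?_ (Nat.ceil_le_ceil (by nlinarith))
  rw [Nat.succ_le_iff, Nat.lt_ceil]
  push_cast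
  nlinarith [mul_pos hv hl]

theorem hi_le {k n : ℕ} (hk : 1 ≤ k) {v : ℚ} (hv1 : v ≤ 1) : hi k n v ≤ (n + 1) ^ k := by
  have hl := len_pos (n := n) hk
  have hv : (v : ℝ) ≤ 1 := by exact_mod_cast hv1
  unfold hi
  rw [Nat.ceil_le]
  push_cast
  have h1 : (v : ℝ) * len k n ≤ len k n := by nlinarith
  have h2 : (n : ℝ) ^ k + len k n = ((n : ℝ) + 1) ^ k := by unfold len; ring
  linarith

theorem hi_sub_lo_ge {k n : ℕ} (hk : 1 ≤ k) {u v : ℚ} (hu : 0 ≤ u) :
    ((v : ℝ) - u) * len k n - 1 ≤ (hi k n v : ℝ) - lo k n u := by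
  have hl := len_pos (n := n) hk
  have hu' : (0 : ℝ) ≤ u := by exact_mod_cast hu
  have h1 : (n : ℝ) ^ k + v * len k n ≤ hi k n v := Nat.le_ceil _
  have h2 : (lo k n u : ℝ) ≤ (n : ℝ) ^ k + u * len k n + 1 := by
    unfold lo
    push_cast
    refine max_le ?_ ?_
    · have : 0 ≤ (u : ℝ) * len k n := by positivity
      linarith
    · exact (Nat.ceil_lt_add_one (by positivity)).le
  linarith

theorem lo_ge {k n : ℕ} {u : ℚ} : (n : ℝ) ^ k ≤ lo k n u := by
  unfold lo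
  push_cast
  refine le_trans ?_ (le_max_left _ _)
  linarith

/-- The index sets. -/
noncomputable def Jp {r : ℕ} (k : ℕ) (H : Fin r → Finset ℕ) (u v : Fin r → ℚ) (n : ℕ) (i : Fin r) : Finset ℕ :=
  (Ico (lo k n (u i)) (hi k n (v i))).filter (fun m => m + (H i).sup id < (n + 1) ^ k)

theorem pow_sys {Q : ℕ} (hQ : 1 ≤ Q) {k : ℕ} (hk : 2 ≤ k) {r : ℕ} (H : Fin r → Finset ℕ) (h0 : ∀ i, 0 ∈ H i)
    (hs : ∀ i, 0 < sing Q (H i)) (u v : Fin r → ℚ) (hu : ∀ i, 0 ≤ u i) (huv : ∀ i, u i < v i) (hv : ∀ i, v i ≤ 1)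
    (hdis : ∀ i j, i ≠ j → H i = H j → v i ≤ u j ∨ v j ≤ u i) :
    ∃ e₀ : ℕ → ℝ, ∃ D : ℝ, PSys (level Q) atTop (Jp k H u v) (fun _ i m => tl m (H i))
      (fun n i => sing Q (H i) * li (H i).card (lo k n (u i)) (hi k n (v i))) e₀ (fun n => Real.log n) D := by
  have hk1 : 1 ≤ k := by omega
  obtain ⟨w, hw0, hw⟩ : ∃ w : ℝ, 0 < w ∧ ∀ i, w ≤ (v i : ℝ) - u i := by
    have h1 : ∀ i, (0 : ℝ) < (v i : ℝ) - u i := fun i => by
      have : (u i : ℝ) < v i := by exact_mod_cast huv i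
      linarith
    rcases isEmpty_or_nonempty (Fin r) with he | he
    · exact ⟨1, one_pos, fun i => (he.false i).elim⟩
    · obtain ⟨i₀, hi₀⟩ := Finite.exists_min (fun i => (v i : ℝ) - u i)
      exact ⟨_, h1 i₀, hi₀⟩
  obtain ⟨S, hS⟩ : ∃ S, S = ∑ i, (H i).sup id := ⟨_, rfl⟩
  have hSi : ∀ i, (H i).sup id ≤ S := fun i => by
    rw [hS]
    exact single_le_sum (f := fun i => (H i).sup id) (fun _ _ => Nat.zero_le _) (mem_univ i)
  obtain ⟨C, hC⟩ : ∃ C : ℝ, C = k * 2 ^ k + S := ⟨_, rfl⟩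
  have hCk : (k : ℝ) * 2 ^ k ≤ C := by
    rw [hC]
    have : (0 : ℝ) ≤ S := Nat.cast_nonneg S
    linarith
  have hCS : (S : ℝ) ≤ C := by
    rw [hC]
    have : (0 : ℝ) ≤ k * 2 ^ k := by positivity
    linarith
  have hC0 : 0 ≤ C := (Nat.cast_nonneg S).trans hCS
  refine ⟨_, _, win_sys hQ H h0 hs (Jp k H u v) (fun n i => lo k n (u i)) (fun n i => hi k n (v i))
    (fun n => (n : ℝ) ^ (k - 1)) (fun n => Real.log n) (fun n => ((n : ℝ) + 1) ^ k) (c := w / 2) (C := C) (by positivity)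
    hC0 log_tendsto ?_ ?_ ?_ ?_ ?_ ?_ ?_ ?_ ?_ ?_ ?_⟩
  · intro n i
    exact lo_le_hi hk1 (hu i) (huv i)
  · intro n i
    exact filter_subset _ _
  · intro n i
    have h1 : Ico (lo k n (u i)) (hi k n (v i)) \ Jp k H u v n i ⊆ Ico ((n + 1) ^ k - S) ((n + 1) ^ k) := by
      intro m hm
      unfold Jp at hm
      rw [Finset.mem_sdiff, mem_filter, not_and] at hm
      have h2 := hm.2 hm.1
      have h3 := (mem_Ico.1 hm.1).2
      have h4 := hi_le (n := n) hk1 (hv i)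
      have h5 := hSi i
      rw [mem_Ico]
      omega
    have h2 := card_le_card h1
    rw [Nat.card_Ico] at h2
    have h3 : (Ico (lo k n (u i)) (hi k n (v i)) \ Jp k H u v n i).card ≤ S := by omega
    have h4 : ((Ico (lo k n (u i)) (hi k n (v i)) \ Jp k H u v n i).card : ℝ) ≤ S := by exact_mod_cast h3
    exact h4.trans hCS
  · intro n i j hij hH
    have hl := len_pos (n := n) hk1
    rcases hdis i j hij hH with h1 | h1
    · rw [Finset.disjoint_left]
      intro m hm hm'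
      have h2 := (mem_Ico.1 (mem_filter.1 hm).1).2
      have h3 := (mem_Ico.1 (mem_filter.1 hm').1).1
      have h4 : hi k n (v i) ≤ lo k n (u j) := by
        unfold hi lo
        refine le_trans (Nat.ceil_le_ceil ?_) (le_max_right _ _)
        have : (v i : ℝ) ≤ u j := by exact_mod_cast h1
        nlinarith
      omega
    · rw [Finset.disjoint_left]
      intro m hm hm'
      have h2 := (mem_Ico.1 (mem_filter.1 hm').1).2
      have h3 := (mem_Ico.1 (mem_filter.1 hm).1).1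
      have h4 : hi k n (v j) ≤ lo k n (u i) := by
        unfold hi lo
        refine le_trans (Nat.ceil_le_ceil ?_) (le_max_right _ _)
        have : (v j : ℝ) ≤ u i := by exact_mod_cast h1
        nlinarith
      omega
  · filter_upwards [tendsto_natCast_atTop_atTop.eventually_ge_atTop (2 / w), eventually_ge_atTop 1] with n h1 h2 i
    have h3 := hi_sub_lo_ge (n := n) (v := v i) hk1 (hu i)
    have h4 := (len_bounds (n := n) hk1).1
    have h5 := len_pos (n := n) hk1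
    have h6 : w * (n : ℝ) ^ (k - 1) ≤ ((v i : ℝ) - u i) * len k n := mul_le_mul (hw i) h4 (by positivity) (by linarith [hw i])
    have hn1 : (1 : ℝ) ≤ n := by exact_mod_cast h2
    have h7 : (n : ℝ) ≤ (n : ℝ) ^ (k - 1) := by
      calc (n : ℝ) = (n : ℝ) ^ 1 := (pow_one _).symm
        _ ≤ _ := pow_le_pow_right₀ hn1 (by omega)
    rw [div_le_iff₀ hw0] at h1
    nlinarith
  · filter_upwards [eventually_ge_atTop 1] with n h2 i
    have h1 := hi_le (n := n) hk1 (hv i)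
    have h3 : (hi k n (v i) : ℝ) ≤ ((n : ℝ) + 1) ^ k := by exact_mod_cast h1
    have h4 := lo_ge (k := k) (n := n) (u := u i)
    have h5 := len_up hk1 h2
    have h6 : (k : ℝ) * 2 ^ k * (n : ℝ) ^ (k - 1) ≤ C * (n : ℝ) ^ (k - 1) := mul_le_mul_of_nonneg_right hCk (by positivity)
    unfold len at h5
    linarith
  · intro R
    filter_upwards [tendsto_natCast_atTop_atTop.eventually_ge_atTop R, eventually_ge_atTop 1] with n h1 h2 i
    have h4 := lo_ge (k := k) (n := n) (u := u i)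
    have hn1 : (1 : ℝ) ≤ n := by exact_mod_cast h2
    have h7 : (n : ℝ) ≤ (n : ℝ) ^ k := by
      calc (n : ℝ) = (n : ℝ) ^ 1 := (pow_one _).symm
        _ ≤ _ := pow_le_pow_right₀ hn1 (by omega)
    linarith
  · filter_upwards [eventually_ge_atTop 1] with n h2 i
    have h1 := hi_le (n := n) hk1 (hv i)
    have h3 : (hi k n (v i) : ℝ) ≤ ((n : ℝ) + 1) ^ k := by exact_mod_cast h1
    have h4 := lo_ge (k := k) (n := n) (u := u i)
    have h5 := len_up hk1 h2
    have hn1 : (1 : ℝ) ≤ n := by exact_mod_cast h2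
    have h7 : (n : ℝ) ^ (k - 1) ≤ (n : ℝ) ^ k := pow_le_pow_right₀ hn1 (by omega)
    have h6 : (k : ℝ) * 2 ^ k * (n : ℝ) ^ (k - 1) ≤ C * lo k n (u i) :=
      mul_le_mul hCk (h7.trans h4) (by positivity) hC0
    unfold len at h5
    linarith
  · filter_upwards with n i
    have h1 := hi_le (n := n) hk1 (hv i)
    exact_mod_cast h1
  · filter_upwards [eventually_ge_atTop 2] with n h2
    have hn1 : (2 : ℝ) ≤ n := by exact_mod_cast h2
    rw [Real.log_pow]
    have h3 : Real.log 3 ≤ Real.log ((n : ℝ) + 1) := Real.log_le_log (by norm_num) (by linarith)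
    have h4 : (1 : ℝ) ≤ Real.log 3 := by
      rw [Real.le_log_iff_exp_le (by norm_num)]
      have := Real.exp_one_lt_d9
      linarith
    have h5 : (1 : ℝ) ≤ k := by exact_mod_cast hk1
    nlinarith
  · intro R η hη
    filter_upwards [ev_log_pow (R + 1) (ε := η / (2 * k) ^ R) (by positivity), eventually_ge_atTop 2] with n h1 h2
    have hn1 : (2 : ℝ) ≤ n := by exact_mod_cast h2
    have hkr : (1 : ℝ) ≤ k := by exact_mod_cast hk1
    have hl0 : 0 ≤ Real.log n := Real.log_nonneg (by linarith)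
    have h3 : Real.log ((n : ℝ) + 1) ≤ 2 * Real.log n := by
      have h4 : (n : ℝ) + 1 ≤ (n : ℝ) ^ 2 := by nlinarith
      have h5 := Real.log_le_log (by positivity) h4
      rw [Real.log_pow] at h5
      push_cast at h5
      exact h5
    have h4 : Real.log (((n : ℝ) + 1) ^ k) ≤ 2 * k * Real.log n := by
      rw [Real.log_pow]
      have := mul_le_mul_of_nonneg_left h3 (by linarith : (0 : ℝ) ≤ k)
      linarith
    have h5 : 0 ≤ Real.log (((n : ℝ) + 1) ^ k) := Real.log_nonneg (one_le_pow₀ (by linarith))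
    have h6 : Real.log n * Real.log (((n : ℝ) + 1) ^ k) ^ R ≤ Real.log n * (2 * k * Real.log n) ^ R :=
      mul_le_mul_of_nonneg_left (pow_le_pow_left₀ h5 h4 R) hl0
    have h7 : Real.log n * (2 * k * Real.log n) ^ R = (2 * k) ^ R * Real.log n ^ (R + 1) := by
      rw [mul_pow (2 * (k : ℝ))]
      ring
    have h8 := mul_le_mul_of_nonneg_left h1 (by positivity : (0 : ℝ) ≤ (2 * k) ^ R)
    have h9 : (2 * (k : ℝ)) ^ R * (η / (2 * k) ^ R * n) = η * n := by field_simp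
    have h10 : (n : ℝ) ≤ (n : ℝ) ^ (k - 1) := by
      calc (n : ℝ) = (n : ℝ) ^ 1 := (pow_one _).symm
        _ ≤ _ := pow_le_pow_right₀ (by linarith) (by omega)
    have h11 := mul_le_mul_of_nonneg_left h10 hη.le
    linarith

theorem pow_disjoint {k : ℕ} (hk : 1 ≤ k) {i j : ℕ} (hij : i ≠ j) :
    Disjoint {m : ℕ | i ^ k < m ∧ m < (i + 1) ^ k} {m : ℕ | j ^ k < m ∧ m < (j + 1) ^ k} := by
  rw [Set.disjoint_left]
  rintro m ⟨h1, h2⟩ ⟨h3, h4⟩
  rcases lt_or_gt_of_ne hij with h | h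
  · have : (i + 1) ^ k ≤ j ^ k := Nat.pow_le_pow_left h k
    omega
  · have : (j + 1) ^ k ≤ i ^ k := Nat.pow_le_pow_left h k
    omega

/-- **The vector law between consecutive powers.** -/
theorem pow_ball {Ω : Type*} [MeasurableSpace Ω] {μ : Measure Ω} [IsProbabilityMeasure μ] {A : Ω → Set ℕ} {Q : ℕ}
    (hA : IsModel μ (level Q) A) (hQ : 1 ≤ Q) {k : ℕ} (hk : 2 ≤ k) {r : ℕ} (H : Fin r → Finset ℕ) (h0 : ∀ i, 0 ∈ H i)
    (hs : ∀ i, 0 < sing Q (H i)) (u v : Fin r → ℚ) (hu : ∀ i, 0 ≤ u i) (huv : ∀ i, u i < v i) (hv : ∀ i, v i ≤ 1)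
    (hdis : ∀ i j, i ≠ j → H i = H j → v i ≤ u j ∨ v j ≤ u i) :
    ∀ᵐ ω ∂μ,
      (∀ ε > 0, ∀ᶠ n in atTop, ∑ i, dev A (Jp k H u v) (fun _ i m => tl m (H i))
        (fun n i => sing Q (H i) * li (H i).card (lo k n (u i)) (hi k n (v i))) (fun n : ℕ => Real.log n) n i ω ^ 2 ≤ 1 + ε) ∧
      ∀ d : Fin r → ℝ, ∑ i, d i ^ 2 ≤ 1 → ∀ ε > 0, ∃ᶠ n in atTop, ∀ i, |dev A (Jp k H u v) (fun _ i m => tl m (H i))
        (fun n i => sing Q (H i) * li (H i).card (lo k n (u i)) (hi k n (v i))) (fun n : ℕ => Real.log n) n i ω - d i| < ε := by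
  obtain ⟨e₀, D, hS⟩ := pow_sys hQ hk H h0 hs u v hu huv hv hdis
  have hG := gau_of hA hS
  have h1 := ball_up hG (fun a ha => log_summable.2 ha)
  have h2 := ball_low hA (fun n => {m : ℕ | n ^ k < m ∧ m < (n + 1) ^ k}) (fun i j hij => pow_disjoint (by omega) hij) ?_ hG
    (fun a ha h => absurd (log_summable.1 h) (by linarith))
  · filter_upwards [h1, h2] with ω h3 h4
    exact ⟨h3, h4⟩
  · intro n i
    unfold dev nm
    let _ : MeasurableSpace Ω := F A {m : ℕ | n ^ k < m ∧ m < (n + 1) ^ k}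
    refine ((Finset.measurable_fun_sum _ (fun m hm => ?_)).sub_const _).div_const _
    refine F_ind (fun b hb => ?_)
    rw [mem_tl] at hb
    obtain ⟨h, hh, rfl⟩ := hb
    unfold Jp at hm
    rw [mem_filter, mem_Ico] at hm
    have h3 : h ≤ (H i).sup id := le_sup (f := id) hh
    have h4 : n ^ k + 1 ≤ lo k n (u i) := le_max_left _ _
    show n ^ k < m + h ∧ m + h < (n + 1) ^ k
    omega

end Pool.Agent.Q106.MD
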