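import Pool.Agent.Q106.MD.Spec

/-!
# All constellations between consecutive powers
-/

set_option autoImplicit false

namespace Pool.Agent.Q106.MD

open Finset MeasureTheory ProbabilityTheory Filter Pool.Agent.Q120.GM Pool.Agent.Q106.UR

/-- The deviation of the number of the tuples in a cell. -/
noncomputable def dvp {Ω : Type*} (Q : ℕ) (A : Ω → Set ℕ) {r : ℕ} (k : ℕ) (H : Fin r → Finset ℕ) (u v : Fin r → ℚ)
    (n : ℕ) (i : Fin r) (ω : Ω) : ℝ :=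
  dev A (Jp k H u v) (fun _ i m => tl m (H i))
    (fun n i => sing Q (H i) * li (H i).card (lo k n (u i)) (hi k n (v i))) (fun n : ℕ => Real.log n) n i ω

/-- The conditions on the constellations and cells. -/
def Cells (Q : ℕ) {r : ℕ} (H : Fin r → Finset ℕ) (u v : Fin r → ℚ) : Prop :=
  (∀ i, 0 ∈ H i ∧ 0 < sing Q (H i) ∧ 0 ≤ u i ∧ u i < v i ∧ v i ≤ 1) ∧
    ∀ i j, i ≠ j → H i ≠ H j ∨ v i ≤ u j ∨ v j ≤ u i

theorem pow_all {Ω : Type*} [MeasurableSpace Ω] {μ : Measure Ω} [IsProbabilityMeasure μ] {A : Ω → Set ℕ} {Q : ℕ}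
    (hA : IsModel μ (level Q) A) (hQ : 1 ≤ Q) :
    ∀ᵐ ω ∂μ, ∀ k, 2 ≤ k → ∀ (r : ℕ) (H : Fin r → Finset ℕ) (u v : Fin r → ℚ), Cells Q H u v →
      (∀ ε > 0, ∀ᶠ n in atTop, ∑ i, dvp Q A k H u v n i ω ^ 2 ≤ 1 + ε) ∧
      (∀ d : Fin r → ℝ, ∑ i, d i ^ 2 ≤ 1 → ∀ ε > 0, ∃ᶠ n in atTop, ∀ i, |dvp Q A k H u v n i ω - d i| < ε) ∧
      ∀ d : Fin r → ℝ, ∑ i, d i ^ 2 < 1 → ∀ δ > 0, ∃ ε₀ > 0, ∀ ε, 0 < ε → ε ≤ ε₀ → ∀ᶠ x : ℕ in atTop,
        (x : ℝ) ^ (1 - ∑ i, d i ^ 2 - δ) ≤ num (range (x + 1)) (fun n => near (dvp Q A k H u v) n d ε) ω ∧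
        num (range (x + 1)) (fun n => near (dvp Q A k H u v) n d ε) ω ≤ (x : ℝ) ^ (1 - ∑ i, d i ^ 2 + δ) := by
  rw [ae_all_iff]
  intro k
  by_cases hk : 2 ≤ k
  swap
  · exact Eventually.of_forall (fun ω h => absurd h hk)
  have h1 : ∀ (r : ℕ) (H : Fin r → Finset ℕ) (u v : Fin r → ℚ), ∀ᵐ ω ∂μ, Cells Q H u v →
      (∀ ε > 0, ∀ᶠ n in atTop, ∑ i, dvp Q A k H u v n i ω ^ 2 ≤ 1 + ε) ∧
      (∀ d : Fin r → ℝ, ∑ i, d i ^ 2 ≤ 1 → ∀ ε > 0, ∃ᶠ n in atTop, ∀ i, |dvp Q A k H u v n i ω - d i| < ε) ∧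
      ∀ d : Fin r → ℝ, ∑ i, d i ^ 2 < 1 → ∀ δ > 0, ∃ ε₀ > 0, ∀ ε, 0 < ε → ε ≤ ε₀ → ∀ᶠ x : ℕ in atTop,
        (x : ℝ) ^ (1 - ∑ i, d i ^ 2 - δ) ≤ num (range (x + 1)) (fun n => near (dvp Q A k H u v) n d ε) ω ∧
        num (range (x + 1)) (fun n => near (dvp Q A k H u v) n d ε) ω ≤ (x : ℝ) ^ (1 - ∑ i, d i ^ 2 + δ) := by
    intro r H u v
    by_cases hc : Cells Q H u v
    swap
    · exact Eventually.of_forall (fun ω h => absurd h hc)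
    obtain ⟨hc1, hc2⟩ := hc
    obtain ⟨e₀, D, hS⟩ := pow_sys hQ hk H (fun i => (hc1 i).1) (fun i => (hc1 i).2.1) u v (fun i => (hc1 i).2.2.1)
      (fun i => (hc1 i).2.2.2.1) (fun i => (hc1 i).2.2.2.2) (fun i j hij hH => by
        rcases hc2 i j hij with h | h
        · exact absurd hH h
        · exact h)
    have hG : Gau μ atTop (dvp Q A k H u v) (fun n => Real.log n) := gau_of hA hS
    have hm : ∀ n i, Measurable[F A {m : ℕ | n ^ k < m ∧ m < (n + 1) ^ k}] (dvp Q A k H u v n i) := by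
      intro n i
      unfold dvp dev nm
      let _ : MeasurableSpace Ω := F A {m : ℕ | n ^ k < m ∧ m < (n + 1) ^ k}
      refine ((Finset.measurable_fun_sum _ (fun m hm => ?_)).sub_const _).div_const _
      refine F_ind (fun b hb => ?_)
      rw [mem_tl] at hb
      obtain ⟨h, hh, rfl⟩ := hb
      unfold Jp at hm
      rw [mem_filter, mem_Ico] at hm
      have h3 : h ≤ (H i).sup id := le_sup (f := id) hh
      have h4 : n ^ k + 1 ≤ lo k n (u i) := le_max_left _ _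
      show n ^ k < m + h ∧ m + h < (n + 1) ^ k
      omega
    have hdj : ∀ i j : ℕ, i ≠ j → Disjoint {m : ℕ | i ^ k < m ∧ m < (i + 1) ^ k} {m : ℕ | j ^ k < m ∧ m < (j + 1) ^ k} :=
      fun i j hij => pow_disjoint (by omega) hij
    have h1 := ball_up hG (fun a ha => log_summable.2 ha)
    have h2 := ball_low hA (fun n => {m : ℕ | n ^ k < m ∧ m < (n + 1) ^ k}) hdj hm hG
      (fun a ha h => absurd (log_summable.1 h) (by linarith))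
    have h3 := spectrum hA (fun n => {m : ℕ | n ^ k < m ∧ m < (n + 1) ^ k}) hdj hm hG
    filter_upwards [h1, h2, h3] with ω h4 h5 h6 _
    exact ⟨h4, h5, h6⟩
  have h2 : ∀ᵐ ω ∂μ, ∀ (r : ℕ) (H : Fin r → Finset ℕ) (u v : Fin r → ℚ), Cells Q H u v →
      (∀ ε > 0, ∀ᶠ n in atTop, ∑ i, dvp Q A k H u v n i ω ^ 2 ≤ 1 + ε) ∧
      (∀ d : Fin r → ℝ, ∑ i, d i ^ 2 ≤ 1 → ∀ ε > 0, ∃ᶠ n in atTop, ∀ i, |dvp Q A k H u v n i ω - d i| < ε) ∧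
      ∀ d : Fin r → ℝ, ∑ i, d i ^ 2 < 1 → ∀ δ > 0, ∃ ε₀ > 0, ∀ ε, 0 < ε → ε ≤ ε₀ → ∀ᶠ x : ℕ in atTop,
        (x : ℝ) ^ (1 - ∑ i, d i ^ 2 - δ) ≤ num (range (x + 1)) (fun n => near (dvp Q A k H u v) n d ε) ω ∧
        num (range (x + 1)) (fun n => near (dvp Q A k H u v) n d ε) ω ≤ (x : ℝ) ^ (1 - ∑ i, d i ^ 2 + δ) :=
    ae_all_iff.2 (fun r => ae_all_iff.2 (fun H => ae_all_iff.2 (fun u => ae_all_iff.2 (fun v => h1 r H u v))))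
  filter_upwards [h2] with ω hω _
  exact hω

end Pool.Agent.Q106.MD
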