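import Pool.Agent.Q106.MD.ShLow

/-!
# Deviations in short intervals at several scales: the set of the limit points
-/

set_option autoImplicit false

namespace Pool.Agent.Q106.MD

open Finset MeasureTheory ProbabilityTheory Filter Pool.Agent.Q120.GM Pool.Agent.Q106.UR
open scoped Topology

theorem bud_ofFn {r : ℕ} {η : ℝ} : ∀ (s : ℕ) (θ : Fin s → ℝ) (d : Fin s → Fin r → ℝ) (β : ℝ),
    StrictAnti θ → (∀ j, 0 < θ j) → (∀ j, θ j < 1) →
    (∀ j : Fin s, (∑ j', if j' ≤ j then ∑ i, d j' i ^ 2 else 0) + ((j : ℕ) + 2) * η ≤ β - θ j) →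
    Bud η β (List.ofFn (fun j => (θ j, d j))) := by
  intro s
  induction s with
  | zero =>
    intro θ d β _ _ _ _
    rw [List.ofFn_zero]
    trivial
  | succ s ih =>
    intro θ d β hθ h0 h1 hb
    rw [List.ofFn_succ]
    refine ⟨h0 0, h1 0, ?_, ?_, ?_⟩
    · have h2 := hb 0
      have h3 : (∑ j' : Fin (s + 1), if j' ≤ 0 then ∑ i, d j' i ^ 2 else 0) = ∑ i, d 0 i ^ 2 := by
        rw [Fin.sum_univ_succ]
        simp
      rw [h3] at h2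
      simp only [Fin.val_zero, Nat.cast_zero] at h2
      linarith
    · intro q hq
      rw [List.mem_ofFn] at hq
      obtain ⟨j, rfl⟩ := hq
      exact hθ (Fin.succ_pos j)
    · refine ih (fun j => θ j.succ) (fun j => d j.succ) _ (fun a b hab => hθ (Fin.succ_lt_succ_iff.2 hab))
        (fun j => h0 _) (fun j => h1 _) ?_
      intro j
      have h2 := hb j.succ
      rw [Fin.sum_univ_succ] at h2
      simp only [Fin.zero_le, if_true, Fin.succ_le_succ_iff, Fin.val_succ, Nat.cast_add, Nat.cast_one] at h2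
      show _ ≤ β - ∑ i, d 0 i ^ 2 - η - θ j.succ
      linarith

variable {Ω : Type*} {A : Ω → Set ℕ} {Q r : ℕ}
variable [MeasurableSpace Ω] {μ : Measure Ω} [IsProbabilityMeasure μ]

/-- Points with a strict budget. -/
theorem strict_pts (hA : IsModel μ (level Q) A) (hQ : 1 ≤ Q) (H : Fin r → Finset ℕ) (hH : Function.Injective H)
    (h0 : ∀ i, 0 ∈ H i) (hs : ∀ i, 0 < sing Q (H i)) {s : ℕ} {θ : Fin s → ℝ} (hθ : StrictAnti θ) (hθ0 : ∀ j, 0 < θ j)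
    (hθ1 : ∀ j, θ j < 1) {d : Fin s → Fin r → ℝ} (hd : ∀ j, ∑ j' ∈ Iic j, ∑ i, d j' i ^ 2 < 1 - θ j) {ε : ℝ} (hε : 0 < ε) :
    ∀ᵐ ω ∂μ, ∀ᶠ J : ℕ in atTop, ∃ x : ℕ, 2 ^ J ≤ x ∧ x ≤ 2 ^ (J + 2) ∧ ∀ j i, |Dt Q A (H i) (θ j) x ω - d j i| < ε := by
  rcases s with _ | s
  · refine Eventually.of_forall (fun ω => Eventually.of_forall (fun J => ⟨2 ^ J, le_rfl, ?_, fun j => j.elim0⟩))
    exact Nat.pow_le_pow_right (by norm_num) (by omega)
  obtain ⟨M, hM⟩ : ∃ M : ℝ, M = 1 + ε / 2 + ∑ q : Fin (s + 1) × Fin r, |d q.1 q.2| := ⟨_, rfl⟩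
  have hM0 : 0 < M := by
    rw [hM]
    have : 0 ≤ ∑ q : Fin (s + 1) × Fin r, |d q.1 q.2| := sum_nonneg (fun _ _ => abs_nonneg _)
    linarith
  have hMd : ∀ q : Fin (s + 1) × Fin r, 1 + ε / 2 + |d q.1 q.2| ≤ M := by
    intro q
    have := single_le_sum (f := fun q : Fin (s + 1) × Fin r => |d q.1 q.2|) (fun _ _ => abs_nonneg _) (mem_univ q)
    rw [hM]
    linarith
  obtain ⟨η', hη'⟩ : ∃ η' : ℝ, η' = ε / (2 * M) := ⟨_, rfl⟩
  have hη'0 : 0 < η' := by rw [hη']; positivity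
  have hη'M : η' * M = ε / 2 := by rw [hη']; field_simp
  have hT : ∀ q : Fin (s + 1) × Fin r, ∃ δ₀ > 0, δ₀ < 1 ∧ ∀ δ, 0 < δ → δ ≤ δ₀ →
      ∀ᵐ ω ∂μ, ∀ᶠ x : ℕ in atTop, ∀ y : ℕ, y ≤ x → (x : ℝ) ≤ y + δ * (y : ℝ) ^ θ q.1 →
      |Dt Q A (H q.2) (θ q.1) x ω - Ds Q A (H q.2) δ (θ q.1) y ω| ≤ η' * (1 + |Ds Q A (H q.2) δ (θ q.1) y ω|) :=
    fun q => tlem hA hQ (h0 q.2) (hs q.2) (hθ0 q.1) (hθ1 q.1) hη'0
  choose δ₀ hδ₀ hδ₀1 hT using hT
  obtain ⟨δ, hδ, hδ1, hδle⟩ := exists_lb δ₀ hδ₀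
  have hT' : ∀ᵐ ω ∂μ, ∀ q : Fin (s + 1) × Fin r, ∀ᶠ x : ℕ in atTop, ∀ y : ℕ, y ≤ x → (x : ℝ) ≤ y + δ * (y : ℝ) ^ θ q.1 →
      |Dt Q A (H q.2) (θ q.1) x ω - Ds Q A (H q.2) δ (θ q.1) y ω| ≤ η' * (1 + |Ds Q A (H q.2) δ (θ q.1) y ω|) :=
    ae_all_iff.2 (fun q => hT q δ hδ (hδle q))
  -- the budget
  obtain ⟨η, hη, _, hηle⟩ := exists_lb (fun j : Fin (s + 1) => (1 - θ j - ∑ j' ∈ Iic j, ∑ i, d j' i ^ 2) / (s + 3))
    (fun j => div_pos (by linarith [hd j]) (by positivity))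
  have hB : Bud η 1 (List.ofFn (fun j => (θ j, d j))) := by
    refine bud_ofFn (s + 1) θ d 1 hθ hθ0 hθ1 ?_
    intro j
    have h1 := hηle j
    rw [le_div_iff₀ (by positivity)] at h1
    have h2 : (∑ j', if j' ≤ j then ∑ i, d j' i ^ 2 else 0) = ∑ j' ∈ Iic j, ∑ i, d j' i ^ 2 := by
      rw [← sum_filter]
      refine sum_congr ?_ (fun _ _ => rfl)
      ext j'
      simp
    have h3 : ((j : ℕ) : ℝ) ≤ s := by
      have : (j : ℕ) ≤ s := Nat.lt_succ_iff.1 j.2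
      exact_mod_cast this
    rw [h2]
    nlinarith only [h1, h3, hη]
  rw [List.ofFn_succ] at hB
  filter_upwards [V_dyad hA hQ H hH h0 hs hδ hδ1 (show 0 < ε / 2 by positivity) hη hB, hT'] with ω h1 h2
  have h2' : ∀ᶠ x : ℕ in atTop, ∀ q : Fin (s + 1) × Fin r, ∀ y : ℕ, y ≤ x → (x : ℝ) ≤ y + δ * (y : ℝ) ^ θ q.1 →
      |Dt Q A (H q.2) (θ q.1) x ω - Ds Q A (H q.2) δ (θ q.1) y ω| ≤ η' * (1 + |Ds Q A (H q.2) δ (θ q.1) y ω|) :=
    eventually_all.2 h2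
  obtain ⟨N, hN⟩ := eventually_atTop.1 h2'
  filter_upwards [h1, two_pow_tendsto.eventually_ge_atTop N] with J h3 h4
  obtain ⟨z, hz1, hz2, hV⟩ := h3
  have hz0 : 1 ≤ z := le_trans Nat.one_le_two_pow hz1
  obtain ⟨x, hx1, hx2, hx3⟩ := V_path H hδ.le hδ1.le ω _ _ 1 z hz0 hB hV
  have hx2z : x ≤ 2 * z := by
    have hz : (1 : ℝ) ≤ z := by exact_mod_cast hz0
    have e1 : (z : ℝ) ^ θ 0 ≤ z := rpow_le_self' hz (hθ1 0).le
    have e2 : 0 < (z : ℝ) ^ θ 0 := Real.rpow_pos_of_pos (by linarith) _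
    have e3 : δ * (z : ℝ) ^ θ 0 ≤ 1 * (z : ℝ) ^ θ 0 := mul_le_mul_of_nonneg_right hδ1.le e2.le
    have e4 : (x : ℝ) ≤ 2 * z := by
      have : (x : ℝ) ≤ z + δ * (z : ℝ) ^ θ 0 := hx2
      linarith
    exact_mod_cast e4
  refine ⟨x, hz1.trans hx1, ?_, ?_⟩
  · have e1 : 2 ^ (J + 2) = 2 * 2 ^ (J + 1) := by ring
    rw [e1]
    omega
  intro j i
  have hmem : (θ j, d j) ∈ (θ 0, d 0) :: List.ofFn (fun j : Fin s => (θ j.succ, d j.succ)) := by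
    have e1 : (θ j, d j) ∈ List.ofFn (fun j => (θ j, d j)) := by
      rw [List.mem_ofFn]
      exact ⟨j, rfl⟩
    rw [List.ofFn_succ] at e1
    exact e1
  obtain ⟨y, hy1, hy2, hy3⟩ := hx3 _ hmem
  have hn : |Ds Q A (H i) δ (θ j) y ω - d j i| < ε / 2 := hy3 i
  have h5 := hN x (h4.trans (hz1.trans hx1)) (j, i) y hy1 hy2
  simp only at h5
  have h6 : |Ds Q A (H i) δ (θ j) y ω| ≤ |d j i| + ε / 2 := by
    have e1 : |Ds Q A (H i) δ (θ j) y ω| ≤ |Ds Q A (H i) δ (θ j) y ω - d j i| + |d j i| := by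
      have := abs_add_le (Ds Q A (H i) δ (θ j) y ω - d j i) (d j i)
      rwa [sub_add_cancel] at this
    linarith
  have h7 : η' * (1 + |Ds Q A (H i) δ (θ j) y ω|) ≤ η' * M :=
    mul_le_mul_of_nonneg_left (by linarith [hMd (j, i)]) hη'0.le
  have h8 : |Dt Q A (H i) (θ j) x ω - d j i| ≤ |Dt Q A (H i) (θ j) x ω - Ds Q A (H i) δ (θ j) y ω| +
      |Ds Q A (H i) δ (θ j) y ω - d j i| := by
    have := abs_add_le (Dt Q A (H i) (θ j) x ω - Ds Q A (H i) δ (θ j) y ω) (Ds Q A (H i) δ (θ j) y ω - d j i)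
    rwa [sub_add_sub_cancel] at this
  linarith

/-- **The multi-scale law.** -/
theorem multi_all (hA : IsModel μ (level Q) A) (hQ : 1 ≤ Q) {s : ℕ} {θ : Fin s → ℝ} (hθ : StrictAnti θ)
    (hθ0 : ∀ j, 0 < θ j) (hθ1 : ∀ j, θ j < 1) :
    ∀ᵐ ω ∂μ, ∀ (r : ℕ) (H : Fin r → Finset ℕ), Function.Injective H → (∀ i, 0 ∈ H i) → (∀ i, 0 < sing Q (H i)) →
      (∀ j, ∀ ε > 0, ∀ᶠ x : ℕ in atTop, ∑ j' ∈ Iic j, ∑ i, Dt Q A (H i) (θ j') x ω ^ 2 ≤ 1 - θ j + ε) ∧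
      ∀ d : Fin s → Fin r → ℝ, (∀ j, ∑ j' ∈ Iic j, ∑ i, d j' i ^ 2 ≤ 1 - θ j) → ∀ ε > 0, ∀ᶠ J : ℕ in atTop,
        ∃ x : ℕ, 2 ^ J ≤ x ∧ x ≤ 2 ^ (J + 2) ∧ ∀ j i, |Dt Q A (H i) (θ j) x ω - d j i| < ε := by
  have hE : ∀ n : ℕ, 0 < 1 / ((n : ℝ) + 1) := fun n => by positivity
  have hup : ∀ᵐ ω ∂μ, ∀ (r : ℕ) (H : Fin r → Finset ℕ) (j : Fin s) (n : ℕ), Function.Injective H → (∀ i, 0 ∈ H i) →
      (∀ i, 0 < sing Q (H i)) →
      ∀ᶠ x : ℕ in atTop, ∑ j' ∈ Iic j, ∑ i, Dt Q A (H i) (θ j') x ω ^ 2 ≤ 1 - θ j + 1 / ((n : ℝ) + 1) := by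
    refine ae_all_iff.2 (fun r => ae_all_iff.2 (fun H => ae_all_iff.2 (fun j => ae_all_iff.2 (fun n => ?_))))
    by_cases h : Function.Injective H ∧ (∀ i, 0 ∈ H i) ∧ ∀ i, 0 < sing Q (H i)
    · filter_upwards [multi_up hA hQ H h.1 h.2.1 h.2.2 hθ hθ0 hθ1 j (hE n)] with ω hω _ _ _
      exact hω
    · exact Eventually.of_forall (fun ω h1 h2 h3 => absurd ⟨h1, h2, h3⟩ h)
  have hlow : ∀ᵐ ω ∂μ, ∀ (r : ℕ) (H : Fin r → Finset ℕ) (q : Fin s → Fin r → ℚ) (n : ℕ), Function.Injective H →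
      (∀ i, 0 ∈ H i) → (∀ i, 0 < sing Q (H i)) → (∀ j, ∑ j' ∈ Iic j, ∑ i, (q j' i : ℝ) ^ 2 < 1 - θ j) →
      ∀ᶠ J : ℕ in atTop, ∃ x : ℕ, 2 ^ J ≤ x ∧ x ≤ 2 ^ (J + 2) ∧
        ∀ j i, |Dt Q A (H i) (θ j) x ω - q j i| < 1 / ((n : ℝ) + 1) := by
    refine ae_all_iff.2 (fun r => ae_all_iff.2 (fun H => ae_all_iff.2 (fun q => ae_all_iff.2 (fun n => ?_))))
    by_cases h : Function.Injective H ∧ (∀ i, 0 ∈ H i) ∧ (∀ i, 0 < sing Q (H i)) ∧
        ∀ j, ∑ j' ∈ Iic j, ∑ i, (q j' i : ℝ) ^ 2 < 1 - θ j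
    · filter_upwards [strict_pts hA hQ H h.1 h.2.1 h.2.2.1 hθ hθ0 hθ1 (d := fun j i => (q j i : ℝ)) h.2.2.2 (hE n)]
        with ω hω _ _ _ _
      exact hω
    · exact Eventually.of_forall (fun ω h1 h2 h3 h4 => absurd ⟨h1, h2, h3, h4⟩ h)
  filter_upwards [hup, hlow] with ω h1 h2 r H hH h0 hs
  constructor
  · intro j ε hε
    obtain ⟨n, hn⟩ := exists_nat_one_div_lt hε
    filter_upwards [h1 r H j n hH h0 hs] with x hx
    linarith
  · intro d hd ε hε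
    -- a point with a strict budget
    obtain ⟨D, hD⟩ : ∃ D : ℝ, D = 1 + ∑ q : Fin s × Fin r, |d q.1 q.2| := ⟨_, rfl⟩
    have hD0 : 1 ≤ D := by
      rw [hD]
      have : 0 ≤ ∑ q : Fin s × Fin r, |d q.1 q.2| := sum_nonneg (fun _ _ => abs_nonneg _)
      linarith
    have hDd : ∀ j i, |d j i| ≤ D := by
      intro j i
      have := single_le_sum (f := fun q : Fin s × Fin r => |d q.1 q.2|) (fun _ _ => abs_nonneg _) (mem_univ (j, i))
      rw [hD]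
      simp only at this
      linarith
    obtain ⟨t, ht⟩ : ∃ t : ℝ, t = min (1 / 2) (ε / (4 * D)) := ⟨_, rfl⟩
    have ht0 : 0 < t := by rw [ht]; exact lt_min (by norm_num) (by positivity)
    have ht1 : t ≤ 1 / 2 := by rw [ht]; exact min_le_left _ _
    have htD : t * D ≤ ε / 4 := by
      have e1 : t ≤ ε / (4 * D) := by rw [ht]; exact min_le_right _ _
      rw [le_div_iff₀ (by positivity)] at e1
      linarith
    obtain ⟨U, hU⟩ : ∃ U : Set (Fin s → Fin r → ℝ), U =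
        (⋂ j, {e | ∑ j' ∈ Iic j, ∑ i, e j' i ^ 2 < 1 - θ j}) ∩ ⋂ j, ⋂ i, {e | |e j i - (1 - t) * d j i| < ε / 4} := ⟨_, rfl⟩
    have hUo : IsOpen U := by
      rw [hU]
      refine IsOpen.inter (isOpen_iInter_of_finite (fun j => ?_))
        (isOpen_iInter_of_finite (fun j => isOpen_iInter_of_finite (fun i => ?_)))
      · exact isOpen_lt (continuous_finsetSum _ (fun j' _ => continuous_finsetSum _ (fun i _ =>
          ((continuous_apply i).comp (continuous_apply j')).pow 2))) continuous_const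
      · have hc : Continuous (fun e : Fin s → Fin r → ℝ => e j i) := (continuous_apply i).comp (continuous_apply j)
        exact isOpen_lt (hc.sub continuous_const).abs continuous_const
    have hUn : U.Nonempty := by
      refine ⟨fun j i => (1 - t) * d j i, ?_⟩
      rw [hU]
      constructor
      · rw [Set.mem_iInter]
        intro j
        show ∑ j' ∈ Iic j, ∑ i, ((1 - t) * d j' i) ^ 2 < 1 - θ j
        have e1 : ∑ j' ∈ Iic j, ∑ i, ((1 - t) * d j' i) ^ 2 = (1 - t) ^ 2 * ∑ j' ∈ Iic j, ∑ i, d j' i ^ 2 := by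
          rw [mul_sum]
          refine sum_congr rfl (fun j' _ => ?_)
          rw [mul_sum]
          exact sum_congr rfl (fun i _ => by ring)
        rw [e1]
        have e2 : (1 - t) ^ 2 * ∑ j' ∈ Iic j, ∑ i, d j' i ^ 2 ≤ (1 - t) ^ 2 * (1 - θ j) :=
          mul_le_mul_of_nonneg_left (hd j) (sq_nonneg _)
        have e3 : (1 - t) ^ 2 < 1 := by nlinarith
        have e4 : 0 < 1 - θ j := by linarith [hθ1 j]
        have e5 : (1 - t) ^ 2 * (1 - θ j) < 1 * (1 - θ j) := mul_lt_mul_of_pos_right e3 e4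
        linarith
      · simp only [Set.mem_iInter]
        intro j i
        show |(1 - t) * d j i - (1 - t) * d j i| < ε / 4
        rw [sub_self, abs_zero]
        positivity
    have hdense : DenseRange (Pi.map (fun _ : Fin s => Pi.map (fun _ : Fin r => ((↑) : ℚ → ℝ)))) :=
      DenseRange.piMap (fun _ => DenseRange.piMap (fun _ => Rat.denseRange_cast))
    obtain ⟨q, hq⟩ := hdense.exists_mem_open hUo hUn
    rw [hU] at hq
    obtain ⟨hq1, hq2⟩ := hq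
    rw [Set.mem_iInter] at hq1
    simp only [Set.mem_iInter] at hq2
    obtain ⟨n, hn⟩ := exists_nat_one_div_lt (show 0 < ε / 4 by positivity)
    filter_upwards [h2 r H q n hH h0 hs hq1] with J hJ
    obtain ⟨x, hx1, hx2, hx3⟩ := hJ
    refine ⟨x, hx1, hx2, fun j i => ?_⟩
    have e1 := hx3 j i
    have e2 : |(q j i : ℝ) - (1 - t) * d j i| < ε / 4 := hq2 j i
    have e3 : |(1 - t) * d j i - d j i| ≤ ε / 4 := by
      rw [show (1 - t) * d j i - d j i = -(t * d j i) by ring, abs_neg, abs_mul, abs_of_pos ht0]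
      exact (mul_le_mul_of_nonneg_left (hDd j i) ht0.le).trans htD
    rw [abs_lt] at e1 e2 ⊢
    rw [abs_le] at e3
    constructor
    · linarith
    · linarith

end Pool.Agent.Q106.MD
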