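import Pool.Agent.Q106.MD.ShUp

/-!
# Deviations in short intervals at several scales: the limit points inside
-/

set_option autoImplicit false

namespace Pool.Agent.Q106.MD

open Finset MeasureTheory ProbabilityTheory Filter Pool.Agent.Q120.GM Pool.Agent.Q106.UR
open scoped Topology

variable {Ω : Type*} {A : Ω → Set ℕ} {Q r : ℕ}

/-- The distance of the children. -/
noncomputable def cg (θ' : ℝ) (y : ℕ) : ℕ := ⌈(2 * (y : ℝ)) ^ θ'⌉₊ + 2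

/-- The number of the children. -/
noncomputable def cb (δ θ θ' : ℝ) (y : ℕ) : ℕ := ⌊δ * (y : ℝ) ^ θ / cg θ' y⌋₊

/-- The event that there is a path in the tree along which the deviations are near the targets. -/
noncomputable def V (Q : ℕ) (A : Ω → Set ℕ) (H : Fin r → Finset ℕ) (δ ε : ℝ) : List (ℝ × (Fin r → ℝ)) → ℕ → Set Ω
  | [], _ => Set.univ
  | [p], y => nearD Q A H δ p.1 p.2 ε y
  | p :: p' :: ls, y => nearD Q A H δ p.1 p.2 ε y ∩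
      ⋃ t ∈ range (cb δ p.1 p'.1 y), V Q A H δ ε (p' :: ls) (y + t * cg p'.1 y)

/-- The budget condition. -/
def Bud (η : ℝ) : ℝ → List (ℝ × (Fin r → ℝ)) → Prop
  | _, [] => True
  | β, p :: ls => 0 < p.1 ∧ p.1 < 1 ∧ ∑ i, p.2 i ^ 2 + 2 * η ≤ β - p.1 ∧ (∀ q ∈ ls, q.1 < p.1) ∧
      Bud η (β - ∑ i, p.2 i ^ 2 - η) ls

theorem child {δ θ θ' : ℝ} (hδ0 : 0 ≤ δ) (hδ : δ ≤ 1) (hθ : θ ≤ 1) (hθ' : 0 ≤ θ') {y : ℕ} (hy : 1 ≤ y) {t : ℕ}
    (ht : t < cb δ θ θ' y) : y + t * cg θ' y + cg θ' y ≤ pt δ θ y ∧ (y : ℝ) + t * cg θ' y + cg θ' y ≤ y + δ * (y : ℝ) ^ θ ∧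
      y + t * cg θ' y ≤ 2 * y ∧ ((y + t * cg θ' y : ℕ) : ℝ) ^ θ' + 2 ≤ cg θ' y ∧
      pt 1 θ' (y + t * cg θ' y) ≤ y + t * cg θ' y + cg θ' y := by
  have hy1 : (1 : ℝ) ≤ y := by exact_mod_cast hy
  have hg : (0 : ℝ) < cg θ' y := by
    have : 0 < cg θ' y := by unfold cg; omega
    exact_mod_cast this
  have h1 : ((t : ℝ) + 1) ≤ δ * (y : ℝ) ^ θ / cg θ' y := by
    have h2 : t + 1 ≤ cb δ θ θ' y := ht
    have h3 : ((t + 1 : ℕ) : ℝ) ≤ cb δ θ θ' y := by exact_mod_cast h2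
    push_cast at h3
    refine h3.trans ?_
    unfold cb
    exact Nat.floor_le (by positivity)
  rw [le_div_iff₀ hg] at h1
  have h2 : (y : ℝ) + t * cg θ' y + cg θ' y ≤ y + δ * (y : ℝ) ^ θ := by linarith
  have h3 := rpow_le_self' hy1 hθ
  have h4 : 0 < (y : ℝ) ^ θ := Real.rpow_pos_of_pos (by linarith) _
  have h5 : (y : ℝ) + t * cg θ' y ≤ 2 * y := by
    have : δ * (y : ℝ) ^ θ ≤ 1 * (y : ℝ) ^ θ := mul_le_mul_of_nonneg_right hδ h4.le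
    linarith
  have h6 : y + t * cg θ' y ≤ 2 * y := by exact_mod_cast h5
  have h7 : ((y + t * cg θ' y : ℕ) : ℝ) ^ θ' + 2 ≤ cg θ' y := by
    have h8 : ((y + t * cg θ' y : ℕ) : ℝ) ^ θ' ≤ (2 * (y : ℝ)) ^ θ' := by
      refine Real.rpow_le_rpow (Nat.cast_nonneg _) ?_ hθ'
      push_cast
      exact h5
    have h9 := Nat.le_ceil ((2 * (y : ℝ)) ^ θ')
    have h10 : (cg θ' y : ℝ) = (⌈(2 * (y : ℝ)) ^ θ'⌉₊ : ℝ) + 2 := by
      unfold cg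
      push_cast
      ring
    rw [h10]
    linarith
  refine ⟨?_, h2, h6, h7, ?_⟩
  · have h8 := pt_ge (δ := δ) (θ := θ) y
    have h9 : (y : ℝ) + t * cg θ' y + cg θ' y ≤ pt δ θ y := by linarith
    exact_mod_cast h9
  · have h8 := pt_lt (θ := θ') zero_le_one (y + t * cg θ' y)
    have h9 : (pt 1 θ' (y + t * cg θ' y) : ℝ) ≤ (y : ℝ) + t * cg θ' y + cg θ' y := by
      push_cast at h8 h7 ⊢
      linarith
    exact_mod_cast h9

theorem V_F (H : Fin r → Finset ℕ) {δ ε η : ℝ} (hδ0 : 0 ≤ δ) (hδ : δ ≤ 1) :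
    ∀ (ls : List (ℝ × (Fin r → ℝ))) (p : ℝ × (Fin r → ℝ)) (β : ℝ) (y : ℕ), 1 ≤ y → Bud η β (p :: ls) →
      MeasurableSet[F A {m : ℕ | y ≤ m ∧ m < pt 1 p.1 y}] (V Q A H δ ε (p :: ls) y) := by
  intro ls
  induction ls with
  | nil =>
    intro p β y hy _
    have h1 := nearD_F (A := A) (Q := Q) H δ p.1 p.2 ε y
    refine F_mono (fun m hm => ?_) _ h1
    exact ⟨(le_pt hδ0 y).trans hm.1, hm.2⟩
  | cons p' ls ih =>
    intro p β y hy hB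
    obtain ⟨hp0, hp1, _, hlt, hB'⟩ := hB
    have h1 := nearD_F (A := A) (Q := Q) H δ p.1 p.2 ε y
    have h2 : MeasurableSet[F A {m : ℕ | y ≤ m ∧ m < pt 1 p.1 y}] (nearD Q A H δ p.1 p.2 ε y) := by
      refine F_mono (fun m hm => ?_) _ h1
      exact ⟨(le_pt hδ0 y).trans hm.1, hm.2⟩
    have hp'0 : 0 < p'.1 := hB'.1
    have h3 : ∀ t ∈ range (cb δ p.1 p'.1 y), MeasurableSet[F A {m : ℕ | y ≤ m ∧ m < pt 1 p.1 y}]
        (V Q A H δ ε (p' :: ls) (y + t * cg p'.1 y)) := by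
      intro t ht
      rw [mem_range] at ht
      obtain ⟨c1, _, _, _, c5⟩ := child hδ0 hδ hp1.le hp'0.le hy ht
      have h4 := ih p' _ (y + t * cg p'.1 y) (by omega) hB'
      refine F_mono (fun m hm => ?_) _ h4
      have h5 := pt_mono (θ := p.1) hδ y
      have h6 : y + t * cg p'.1 y ≤ m ∧ m < pt 1 p'.1 (y + t * cg p'.1 y) := hm
      show y ≤ m ∧ m < pt 1 p.1 y
      constructor
      · exact (Nat.le_add_right _ _).trans h6.1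
      · omega
    let _ : MeasurableSpace Ω := F A {m : ℕ | y ≤ m ∧ m < pt 1 p.1 y}
    exact h2.inter (Finset.measurableSet_biUnion _ h3)

/-- The union of the children. -/
theorem U_F (H : Fin r → Finset ℕ) {δ ε η : ℝ} (hδ0 : 0 ≤ δ) (hδ : δ ≤ 1) {ls : List (ℝ × (Fin r → ℝ))}
    {p' : ℝ × (Fin r → ℝ)} {β θ δ₀ : ℝ} (hδ₀ : 0 ≤ δ₀) (hδ₀1 : δ₀ ≤ 1) (hθ : θ ≤ 1) {y : ℕ} (hy : 1 ≤ y)
    (hB' : Bud η β (p' :: ls)) :
    MeasurableSet[F A {m : ℕ | y ≤ m ∧ m < pt δ₀ θ y}]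
      (⋃ t ∈ range (cb δ₀ θ p'.1 y), V Q A H δ ε (p' :: ls) (y + t * cg p'.1 y)) := by
  have hp'0 : 0 < p'.1 := hB'.1
  have h3 : ∀ t ∈ range (cb δ₀ θ p'.1 y), MeasurableSet[F A {m : ℕ | y ≤ m ∧ m < pt δ₀ θ y}]
      (V Q A H δ ε (p' :: ls) (y + t * cg p'.1 y)) := by
    intro t ht
    rw [mem_range] at ht
    obtain ⟨c1, _, _, _, c5⟩ := child hδ₀ hδ₀1 hθ hp'0.le hy ht
    have h4 := V_F (A := A) (Q := Q) H (ε := ε) (η := η) hδ0 hδ ls p' _ (y + t * cg p'.1 y) (by omega) hB'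
    refine F_mono (fun m hm => ?_) _ h4
    have h6 : y + t * cg p'.1 y ≤ m ∧ m < pt 1 p'.1 (y + t * cg p'.1 y) := hm
    show y ≤ m ∧ m < pt δ₀ θ y
    constructor
    · exact (Nat.le_add_right _ _).trans h6.1
    · omega
  let _ : MeasurableSpace Ω := F A {m : ℕ | y ≤ m ∧ m < pt δ₀ θ y}
  exact Finset.measurableSet_biUnion _ h3

/-- **Paths.** -/
theorem V_path (H : Fin r → Finset ℕ) {δ ε η : ℝ} (hδ0 : 0 ≤ δ) (hδ : δ ≤ 1) (ω : Ω) :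
    ∀ (ls : List (ℝ × (Fin r → ℝ))) (p : ℝ × (Fin r → ℝ)) (β : ℝ) (y : ℕ), 1 ≤ y → Bud η β (p :: ls) →
      ω ∈ V Q A H δ ε (p :: ls) y → ∃ x : ℕ, y ≤ x ∧ (x : ℝ) ≤ y + δ * (y : ℝ) ^ p.1 ∧
        ∀ q ∈ p :: ls, ∃ y' : ℕ, y' ≤ x ∧ (x : ℝ) ≤ y' + δ * (y' : ℝ) ^ q.1 ∧ ω ∈ nearD Q A H δ q.1 q.2 ε y' := by
  intro ls
  induction ls with
  | nil =>
    intro p β y hy _ hV
    refine ⟨y, le_rfl, by
      have : 0 ≤ δ * (y : ℝ) ^ p.1 := by positivity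
      linarith, ?_⟩
    intro q hq
    rw [List.mem_singleton] at hq
    rw [hq]
    exact ⟨y, le_rfl, by
      have : 0 ≤ δ * (y : ℝ) ^ p.1 := by positivity
      linarith, hV⟩
  | cons p' ls ih =>
    intro p β y hy hB hV
    obtain ⟨hp0, hp1, _, hlt, hB'⟩ := hB
    have hp'0 : 0 < p'.1 := hB'.1
    have hV' : ω ∈ nearD Q A H δ p.1 p.2 ε y ∩
      ⋃ t ∈ range (cb δ p.1 p'.1 y), V Q A H δ ε (p' :: ls) (y + t * cg p'.1 y) := hV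
    obtain ⟨hn, hU⟩ := hV'
    rw [Set.mem_iUnion₂] at hU
    obtain ⟨t, ht, hVt⟩ := hU
    rw [mem_range] at ht
    obtain ⟨c1, c2, c3, c4, c5⟩ := child hδ0 hδ hp1.le hp'0.le hy ht
    obtain ⟨x, hx1, hx2, hx3⟩ := ih p' _ (y + t * cg p'.1 y) (by omega) hB' hVt
    have hyx : y ≤ x := (Nat.le_add_right _ _).trans hx1
    have hxy : (x : ℝ) ≤ y + δ * (y : ℝ) ^ p.1 := by
      have h1 : δ * ((y + t * cg p'.1 y : ℕ) : ℝ) ^ p'.1 ≤ 1 * ((y + t * cg p'.1 y : ℕ) : ℝ) ^ p'.1 :=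
        mul_le_mul_of_nonneg_right hδ (by positivity)
      push_cast at hx2 h1 c4
      linarith
    refine ⟨x, hyx, hxy, ?_⟩
    intro q hq
    rw [List.mem_cons] at hq
    rcases hq with hq | hq
    · rw [hq]
      exact ⟨y, hyx, hxy, hn⟩
    · exact hx3 q hq

theorem min_exp {u : ℝ} (hu : 0 ≤ u) : min (1 / 2) (u / 2) ≤ 1 - Real.exp (-u) := by
  have h1 : Real.exp (-u) ≤ 1 / (1 + u) := by
    rw [Real.exp_neg, ← one_div]
    exact one_div_le_one_div_of_le (by linarith) (by linarith [Real.add_one_le_exp u])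
  have h2 : min (1 / 2) (u / 2) ≤ 1 - 1 / (1 + u) := by
    have h3 : 1 - 1 / (1 + u) = u / (1 + u) := by field_simp; ring
    rw [h3]
    rcases le_total u 1 with h | h
    · refine (min_le_right _ _).trans ?_
      exact div_le_div_of_nonneg_left hu (by linarith) (by linarith)
    · refine (min_le_left _ _).trans ?_
      rw [div_le_div_iff₀ (by norm_num) (by linarith)]
      linarith
  linarith

variable [MeasurableSpace Ω] {μ : Measure Ω} [IsProbabilityMeasure μ]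

/-- The probability of a union of independent events. -/
theorem union_lb {p : ℕ → ℝ} (hA : IsModel μ p A) {κ : Type*} [DecidableEq κ] (I : Finset κ) (S : κ → Set ℕ)
    (hd : ∀ i ∈ I, ∀ j ∈ I, i ≠ j → Disjoint (S i) (S j)) (E : κ → Set Ω)
    (hE : ∀ i ∈ I, MeasurableSet[F A (S i)] (E i)) : 1 - Real.exp (-∑ i ∈ I, μ.real (E i)) ≤ μ.real (⋃ i ∈ I, E i) := by
  have hEm : ∀ i ∈ I, MeasurableSet (E i) := fun i hi => F_le hA _ _ (hE i hi)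
  have h1 : (⋃ i ∈ I, E i)ᶜ = ⋂ i ∈ I, (E i)ᶜ := by
    ext ω
    simp
  have h2 := indep_many hA I S hd (fun i => (E i)ᶜ) (fun i hi => by
    let _ : MeasurableSpace Ω := F A (S i)
    exact (hE i hi).compl)
  have h3 : μ.real (⋂ i ∈ I, (E i)ᶜ) ≤ Real.exp (-∑ i ∈ I, μ.real (E i)) := by
    rw [h2, ← sum_neg_distrib, Real.exp_sum]
    refine prod_le_prod (fun i _ => measureReal_nonneg) (fun i hi => ?_)
    rw [probReal_compl_eq_one_sub (hEm i hi)]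
    linarith [Real.add_one_le_exp (-μ.real (E i))]
  have h4 : μ.real (⋃ i ∈ I, E i) = 1 - μ.real (⋃ i ∈ I, E i)ᶜ := by
    rw [probReal_compl_eq_one_sub (Finset.measurableSet_biUnion I hEm)]
    ring
  rw [h4, h1]
  linarith

theorem child_union (hA : IsModel μ (level Q) A) (H : Fin r → Finset ℕ) {δ ε η : ℝ} (hδ0 : 0 ≤ δ) (hδ : δ ≤ 1)
    {ls : List (ℝ × (Fin r → ℝ))} {p' : ℝ × (Fin r → ℝ)} {β θ₀ δ₀ : ℝ} (hδ₀ : 0 ≤ δ₀) (hδ₀1 : δ₀ ≤ 1) (hθ : θ₀ ≤ 1)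
    {y : ℕ} (hy : 1 ≤ y) (hB' : Bud η β (p' :: ls)) :
    1 - Real.exp (-∑ t ∈ range (cb δ₀ θ₀ p'.1 y), μ.real (V Q A H δ ε (p' :: ls) (y + t * cg p'.1 y))) ≤
      μ.real (⋃ t ∈ range (cb δ₀ θ₀ p'.1 y), V Q A H δ ε (p' :: ls) (y + t * cg p'.1 y)) := by
  have hp'0 : 0 < p'.1 := hB'.1
  refine union_lb hA (range (cb δ₀ θ₀ p'.1 y))
    (fun t => {m : ℕ | y + t * cg p'.1 y ≤ m ∧ m < pt 1 p'.1 (y + t * cg p'.1 y)}) ?_
    (fun t => V Q A H δ ε (p' :: ls) (y + t * cg p'.1 y)) ?_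
  · intro i hi j hj hij
    rw [mem_range] at hi hj
    obtain ⟨_, _, _, _, i5⟩ := child hδ₀ hδ₀1 hθ hp'0.le hy hi
    obtain ⟨_, _, _, _, j5⟩ := child hδ₀ hδ₀1 hθ hp'0.le hy hj
    rw [Set.disjoint_left]
    rintro m ⟨h1, h2⟩ ⟨h3, h4⟩
    rcases lt_or_gt_of_ne hij with h | h
    · have h5 : (i + 1) * cg p'.1 y ≤ j * cg p'.1 y := Nat.mul_le_mul_right _ h
      have h6 : (i + 1) * cg p'.1 y = i * cg p'.1 y + cg p'.1 y := by ring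
      omega
    · have h5 : (j + 1) * cg p'.1 y ≤ i * cg p'.1 y := Nat.mul_le_mul_right _ h
      have h6 : (j + 1) * cg p'.1 y = j * cg p'.1 y + cg p'.1 y := by ring
      omega
  · intro t ht
    exact V_F (A := A) (Q := Q) H (ε := ε) (η := η) hδ0 hδ ls p' _ (y + t * cg p'.1 y) (by omega) hB'

theorem child_sum (H : Fin r → Finset ℕ) {δ ε η : ℝ}
    {ls : List (ℝ × (Fin r → ℝ))} {p' : ℝ × (Fin r → ℝ)} {β θ₀ δ₀ : ℝ} (hη : 0 < η) (hδ₀ : 0 < δ₀) (hδ₀1 : δ₀ ≤ 1)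
    (hlt : p'.1 < θ₀) (hθ : θ₀ ≤ 1) (hB' : Bud η β (p' :: ls))
    (hp : ∀ᶠ z : ℕ in atTop, (z : ℝ) ^ (-(β - p'.1 - η)) ≤ μ.real (V Q A H δ ε (p' :: ls) z)) :
    ∃ c > 0, ∀ᶠ y : ℕ in atTop, c * (y : ℝ) ^ (θ₀ - β + η) ≤
      ∑ t ∈ range (cb δ₀ θ₀ p'.1 y), μ.real (V Q A H δ ε (p' :: ls) (y + t * cg p'.1 y)) := by
  obtain ⟨hp'0, hp'1, hb, _, _⟩ := hB'
  obtain ⟨κ, hκ⟩ : ∃ κ, κ = β - p'.1 - η := ⟨_, rfl⟩
  have hκ0 : 0 ≤ κ := by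
    have : 0 ≤ ∑ i, p'.2 i ^ 2 := sum_nonneg (fun _ _ => sq_nonneg _)
    linarith
  rw [← hκ] at hp
  obtain ⟨N, hN⟩ := eventually_atTop.1 hp
  refine ⟨δ₀ / 10 * (2 : ℝ) ^ (-κ), by positivity, ?_⟩
  filter_upwards [(rpow_tendsto (θ := θ₀ - p'.1) (by linarith)).eventually_ge_atTop (10 / δ₀),
    eventually_ge_atTop (N + 1)] with y h1 h2
  have hy1 : 1 ≤ y := by omega
  have hy : (1 : ℝ) ≤ y := by exact_mod_cast hy1
  have hy0 : (0 : ℝ) < y := by linarith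
  obtain ⟨X, hX⟩ : ∃ X, X = (y : ℝ) ^ p'.1 := ⟨_, rfl⟩
  have hX1 : 1 ≤ X := by rw [hX]; exact Real.one_le_rpow hy hp'0.le
  obtain ⟨Z, hZ⟩ : ∃ Z, Z = (y : ℝ) ^ (θ₀ - p'.1) := ⟨_, rfl⟩
  rw [← hZ] at h1
  have hZ0 : 0 < Z := by rw [hZ]; positivity
  have hXZ : (y : ℝ) ^ θ₀ = X * Z := by
    rw [hX, hZ, ← Real.rpow_add hy0]
    congr 1
    ring
  have hg : (cg p'.1 y : ℝ) ≤ 5 * X := by
    have e1 : (⌈(2 * (y : ℝ)) ^ p'.1⌉₊ : ℝ) < (2 * (y : ℝ)) ^ p'.1 + 1 := Nat.ceil_lt_add_one (by positivity)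
    have e0 : (2 * (y : ℝ)) ^ p'.1 = (2 : ℝ) ^ p'.1 * X := by rw [Real.mul_rpow (by norm_num) hy0.le, ← hX]
    have e2 : (2 : ℝ) ^ p'.1 ≤ 2 := rpow_le_self' (by norm_num) hp'1.le
    have e3 : (2 : ℝ) ^ p'.1 * X ≤ 2 * X := mul_le_mul_of_nonneg_right e2 (by linarith)
    have e4 : (cg p'.1 y : ℝ) = (⌈(2 * (y : ℝ)) ^ p'.1⌉₊ : ℝ) + 2 := by
      unfold cg
      push_cast
      ring
    rw [e4]
    linarith
  have hg0 : (0 : ℝ) < cg p'.1 y := by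
    have : 0 < cg p'.1 y := by unfold cg; omega
    exact_mod_cast this
  have hcb : δ₀ / 10 * Z ≤ cb δ₀ θ₀ p'.1 y := by
    have e1 : δ₀ * (y : ℝ) ^ θ₀ / cg p'.1 y < cb δ₀ θ₀ p'.1 y + 1 := Nat.lt_floor_add_one _
    have e2 : δ₀ / 5 * Z ≤ δ₀ * (y : ℝ) ^ θ₀ / cg p'.1 y := by
      rw [le_div_iff₀ hg0, hXZ]
      have e3 := mul_le_mul_of_nonneg_left hg (show 0 ≤ δ₀ / 5 * Z by positivity)
      linarith
    have e3 : 1 ≤ δ₀ / 10 * Z := by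
      rw [div_le_iff₀ hδ₀] at h1
      linarith
    linarith
  have h3 : ∀ t ∈ range (cb δ₀ θ₀ p'.1 y), (2 * (y : ℝ)) ^ (-κ) ≤ μ.real (V Q A H δ ε (p' :: ls) (y + t * cg p'.1 y)) := by
    intro t ht
    rw [mem_range] at ht
    obtain ⟨_, _, c3, _, _⟩ := child hδ₀.le hδ₀1 hθ hp'0.le hy1 ht
    refine le_trans ?_ (hN _ (by omega))
    refine Real.rpow_le_rpow_of_nonpos ?_ ?_ (by linarith)
    · have : 0 < y + t * cg p'.1 y := by omega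
      exact_mod_cast this
    · exact_mod_cast c3
  have h4 := sum_le_sum h3
  rw [sum_const, card_range, nsmul_eq_mul] at h4
  refine le_trans ?_ h4
  have h5 : δ₀ / 10 * Z * (2 * (y : ℝ)) ^ (-κ) ≤ cb δ₀ θ₀ p'.1 y * (2 * (y : ℝ)) ^ (-κ) :=
    mul_le_mul_of_nonneg_right hcb (by positivity)
  refine le_trans (le_of_eq ?_) h5
  rw [Real.mul_rpow (by norm_num) hy0.le, hZ]
  have h6 : (y : ℝ) ^ (θ₀ - β + η) = (y : ℝ) ^ (θ₀ - p'.1) * (y : ℝ) ^ (-κ) := by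
    rw [← Real.rpow_add hy0, hκ]
    congr 1
    ring
  rw [h6]
  ring

/-- **The probability that there is a path.** -/
theorem V_prob (hA : IsModel μ (level Q) A) (hQ : 1 ≤ Q) (H : Fin r → Finset ℕ) (hH : Function.Injective H)
    (h0 : ∀ i, 0 ∈ H i) (hs : ∀ i, 0 < sing Q (H i)) {δ ε η : ℝ} (hδ0 : 0 < δ) (hδ : δ < 1) (hε : 0 < ε) (hη : 0 < η) :
    ∀ (ls : List (ℝ × (Fin r → ℝ))) (p : ℝ × (Fin r → ℝ)) (β : ℝ), Bud η β (p :: ls) →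
      ∀ᶠ y : ℕ in atTop, (y : ℝ) ^ (-(β - p.1 - η)) ≤ μ.real (V Q A H δ ε (p :: ls) y) := by
  have hnear : ∀ (p : ℝ × (Fin r → ℝ)), 0 < p.1 → p.1 < 1 → ∀ᶠ y : ℕ in atTop,
      (y : ℝ) ^ (-(∑ i, p.2 i ^ 2 + η / 2)) ≤ μ.real (nearD Q A H δ p.1 p.2 ε y) := by
    intro p hp0 hp1
    have hG := gau_short hA hQ H hH h0 hs hδ0.le hδ hp0 hp1.le
    filter_upwards [hG.lower p.2 hε (show 0 < η / 2 by positivity), eventually_ge_atTop 1] with y h1 h2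
    refine le_trans (le_of_eq ?_) h1
    have hy : (0 : ℝ) < y := by exact_mod_cast h2
    rw [Real.rpow_def_of_pos hy]
    congr 1
    ring
  intro ls
  induction ls with
  | nil =>
    intro p β hB
    obtain ⟨hp0, hp1, hb, _, _⟩ := hB
    filter_upwards [hnear p hp0 hp1, eventually_ge_atTop 1] with y h1 h2
    have hy : (1 : ℝ) ≤ y := by exact_mod_cast h2
    exact (Real.rpow_le_rpow_of_exponent_le hy (by linarith)).trans h1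
  | cons p' ls ih =>
    intro p β hB
    obtain ⟨hp0, hp1, hb, hlt, hB'⟩ := hB
    obtain ⟨c, hc, hsum⟩ := child_sum (A := A) (Q := Q) (μ := μ) H (δ := δ) (ε := ε) (ls := ls) hη hδ0 hδ.le
      (hlt p' (List.mem_cons_self)) hp1.le hB' (ih p' _ hB')
    obtain ⟨S, hS⟩ : ∃ S, S = ∑ i, p.2 i ^ 2 := ⟨_, rfl⟩
    have hS0 : 0 ≤ S := by rw [hS]; exact sum_nonneg (fun _ _ => sq_nonneg _)
    rw [← hS] at hb hB' hsum
    obtain ⟨c₂, hc₂⟩ : ∃ c₂, c₂ = min (1 / 2) (c / 2) := ⟨_, rfl⟩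
    have hc₂0 : 0 < c₂ := by rw [hc₂]; exact lt_min (by norm_num) (by positivity)
    filter_upwards [hnear p hp0 hp1, hsum, (rpow_tendsto (θ := η / 2) (by positivity)).eventually_ge_atTop (1 / c₂),
      eventually_ge_atTop 1] with y h1 h2 h3 h4
    rw [← hS] at h1
    have hy : (1 : ℝ) ≤ y := by exact_mod_cast h4
    have hy0 : (0 : ℝ) < y := by linarith
    have hVeq : V Q A H δ ε (p :: p' :: ls) y = nearD Q A H δ p.1 p.2 ε y ∩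
      ⋃ t ∈ range (cb δ p.1 p'.1 y), V Q A H δ ε (p' :: ls) (y + t * cg p'.1 y) := rfl
    have hind : μ.real (V Q A H δ ε (p :: p' :: ls) y) = μ.real (nearD Q A H δ p.1 p.2 ε y) *
        μ.real (⋃ t ∈ range (cb δ p.1 p'.1 y), V Q A H δ ε (p' :: ls) (y + t * cg p'.1 y)) := by
      rw [hVeq]
      refine indep_real hA (S := {m : ℕ | pt δ p.1 y ≤ m ∧ m < pt 1 p.1 y}) (T := {m : ℕ | y ≤ m ∧ m < pt δ p.1 y}) ?_
        (nearD_F H δ p.1 p.2 ε y) (U_F H hδ0.le hδ.le hδ0.le hδ.le hp1.le h4 hB')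
      rw [Set.disjoint_left]
      rintro m ⟨g1, g2⟩ ⟨g3, g4⟩
      omega
    have hU := child_union hA H (ε := ε) hδ0.le hδ.le hδ0.le hδ.le hp1.le h4 hB'
    obtain ⟨e, he⟩ : ∃ e, e = p.1 - (β - S - η) + η := ⟨_, rfl⟩
    rw [← he] at h2
    have he0 : e ≤ 0 := by rw [he]; linarith
    have hye : (y : ℝ) ^ e ≤ 1 := Real.rpow_le_one_of_one_le_of_nonpos hy he0
    have hye0 : 0 < (y : ℝ) ^ e := Real.rpow_pos_of_pos hy0 _
    obtain ⟨u, hu⟩ : ∃ u, u = ∑ t ∈ range (cb δ p.1 p'.1 y), μ.real (V Q A H δ ε (p' :: ls) (y + t * cg p'.1 y)) := ⟨_, rfl⟩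
    rw [← hu] at h2 hU
    have hu0 : 0 ≤ u := by rw [hu]; exact sum_nonneg (fun _ _ => measureReal_nonneg)
    have h5 : c₂ * (y : ℝ) ^ e ≤ μ.real (⋃ t ∈ range (cb δ p.1 p'.1 y), V Q A H δ ε (p' :: ls) (y + t * cg p'.1 y)) := by
      refine le_trans ?_ ((min_exp hu0).trans hU)
      refine le_min ?_ ?_
      · have e1 : c₂ ≤ 1 / 2 := by rw [hc₂]; exact min_le_left _ _
        calc c₂ * (y : ℝ) ^ e ≤ 1 / 2 * 1 := mul_le_mul e1 hye hye0.le (by norm_num)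
          _ = 1 / 2 := by norm_num
      · have e1 : c₂ ≤ c / 2 := by rw [hc₂]; exact min_le_right _ _
        have e2 : c₂ * (y : ℝ) ^ e ≤ c / 2 * (y : ℝ) ^ e := mul_le_mul_of_nonneg_right e1 hye0.le
        linarith
    rw [hind]
    have h6 : (y : ℝ) ^ (-(S + η / 2)) * (c₂ * (y : ℝ) ^ e) ≤ μ.real (nearD Q A H δ p.1 p.2 ε y) *
        μ.real (⋃ t ∈ range (cb δ p.1 p'.1 y), V Q A H δ ε (p' :: ls) (y + t * cg p'.1 y)) :=
      mul_le_mul h1 h5 (by positivity) measureReal_nonneg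
    refine le_trans ?_ h6
    have h7 : (y : ℝ) ^ (-(S + η / 2)) * (c₂ * (y : ℝ) ^ e) = c₂ * (y : ℝ) ^ (η / 2) * (y : ℝ) ^ (-(β - p.1 - η)) := by
      have e1 : (y : ℝ) ^ (-(S + η / 2)) * (y : ℝ) ^ e = (y : ℝ) ^ (η / 2) * (y : ℝ) ^ (-(β - p.1 - η)) := by
        rw [← Real.rpow_add hy0, ← Real.rpow_add hy0, he]
        congr 1
        ring
      linear_combination c₂ * e1
    rw [h7]
    have h8 : 1 ≤ c₂ * (y : ℝ) ^ (η / 2) := by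
      rw [div_le_iff₀ hc₂0] at h3
      linarith
    have h9 : 0 < (y : ℝ) ^ (-(β - p.1 - η)) := Real.rpow_pos_of_pos hy0 _
    nlinarith

/-- **There are paths in all dyadic intervals.** -/
theorem V_dyad (hA : IsModel μ (level Q) A) (hQ : 1 ≤ Q) (H : Fin r → Finset ℕ) (hH : Function.Injective H)
    (h0 : ∀ i, 0 ∈ H i) (hs : ∀ i, 0 < sing Q (H i)) {δ ε η : ℝ} (hδ0 : 0 < δ) (hδ : δ < 1) (hε : 0 < ε) (hη : 0 < η)
    {ls : List (ℝ × (Fin r → ℝ))} {p : ℝ × (Fin r → ℝ)} (hB : Bud η 1 (p :: ls)) :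
    ∀ᵐ ω ∂μ, ∀ᶠ J : ℕ in atTop, ∃ z : ℕ, 2 ^ J ≤ z ∧ z ≤ 2 ^ (J + 1) ∧ ω ∈ V Q A H δ ε (p :: ls) z := by
  have hp1 : p.1 < 1 := hB.2.1
  have hp0 : 0 < p.1 := hB.1
  obtain ⟨c, hc, hsum⟩ := child_sum (A := A) (Q := Q) (μ := μ) H (δ := δ) (ε := ε) (ls := ls) (δ₀ := 1) (θ₀ := 1) hη one_pos
    le_rfl hp1 le_rfl hB (V_prob hA hQ H hH h0 hs hδ0 hδ hε hη ls p 1 hB)
  obtain ⟨B, hBd⟩ : ∃ B : ℕ → Set Ω, B = fun y =>
    (⋃ t ∈ range (cb 1 1 p.1 y), V Q A H δ ε (p :: ls) (y + t * cg p.1 y))ᶜ := ⟨_, rfl⟩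
  have hb : ∀ᶠ y : ℕ in atTop, μ.real (B y) ≤ 1 / c * (y : ℝ) ^ (-η) := by
    filter_upwards [hsum, eventually_ge_atTop 1] with y h1 hy1
    have hX : (0 : ℝ) < y := by exact_mod_cast hy1
    have hU := child_union hA H (ε := ε) (η := η) hδ0.le hδ.le zero_le_one le_rfl (le_refl (1 : ℝ)) hy1 hB
    obtain ⟨u, hu⟩ : ∃ u, u = ∑ t ∈ range (cb 1 1 p.1 y), μ.real (V Q A H δ ε (p :: ls) (y + t * cg p.1 y)) := ⟨_, rfl⟩
    rw [← hu] at h1 hU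
    have hms : MeasurableSet (⋃ t ∈ range (cb 1 1 p.1 y), V Q A H δ ε (p :: ls) (y + t * cg p.1 y)) :=
      F_le hA _ _ (U_F H hδ0.le hδ.le zero_le_one (le_refl (1 : ℝ)) (le_refl (1 : ℝ)) hy1 hB)
    have e1 : μ.real (B y) ≤ Real.exp (-u) := by
      rw [hBd]
      simp only
      rw [probReal_compl_eq_one_sub hms]
      linarith
    refine e1.trans ?_
    have e2 : c * (y : ℝ) ^ η ≤ u := by
      rw [show (1 : ℝ) - 1 + η = η by ring] at h1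
      exact h1
    have e3 : 0 < c * (y : ℝ) ^ η := by positivity
    have e4 : Real.exp (-u) ≤ 1 / u := by
      rw [Real.exp_neg, ← one_div]
      exact one_div_le_one_div_of_le (by linarith) (by linarith [Real.add_one_le_exp u])
    refine e4.trans ((one_div_le_one_div_of_le e3 e2).trans (le_of_eq ?_))
    rw [Real.rpow_neg hX.le, one_div, mul_inv, one_div]
  have hb2 : ∀ᶠ J : ℕ in atTop, μ.real (B (2 ^ J)) ≤ 1 / c * ((2 : ℝ) ^ J) ^ (-η) := by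
    filter_upwards [two_pow_tendsto.eventually hb] with J h1
    push_cast at h1
    exact h1
  filter_upwards [bc (B := fun J => B (2 ^ J)) ((summable_two_pow hη).mul_left (1 / c)) hb2] with ω hω
  filter_upwards [hω] with J hJ
  obtain ⟨y, hy⟩ : ∃ y : ℕ, y = 2 ^ J := ⟨_, rfl⟩
  have hy1 : 1 ≤ y := by rw [hy]; exact Nat.one_le_two_pow
  rw [pow_succ, ← hy]
  rw [← hy, hBd] at hJ
  simp only [Set.mem_compl_iff, not_not] at hJ
  rw [Set.mem_iUnion₂] at hJ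
  obtain ⟨t, ht, hV⟩ := hJ
  rw [mem_range] at ht
  obtain ⟨_, _, c3, _, _⟩ := child zero_le_one le_rfl (le_refl (1 : ℝ)) hp0.le hy1 ht
  refine ⟨_, Nat.le_add_right _ _, ?_, hV⟩
  omega

end Pool.Agent.Q106.MD
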