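import Pool.Agent.Q106.MD.Shr

/-!
# Deviations in short intervals at neighbouring points
-/

set_option autoImplicit false

namespace Pool.Agent.Q106.MD

open Finset MeasureTheory ProbabilityTheory Filter Pool.Agent.Q120.GM Pool.Agent.Q106.UR
open scoped Topology

/-- The order of the numbers. -/
noncomputable def Ph (K : ℕ) (θ : ℝ) (x : ℕ) : ℝ := (x : ℝ) ^ θ / Real.log x ^ K

theorem Fl_eq (K : ℕ) (θ : ℝ) (x : ℕ) : Fl K θ x = Real.sqrt (2 * Ph K θ x * Real.log x) := rfl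

theorem pt_le_two {θ : ℝ} (hθ1 : θ < 1) : ∀ᶠ y : ℕ in atTop, pt 1 θ y ≤ 2 * y := by
  have h1 : Tendsto (fun y : ℕ => (y : ℝ) ^ (1 - θ)) atTop atTop := rpow_tendsto (by linarith)
  filter_upwards [h1.eventually_ge_atTop 2, eventually_ge_atTop 2] with y h2 h3
  have hy : (2 : ℝ) ≤ y := by exact_mod_cast h3
  have h4 : (y : ℝ) = (y : ℝ) ^ θ * (y : ℝ) ^ (1 - θ) := by
    rw [← Real.rpow_add (by linarith)]
    rw [show θ + (1 - θ) = 1 by ring, Real.rpow_one]
  have h5 : 0 < (y : ℝ) ^ θ := Real.rpow_pos_of_pos (by linarith) _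
  have h6 : 2 * (y : ℝ) ^ θ ≤ y := by nlinarith
  have h7 := pt_lt (θ := θ) zero_le_one y
  have h8 : (pt 1 θ y : ℝ) < 2 * y + 1 := by linarith
  have h9 : pt 1 θ y < 2 * y + 1 := by exact_mod_cast h8
  omega

theorem li_rel {K : ℕ} {θ δ t : ℝ} (hθ : 0 < θ) (hθ1 : θ < 1) (hδ : 0 ≤ δ) (hδ1 : δ < 1) (ht : 0 < t) (ht1 : t < 1) :
    ∀ᶠ y : ℕ in atTop, ∀ a : ℕ, pt δ θ y ≤ a → a ≤ pt δ θ y + 1 →
      (1 - t) ^ 2 * ((1 - δ) * Ph K θ y) ≤ li K a (pt 1 θ y) ∧ li K a (pt 1 θ y) * (1 - t) ≤ (1 - δ) * Ph K θ y := by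
  have hr := (ratio K).eventually (lt_mem_nhds (show 1 - t < 1 by linarith))
  filter_upwards [hr, pt_le_two hθ1, log_tendsto.eventually_ge_atTop 1,
    (rpow_tendsto hθ).eventually_ge_atTop (2 / (t * (1 - δ)))] with y h1 h2 h3 h4 a ha1 ha2
  have hδ' : 0 < 1 - δ := by linarith
  have hy1 := pos_of_log h3
  obtain ⟨X, hX⟩ : ∃ X, X = (y : ℝ) ^ θ := ⟨_, rfl⟩
  rw [← hX] at h4
  have hX2 : 2 ≤ t * (1 - δ) * X := by
    rw [div_le_iff₀ (by positivity)] at h4
    linarith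
  have hX0 : 0 < X := by rw [hX]; positivity
  have e1 := pt_ge (δ := δ) (θ := θ) y
  have e2 := pt_lt (θ := θ) hδ y
  have e3 := pt_ge (δ := 1) (θ := θ) y
  have e4 := pt_lt (θ := θ) zero_le_one y
  rw [← hX] at e1 e2 e3 e4
  have ha1' : (pt δ θ y : ℝ) ≤ a := by exact_mod_cast ha1
  have ha2' : (a : ℝ) ≤ pt δ θ y + 1 := by exact_mod_cast ha2
  have hya : y ≤ a := (le_pt hδ y).trans ha1
  have hya' : (y : ℝ) ≤ a := by exact_mod_cast hya
  have hlog2 : 0 < Real.log (2 * (y : ℝ)) := Real.log_pos (by linarith)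
  have hly : 0 < Real.log y := by linarith
  constructor
  · have hab : a ≤ pt 1 θ y := by
      have : (a : ℝ) ≤ pt 1 θ y := by nlinarith
      exact_mod_cast this
    have h5 := li_ge (K := K) (β := 2 * (y : ℝ)) (R := K) hab (by
      have := Real.log_le_log (by linarith) hya'
      linarith) (by exact_mod_cast h2) le_rfl
    refine le_trans ?_ h5
    rw [div_pow, lt_div_iff₀ (pow_pos hlog2 K)] at h1
    have h6 : (1 - t) * ((1 - δ) * X) ≤ (pt 1 θ y : ℝ) - a := by nlinarith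
    have h7 : (1 - t) ^ 2 * ((1 - δ) * Ph K θ y) = (1 - t) * ((1 - δ) * X) * ((1 - t) / Real.log y ^ K) := by
      unfold Ph
      rw [← hX]
      ring
    rw [h7, div_eq_mul_inv ((pt 1 θ y : ℝ) - a)]
    refine mul_le_mul h6 ?_ (div_nonneg (by linarith) (pow_nonneg hly.le _)) ?_
    · rw [div_le_iff₀ (pow_pos hly K), ← div_eq_inv_mul, le_div_iff₀ (pow_pos hlog2 K)]
      exact h1.le
    · refine le_trans ?_ h6
      have : 0 < 1 - t := by linarith
      positivity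
  · have h5 : li K a (pt 1 θ y) ≤ ((Ico a (pt 1 θ y)).card : ℝ) * (1 / Real.log y ^ K) := by
      unfold li
      rw [← nsmul_eq_mul, ← sum_const]
      refine sum_le_sum (fun m hm => ?_)
      rw [mem_Ico] at hm
      have h6 : (y : ℝ) ≤ m := by
        have : y ≤ m := hya.trans hm.1
        exact_mod_cast this
      exact one_div_le_one_div_of_le (pow_pos hly K) (pow_le_pow_left₀ hly.le (Real.log_le_log (by linarith) h6) K)
    have h6 : ((Ico a (pt 1 θ y)).card : ℝ) * (1 - t) ≤ (1 - δ) * X := by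
      rw [Nat.card_Ico]
      have h7 : ((pt 1 θ y - a : ℕ) : ℝ) ≤ (1 - δ) * X + 1 := by
        rcases le_total a (pt 1 θ y) with h | h
        · rw [Nat.cast_sub h]
          linarith
        · rw [Nat.sub_eq_zero_of_le h]
          push_cast
          positivity
      have h8 := mul_le_mul_of_nonneg_right h7 (show 0 ≤ 1 - t by linarith)
      nlinarith
    have h7 : 0 ≤ 1 / Real.log y ^ K := by positivity
    have h8 := mul_le_mul_of_nonneg_right h5 (show 0 ≤ 1 - t by linarith)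
    have h9 := mul_le_mul_of_nonneg_right h6 h7
    unfold Ph
    rw [← hX]
    have h10 : (1 - δ) * X * (1 / Real.log y ^ K) = (1 - δ) * (X / Real.log y ^ K) := by ring
    linarith

/-- Neighbouring points. -/
theorem Ph_rel {K : ℕ} {θ δ t : ℝ} (hθ : 0 < θ) (hθ1 : θ < 1) (hδ : 0 ≤ δ) (hδt : δ ≤ t) (ht : 0 < t) (ht1 : t < 1) :
    ∀ᶠ x : ℕ in atTop, ∀ y : ℕ, y ≤ x → (x : ℝ) ≤ y + δ * (y : ℝ) ^ θ →
      (1 - t) ^ 2 * (Ph K θ x * Real.log x) ≤ Ph K θ y * Real.log y ∧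
      (1 - t) * (Ph K θ y * Real.log y) ≤ Ph K θ x * Real.log x := by
  have hr := (ratio K).eventually (lt_mem_nhds (show 1 - t < 1 by linarith))
  have hr1 := (ratio 1).eventually (lt_mem_nhds (show 1 - t < 1 by linarith))
  obtain ⟨N, hN⟩ := eventually_atTop.1 (hr.and (hr1.and (log_tendsto.eventually_ge_atTop 1)))
  filter_upwards [eventually_ge_atTop (2 * N + 2)] with x hx y hyx hxy
  have hy1 : 1 ≤ y := by
    by_contra hcon
    have h0 : y = 0 := by omega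
    rw [h0] at hxy
    have h1 : (x : ℝ) ≤ 1 := by
      push_cast at hxy
      rw [Real.zero_rpow hθ.ne', mul_zero, add_zero] at hxy
      linarith
    have h2 : x ≤ 1 := by exact_mod_cast h1
    omega
  have hy1' : (1 : ℝ) ≤ y := by exact_mod_cast hy1
  have hyθ := rpow_le_self' hy1' hθ1.le
  have hyθ0 : 0 < (y : ℝ) ^ θ := Real.rpow_pos_of_pos (by linarith) _
  have hxy2 : (x : ℝ) ≤ (1 + δ) * y := by nlinarith
  have hxy3 : (x : ℝ) ≤ 2 * y := by nlinarith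
  have hNy : N ≤ y := by
    have : x ≤ 2 * y := by exact_mod_cast hxy3
    omega
  obtain ⟨h1, h2, h3⟩ := hN y hNy
  have hyx' : (y : ℝ) ≤ x := by exact_mod_cast hyx
  have hly : 0 < Real.log y := by linarith
  have hlx : Real.log y ≤ Real.log x := Real.log_le_log (by linarith) hyx'
  have hlx2 : Real.log x ≤ Real.log (2 * (y : ℝ)) := Real.log_le_log (by linarith) hxy3
  have hlx0 : 0 < Real.log x := by linarith
  have hl2 : 0 < Real.log (2 * (y : ℝ)) := by linarith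
  have hxθ : (y : ℝ) ^ θ ≤ (x : ℝ) ^ θ := Real.rpow_le_rpow (by linarith) hyx' hθ.le
  have hxθ0 : 0 < (x : ℝ) ^ θ := by linarith
  have hxθ2 : (1 - t) * (x : ℝ) ^ θ ≤ (y : ℝ) ^ θ := by
    have e1 : (x : ℝ) ^ θ ≤ ((1 + δ) * y) ^ θ := Real.rpow_le_rpow (by linarith) hxy2 hθ.le
    rw [Real.mul_rpow (by linarith) (by linarith)] at e1
    have e2 : (1 + δ) ^ θ ≤ 1 + δ := rpow_le_self' (by linarith) hθ1.le
    have e3 : (x : ℝ) ^ θ ≤ (1 + δ) * (y : ℝ) ^ θ := e1.trans (mul_le_mul_of_nonneg_right e2 hyθ0.le)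
    have e4 : (1 - t) * (x : ℝ) ^ θ ≤ (1 - t) * ((1 + δ) * (y : ℝ) ^ θ) := mul_le_mul_of_nonneg_left e3 (by linarith)
    nlinarith
  rw [div_pow, lt_div_iff₀ (pow_pos hl2 K)] at h1
  rw [pow_one, lt_div_iff₀ hl2] at h2
  have h4 : (1 - t) * Real.log x ^ K ≤ Real.log y ^ K :=
    (mul_le_mul_of_nonneg_left (pow_le_pow_left₀ hlx0.le hlx2 K) (by linarith)).trans h1.le
  have h5 : (1 - t) * Real.log x ≤ Real.log y := (mul_le_mul_of_nonneg_left hlx2 (by linarith)).trans h2.le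
  have hK1 : 0 < Real.log x ^ K := pow_pos hlx0 K
  have hK2 : 0 < Real.log y ^ K := pow_pos hly K
  have hK3 : Real.log y ^ K ≤ Real.log x ^ K := pow_le_pow_left₀ hly.le hlx K
  unfold Ph
  constructor
  · have e1 : (1 - t) ^ 2 * ((x : ℝ) ^ θ / Real.log x ^ K * Real.log x) =
        ((1 - t) * (x : ℝ) ^ θ) * ((1 - t) * Real.log x) / Real.log x ^ K := by ring
    rw [e1]
    have e2 : (y : ℝ) ^ θ / Real.log y ^ K * Real.log y = (y : ℝ) ^ θ * Real.log y / Real.log y ^ K := by ring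
    rw [e2]
    refine div_le_div₀ (by positivity) (mul_le_mul hxθ2 h5 (mul_nonneg (by linarith) hlx0.le) hyθ0.le) hK2 hK3
  · have e1 : (1 - t) * ((y : ℝ) ^ θ / Real.log y ^ K * Real.log y) =
        (y : ℝ) ^ θ * Real.log y * ((1 - t) / Real.log y ^ K) := by ring
    rw [e1]
    have e2 : (x : ℝ) ^ θ / Real.log x ^ K * Real.log x = (x : ℝ) ^ θ * Real.log x * (1 / Real.log x ^ K) := by ring
    rw [e2]
    refine mul_le_mul (mul_le_mul hxθ hlx hly.le hxθ0.le) ?_ (div_nonneg (by linarith) hK2.le) (by positivity)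
    rw [div_le_div_iff₀ hK2 hK1]
    linarith

/-- The indices in an interval for which the tuple stays in the interval. -/
def Jx (H : Finset ℕ) (a b : ℕ) : Finset ℕ := (Ico a b).filter (fun m => m + H.sup id < b)

variable {Ω : Type*}

theorem num_close {A : Ω → Set ℕ} {Q : ℕ} (hQ : 1 ≤ Q) (H : Finset ℕ) {a b : ℕ} (hab : a ≤ b) (ha1 : 1 ≤ Real.log a)
    (hq : qq Q ≤ Real.log a) (hba : (b : ℝ) - a ≤ a) (ω : Ω) :
    |nm A (Jx H a b) (fun m => tl m H) ω - sing Q H * li H.card a b - Sm Q A H a b ω| ≤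
      (H.sup id : ℕ) + Q + qq Q ^ H.card * ∑ h ∈ H, (h : ℝ) := by
  have ha0 := pos_of_log ha1
  have hq0 := qq_pos hQ
  have h1 := mean_win hQ H hab ha1 hq
  have h2 : ∑ m ∈ Ico a b, ind A (tl m H) ω = ∑ m ∈ Ico a b \ Jx H a b, ind A (tl m H) ω +
      ∑ m ∈ Jx H a b, ind A (tl m H) ω := (sum_sdiff (filter_subset _ _)).symm
  have h3 : Sm Q A H a b ω = ∑ m ∈ Ico a b, ind A (tl m H) ω - ∑ m ∈ Ico a b, PP Q H m := by
    unfold Sm
    rw [sum_sub_distrib]
  have h4 : nm A (Jx H a b) (fun m => tl m H) ω - sing Q H * li H.card a b - Sm Q A H a b ω =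
      -∑ m ∈ Ico a b \ Jx H a b, ind A (tl m H) ω + (∑ m ∈ Ico a b, PP Q H m - sing Q H * li H.card a b) := by
    have h5 : nm A (Jx H a b) (fun m => tl m H) ω = ∑ m ∈ Jx H a b, ind A (tl m H) ω := rfl
    rw [h3, h2, h5]
    ring
  rw [h4]
  refine (abs_add_le _ _).trans ?_
  have h5 : |-∑ m ∈ Ico a b \ Jx H a b, ind A (tl m H) ω| ≤ (H.sup id : ℕ) := by
    rw [abs_neg, abs_of_nonneg (sum_nonneg (fun m _ => ind_nonneg _ _))]
    refine (sum_le_sum (g := fun _ => (1 : ℝ)) (fun m _ => ind_le_one _ _)).trans ?_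
    rw [sum_const, nsmul_eq_mul, mul_one]
    have h6 : Ico a b \ Jx H a b ⊆ Ico (b - H.sup id) b := by
      intro m hm
      unfold Jx at hm
      rw [Finset.mem_sdiff, mem_filter, not_and] at hm
      have h2 := hm.2 hm.1
      have h3 := (mem_Ico.1 hm.1).2
      rw [mem_Ico]
      omega
    have h7 := card_le_card h6
    rw [Nat.card_Ico] at h7
    have h8 : (Ico a b \ Jx H a b).card ≤ H.sup id := by omega
    exact_mod_cast h8
  have h6 : qq Q ^ H.card * (∑ h ∈ H, (h : ℝ)) * (((b : ℝ) - a) / a) ≤ qq Q ^ H.card * ∑ h ∈ H, (h : ℝ) := by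
    have h7 : 0 ≤ ∑ h ∈ H, (h : ℝ) := sum_nonneg (fun _ _ => Nat.cast_nonneg _)
    have h8 : ((b : ℝ) - a) / a ≤ 1 := by
      rw [div_le_one (by linarith)]
      exact hba
    calc qq Q ^ H.card * (∑ h ∈ H, (h : ℝ)) * (((b : ℝ) - a) / a) ≤ qq Q ^ H.card * (∑ h ∈ H, (h : ℝ)) * 1 :=
          mul_le_mul_of_nonneg_left h8 (by positivity)
      _ = _ := by ring
  linarith

/-- The prediction in `(x, x + x^θ)`. -/
noncomputable def prS (Q : ℕ) (H : Finset ℕ) (θ : ℝ) (x : ℕ) : ℝ := sing Q H * li H.card (x + 1) (pt 1 θ x)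

/-- The deviation in `(x, x + x^θ)`. -/
noncomputable def Dt (Q : ℕ) (A : Ω → Set ℕ) (H : Finset ℕ) (θ : ℝ) (x : ℕ) (ω : Ω) : ℝ :=
  (nm A (Jx H (x + 1) (pt 1 θ x)) (fun m => tl m H) ω - prS Q H θ x) / Real.sqrt (2 * prS Q H θ x * Real.log x)

/-- The prediction in the annulus. -/
noncomputable def prD (Q : ℕ) (H : Finset ℕ) (δ θ : ℝ) (x : ℕ) : ℝ := sing Q H * li H.card (pt δ θ x) (pt 1 θ x)

/-- The deviation in the annulus. -/
noncomputable def Ds (Q : ℕ) (A : Ω → Set ℕ) (H : Finset ℕ) (δ θ : ℝ) (y : ℕ) (ω : Ω) : ℝ :=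
  (nm A (Jx H (pt δ θ y) (pt 1 θ y)) (fun m => tl m H) ω - prD Q H δ θ y) / Real.sqrt (2 * prD Q H δ θ y * Real.log y)

theorem pt_one_mono {θ : ℝ} (hθ : 0 ≤ θ) {x y : ℕ} (h : y ≤ x) : pt 1 θ y ≤ pt 1 θ x := by
  unfold pt
  have h1 : (y : ℝ) ≤ x := by exact_mod_cast h
  refine Nat.ceil_le_ceil ?_
  have h2 : (y : ℝ) ^ θ ≤ (x : ℝ) ^ θ := Real.rpow_le_rpow (Nat.cast_nonneg _) h1 hθ
  linarith

theorem rpow_incr {x y θ : ℝ} (hy : 1 ≤ y) (hyx : y ≤ x) (hθ : θ ≤ 1) : x ^ θ ≤ y ^ θ + (x - y) := by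
  have h1 : (x / y) ^ θ ≤ x / y := rpow_le_self' (by rw [le_div_iff₀ (by linarith)]; linarith) hθ
  rw [Real.div_rpow (by linarith) (by linarith)] at h1
  have h2 : 0 < y ^ θ := Real.rpow_pos_of_pos (by linarith) _
  rw [div_le_iff₀ h2] at h1
  have h3 : y ^ θ ≤ y := rpow_le_self' hy hθ
  have h4 : x / y * y ^ θ = y ^ θ + (x - y) * (y ^ θ / y) := by
    field_simp
    ring
  have h5 : y ^ θ / y ≤ 1 := by
    rw [div_le_one (by linarith)]
    exact h3
  have h6 : (x - y) * (y ^ θ / y) ≤ (x - y) * 1 := mul_le_mul_of_nonneg_left h5 (by linarith)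
  linarith

theorem Fl_big {K : ℕ} {θ : ℝ} (hθ : 0 < θ) (M : ℝ) : ∀ᶠ x : ℕ in atTop, M ≤ Fl K θ x := by
  filter_upwards [ev_power (M ^ 2) K hθ, log_tendsto.eventually_ge_atTop 1] with x h1 h2
  unfold Fl
  refine Real.le_sqrt_of_sq_le ?_
  have h3 : M ^ 2 ≤ (x : ℝ) ^ θ / Real.log x ^ K := by
    rw [le_div_iff₀ (pow_pos (by linarith) _)]
    exact h1
  nlinarith [sq_nonneg M]

/-- **The deviations at neighbouring points.** -/
theorem tlem [MeasurableSpace Ω] {μ : Measure Ω} [IsProbabilityMeasure μ] {A : Ω → Set ℕ} {Q : ℕ}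
    (hA : IsModel μ (level Q) A) (hQ : 1 ≤ Q) {H : Finset ℕ} (h0 : 0 ∈ H)
    (hs : 0 < sing Q H) {θ η : ℝ} (hθ : 0 < θ) (hθ1 : θ < 1) (hη : 0 < η) : ∃ δ₀ > 0, δ₀ < 1 ∧ ∀ δ, 0 < δ → δ ≤ δ₀ →
    ∀ᵐ ω ∂μ, ∀ᶠ x : ℕ in atTop, ∀ y : ℕ, y ≤ x → (x : ℝ) ≤ y + δ * (y : ℝ) ^ θ →
      |Dt Q A H θ x ω - Ds Q A H δ θ y ω| ≤ η * (1 + |Ds Q A H δ θ y ω|) := by
  have hQ0 : (0 : ℝ) < Q := by exact_mod_cast hQ
  obtain ⟨t, ht⟩ : ∃ t, t = min (1 / 24) (η / 24) := ⟨_, rfl⟩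
  have ht0 : 0 < t := by rw [ht]; exact lt_min (by norm_num) (by positivity)
  have ht1 : t ≤ 1 / 24 := by rw [ht]; exact min_le_left _ _
  have ht2 : t ≤ η / 24 := by rw [ht]; exact min_le_right _ _
  obtain ⟨w, hw⟩ : ∃ w, w = 2 * Real.sqrt Q := ⟨_, rfl⟩
  have hw0 : 0 < w := by rw [hw]; exact mul_pos (by norm_num) (Real.sqrt_pos.2 hQ0)
  obtain ⟨ε', hε'⟩ : ∃ ε', ε' = η / (8 * w) := ⟨_, rfl⟩
  have hε'0 : 0 < ε' := by rw [hε']; positivity
  obtain ⟨δI, hδI0, hδI1, hinc⟩ := inc_ae hA hQ h0 hθ hε'0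
  obtain ⟨M, hM⟩ : ∃ M : ℝ, M = (H.sup id : ℕ) + Q + qq Q ^ H.card * ∑ h ∈ H, (h : ℝ) := ⟨_, rfl⟩
  have hM0 : 0 ≤ M := by
    rw [hM]
    have : 0 ≤ ∑ h ∈ H, (h : ℝ) := sum_nonneg (fun _ _ => Nat.cast_nonneg _)
    have := qq_pos hQ
    positivity
  refine ⟨min t (δI / 3), lt_min ht0 (by positivity), (min_le_left _ _).trans_lt (by linarith), ?_⟩
  intro δ hδ0 hδ
  have hδt : δ ≤ t := hδ.trans (min_le_left _ _)
  have hδI : 3 * δ ≤ δI := by
    have := hδ.trans (min_le_right _ _)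
    linarith
  obtain ⟨N, hN⟩ := eventually_atTop.1 ((li_rel (K := H.card) hθ hθ1 hδ0.le (show δ < 1 by linarith) ht0
    (show t < 1 by linarith)).and ((log_tendsto.eventually_ge_atTop 1).and ((log_tendsto.eventually_ge_atTop (qq Q)).and
    (eventually_ge_atTop 1))))
  filter_upwards [hinc] with ω hω
  filter_upwards [hω, li_rel (K := H.card) (δ := 0) hθ hθ1 le_rfl one_pos ht0 (show t < 1 by linarith),
    Ph_rel (K := H.card) hθ hθ1 hδ0.le hδt ht0 (show t < 1 by linarith), eventually_ge_atTop (2 * N + 2),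
    pt_le_two hθ1, (rpow_tendsto hθ).eventually_ge_atTop (1 / δ), Fl_big (K := H.card) hθ ((1 + 2 * M) * (4 * w) / η)]
    with x hx hli hph hxN hp2 hxθ hFlb y hyx hxy
  have hyx' : (y : ℝ) ≤ x := by exact_mod_cast hyx
  -- `y` is large
  have hy1 : 1 ≤ y := by
    by_contra hcon
    have h0 : y = 0 := by omega
    rw [h0] at hxy
    have h1 : (x : ℝ) ≤ 1 := by
      push_cast at hxy
      rw [Real.zero_rpow hθ.ne', mul_zero, add_zero] at hxy
      linarith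
    have h2 : x ≤ 1 := by exact_mod_cast h1
    omega
  have hy1' : (1 : ℝ) ≤ y := by exact_mod_cast hy1
  have hyθ := rpow_le_self' hy1' hθ1.le
  have hyθ0 : 0 < (y : ℝ) ^ θ := Real.rpow_pos_of_pos (by linarith) _
  have hxθ0 : 0 < (x : ℝ) ^ θ := Real.rpow_pos_of_pos (by linarith) _
  have hxyθ : (y : ℝ) ^ θ ≤ (x : ℝ) ^ θ := Real.rpow_le_rpow (by linarith) hyx' hθ.le
  have hxy3 : (x : ℝ) ≤ 2 * y := by
    have e1 : δ * (y : ℝ) ^ θ ≤ 1 * (y : ℝ) ^ θ := mul_le_mul_of_nonneg_right (by linarith) hyθ0.le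
    linarith
  have hNy : N ≤ y := by
    have : x ≤ 2 * y := by exact_mod_cast hxy3
    omega
  obtain ⟨hliy, hly1, hlyq, _⟩ := hN y hNy
  obtain ⟨ly1, ly2⟩ := hliy (pt δ θ y) le_rfl (by omega)
  have hp0 : pt 0 θ x = x := by
    unfold pt
    rw [zero_mul, add_zero, Nat.ceil_natCast]
  rw [hp0] at hli
  obtain ⟨lx1, lx2⟩ := hli (x + 1) (by omega) le_rfl
  rw [sub_zero, one_mul] at lx1 lx2
  obtain ⟨ph1, ph2⟩ := hph y hyx hxy
  have hlyx : Real.log y ≤ Real.log x := Real.log_le_log (by linarith) hyx'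
  have hlx1 : 1 ≤ Real.log x := by linarith
  have hPx : 0 < Ph H.card θ x := by
    unfold Ph
    exact div_pos hxθ0 (pow_pos (by linarith) _)
  have hPy : 0 < Ph H.card θ y := by
    unfold Ph
    exact div_pos hyθ0 (pow_pos (by linarith) _)
  obtain ⟨lx, hlx⟩ : ∃ lx, lx = li H.card (x + 1) (pt 1 θ x) := ⟨_, rfl⟩
  obtain ⟨ly, hly⟩ : ∃ ly, ly = li H.card (pt δ θ y) (pt 1 θ y) := ⟨_, rfl⟩
  rw [← hlx] at lx1 lx2
  rw [← hly] at ly1 ly2
  have h1t : 0 < 1 - t := by linarith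
  have hlx0 : 0 < lx := lt_of_lt_of_le (by positivity) lx1
  have hly0 : 0 < ly := lt_of_lt_of_le (by
    have : 0 < 1 - δ := by linarith
    positivity) ly1
  -- the quotient
  obtain ⟨q, hq⟩ : ∃ q, q = ly * Real.log y / (lx * Real.log x) := ⟨_, rfl⟩
  have hden : 0 < lx * Real.log x := by positivity
  have hq0 : 0 < q := by rw [hq]; positivity
  have hq1 : 1 - 6 * t ≤ q := by
    rw [hq, le_div_iff₀ hden]
    have e1 : (1 - t) ^ 2 * ((1 - δ) * (Ph H.card θ y * Real.log y)) ≤ ly * Real.log y := by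
      have := mul_le_mul_of_nonneg_right ly1 (by linarith : 0 ≤ Real.log y)
      linarith
    have e2 : (1 - t) ^ 2 * ((1 - t) * ((1 - t) ^ 2 * (Ph H.card θ x * Real.log x))) ≤
        (1 - t) ^ 2 * ((1 - δ) * (Ph H.card θ y * Real.log y)) := by
      refine mul_le_mul_of_nonneg_left ?_ (by positivity)
      exact mul_le_mul (by linarith) ph1 (by positivity) (by linarith)
    have e3 : lx * Real.log x * (1 - t) ≤ Ph H.card θ x * Real.log x := by
      have := mul_le_mul_of_nonneg_right lx2 (by linarith : 0 ≤ Real.log x)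
      linarith
    have e4 : (1 - t) ^ 5 * (lx * Real.log x * (1 - t)) ≤ (1 - t) ^ 5 * (Ph H.card θ x * Real.log x) :=
      mul_le_mul_of_nonneg_left e3 (by positivity)
    have e5 : (1 - t) ^ 2 * ((1 - t) * ((1 - t) ^ 2 * (Ph H.card θ x * Real.log x))) =
        (1 - t) ^ 5 * (Ph H.card θ x * Real.log x) := by ring
    have e6 : (1 - 6 * t) ≤ (1 - t) ^ 6 := by
      have := one_add_mul_le_pow (a := -t) (by linarith) 6
      push_cast at this
      calc 1 - 6 * t = 1 + 6 * -t := by ring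
        _ ≤ (1 + -t) ^ 6 := this
        _ = (1 - t) ^ 6 := by ring
    have e7 : (1 - 6 * t) * (lx * Real.log x) ≤ (1 - t) ^ 6 * (lx * Real.log x) := mul_le_mul_of_nonneg_right e6 hden.le
    have e8 : (1 - t) ^ 6 * (lx * Real.log x) = (1 - t) ^ 5 * (lx * Real.log x * (1 - t)) := by ring
    linarith
  have hq2 : q * (1 - 4 * t) ≤ 1 := by
    have e1 : ly * Real.log y * (1 - t) ≤ Ph H.card θ y * Real.log y := by
      have e2 := mul_le_mul_of_nonneg_right ly2 (by linarith : 0 ≤ Real.log y)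
      have e3 : (1 - δ) * Ph H.card θ y * Real.log y ≤ 1 * (Ph H.card θ y * Real.log y) := by
        rw [mul_assoc]
        exact mul_le_mul_of_nonneg_right (by linarith) (by positivity)
      linarith
    have e2 : (1 - t) ^ 2 * (Ph H.card θ x * Real.log x) ≤ lx * Real.log x := by
      have := mul_le_mul_of_nonneg_right lx1 (by linarith : 0 ≤ Real.log x)
      linarith
    have e3 : (1 - t) ^ 3 * (ly * Real.log y * (1 - t)) ≤ (1 - t) ^ 3 * (Ph H.card θ y * Real.log y) :=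
      mul_le_mul_of_nonneg_left e1 (by positivity)
    have e4 : (1 - t) ^ 2 * ((1 - t) * (Ph H.card θ y * Real.log y)) ≤ (1 - t) ^ 2 * (Ph H.card θ x * Real.log x) :=
      mul_le_mul_of_nonneg_left ph2 (by positivity)
    have e5 : (1 - t) ^ 4 * (ly * Real.log y) ≤ lx * Real.log x := by
      have e6 : (1 - t) ^ 4 * (ly * Real.log y) = (1 - t) ^ 3 * (ly * Real.log y * (1 - t)) := by ring
      have e7 : (1 - t) ^ 2 * ((1 - t) * (Ph H.card θ y * Real.log y)) = (1 - t) ^ 3 * (Ph H.card θ y * Real.log y) := by ring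
      linarith
    have e6 : (1 - 4 * t) ≤ (1 - t) ^ 4 := by
      have := one_add_mul_le_pow (a := -t) (by linarith) 4
      push_cast at this
      calc 1 - 4 * t = 1 + 4 * -t := by ring
        _ ≤ (1 + -t) ^ 4 := this
        _ = (1 - t) ^ 4 := by ring
    rw [hq, div_mul_eq_mul_div, div_le_one hden]
    have e7 : (1 - 4 * t) * (ly * Real.log y) ≤ (1 - t) ^ 4 * (ly * Real.log y) :=
      mul_le_mul_of_nonneg_right e6 (by positivity)
    linarith
  have hqd : |q - 1| ≤ η / 2 := by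
    rw [abs_le]
    constructor
    · linarith
    · have e1 : q ≤ 2 := by nlinarith only [hq2, hq0, ht1]
      have e2 : t * q ≤ t * 2 := mul_le_mul_of_nonneg_left e1 ht0.le
      linarith
  have hsq : |Real.sqrt q - 1| ≤ η / 2 := by
    refine le_trans ?_ hqd
    have e1 := Real.sqrt_nonneg q
    have e2 : q - 1 = (Real.sqrt q - 1) * (Real.sqrt q + 1) := by
      have := Real.mul_self_sqrt hq0.le
      linarith [this, show (Real.sqrt q - 1) * (Real.sqrt q + 1) = Real.sqrt q * Real.sqrt q - 1 by ring]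
    rw [e2, abs_mul, abs_of_pos (show 0 < Real.sqrt q + 1 by linarith)]
    have e3 := abs_nonneg (Real.sqrt q - 1)
    nlinarith only [e1, e3]
  -- the denominators
  obtain ⟨dx, hdx⟩ : ∃ dx, dx = Real.sqrt (2 * prS Q H θ x * Real.log x) := ⟨_, rfl⟩
  obtain ⟨dy, hdy⟩ : ∃ dy, dy = Real.sqrt (2 * prD Q H δ θ y * Real.log y) := ⟨_, rfl⟩
  have hdx2 : 2 * prS Q H θ x * Real.log x = 2 * sing Q H * (lx * Real.log x) := by
    unfold prS
    rw [← hlx]
    ring
  have hdy2 : 2 * prD Q H δ θ y * Real.log y = 2 * sing Q H * (ly * Real.log y) := by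
    unfold prD
    rw [← hly]
    ring
  have hdx0 : 0 < dx := by
    rw [hdx, hdx2]
    exact Real.sqrt_pos.2 (by positivity)
  have hdy0 : 0 < dy := by
    rw [hdy, hdy2]
    exact Real.sqrt_pos.2 (by positivity)
  have hdyx : dy = Real.sqrt q * dx := by
    rw [hdy, hdx, hdy2, hdx2, ← Real.sqrt_mul hq0.le]
    congr 1
    rw [hq]
    field_simp
  have hFl0 : 0 ≤ Fl H.card θ x := Real.sqrt_nonneg _
  have hFd : Fl H.card θ x ≤ w * dx := by
    rw [hdx, hdx2, hw, Fl_eq]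
    have e1 : 2 * Real.sqrt Q * Real.sqrt (2 * sing Q H * (lx * Real.log x)) =
        Real.sqrt (4 * Q * (2 * sing Q H * (lx * Real.log x))) := by
      rw [Real.sqrt_mul (by positivity) (2 * sing Q H * (lx * Real.log x)), Real.sqrt_mul (by norm_num) (Q : ℝ)]
      rw [show (4 : ℝ) = 2 ^ 2 by norm_num, Real.sqrt_sq (by norm_num)]
    rw [e1]
    refine Real.sqrt_le_sqrt ?_
    have e2 := sing_ge hQ hs
    have e3 : 1 ≤ Q * sing Q H := by
      rw [div_le_iff₀ hQ0] at e2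
      linarith
    have e4 : 1 / 4 * Ph H.card θ x ≤ lx := by
      refine le_trans ?_ lx1
      refine mul_le_mul_of_nonneg_right ?_ hPx.le
      nlinarith only [ht0, ht1]
    have e5 : 0 ≤ lx * Real.log x := hden.le
    have e6 : 1 * (lx * Real.log x) ≤ Q * sing Q H * (lx * Real.log x) := mul_le_mul_of_nonneg_right e3 e5
    have e7 := mul_le_mul_of_nonneg_right e4 (by linarith : 0 ≤ Real.log x)
    linarith
  -- the numerators
  have hxp : x ≤ pt δ θ y := by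
    have := pt_ge (δ := δ) (θ := θ) y
    have h2 : (x : ℝ) ≤ pt δ θ y := by linarith
    exact_mod_cast h2
  have hpp : pt δ θ y ≤ pt 1 θ y := pt_mono (by linarith) y
  have hpm : pt 1 θ y ≤ pt 1 θ x := pt_one_mono hθ.le hyx
  have hδx : 1 ≤ δ * (x : ℝ) ^ θ := by
    rw [div_le_iff₀ hδ0] at hxθ
    linarith
  have hx1θ : 1 ≤ (x : ℝ) ^ θ := by
    have e1 : δ * (x : ℝ) ^ θ ≤ 1 * (x : ℝ) ^ θ := mul_le_mul_of_nonneg_right (by linarith) hxθ0.le
    linarith
  have hδyx : δ * (y : ℝ) ^ θ ≤ δ * (x : ℝ) ^ θ := mul_le_mul_of_nonneg_left hxyθ hδ0.le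
  have hI3 : 3 * (δ * (x : ℝ) ^ θ) ≤ δI * (x : ℝ) ^ θ := by
    have := mul_le_mul_of_nonneg_right hδI hxθ0.le
    linarith
  have hinc1 := hx x (pt δ θ y) le_rfl hxp (by omega) (by
    have := pt_lt (θ := θ) hδ0.le y
    linarith)
  have hinc2 := hx (pt 1 θ y) (pt 1 θ x) (by omega) hpm (by omega) (by
    have e1 := pt_lt (θ := θ) zero_le_one x
    have e2 := pt_ge (δ := 1) (θ := θ) y
    have e3 := rpow_incr hy1' hyx' hθ1.le
    linarith)
  have hnx : |nm A (Jx H (x + 1) (pt 1 θ x)) (fun m => tl m H) ω - prS Q H θ x - Sm Q A H (x + 1) (pt 1 θ x) ω| ≤ M := by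
    rw [hM]
    have e1 : x + 1 ≤ pt 1 θ x := by
      have e2 := pt_ge (δ := 1) (θ := θ) x
      have e3 : (x : ℝ) + 1 ≤ pt 1 θ x := by linarith
      exact_mod_cast e3
    have e2 : Real.log x ≤ Real.log ((x + 1 : ℕ) : ℝ) := Real.log_le_log (by linarith) (by push_cast; linarith)
    refine num_close hQ H e1 (by linarith) (by linarith) ?_ ω
    have e3 : (pt 1 θ x : ℝ) ≤ 2 * x := by exact_mod_cast hp2
    push_cast
    linarith
  have hny : |nm A (Jx H (pt δ θ y) (pt 1 θ y)) (fun m => tl m H) ω - prD Q H δ θ y - Sm Q A H (pt δ θ y) (pt 1 θ y) ω| ≤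
      M := by
    rw [hM]
    have e0 : y ≤ pt δ θ y := le_pt hδ0.le y
    have e0' : (y : ℝ) ≤ pt δ θ y := by exact_mod_cast e0
    have e2 : Real.log y ≤ Real.log (pt δ θ y : ℝ) := Real.log_le_log (by linarith) e0'
    refine num_close hQ H hpp (by linarith) (by linarith) ?_ ω
    have e3 := pt_lt (θ := θ) zero_le_one y
    have e4 := pt_ge (δ := δ) (θ := θ) y
    have e5 : 0 < δ * (y : ℝ) ^ θ := by positivity
    have e6 : (x : ℝ) ≤ pt δ θ y := by exact_mod_cast hxp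
    have e7 : pt 1 θ x ≤ 2 * x := hp2
    have e8 : (pt 1 θ y : ℝ) ≤ 2 * x := by
      have : pt 1 θ y ≤ 2 * x := hpm.trans e7
      exact_mod_cast this
    linarith
  have hS1 : Sm Q A H x (pt 1 θ x) ω = (ind A (tl x H) ω - PP Q H x) + Sm Q A H (x + 1) (pt 1 θ x) ω := by
    have e1 : x + 1 ≤ pt 1 θ x := by
      have e2 := pt_ge (δ := 1) (θ := θ) x
      have e3 : (x : ℝ) + 1 ≤ pt 1 θ x := by linarith
      exact_mod_cast e3
    rw [Sm_add Q H (show x ≤ x + 1 by omega) e1 ω]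
    congr 1
    unfold Sm
    rw [Nat.Ico_succ_singleton, sum_singleton]
  have hS2 : |ind A (tl x H) ω - PP Q H x| ≤ 1 := by
    rw [abs_le]
    have := ind_nonneg (A := A) (tl x H) ω
    have := ind_le_one (A := A) (tl x H) ω
    have := PP_nonneg Q H x
    have e1 : PP Q H x ≤ 1 := pT_le_one hA _
    constructor <;> linarith
  have hS3 := Sm_add (A := A) Q H hxp (hpp.trans hpm) ω
  have hS4 := Sm_add (A := A) Q H hpp hpm ω
  obtain ⟨nx, hnxd⟩ : ∃ nx, nx = nm A (Jx H (x + 1) (pt 1 θ x)) (fun m => tl m H) ω - prS Q H θ x := ⟨_, rfl⟩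
  obtain ⟨ny, hnyd⟩ : ∃ ny, ny = nm A (Jx H (pt δ θ y) (pt 1 θ y)) (fun m => tl m H) ω - prD Q H δ θ y := ⟨_, rfl⟩
  rw [← hnxd] at hnx
  rw [← hnyd] at hny
  have hnum : |nx - ny| ≤ 2 * (ε' * Fl H.card θ x) + (1 + 2 * M) := by
    rw [abs_le] at hnx hny hS2 ⊢
    rw [abs_lt] at hinc1 hinc2
    constructor <;> linarith [hnx.1, hnx.2, hny.1, hny.2, hS2.1, hS2.2, hinc1.1, hinc1.2, hinc2.1, hinc2.2]
  have hfin : Dt Q A H θ x ω - Ds Q A H δ θ y ω = (nx - ny) / dx + Ds Q A H δ θ y ω * (Real.sqrt q - 1) := by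
    unfold Dt Ds
    rw [← hnxd, ← hnyd, ← hdx, ← hdy]
    have e1 : ny / dx = ny / dy * Real.sqrt q := by
      rw [hdyx]
      have : Real.sqrt q ≠ 0 := (Real.sqrt_pos.2 hq0).ne'
      field_simp
    rw [sub_div, e1]
    ring
  rw [hfin]
  refine (abs_add_le _ _).trans ?_
  rw [abs_mul, abs_div, abs_of_pos hdx0]
  have hA1 : |nx - ny| / dx ≤ η / 2 := by
    rw [div_le_iff₀ hdx0]
    have e1 : ε' * Fl H.card θ x ≤ η / 8 * dx := by
      have e2 := mul_le_mul_of_nonneg_left hFd hε'0.le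
      have e3 : ε' * (w * dx) = η / 8 * dx := by
        rw [hε']
        field_simp
      linarith
    have e2 : 1 + 2 * M ≤ η / 4 * dx := by
      rw [div_le_iff₀ hη] at hFlb
      have e3 : (1 + 2 * M) * (4 * w) ≤ w * dx * η := hFlb.trans (mul_le_mul_of_nonneg_right hFd hη.le)
      have e4 : w * ((1 + 2 * M) * 4) ≤ w * (dx * η) := by linarith
      have e5 := le_of_mul_le_mul_left e4 hw0
      linarith
    linarith
  have hA2 : |Ds Q A H δ θ y ω| * |Real.sqrt q - 1| ≤ |Ds Q A H δ θ y ω| * (η / 2) :=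
    mul_le_mul_of_nonneg_left hsq (abs_nonneg _)
  have := mul_nonneg hη.le (abs_nonneg (Ds Q A H δ θ y ω))
  linarith

end Pool.Agent.Q106.MD
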