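import Pool.Agent.Q106.MD.ShT
import Pool.Agent.Q120.GM.Count

/-!
# Deviations in short intervals at several scales: no limit points outside
-/

set_option autoImplicit false

namespace Pool.Agent.Q106.MD

open Finset MeasureTheory ProbabilityTheory Filter Pool.Agent.Q120.GM Pool.Agent.Q106.UR
open scoped Topology

variable {Ω : Type*} [MeasurableSpace Ω] {μ : Measure Ω} [IsProbabilityMeasure μ] {A : Ω → Set ℕ} {Q : ℕ}

theorem gau_short (hA : IsModel μ (level Q) A) (hQ : 1 ≤ Q) {r : ℕ} (H : Fin r → Finset ℕ) (hH : Function.Injective H)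
    (h0 : ∀ i, 0 ∈ H i) (hs : ∀ i, 0 < sing Q (H i)) {δ θ : ℝ} (hδ : 0 ≤ δ) (hδ1 : δ < 1) (hθ : 0 < θ) (hθ1 : θ ≤ 1) :
    Gau μ atTop (fun y i ω => Ds Q A (H i) δ θ y ω) (fun n => Real.log n) := by
  obtain ⟨e₀, D, hS⟩ := short_sys hQ H hH h0 hs hδ hδ1 hθ hθ1
  exact gau_of hA hS

omit [MeasurableSpace Ω] in
theorem Ds_meas (H : Finset ℕ) (δ θ : ℝ) (y : ℕ) :
    Measurable[F A {m : ℕ | pt δ θ y ≤ m ∧ m < pt 1 θ y}] (Ds Q A H δ θ y) := by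
  unfold Ds nm
  let _ : MeasurableSpace Ω := F A {m : ℕ | pt δ θ y ≤ m ∧ m < pt 1 θ y}
  refine ((Finset.measurable_fun_sum _ (fun m hm => ?_)).sub_const _).div_const _
  refine F_ind (fun b hb => ?_)
  rw [mem_tl] at hb
  obtain ⟨h, hh, rfl⟩ := hb
  unfold Jx at hm
  rw [mem_filter, mem_Ico] at hm
  have h3 : h ≤ H.sup id := le_sup (f := id) hh
  show pt δ θ y ≤ m + h ∧ m + h < pt 1 θ y
  omega

/-- The event that the deviations at scale `θ` are near `d`. -/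
def nearD (Q : ℕ) (A : Ω → Set ℕ) {r : ℕ} (H : Fin r → Finset ℕ) (δ θ : ℝ) (d : Fin r → ℝ) (ε : ℝ) (y : ℕ) : Set Ω :=
  {ω | ∀ i, |Ds Q A (H i) δ θ y ω - d i| < ε}

omit [MeasurableSpace Ω] in
theorem nearD_F {r : ℕ} (H : Fin r → Finset ℕ) (δ θ : ℝ) (d : Fin r → ℝ) (ε : ℝ) (y : ℕ) :
    MeasurableSet[F A {m : ℕ | pt δ θ y ≤ m ∧ m < pt 1 θ y}] (nearD Q A H δ θ d ε y) := by
  have h3 : nearD Q A H δ θ d ε y = ⋂ i, {ω | |Ds Q A (H i) δ θ y ω - d i| < ε} := by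
    ext ω
    simp [nearD]
  rw [h3]
  let _ : MeasurableSpace Ω := F A {m : ℕ | pt δ θ y ≤ m ∧ m < pt 1 θ y}
  exact MeasurableSet.iInter (fun i => measurableSet_lt ((Ds_meas (H i) δ θ y).sub_const _).abs measurable_const)

/-- The grid. -/
noncomputable def gs (δ θ : ℝ) (J : ℕ) : ℕ := ⌊δ * ((2 : ℝ) ^ J) ^ θ⌋₊

/-- The grid point below `x`. -/
noncomputable def gr (δ θ : ℝ) (x : ℕ) : ℕ := 2 ^ Nat.log 2 x + gs δ θ (Nat.log 2 x) * ((x - 2 ^ Nat.log 2 x) / gs δ θ (Nat.log 2 x))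

theorem ev_gs {δ θ : ℝ} (hδ : 0 < δ) (hθ : 0 < θ) : ∀ᶠ J : ℕ in atTop, 1 ≤ gs δ θ J ∧
    δ * ((2 : ℝ) ^ J) ^ θ ≤ 2 * gs δ θ J ∧ (gs δ θ J : ℝ) ≤ δ * ((2 : ℝ) ^ J) ^ θ := by
  have h1 : Tendsto (fun J : ℕ => ((2 : ℝ) ^ J) ^ θ) atTop atTop :=
    (tendsto_rpow_atTop hθ).comp (tendsto_pow_atTop_atTop_of_one_lt (by norm_num))
  filter_upwards [h1.eventually_ge_atTop (2 / δ)] with J h2
  rw [div_le_iff₀ hδ] at h2
  have h3 : (gs δ θ J : ℝ) ≤ δ * ((2 : ℝ) ^ J) ^ θ := Nat.floor_le (by positivity)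
  have h4 : δ * ((2 : ℝ) ^ J) ^ θ < gs δ θ J + 1 := Nat.lt_floor_add_one _
  have h5 : (1 : ℝ) ≤ gs δ θ J := by
    have h6 : 1 ≤ gs δ θ J := by
      unfold gs
      rw [Nat.le_floor_iff (by positivity)]
      push_cast
      linarith
    exact_mod_cast h6
  refine ⟨by exact_mod_cast h5, by linarith, h3⟩

theorem gr_near {δ θ : ℝ} (hδ : 0 < δ) (hθ : 0 < θ) : ∀ᶠ x : ℕ in atTop,
    gr δ θ x ≤ x ∧ (x : ℝ) ≤ gr δ θ x + δ * (gr δ θ x : ℝ) ^ θ := by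
  obtain ⟨J₀, hJ₀⟩ := eventually_atTop.1 (ev_gs hδ hθ)
  filter_upwards [eventually_ge_atTop (2 ^ J₀)] with x hx
  have hx1 : 1 ≤ x := le_trans Nat.one_le_two_pow hx
  have h1 : 2 ^ Nat.log 2 x ≤ x := Nat.pow_log_le_self 2 (by omega)
  have h2 : J₀ ≤ Nat.log 2 x := (Nat.le_log_iff_pow_le (by norm_num) (by omega)).2 hx
  obtain ⟨g1, g2, g3⟩ := hJ₀ _ h2
  obtain ⟨g, hg⟩ : ∃ g, g = gs δ θ (Nat.log 2 x) := ⟨_, rfl⟩
  rw [← hg] at g1 g2 g3
  have h3 : gr δ θ x = 2 ^ Nat.log 2 x + g * ((x - 2 ^ Nat.log 2 x) / g) := by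
    unfold gr
    rw [← hg]
  have h4 := Nat.div_add_mod (x - 2 ^ Nat.log 2 x) g
  have h5 := Nat.mod_lt (x - 2 ^ Nat.log 2 x) (show 0 < g by omega)
  have h6 : x ≤ gr δ θ x + g := by
    rw [h3]
    omega
  have h7 : 2 ^ Nat.log 2 x ≤ gr δ θ x := by
    rw [h3]
    omega
  constructor
  · rw [h3]
    omega
  · have h8 : (x : ℝ) ≤ gr δ θ x + g := by exact_mod_cast h6
    have h9 : ((2 : ℝ) ^ Nat.log 2 x) ^ θ ≤ (gr δ θ x : ℝ) ^ θ := by
      refine Real.rpow_le_rpow (by positivity) ?_ hθ.le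
      exact_mod_cast h7
    have h10 := mul_le_mul_of_nonneg_left h9 hδ.le
    linarith

/-- Unlikely events do not occur at the grid points. -/
theorem grid_bc {E : ℕ → Set Ω} {δ θ a : ℝ} (hδ : 0 < δ) (hθ : 0 < θ) (hθ1 : θ ≤ 1) (ha : 1 - θ < a) (ha0 : 0 ≤ a)
    (h : ∀ᶠ y : ℕ in atTop, μ.real (E y) ≤ (y : ℝ) ^ (-a)) : ∀ᵐ ω ∂μ, ∀ᶠ x : ℕ in atTop, ω ∉ E (gr δ θ x) := by
  obtain ⟨B, hB⟩ : ∃ B : ℕ → Set Ω, B = fun J => ⋃ t ∈ range (2 ^ J / gs δ θ J + 1), E (2 ^ J + gs δ θ J * t) := ⟨_, rfl⟩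
  have hsum : Summable (fun J : ℕ => (2 / δ + 1) * ((2 : ℝ) ^ J) ^ (-(a - (1 - θ))) + ((2 : ℝ) ^ J) ^ (-(a - (1 - θ)))) :=
    ((summable_two_pow (by linarith)).mul_left _).add (summable_two_pow (by linarith))
  obtain ⟨N, hN⟩ := eventually_atTop.1 h
  have hb : ∀ᶠ J : ℕ in atTop, μ.real (B J) ≤
      (2 / δ + 1) * ((2 : ℝ) ^ J) ^ (-(a - (1 - θ))) + ((2 : ℝ) ^ J) ^ (-(a - (1 - θ))) := by
    filter_upwards [ev_gs hδ hθ, two_pow_tendsto.eventually_ge_atTop (N + 1),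
      ((tendsto_rpow_atTop hθ).comp (tendsto_pow_atTop_atTop_of_one_lt (one_lt_two (α := ℝ)))).eventually_ge_atTop 1]
      with J h1 h2 h3
    obtain ⟨g1, g2, g3⟩ := h1
    obtain ⟨X, hX⟩ : ∃ X : ℝ, X = (2 : ℝ) ^ J := ⟨_, rfl⟩
    have hX0 : 0 < X := by rw [hX]; positivity
    have hX1 : 1 ≤ X := by rw [hX]; exact one_le_pow₀ (by norm_num)
    rw [hB]
    refine (measureReal_biUnion_finset_le _ _).trans ?_
    refine (sum_le_sum (g := fun _ => X ^ (-a)) (fun t _ => ?_)).trans ?_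
    · refine (hN _ (by omega)).trans ?_
      refine Real.rpow_le_rpow_of_nonpos hX0 ?_ (by linarith)
      rw [hX]
      push_cast
      have : (0 : ℝ) ≤ (gs δ θ J : ℝ) * t := by positivity
      linarith
    · rw [sum_const, card_range, nsmul_eq_mul]
      have hXθ : 0 < X ^ θ := Real.rpow_pos_of_pos hX0 _
      rw [← hX] at g2 ⊢
      have e1 : (((2 ^ J / gs δ θ J + 1 : ℕ)) : ℝ) ≤ 2 / δ * X ^ (1 - θ) + 1 := by
        push_cast
        have e2 : ((2 ^ J / gs δ θ J : ℕ) : ℝ) ≤ X / gs δ θ J := by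
          refine Nat.cast_div_le.trans (le_of_eq ?_)
          rw [hX]
          push_cast
          rfl
        have hg0 : (0 : ℝ) < gs δ θ J := by exact_mod_cast g1
        have e3 : X / gs δ θ J ≤ 2 / δ * X ^ (1 - θ) := by
          rw [Real.rpow_sub hX0, Real.rpow_one, div_le_iff₀ hg0]
          have e4 : 2 / δ * (X / X ^ θ) * gs δ θ J = X * (2 * gs δ θ J) / (δ * X ^ θ) := by field_simp
          rw [e4, le_div_iff₀ (by positivity)]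
          exact mul_le_mul_of_nonneg_left g2 hX0.le
        linarith
      have e5 : 0 < X ^ (-a) := Real.rpow_pos_of_pos hX0 _
      refine (mul_le_mul_of_nonneg_right e1 e5.le).trans ?_
      have e6 : X ^ (1 - θ) * X ^ (-a) = X ^ (-(a - (1 - θ))) := by
        rw [← Real.rpow_add hX0]
        congr 1
        ring
      have e7 : X ^ (-a) ≤ X ^ (-(a - (1 - θ))) := Real.rpow_le_rpow_of_exponent_le hX1 (by linarith)
      have e8 : (2 / δ * X ^ (1 - θ) + 1) * X ^ (-a) = 2 / δ * (X ^ (1 - θ) * X ^ (-a)) + X ^ (-a) := by ring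
      rw [e8, e6]
      have e9 : 0 < X ^ (-(a - (1 - θ))) := Real.rpow_pos_of_pos hX0 _
      linarith
  filter_upwards [bc hsum hb] with ω hω
  obtain ⟨J₀, hJ₀⟩ := eventually_atTop.1 (hω.and (ev_gs hδ hθ))
  filter_upwards [eventually_ge_atTop (2 ^ J₀)] with x hx hE
  have hx1 : 1 ≤ x := le_trans Nat.one_le_two_pow hx
  have h2 : J₀ ≤ Nat.log 2 x := (Nat.le_log_iff_pow_le (by norm_num) (by omega)).2 hx
  obtain ⟨h3, h4⟩ := hJ₀ _ h2
  apply h3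
  rw [hB]
  simp only [Set.mem_iUnion]
  refine ⟨(x - 2 ^ Nat.log 2 x) / gs δ θ (Nat.log 2 x), ?_, hE⟩
  rw [mem_range, Nat.lt_succ_iff]
  refine Nat.div_le_div_right ?_
  have h5 : x < 2 ^ (Nat.log 2 x + 1) := Nat.lt_pow_succ_log_self (by norm_num) x
  rw [pow_succ] at h5
  omega

theorem exists_lb {α : Type*} [Finite α] (f : α → ℝ) (hf : ∀ a, 0 < f a) : ∃ δ > 0, δ < 1 ∧ ∀ a, δ ≤ f a := by
  rcases isEmpty_or_nonempty α with he | he
  · exact ⟨1 / 2, by norm_num, by norm_num, fun a => (he.false a).elim⟩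
  · obtain ⟨a₀, ha₀⟩ := Finite.exists_min f
    refine ⟨min (1 / 2) (f a₀), lt_min (by norm_num) (hf a₀), (min_le_left _ _).trans_lt (by norm_num), fun a => ?_⟩
    exact (min_le_right _ _).trans (ha₀ a)

theorem sep {δ θ θ' : ℝ} (hδ : 0 < δ) (h : θ' < θ) : ∀ᶠ y : ℕ in atTop, pt 1 θ' y ≤ pt δ θ y := by
  filter_upwards [(rpow_tendsto (θ := θ - θ') (by linarith)).eventually_ge_atTop (1 / δ), eventually_ge_atTop 1] with y h1 h2
  have hy : (0 : ℝ) < y := by exact_mod_cast h2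
  unfold pt
  refine Nat.ceil_le_ceil ?_
  have h3 : (y : ℝ) ^ θ = (y : ℝ) ^ θ' * (y : ℝ) ^ (θ - θ') := by
    rw [← Real.rpow_add hy]
    congr 1
    ring
  have h4 : 0 < (y : ℝ) ^ θ' := Real.rpow_pos_of_pos hy _
  rw [div_le_iff₀ hδ] at h1
  rw [h3]
  have h5 := mul_le_mul_of_nonneg_left h1 h4.le
  nlinarith

/-- The blocks of different scales are disjoint. -/
theorem blocks_disjoint {s : ℕ} {θ : Fin s → ℝ} (hθ : StrictAnti θ) {δ : ℝ} (hδ : 0 < δ) : ∀ᶠ y : ℕ in atTop,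
    ∀ i j : Fin s, i ≠ j → Disjoint {m : ℕ | pt δ (θ i) y ≤ m ∧ m < pt 1 (θ i) y} {m : ℕ | pt δ (θ j) y ≤ m ∧ m < pt 1 (θ j) y} := by
  have h1 : ∀ᶠ y : ℕ in atTop, ∀ i j : Fin s, i < j → pt 1 (θ j) y ≤ pt δ (θ i) y := by
    refine eventually_all.2 (fun i => eventually_all.2 (fun j => ?_))
    by_cases h : i < j
    · filter_upwards [sep hδ (hθ h)] with y hy _
      exact hy
    · exact Eventually.of_forall (fun y h2 => absurd h2 h)
  filter_upwards [h1] with y hy i j hij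
  rw [Set.disjoint_left]
  rintro m ⟨h2, h3⟩ ⟨h4, h5⟩
  rcases lt_or_gt_of_ne hij with h | h
  · have := hy i j h
    omega
  · have := hy j i h
    omega

theorem joint_up (hA : IsModel μ (level Q) A) (hQ : 1 ≤ Q) {r : ℕ} (H : Fin r → Finset ℕ) (hH : Function.Injective H)
    (h0 : ∀ i, 0 ∈ H i) (hs : ∀ i, 0 < sing Q (H i)) {s : ℕ} {θ : Fin s → ℝ} (hθ : StrictAnti θ) (hθ0 : ∀ j, 0 < θ j)
    (hθ1 : ∀ j, θ j < 1) {δ : ℝ} (hδ : 0 < δ) (hδ1 : δ < 1) (I : Finset (Fin s)) (d : Fin s → Fin r → ℝ) {η ε : ℝ}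
    (hη : 0 < η) (hε : 0 < ε) (hεd : ∀ j, 2 * ε * ∑ i, |d j i| ≤ η / 2) : ∀ᶠ y : ℕ in atTop,
    μ.real (⋂ j ∈ I, nearD Q A H δ (θ j) (d j) ε y) ≤ (y : ℝ) ^ (-∑ j ∈ I, (∑ i, d j i ^ 2 - η)) := by
  have h1 : ∀ᶠ y : ℕ in atTop, ∀ j, μ.real (nearD Q A H δ (θ j) (d j) ε y) ≤
      Real.exp (-(Real.log y * (∑ i, d j i ^ 2 - η))) :=
    eventually_all.2 (fun j => (gau_short hA hQ H hH h0 hs hδ.le hδ1 (hθ0 j) (hθ1 j).le).upper_at (d j) hη hε (hεd j))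
  filter_upwards [h1, blocks_disjoint hθ hδ, eventually_ge_atTop 1] with y h2 h3 h4
  rw [indep_many hA I (fun j => {m : ℕ | pt δ (θ j) y ≤ m ∧ m < pt 1 (θ j) y}) (fun i _ j _ hij => h3 i j hij)
    (fun j => nearD Q A H δ (θ j) (d j) ε y) (fun j _ => nearD_F H δ (θ j) (d j) ε y)]
  refine (prod_le_prod (fun j _ => measureReal_nonneg) (fun j _ => h2 j)).trans (le_of_eq ?_)
  rw [← Real.exp_sum, sum_neg_distrib, ← mul_sum]
  have hy : (0 : ℝ) < y := by exact_mod_cast h4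
  rw [Real.rpow_def_of_pos hy]
  congr 1
  ring

/-- **No limit points outside.** -/
theorem multi_up (hA : IsModel μ (level Q) A) (hQ : 1 ≤ Q) {r : ℕ} (H : Fin r → Finset ℕ) (hH : Function.Injective H)
    (h0 : ∀ i, 0 ∈ H i) (hs : ∀ i, 0 < sing Q (H i)) {s : ℕ} {θ : Fin s → ℝ} (hθ : StrictAnti θ) (hθ0 : ∀ j, 0 < θ j)
    (hθ1 : ∀ j, θ j < 1) (j : Fin s) {ε : ℝ} (hε : 0 < ε) :
    ∀ᵐ ω ∂μ, ∀ᶠ x : ℕ in atTop, ∑ j' ∈ Iic j, ∑ i, Dt Q A (H i) (θ j') x ω ^ 2 ≤ 1 - θ j + ε := by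
  obtain ⟨η', hη'⟩ : ∃ η' : ℝ, η' = min 1 (ε / (42 * (s * r + 1))) := ⟨_, rfl⟩
  have hη'0 : 0 < η' := by rw [hη']; exact lt_min one_pos (by positivity)
  have hη'1 : η' ≤ 1 := by rw [hη']; exact min_le_left _ _
  have hη'2 : η' * (42 * (s * r + 1)) ≤ ε := by
    have h1 : η' ≤ ε / (42 * (s * r + 1)) := by rw [hη']; exact min_le_right _ _
    rwa [le_div_iff₀ (by positivity)] at h1
  -- the size of the annuli
  have hT : ∀ q : Fin s × Fin r, ∃ δ₀ > 0, δ₀ < 1 ∧ ∀ δ, 0 < δ → δ ≤ δ₀ →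
      ∀ᵐ ω ∂μ, ∀ᶠ x : ℕ in atTop, ∀ y : ℕ, y ≤ x → (x : ℝ) ≤ y + δ * (y : ℝ) ^ θ q.1 →
      |Dt Q A (H q.2) (θ q.1) x ω - Ds Q A (H q.2) δ (θ q.1) y ω| ≤ η' * (1 + |Ds Q A (H q.2) δ (θ q.1) y ω|) :=
    fun q => tlem hA hQ (h0 q.2) (hs q.2) (hθ0 q.1) (hθ1 q.1) hη'0
  choose δ₀ hδ₀ hδ₀1 hT using hT
  obtain ⟨δ, hδ, hδ1, hδle⟩ := exists_lb δ₀ hδ₀
  have hT' : ∀ᵐ ω ∂μ, ∀ q : Fin s × Fin r, ∀ᶠ x : ℕ in atTop, ∀ y : ℕ, y ≤ x → (x : ℝ) ≤ y + δ * (y : ℝ) ^ θ q.1 →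
      |Dt Q A (H q.2) (θ q.1) x ω - Ds Q A (H q.2) δ (θ q.1) y ω| ≤ η' * (1 + |Ds Q A (H q.2) δ (θ q.1) y ω|) :=
    ae_all_iff.2 (fun q => hT q δ hδ (hδle q))
  -- the covering
  obtain ⟨η₁, hη₁⟩ : ∃ η₁ : ℝ, η₁ = ε / (4 * (s + 1)) := ⟨_, rfl⟩
  have hη₁0 : 0 < η₁ := by rw [hη₁]; positivity
  obtain ⟨ε₁, hε₁⟩ : ∃ ε₁ : ℝ, ε₁ = η₁ / (8 * (r + 1)) := ⟨_, rfl⟩
  have hε₁0 : 0 < ε₁ := by rw [hε₁]; positivity
  obtain ⟨Kc, hK⟩ : ∃ Kc : Set (Fin s → Fin r → ℝ), Kc = (Set.univ.pi fun _ => Set.univ.pi fun _ => Set.Icc (-2 : ℝ) 2) ∩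
      {d | 1 - θ j + ε / 2 ≤ ∑ j' ∈ Iic j, ∑ i, d j' i ^ 2} := ⟨_, rfl⟩
  have hcomp : IsCompact Kc := by
    rw [hK]
    refine (isCompact_univ_pi (fun _ => isCompact_univ_pi (fun _ => isCompact_Icc))).inter_right ?_
    exact isClosed_le continuous_const (continuous_finsetSum _ (fun j' _ => continuous_finsetSum _ (fun i _ =>
      ((continuous_apply i).comp (continuous_apply j')).pow 2)))
  have hU : ∀ d ∈ Kc, {d' : Fin s → Fin r → ℝ | ∀ j' i, |d' j' i - d j' i| < ε₁} ∈ 𝓝 d := by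
    intro d _
    have : {d' : Fin s → Fin r → ℝ | ∀ j' i, |d' j' i - d j' i| < ε₁} =
        ⋂ j', ⋂ i, {d' : Fin s → Fin r → ℝ | |d' j' i - d j' i| < ε₁} := by
      ext d'
      simp
    rw [this]
    refine IsOpen.mem_nhds (isOpen_iInter_of_finite (fun j' => isOpen_iInter_of_finite (fun i => ?_))) ?_
    · have hc : Continuous (fun d' : Fin s → Fin r → ℝ => d' j' i) := (continuous_apply i).comp (continuous_apply j')
      exact isOpen_lt (hc.sub continuous_const).abs continuous_const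
    · simp only [Set.mem_iInter]
      intro j' i
      show |d j' i - d j' i| < ε₁
      rw [sub_self, abs_zero]
      exact hε₁0
  obtain ⟨t, ht1, ht2⟩ := hcomp.elim_nhds_subcover _ hU
  have hE : ∀ d ∈ t, ∀ᵐ ω ∂μ, ∀ᶠ x : ℕ in atTop, ω ∉ ⋂ j' ∈ Iic j, nearD Q A H δ (θ j') (d j') ε₁ (gr δ (θ j) x) := by
    intro d hd
    have hdK := ht1 d hd
    rw [hK] at hdK
    have hd2 : ∀ j', 2 * ε₁ * ∑ i, |d j' i| ≤ η₁ / 2 := by
      intro j'
      have e1 : ∑ i, |d j' i| ≤ ∑ _i : Fin r, (2 : ℝ) := by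
        refine sum_le_sum (fun i _ => ?_)
        have e2 := hdK.1 j' (Set.mem_univ _) i (Set.mem_univ _)
        rw [abs_le]
        exact ⟨e2.1, e2.2⟩
      rw [sum_const, card_univ, Fintype.card_fin, nsmul_eq_mul] at e1
      have e2 : 2 * ε₁ * ∑ i, |d j' i| ≤ 2 * ε₁ * (r * 2) := mul_le_mul_of_nonneg_left e1 (by positivity)
      have e3 : ε₁ * (8 * (r + 1)) = η₁ := by rw [hε₁]; field_simp
      nlinarith
    refine grid_bc (E := fun y => ⋂ j' ∈ Iic j, nearD Q A H δ (θ j') (d j') ε₁ y) hδ (hθ0 j) (hθ1 j).le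
      (a := 1 - θ j + ε / 4) (by linarith) (by linarith [hθ1 j]) ?_
    filter_upwards [joint_up hA hQ H hH h0 hs hθ hθ0 hθ1 hδ hδ1 (Iic j) d hη₁0 hε₁0 hd2, eventually_ge_atTop 1] with y h1 h2
    refine h1.trans (Real.rpow_le_rpow_of_exponent_le (by exact_mod_cast h2) (neg_le_neg ?_))
    rw [sum_sub_distrib, sum_const, nsmul_eq_mul]
    have e1 : 1 - θ j + ε / 2 ≤ ∑ j' ∈ Iic j, ∑ i, d j' i ^ 2 := hdK.2
    have e2 : ((Iic j).card : ℝ) ≤ s := by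
      have := card_le_univ (Iic j)
      rw [Fintype.card_fin] at this
      exact_mod_cast this
    have e3 : η₁ * (4 * (s + 1)) = ε := by rw [hη₁]; field_simp
    have e4 : ((Iic j).card : ℝ) * η₁ ≤ s * η₁ := mul_le_mul_of_nonneg_right e2 hη₁0.le
    nlinarith
  -- large values
  have hL : ∀ q : Fin s × Fin r, ∀ᵐ ω ∂μ, ∀ᶠ x : ℕ in atTop, |Ds Q A (H q.2) δ (θ q.1) (gr δ (θ j) x) ω| < 2 := by
    intro q
    have hG := gau_short hA hQ H hH h0 hs hδ.le hδ1 (hθ0 q.1) (hθ1 q.1).le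
    have hlar := hG.large q.2 (R := 2) (η := 1 / 2) (by norm_num) (by norm_num)
    have e1 : ∀ᵐ ω ∂μ, ∀ᶠ x : ℕ in atTop, ω ∉ {ω | 2 ≤ Ds Q A (H q.2) δ (θ q.1) (gr δ (θ j) x) ω} := by
      refine grid_bc (E := fun y => {ω | 2 ≤ Ds Q A (H q.2) δ (θ q.1) y ω}) hδ (hθ0 j) (hθ1 j).le (a := 7 / 2)
        (by linarith [hθ0 j]) (by norm_num) ?_
      filter_upwards [hlar, eventually_ge_atTop 1] with y h1 h2
      refine h1.1.trans (le_of_eq ?_)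
      have hy : (0 : ℝ) < y := by exact_mod_cast h2
      rw [Real.rpow_def_of_pos hy]
      congr 1
      ring
    have e2 : ∀ᵐ ω ∂μ, ∀ᶠ x : ℕ in atTop, ω ∉ {ω | Ds Q A (H q.2) δ (θ q.1) (gr δ (θ j) x) ω ≤ -2} := by
      refine grid_bc (E := fun y => {ω | Ds Q A (H q.2) δ (θ q.1) y ω ≤ -2}) hδ (hθ0 j) (hθ1 j).le (a := 7 / 2)
        (by linarith [hθ0 j]) (by norm_num) ?_
      filter_upwards [hlar, eventually_ge_atTop 1] with y h1 h2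
      refine h1.2.trans (le_of_eq ?_)
      have hy : (0 : ℝ) < y := by exact_mod_cast h2
      rw [Real.rpow_def_of_pos hy]
      congr 1
      ring
    filter_upwards [e1, e2] with ω h1 h2
    filter_upwards [h1, h2] with x h3 h4
    have h3' : ¬ 2 ≤ Ds Q A (H q.2) δ (θ q.1) (gr δ (θ j) x) ω := h3
    have h4' : ¬ Ds Q A (H q.2) δ (θ q.1) (gr δ (θ j) x) ω ≤ -2 := h4
    push Not at h3' h4'
    rw [abs_lt]
    exact ⟨h4', h3'⟩
  have hE' : ∀ᵐ ω ∂μ, ∀ d ∈ t, ∀ᶠ x : ℕ in atTop, ω ∉ ⋂ j' ∈ Iic j, nearD Q A H δ (θ j') (d j') ε₁ (gr δ (θ j) x) :=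
    (Finset.eventually_all t).2 hE
  filter_upwards [hE', ae_all_iff.2 hL, hT'] with ω h1 h2 h3
  have h1' : ∀ᶠ x : ℕ in atTop, ∀ d ∈ t, ω ∉ ⋂ j' ∈ Iic j, nearD Q A H δ (θ j') (d j') ε₁ (gr δ (θ j) x) :=
    (Finset.eventually_all t).2 h1
  filter_upwards [h1', eventually_all.2 h2, eventually_all.2 h3, gr_near hδ (hθ0 j), eventually_ge_atTop 1]
    with x h4 h5 h6 h7 h8
  obtain ⟨y, hy⟩ : ∃ y, y = gr δ (θ j) x := ⟨_, rfl⟩
  rw [← hy] at h4 h7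
  simp only [← hy] at h5
  have hsum : ∑ j' ∈ Iic j, ∑ i, Ds Q A (H i) δ (θ j') y ω ^ 2 < 1 - θ j + ε / 2 := by
    by_contra hcon
    push Not at hcon
    obtain ⟨V, hV⟩ : ∃ V : Fin s → Fin r → ℝ, V = fun j' i => if j' ∈ Iic j then Ds Q A (H i) δ (θ j') y ω else 0 := ⟨_, rfl⟩
    have hVK : V ∈ Kc := by
      rw [hK]
      constructor
      · intro j' _ i _
        rw [hV]
        simp only
        split_ifs
        · have := h5 (j', i)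
          rw [abs_lt] at this
          exact ⟨this.1.le, this.2.le⟩
        · exact ⟨by norm_num, by norm_num⟩
      · show 1 - θ j + ε / 2 ≤ ∑ j' ∈ Iic j, ∑ i, V j' i ^ 2
        refine hcon.trans (le_of_eq ?_)
        refine sum_congr rfl (fun j' hj' => sum_congr rfl (fun i _ => ?_))
        rw [hV]
        simp only [if_pos hj']
    have h9 := ht2 hVK
    rw [Set.mem_iUnion₂] at h9
    obtain ⟨d, hd, h10⟩ := h9
    apply h4 d hd
    rw [Set.mem_iInter₂]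
    intro j' hj' i
    have h11 := h10 j' i
    rw [hV] at h11
    simp only [if_pos hj'] at h11
    exact h11
  have hy1 : (1 : ℝ) ≤ y := by
    have : 1 ≤ y := by
      rw [hy]
      unfold gr
      have := Nat.one_le_two_pow (n := Nat.log 2 x)
      omega
    exact_mod_cast this
  have hterm : ∀ j' ∈ Iic j, ∀ i, Dt Q A (H i) (θ j') x ω ^ 2 ≤ Ds Q A (H i) δ (θ j') y ω ^ 2 + 21 * η' := by
    intro j' hj' i
    rw [Finset.mem_Iic] at hj'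
    have e1 : (x : ℝ) ≤ y + δ * (y : ℝ) ^ θ j' := by
      refine h7.2.trans ?_
      have e2 : (y : ℝ) ^ θ j ≤ (y : ℝ) ^ θ j' := Real.rpow_le_rpow_of_exponent_le hy1 (hθ.antitone hj')
      have := mul_le_mul_of_nonneg_left e2 hδ.le
      linarith
    have e2 := h6 (j', i) y h7.1 e1
    have e3 := h5 (j', i)
    simp only at e2 e3
    obtain ⟨a, ha⟩ : ∃ a, a = Dt Q A (H i) (θ j') x ω := ⟨_, rfl⟩
    obtain ⟨b, hb⟩ : ∃ b, b = Ds Q A (H i) δ (θ j') y ω := ⟨_, rfl⟩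
    rw [← ha, ← hb] at e2
    rw [← hb] at e3
    rw [← ha, ← hb]
    have e4 : |a - b| ≤ 3 * η' := by
      have := mul_le_mul_of_nonneg_left (show 1 + |b| ≤ 3 by linarith) hη'0.le
      linarith
    have e5 : a ^ 2 = b ^ 2 + (a - b) * (2 * b + (a - b)) := by ring
    rw [e5]
    have e6 : (a - b) * (2 * b + (a - b)) ≤ |a - b| * 7 := by
      refine (le_abs_self _).trans ?_
      rw [abs_mul]
      refine mul_le_mul_of_nonneg_left ?_ (abs_nonneg _)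
      refine (abs_add_le _ _).trans ?_
      rw [abs_mul, abs_two]
      linarith
    linarith
  have h9 : ∑ j' ∈ Iic j, ∑ i, Dt Q A (H i) (θ j') x ω ^ 2 ≤
      ∑ j' ∈ Iic j, ∑ i, Ds Q A (H i) δ (θ j') y ω ^ 2 + s * r * (21 * η') := by
    refine (sum_le_sum (fun j' hj' => sum_le_sum (fun i _ => hterm j' hj' i))).trans ?_
    simp only [sum_add_distrib, sum_const, card_univ, Fintype.card_fin, nsmul_eq_mul]
    have e2 : ((Iic j).card : ℝ) ≤ s := by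
      have := card_le_univ (Iic j)
      rw [Fintype.card_fin] at this
      exact_mod_cast this
    have e3 : ((Iic j).card : ℝ) * (r * (21 * η')) ≤ s * (r * (21 * η')) :=
      mul_le_mul_of_nonneg_right e2 (by positivity)
    linarith
  linarith

end Pool.Agent.Q106.MD
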