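import Pool.Agent.Q106.MD.Sys
import Pool.Agent.Q120.GM.Gap

/-!
# Tuples in short intervals: systems and increments
-/

set_option autoImplicit false

namespace Pool.Agent.Q106.MD

open Finset MeasureTheory ProbabilityTheory Filter Pool.Agent.Q120.GM Pool.Agent.Q106.UR
open scoped Topology

/-- The point `x + δ x^θ`. -/
noncomputable def pt (δ θ : ℝ) (x : ℕ) : ℕ := ⌈(x : ℝ) + δ * (x : ℝ) ^ θ⌉₊

theorem pt_ge {δ θ : ℝ} (x : ℕ) : (x : ℝ) + δ * (x : ℝ) ^ θ ≤ pt δ θ x := Nat.le_ceil _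

theorem pt_lt {δ θ : ℝ} (hδ : 0 ≤ δ) (x : ℕ) : (pt δ θ x : ℝ) < (x : ℝ) + δ * (x : ℝ) ^ θ + 1 :=
  Nat.ceil_lt_add_one (by positivity)

theorem pt_mono {δ δ' θ : ℝ} (h : δ ≤ δ') (x : ℕ) : pt δ θ x ≤ pt δ' θ x := by
  unfold pt
  refine Nat.ceil_le_ceil ?_
  have : 0 ≤ (x : ℝ) ^ θ := by positivity
  nlinarith

theorem le_pt {δ θ : ℝ} (hδ : 0 ≤ δ) (x : ℕ) : x ≤ pt δ θ x := by
  have h1 := pt_ge (δ := δ) (θ := θ) x
  have h2 : 0 ≤ δ * (x : ℝ) ^ θ := by positivity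
  have h3 : (x : ℝ) ≤ pt δ θ x := by linarith
  exact_mod_cast h3

theorem rpow_le_self' {x : ℝ} (hx : 1 ≤ x) {θ : ℝ} (hθ : θ ≤ 1) : x ^ θ ≤ x := by
  calc x ^ θ ≤ x ^ (1 : ℝ) := Real.rpow_le_rpow_of_exponent_le hx hθ
    _ = x := Real.rpow_one x

theorem rpow_tendsto {θ : ℝ} (hθ : 0 < θ) : Tendsto (fun x : ℕ => (x : ℝ) ^ θ) atTop atTop :=
  (tendsto_rpow_atTop hθ).comp tendsto_natCast_atTop_atTop

/-- The index sets of the annuli. -/
noncomputable def Js {r : ℕ} (H : Fin r → Finset ℕ) (δ θ : ℝ) (n : ℕ) (i : Fin r) : Finset ℕ :=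
  (Ico (pt δ θ n) (pt 1 θ n)).filter (fun m => m + (H i).sup id < pt 1 θ n)

theorem short_sys {Q : ℕ} (hQ : 1 ≤ Q) {r : ℕ} (H : Fin r → Finset ℕ) (hH : Function.Injective H) (h0 : ∀ i, 0 ∈ H i)
    (hs : ∀ i, 0 < sing Q (H i)) {δ θ : ℝ} (hδ : 0 ≤ δ) (hδ1 : δ < 1) (hθ : 0 < θ) (hθ1 : θ ≤ 1) :
    ∃ e₀ : ℕ → ℝ, ∃ D : ℝ, PSys (level Q) atTop (Js H δ θ) (fun _ i m => tl m (H i))
      (fun n i => sing Q (H i) * li (H i).card (pt δ θ n) (pt 1 θ n)) e₀ (fun n => Real.log n) D := by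
  obtain ⟨S, hS⟩ : ∃ S, S = ∑ i, (H i).sup id := ⟨_, rfl⟩
  have hSi : ∀ i, (H i).sup id ≤ S := fun i => by
    rw [hS]
    exact single_le_sum (f := fun i => (H i).sup id) (fun _ _ => Nat.zero_le _) (mem_univ i)
  obtain ⟨C, hC⟩ : ∃ C : ℝ, C = 2 + S := ⟨_, rfl⟩
  have hC2 : 2 ≤ C := by
    rw [hC]
    have : (0 : ℝ) ≤ S := Nat.cast_nonneg S
    linarith
  have hCS : (S : ℝ) ≤ C := by rw [hC]; linarith
  refine ⟨_, _, win_sys hQ H h0 hs (Js H δ θ) (fun n _ => pt δ θ n) (fun n _ => pt 1 θ n)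
    (fun n => (n : ℝ) ^ θ) (fun n => Real.log n) (fun n => 3 * (n : ℝ)) (c := (1 - δ) / 2) (C := C) (by linarith)
    (by linarith) log_tendsto ?_ ?_ ?_ ?_ ?_ ?_ ?_ ?_ ?_ ?_ ?_⟩
  · intro n _
    exact pt_mono hδ1.le n
  · intro n i
    exact filter_subset _ _
  · intro n i
    have h1 : Ico (pt δ θ n) (pt 1 θ n) \ Js H δ θ n i ⊆ Ico (pt 1 θ n - S) (pt 1 θ n) := by
      intro m hm
      unfold Js at hm
      rw [Finset.mem_sdiff, mem_filter, not_and] at hm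
      have h2 := hm.2 hm.1
      have h3 := (mem_Ico.1 hm.1).2
      have h5 := hSi i
      rw [mem_Ico]
      omega
    have h2 := card_le_card h1
    rw [Nat.card_Ico] at h2
    have h3 : (Ico (pt δ θ n) (pt 1 θ n) \ Js H δ θ n i).card ≤ S := by omega
    have h4 : ((Ico (pt δ θ n) (pt 1 θ n) \ Js H δ θ n i).card : ℝ) ≤ S := by exact_mod_cast h3
    exact h4.trans hCS
  · intro n i j hij h
    exact absurd (hH h) hij
  · filter_upwards [(rpow_tendsto hθ).eventually_ge_atTop (2 / (1 - δ))] with n h1 i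
    have h2 := pt_ge (δ := 1) (θ := θ) n
    have h3 := pt_lt (θ := θ) hδ n
    rw [div_le_iff₀ (by linarith)] at h1
    nlinarith
  · filter_upwards [(rpow_tendsto hθ).eventually_ge_atTop 1] with n h1 i
    have h2 := pt_lt (θ := θ) zero_le_one n
    have h3 := pt_ge (δ := δ) (θ := θ) n
    have h4 : 0 ≤ (n : ℝ) ^ θ := by positivity
    have h5 : 0 ≤ δ * (n : ℝ) ^ θ := by positivity
    have h6 : 2 * (n : ℝ) ^ θ ≤ C * (n : ℝ) ^ θ := mul_le_mul_of_nonneg_right hC2 h4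
    linarith
  · intro R
    filter_upwards [tendsto_natCast_atTop_atTop.eventually_ge_atTop R] with n h1 i
    have h2 : (n : ℝ) ≤ pt δ θ n := by exact_mod_cast le_pt hδ n
    linarith
  · filter_upwards [(rpow_tendsto hθ).eventually_ge_atTop 1, eventually_ge_atTop 1] with n h1 h2 i
    have hn1 : (1 : ℝ) ≤ n := by exact_mod_cast h2
    have h3 := pt_lt (θ := θ) zero_le_one n
    have h4 : (n : ℝ) ≤ pt δ θ n := by exact_mod_cast le_pt hδ n
    have h5 := pt_ge (δ := δ) (θ := θ) n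
    have h6 : 0 ≤ δ * (n : ℝ) ^ θ := by positivity
    have h7 := rpow_le_self' hn1 hθ1
    have h8 : 2 * (pt δ θ n : ℝ) ≤ C * pt δ θ n := mul_le_mul_of_nonneg_right hC2 (Nat.cast_nonneg _)
    linarith
  · filter_upwards [eventually_ge_atTop 1] with n h2 i
    have hn1 : (1 : ℝ) ≤ n := by exact_mod_cast h2
    have h3 := pt_lt (θ := θ) zero_le_one n
    have h7 := rpow_le_self' hn1 hθ1
    linarith
  · filter_upwards [eventually_ge_atTop 1] with n h2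
    have hn1 : (1 : ℝ) ≤ n := by exact_mod_cast h2
    rw [Real.le_log_iff_exp_le (by linarith)]
    have := Real.exp_one_lt_d9
    linarith
  · intro R η hη
    filter_upwards [ev_power (2 ^ R / η) (R + 1) hθ, eventually_ge_atTop 3] with n h1 h2
    have hn1 : (3 : ℝ) ≤ n := by exact_mod_cast h2
    have hl0 : 0 ≤ Real.log n := Real.log_nonneg (by linarith)
    have h3 : Real.log (3 * (n : ℝ)) ≤ 2 * Real.log n := by
      have h4 : 3 * (n : ℝ) ≤ (n : ℝ) ^ 2 := by nlinarith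
      have h5 := Real.log_le_log (by positivity) h4
      rw [Real.log_pow] at h5
      push_cast at h5
      exact h5
    have h5 : 0 ≤ Real.log (3 * (n : ℝ)) := Real.log_nonneg (by linarith)
    have h6 : Real.log n * Real.log (3 * (n : ℝ)) ^ R ≤ Real.log n * (2 * Real.log n) ^ R :=
      mul_le_mul_of_nonneg_left (pow_le_pow_left₀ h5 h3 R) hl0
    have h7 : Real.log n * (2 * Real.log n) ^ R = 2 ^ R * Real.log n ^ (R + 1) := by
      rw [mul_pow]
      ring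
    have h8 : 2 ^ R / η * Real.log n ^ (R + 1) = 2 ^ R * Real.log n ^ (R + 1) / η := by ring
    rw [h8, div_le_iff₀ hη] at h1
    linarith

variable {Ω : Type*} [MeasurableSpace Ω] {μ : Measure Ω} [IsProbabilityMeasure μ] {A : Ω → Set ℕ}

/-- The centred number of tuples in an interval. -/
noncomputable def Sm (Q : ℕ) (A : Ω → Set ℕ) (H : Finset ℕ) (a b : ℕ) (ω : Ω) : ℝ :=
  ∑ m ∈ Ico a b, (ind A (tl m H) ω - PP Q H m)

omit [MeasurableSpace Ω] in
theorem Sm_add (Q : ℕ) (H : Finset ℕ) {a b c : ℕ} (hab : a ≤ b) (hbc : b ≤ c) (ω : Ω) :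
    Sm Q A H a c ω = Sm Q A H a b ω + Sm Q A H b c ω := by
  unfold Sm
  exact (sum_Ico_consecutive _ hab hbc).symm

theorem nb_card (H : Finset ℕ) (J : Finset ℕ) (m : ℕ) : ((nb (fun m => tl m H) J m).card : ℝ) ≤ (H.card : ℝ) ^ 2 + 1 := by
  have h1 : nb (fun m => tl m H) J m ⊆ (H ×ˢ H).image (fun q : ℕ × ℕ => m + q.1 - q.2) := by
    intro m' hx
    unfold nb at hx
    rw [mem_filter, Finset.not_disjoint_iff] at hx
    obtain ⟨_, b, h2, h3⟩ := hx
    rw [mem_tl] at h2 h3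
    obtain ⟨x, hx, e1⟩ := h2
    obtain ⟨y, hy, e2⟩ := h3
    rw [mem_image]
    exact ⟨(y, x), mem_product.2 ⟨hy, hx⟩, by show m + y - x = m'; omega⟩
  have h2 := (card_le_card h1).trans card_image_le
  rw [card_product] at h2
  have h3 : ((nb (fun m => tl m H) J m).card : ℝ) ≤ (H.card : ℝ) * H.card := by exact_mod_cast h2
  linarith [sq (H.card : ℝ)]

/-- The scale of the fluctuations in intervals of length `x^θ`. -/
noncomputable def Fl (K : ℕ) (θ : ℝ) (x : ℕ) : ℝ := Real.sqrt (2 * ((x : ℝ) ^ θ / Real.log x ^ K) * Real.log x)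

/-- **The probability of large increments.** -/
theorem inc_prob {Q : ℕ} (hA : IsModel μ (level Q) A) (hQ : 1 ≤ Q) {H : Finset ℕ} (h0 : 0 ∈ H) {θ ε : ℝ} (hθ : 0 < θ)
    (hε : 0 < ε) : ∃ δ > 0, δ ≤ 1 ∧ ∀ᶠ x : ℕ in atTop, ∀ a b : ℕ, x ≤ a → a ≤ b → (b : ℝ) - a ≤ δ * (x : ℝ) ^ θ →
      μ.real {ω | ε * Fl H.card θ x ≤ |Sm Q A H a b ω|} ≤ 2 / (x : ℝ) ^ 6 := by
  have hq := qq_pos hQ
  obtain ⟨K, hK⟩ : ∃ K, K = H.card := ⟨_, rfl⟩
  obtain ⟨ρ, hρ⟩ : ∃ ρ, ρ = 8 / ε := ⟨_, rfl⟩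
  have hρ0 : 0 < ρ := by rw [hρ]; positivity
  have hρε : ρ * ε = 8 := by rw [hρ]; field_simp
  obtain ⟨D, hD⟩ : ∃ D : ℝ, D = (K : ℝ) ^ 2 + 1 := ⟨_, rfl⟩
  have hD1 : 1 ≤ D := by rw [hD]; nlinarith [sq_nonneg (K : ℝ)]
  have hD0 : 0 < D := by linarith
  obtain ⟨δ, hδ⟩ : ∃ δ, δ = min 1 (2 / (ρ ^ 2 * qq Q ^ K)) := ⟨_, rfl⟩
  have hδ0 : 0 < δ := by rw [hδ]; exact lt_min one_pos (by positivity)
  have hδ1 : δ ≤ 1 := by rw [hδ]; exact min_le_left _ _
  have hδ2 : δ * (ρ ^ 2 * qq Q ^ K) ≤ 2 := by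
    have h1 : δ ≤ 2 / (ρ ^ 2 * qq Q ^ K) := by rw [hδ]; exact min_le_right _ _
    rwa [le_div_iff₀ (by positivity)] at h1
  refine ⟨δ, hδ0, hδ1, ?_⟩
  filter_upwards [log_tendsto.eventually_ge_atTop 1, log_tendsto.eventually_ge_atTop (qq Q * D ^ 2),
    ev_power ((29 * D ^ 2) ^ 2 * ρ ^ 6 / 8) (3 * K + 1) hθ, ev_power ((56 * D) ^ 2 * ρ ^ 2 / 2) (K + 1) hθ,
    eventually_ge_atTop 1] with x hL1 hLq h3 h4 hx1 a b hxa hab hba
  have hx0 : (0 : ℝ) < x := by exact_mod_cast hx1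
  obtain ⟨L, hL⟩ : ∃ L, L = Real.log x := ⟨_, rfl⟩
  rw [← hL] at hL1 hLq h3 h4
  have hL0 : 0 < L := by linarith
  obtain ⟨X, hX⟩ : ∃ X, X = (x : ℝ) ^ θ := ⟨_, rfl⟩
  have hX0 : 0 < X := by rw [hX]; positivity
  rw [← hX] at h3 h4 hba
  obtain ⟨G, hG⟩ : ∃ G, G = X / L ^ K := ⟨_, rfl⟩
  have hG0 : 0 < G := by rw [hG]; positivity
  have hFl : Fl H.card θ x = Real.sqrt (2 * G * L) := by
    unfold Fl
    rw [hG, hX, hL, hK]
  obtain ⟨c, hc⟩ : ∃ c, c = ρ * Real.sqrt (L / (2 * G)) := ⟨_, rfl⟩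
  have hc0 : 0 < c := by rw [hc]; exact mul_pos hρ0 (Real.sqrt_pos.2 (by positivity))
  have hc2 : c ^ 2 = ρ ^ 2 * (L / (2 * G)) := by
    rw [hc, mul_pow, Real.sq_sqrt (by positivity)]
  have hcF : c * Real.sqrt (2 * G * L) = ρ * L := by
    rw [hc, mul_assoc, ← Real.sqrt_mul (by positivity)]
    have : L / (2 * G) * (2 * G * L) = L ^ 2 := by field_simp
    rw [this, Real.sqrt_sq hL0.le]
  have hloga : ∀ m, a ≤ m → L ≤ Real.log m := by
    intro m hm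
    rw [hL]
    refine Real.log_le_log hx0 ?_
    have : x ≤ m := hxa.trans hm
    exact_mod_cast this
  have hcardJ : ((Ico a b).card : ℝ) ≤ X := by
    rw [Nat.card_Ico, Nat.cast_sub hab]
    have : δ * X ≤ 1 * X := mul_le_mul_of_nonneg_right hδ1 hX0.le
    linarith
  -- the exponential moments
  have key : ∀ σ : ℝ, |σ| = 1 → μ.real {ω | ε * Fl H.card θ x ≤ σ * Sm Q A H a b ω} ≤ 1 / (x : ℝ) ^ 6 := by
    intro σ hσ
    have hσ2 : σ ^ 2 = 1 := by rw [← sq_abs, hσ, one_pow]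
    have hdeg : ∀ j ∈ Ico a b, ((nb (fun m => tl m H) (Ico a b) j).card : ℝ) ≤ D := by
      intro j _
      rw [hD, hK]
      exact nb_card H _ j
    have hW : ∑ i ∈ Ico a b, (σ * c) ^ 2 * pT (level Q) (tl i H) ≤ L := by
      have e1 : ∀ i ∈ Ico a b, (σ * c) ^ 2 * pT (level Q) (tl i H) ≤ c ^ 2 * (qq Q / L) ^ K := by
        intro i hi
        rw [mem_Ico] at hi
        rw [mul_pow, hσ2, one_mul]
        refine mul_le_mul_of_nonneg_left ?_ (sq_nonneg c)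
        have e2 := tuple_le (Q := Q) (n := i) (H := H) (x := (x : ℝ)) (by rw [← hL]; exact hL0) hx0 (by
          have : x ≤ i := hxa.trans hi.1
          exact_mod_cast this)
        rw [← hL, ← hK] at e2
        exact e2
      refine (sum_le_sum e1).trans ?_
      rw [sum_const, nsmul_eq_mul, Nat.card_Ico, Nat.cast_sub hab, hc2]
      have e3 : ((b : ℝ) - a) * (ρ ^ 2 * (L / (2 * G)) * (qq Q / L) ^ K) ≤
          (δ * X) * (ρ ^ 2 * (L / (2 * G)) * (qq Q / L) ^ K) := mul_le_mul_of_nonneg_right hba (by positivity)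
      refine e3.trans ?_
      have e4 : (δ * X) * (ρ ^ 2 * (L / (2 * G)) * (qq Q / L) ^ K) = δ * (ρ ^ 2 * qq Q ^ K) * (L / 2) := by
        rw [hG, div_pow]
        field_simp
      rw [e4]
      have := mul_le_mul_of_nonneg_right hδ2 (show 0 ≤ L / 2 by positivity)
      linarith
    obtain ⟨W, hWd⟩ : ∃ W, W = ∑ i ∈ Ico a b, (σ * c) ^ 2 * pT (level Q) (tl i H) := ⟨_, rfl⟩
    rw [← hWd] at hW
    have hW0 : 0 ≤ W := by
      rw [hWd]
      exact sum_nonneg (fun i _ => mul_nonneg (sq_nonneg _) (pT_nonneg hA _))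
    have h56 : 56 * (D * c) ≤ 1 := by
      by_contra hcon
      push Not at hcon
      have e1 : 1 < (56 * (D * c)) ^ 2 := by nlinarith
      have e2 : (56 * (D * c)) ^ 2 = (56 * D) ^ 2 * ρ ^ 2 / 2 * L ^ (K + 1) / X := by
        calc (56 * (D * c)) ^ 2 = (56 * D) ^ 2 * c ^ 2 := by ring
          _ = _ := by
            rw [hc2, hG]
            field_simp
            ring
      rw [e2, lt_div_iff₀ hX0] at e1
      linarith
    have h29 : 29 * (D ^ 2 * c ^ 3) * (Ico a b).card ≤ L := by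
      have e0 : 29 * (D ^ 2 * c ^ 3) * (Ico a b).card ≤ 29 * (D ^ 2 * c ^ 3) * X :=
        mul_le_mul_of_nonneg_left hcardJ (by positivity)
      refine e0.trans ?_
      by_contra hcon
      push Not at hcon
      have e1 := pow_lt_pow_left₀ hcon hL0.le two_ne_zero
      have e2 : (29 * (D ^ 2 * c ^ 3) * X) ^ 2 = (29 * D ^ 2) ^ 2 * ρ ^ 6 / 8 * L ^ (3 * K + 1) / X * L ^ 2 := by
        calc (29 * (D ^ 2 * c ^ 3) * X) ^ 2 = (29 * D ^ 2) ^ 2 * (c ^ 2) ^ 3 * X ^ 2 := by ring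
          _ = _ := by
            rw [hc2, hG]
            field_simp
            ring
      rw [e2] at e1
      have e3 : (29 * D ^ 2) ^ 2 * ρ ^ 6 / 8 * L ^ (3 * K + 1) / X ≤ 1 := by
        rw [div_le_one hX0]
        exact h3
      nlinarith [show 0 < L ^ 2 by positivity]
    have hpat := (pat hA (Ico a b) (fun m => tl m H) (fun _ => σ * c) (h := c) (D := D) (s := 1 / D) hc0.le
      (fun j _ => by rw [abs_mul, hσ, one_mul, abs_of_pos hc0]) hD1 h56 (by positivity)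
      (by rw [div_le_one hD0]; exact hD1)
      (fun j hj b' hb' => by
        rw [mem_Ico] at hj
        rw [mem_tl] at hb'
        obtain ⟨h, _, rfl⟩ := hb'
        refine (level_le (x := (x : ℝ)) (by rw [← hL]; exact hL0) hx0 ?_).trans ?_
        · have e1 : x ≤ j + h := (hxa.trans hj.1).trans (Nat.le_add_right _ _)
          exact_mod_cast e1
        · rw [← hL, div_le_iff₀ hL0, one_div, inv_pow, ← div_eq_inv_mul, le_div_iff₀ (by positivity)]
          exact hLq)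
      (fun j _ => ⟨j, mem_tl.2 ⟨0, h0, rfl⟩⟩) (fun i _ j _ hij => (tl_inj h0 h0 hij).1) hdeg hWd).2
    have hbound : W / 2 + 1 / D * D * W / 2 + 29 * (D ^ 2 * c ^ 3) * (Ico a b).card ≤ 2 * L := by
      have e1 : 1 / D * D * W / 2 = W / 2 := by field_simp
      rw [e1]
      linarith
    have hpat2 := hpat.trans (Real.exp_le_exp.2 hbound)
    have hsum : ∀ ω, ∑ j ∈ Ico a b, σ * c * (ind A (tl j H) ω - pT (level Q) (tl j H)) = c * (σ * Sm Q A H a b ω) := by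
      intro ω
      unfold Sm PP
      rw [← mul_sum]
      ring
    simp_rw [hsum] at hpat2
    have hmeas : Measurable (fun ω => σ * Sm Q A H a b ω) := by
      unfold Sm
      exact (Finset.measurable_fun_sum _ (fun m _ => (meas_ind hA _).sub_const _)).const_mul _
    have hint : Integrable (fun ω => Real.exp (c * (σ * Sm Q A H a b ω))) μ := by
      refine int_bdd ((hmeas.const_mul c).exp) (Real.exp (c * ((Ico a b).card : ℝ))) (fun ω => ?_)
      rw [abs_of_pos (Real.exp_pos _)]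
      refine Real.exp_le_exp.2 (mul_le_mul_of_nonneg_left ((le_abs_self _).trans ?_) hc0.le)
      rw [abs_mul, hσ, one_mul]
      unfold Sm
      refine (abs_sum_le_sum_abs _ _).trans ((sum_le_sum (g := fun _ => (1 : ℝ)) (fun m _ => ?_)).trans (by simp))
      rw [abs_le]
      have := ind_nonneg (A := A) (tl m H) ω
      have := ind_le_one (A := A) (tl m H) ω
      have := PP_nonneg Q H m
      have e1 : PP Q H m ≤ 1 := pT_le_one hA _
      constructor <;> linarith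
    have hmk := measure_ge_le_exp_mul_mgf (μ := μ) (X := fun ω => σ * Sm Q A H a b ω) (ε * Fl H.card θ x) hc0.le hint
    refine hmk.trans ?_
    have e1 : ProbabilityTheory.mgf (fun ω => σ * Sm Q A H a b ω) μ c ≤ Real.exp (2 * L) := hpat2
    have e2 : -c * (ε * Fl H.card θ x) = -(8 * L) := by
      rw [hFl]
      calc -c * (ε * Real.sqrt (2 * G * L)) = -(ε * (c * Real.sqrt (2 * G * L))) := by ring
        _ = _ := by
          rw [hcF]
          linear_combination (-L) * hρε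
    rw [e2]
    refine (mul_le_mul_of_nonneg_left e1 (Real.exp_pos _).le).trans (le_of_eq ?_)
    rw [← Real.exp_add, hL, one_div, ← Real.exp_log (pow_pos hx0 6), ← Real.exp_neg, Real.log_pow]
    congr 1
    push_cast
    ring
  have h1 := key 1 (by norm_num)
  have h2 := key (-1) (by norm_num)
  have h5 : {ω | ε * Fl H.card θ x ≤ |Sm Q A H a b ω|} ⊆
      {ω | ε * Fl H.card θ x ≤ 1 * Sm Q A H a b ω} ∪ {ω | ε * Fl H.card θ x ≤ -1 * Sm Q A H a b ω} := by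
    intro ω hω
    have hω' : ε * Fl H.card θ x ≤ |Sm Q A H a b ω| := hω
    rcases le_abs.1 hω' with h | h
    · left
      show ε * Fl H.card θ x ≤ 1 * Sm Q A H a b ω
      linarith
    · right
      show ε * Fl H.card θ x ≤ -1 * Sm Q A H a b ω
      linarith
  refine (measureReal_mono h5 (measure_ne_top _ _)).trans ((measureReal_union_le _ _).trans ?_)
  have h6 : (2 : ℝ) / (x : ℝ) ^ 6 = 1 / (x : ℝ) ^ 6 + 1 / (x : ℝ) ^ 6 := by ring
  linarith

/-- **Increments over short intervals are small.** -/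
theorem inc_ae {Q : ℕ} (hA : IsModel μ (level Q) A) (hQ : 1 ≤ Q) {H : Finset ℕ} (h0 : 0 ∈ H) {θ ε : ℝ} (hθ : 0 < θ)
    (hε : 0 < ε) : ∃ δ > 0, δ ≤ 1 ∧ ∀ᵐ ω ∂μ, ∀ᶠ x : ℕ in atTop, ∀ a b : ℕ, x ≤ a → a ≤ b → b ≤ 4 * x →
      (b : ℝ) - a ≤ δ * (x : ℝ) ^ θ → |Sm Q A H a b ω| < ε * Fl H.card θ x := by
  obtain ⟨δ, hδ0, hδ1, hp⟩ := inc_prob hA hQ h0 hθ hε
  refine ⟨δ, hδ0, hδ1, ?_⟩
  obtain ⟨B, hB⟩ : ∃ B : ℕ → Set Ω, B = fun x => ⋃ q ∈ (range (4 * x + 1) ×ˢ range (4 * x + 1)).filter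
      (fun q : ℕ × ℕ => x ≤ q.1 ∧ q.1 ≤ q.2 ∧ (q.2 : ℝ) - q.1 ≤ δ * (x : ℝ) ^ θ),
      {ω | ε * Fl H.card θ x ≤ |Sm Q A H q.1 q.2 ω|} := ⟨_, rfl⟩
  have hsum : Summable (fun x : ℕ => 50 * (1 / (x : ℝ) ^ 2)) := (Real.summable_one_div_nat_pow.2 (by norm_num)).mul_left 50
  have hb : ∀ᶠ x : ℕ in atTop, μ.real (B x) ≤ 50 * (1 / (x : ℝ) ^ 2) := by
    filter_upwards [hp, eventually_ge_atTop 1] with x h1 h2
    have hx1 : (1 : ℝ) ≤ x := by exact_mod_cast h2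
    rw [hB]
    refine (measureReal_biUnion_finset_le _ _).trans ?_
    refine (sum_le_sum (g := fun _ => 2 / (x : ℝ) ^ 6) (fun q hq => ?_)).trans ?_
    · rw [mem_filter] at hq
      exact h1 q.1 q.2 hq.2.1 hq.2.2.1 hq.2.2.2
    · rw [sum_const, nsmul_eq_mul]
      have h3 : ((((range (4 * x + 1) ×ˢ range (4 * x + 1)).filter
          (fun q : ℕ × ℕ => x ≤ q.1 ∧ q.1 ≤ q.2 ∧ (q.2 : ℝ) - q.1 ≤ δ * (x : ℝ) ^ θ)).card : ℕ) : ℝ) ≤ (5 * x) ^ 2 := by
        have e1 := card_filter_le (range (4 * x + 1) ×ˢ range (4 * x + 1))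
          (fun q : ℕ × ℕ => x ≤ q.1 ∧ q.1 ≤ q.2 ∧ (q.2 : ℝ) - q.1 ≤ δ * (x : ℝ) ^ θ)
        rw [card_product, card_range] at e1
        have e2 : (4 * x + 1) * (4 * x + 1) ≤ (5 * x) ^ 2 := by nlinarith
        have e3 := e1.trans e2
        exact_mod_cast e3
      refine (mul_le_mul_of_nonneg_right h3 (by positivity)).trans ?_
      have e1 : (5 * (x : ℝ)) ^ 2 * (2 / (x : ℝ) ^ 6) = 50 / (x : ℝ) ^ 4 := by
        field_simp
        ring
      rw [e1]
      have e2 : (x : ℝ) ^ 2 ≤ (x : ℝ) ^ 4 := pow_le_pow_right₀ hx1 (by norm_num)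
      rw [mul_one_div]
      exact div_le_div_of_nonneg_left (by norm_num) (by positivity) e2
  filter_upwards [bc hsum hb] with ω hω
  filter_upwards [hω] with x hx a b h1 h2 h3 h4
  by_contra hcon
  push Not at hcon
  apply hx
  rw [hB]
  simp only [Set.mem_iUnion]
  refine ⟨(a, b), mem_filter.2 ⟨mem_product.2 ⟨mem_range.2 (by omega), mem_range.2 (by omega)⟩, h1, h2, h4⟩, hcon⟩

end Pool.Agent.Q106.MD
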