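import Pool.Agent.Q106.MD.ULow

/-!
# Tuples with large shifts: the spectrum of the deviations
-/

set_option autoImplicit false

namespace Pool.Agent.Q106.MD

open Finset MeasureTheory ProbabilityTheory Filter Pool.Agent.Q120.GM Pool.Agent.Q106.UR
open scoped Topology

theorem sing_dvd {Q : ℕ} (hQ : 1 ≤ Q) {H : Finset ℕ} (h0 : 0 ∉ H) (hd : ∀ h ∈ H, Q ∣ h) :
    sing Q (insert 0 H) = qq Q ^ H.card := by
  have h1 := sing_zero hQ
  rw [sing_eq, card_singleton, pow_one] at h1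
  have h2 : cc Q (insert 0 H) = cc Q {0} := by
    unfold cc
    congr 1
    refine filter_congr (fun n _ => ?_)
    unfold Good
    simp only [mem_singleton, forall_eq, add_zero, mem_insert]
    constructor
    · intro h
      have := h 0 (Or.inl rfl)
      rwa [add_zero] at this
    · intro h b hb
      rcases hb with rfl | hb
      · rwa [add_zero]
      · obtain ⟨c, hc⟩ := hd b hb
        rw [hc, mul_comm Q c, Nat.coprime_add_mul_right_left]
        exact h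
  rw [sing_eq, h2, card_insert_of_notMem h0, pow_succ]
  calc (cc Q {0} : ℝ) / Q * (qq Q ^ H.card * qq Q) = ((cc Q {0} : ℝ) / Q * qq Q) * qq Q ^ H.card := by ring
    _ = _ := by rw [h1, one_mul]

/-- The partial sums. -/
theorem prof_sum {Q : ℕ} {η : ℝ} {x : ℕ} {t : Finset ℕ} (ht : Ty Q η x t) (b : ℕ) (hb : 2 ≤ b) :
    |∑ m ∈ Ico 2 b, (if m ≤ x then ((if m ∈ t then (1 : ℝ) else 0) - (Real.log m)⁻¹) else 0)| ≤ Real.sqrt x := by
  obtain ⟨y, hy⟩ : ∃ y, y = min (b - 1) x := ⟨_, rfl⟩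
  have hyx : y ≤ x := by rw [hy]; exact min_le_right _ _
  have h1 : ∑ m ∈ Ico 2 b, (if m ≤ x then ((if m ∈ t then (1 : ℝ) else 0) - (Real.log m)⁻¹) else 0) =
      (((t ∩ Icc 2 y).card : ℕ) : ℝ) - ∑ m ∈ Ico 2 (y + 1), (Real.log m)⁻¹ := by
    rw [← sum_filter]
    have e1 : (Ico 2 b).filter (fun m => m ≤ x) = Ico 2 (y + 1) := by
      ext m
      rw [mem_filter, mem_Ico, mem_Ico, hy]
      omega
    rw [e1, sum_sub_distrib, ← sum_filter, sum_const, nsmul_eq_mul, mul_one]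
    congr 3
    ext m
    rw [mem_filter, mem_Ico, mem_inter, mem_Icc]
    constructor
    · rintro ⟨⟨h2, h3⟩, h4⟩
      exact ⟨h4, h2, by omega⟩
    · rintro ⟨h4, h2, h3⟩
      exact ⟨⟨h2, by omega⟩, h4⟩
  rw [h1]
  exact ht.prof y hyx

/-- **The mean, given the initial segment.** -/
theorem eT_close {Q k : ℕ} (hQ : 1 ≤ Q) {C η : ℝ} (hC : 1 < C) : ∀ᶠ x : ℕ in atTop, ∀ t, Ty Q η x t →
    ∀ H, Fa Q k C x H → Hk Q k 1 C x H ∧ |eT Q t H - pr Q H x| ≤ 2 * qq Q ^ k * Real.sqrt x / Real.log x ^ k := by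
  have hq := qq_pos hQ
  filter_upwards [pT_bounds (k := k) hQ (show 0 < C by linarith), log_tendsto.eventually_ge_atTop 1, eventually_ge_atTop 2]
    with x h1 h2 h3 t ht H hH
  have hx : (2 : ℝ) ≤ x := by exact_mod_cast h3
  have hL0 : 0 < Real.log x := by linarith
  have h0 : 0 ∉ H := fun h => by
    have := hH.gt 0 h
    omega
  have hs := sing_dvd hQ h0 hH.dvd
  rw [hH.card] at hs
  refine ⟨⟨hH.card, h0, fun h hh => by rw [one_mul]; exact hH.le h hh, by rw [hs]; positivity⟩, ?_⟩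
  have hgl : ∀ m, gp H m ≤ (Real.log x)⁻¹ ^ k := by
    intro m
    rw [← hH.card]
    refine gp_le hL0 (fun b hb => ?_)
    have e1 : (x : ℝ) ≤ b := by exact_mod_cast (hH.gt b hb).le
    have e2 : (0 : ℝ) ≤ m := Nat.cast_nonneg m
    exact Real.log_le_log (by linarith) (by linarith)
  have hpr : pr Q H x = qq Q ^ k * ∑ m ∈ Ico 2 (x + 1), (Real.log m)⁻¹ * gp H m := by
    unfold pr lg
    rw [hs]
    congr 1
    refine sum_congr rfl (fun m _ => ?_)
    have e1 : gp (insert 0 H) m = (Real.log ((m : ℝ) + (0 : ℕ)))⁻¹ * gp H m := by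
      unfold gp
      rw [prod_insert h0]
    rw [e1, Nat.cast_zero, add_zero]
  have heT : eT Q t H = qq Q ^ k * ∑ m ∈ t, gp H m := by
    unfold eT
    rw [mul_sum]
    refine sum_congr rfl (fun m hm => ?_)
    have e1 := mem_Icc.1 (ht.sub hm)
    exact (h1 H hH m e1.1 e1.2 (ht.cop m hm)).1
  have hdec : |∑ m ∈ t, gp H m - ∑ m ∈ t ∩ Icc 2 x, gp H m| ≤ (Real.log x)⁻¹ ^ k := by
    have e1 : ∑ m ∈ t, gp H m = ∑ m ∈ t \ (t ∩ Icc 2 x), gp H m + ∑ m ∈ t ∩ Icc 2 x, gp H m :=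
      (sum_sdiff inter_subset_left).symm
    rw [e1, add_sub_cancel_right]
    have e2 : t \ (t ∩ Icc 2 x) ⊆ {1} := by
      intro m hm
      rw [Finset.mem_sdiff, mem_inter, mem_Icc] at hm
      have e3 := mem_Icc.1 (ht.sub hm.1)
      rw [mem_singleton]
      by_contra hne
      exact hm.2 ⟨hm.1, by omega, e3.2⟩
    have e3 : ∀ m, 0 ≤ gp H m := by
      intro m
      unfold gp
      refine prod_nonneg (fun b hb => inv_nonneg.2 (Real.log_nonneg ?_))
      have e1 : (x : ℝ) ≤ b := by exact_mod_cast (hH.gt b hb).le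
      have e2 : (0 : ℝ) ≤ m := Nat.cast_nonneg m
      linarith
    rw [abs_of_nonneg (sum_nonneg (fun m _ => e3 m))]
    refine (sum_le_sum_of_subset_of_nonneg e2 (fun m _ _ => e3 m)).trans ?_
    rw [sum_singleton]
    exact hgl 1
  have hab := abel (f := gp H) (w := fun m => (if m ≤ x then ((if m ∈ t then (1 : ℝ) else 0) - (Real.log m)⁻¹) else 0))
    (a := 2) (B := Real.sqrt x) (fun m hm => gp_anti hm (Nat.le_succ m)) (fun m hm => (gp_pos hm).le)
    (fun b hb => prof_sum ht b hb) (x + 1) (by omega)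
  have hsum : ∑ m ∈ Ico 2 (x + 1), (if m ≤ x then ((if m ∈ t then (1 : ℝ) else 0) - (Real.log m)⁻¹) else 0) * gp H m =
      ∑ m ∈ t ∩ Icc 2 x, gp H m - ∑ m ∈ Ico 2 (x + 1), (Real.log m)⁻¹ * gp H m := by
    have e1 : ∑ m ∈ t ∩ Icc 2 x, gp H m = ∑ m ∈ Ico 2 (x + 1), (if m ∈ t then (1 : ℝ) else 0) * gp H m := by
      have e2 : ∀ m ∈ Ico 2 (x + 1), (if m ∈ t then (1 : ℝ) else 0) * gp H m = if m ∈ t then gp H m else 0 := by
        intro m _
        split_ifs
        · rw [one_mul]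
        · rw [zero_mul]
      rw [sum_congr rfl e2, ← sum_filter]
      refine sum_congr ?_ (fun _ _ => rfl)
      ext m
      rw [mem_filter, mem_Ico, mem_inter, mem_Icc]
      constructor
      · rintro ⟨h4, h2, h3⟩
        exact ⟨⟨h2, by omega⟩, h4⟩
      · rintro ⟨⟨h2, h3⟩, h4⟩
        exact ⟨h4, h2, by omega⟩
    rw [e1, ← sum_sub_distrib]
    refine sum_congr rfl (fun m hm => ?_)
    rw [if_pos (by rw [mem_Ico] at hm; omega)]
    ring
  rw [hsum] at hab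
  rw [hpr, heT, ← mul_sub, abs_mul, abs_of_nonneg (pow_nonneg hq.le k)]
  have h4 : |∑ m ∈ t, gp H m - ∑ m ∈ Ico 2 (x + 1), (Real.log m)⁻¹ * gp H m| ≤ 2 * Real.sqrt x * (Real.log x)⁻¹ ^ k := by
    have e1 := abs_add_le (∑ m ∈ t, gp H m - ∑ m ∈ t ∩ Icc 2 x, gp H m)
      (∑ m ∈ t ∩ Icc 2 x, gp H m - ∑ m ∈ Ico 2 (x + 1), (Real.log m)⁻¹ * gp H m)
    rw [sub_add_sub_cancel] at e1
    have e2 : Real.sqrt x * gp H 2 ≤ Real.sqrt x * (Real.log x)⁻¹ ^ k := mul_le_mul_of_nonneg_left (hgl 2) (Real.sqrt_nonneg _)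
    have e3 : 1 * (Real.log x)⁻¹ ^ k ≤ Real.sqrt x * (Real.log x)⁻¹ ^ k := by
      refine mul_le_mul_of_nonneg_right ?_ (by positivity)
      rw [Real.one_le_sqrt]
      linarith
    linarith
  refine (mul_le_mul_of_nonneg_left h4 (pow_nonneg hq.le k)).trans (le_of_eq ?_)
  rw [inv_pow]
  field_simp

variable {Ω : Type*} {A : Ω → Set ℕ}

theorem Nt_trc {H : Finset ℕ} {x : ℕ} (ω : Ω) :
    Nt A H 1 (x + 1) ω = nm A (trc A (Icc 1 x) ω) (fun m => tl m H) ω := by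
  unfold Nt
  rw [nm_card, nm_card]
  have hset : oc A (Ico 1 (x + 1)) (fun m => tl m (insert 0 H)) ω = oc A (trc A (Icc 1 x) ω) (fun m => tl m H) ω := by
    ext m
    rw [mem_oc, mem_oc, mem_trc, mem_Ico, mem_Icc]
    have h1 : ω ∈ all A (tl m (insert 0 H)) ↔ m ∈ A ω ∧ ω ∈ all A (tl m H) := by
      constructor
      · intro h
        refine ⟨h m (mem_tl.2 ⟨0, mem_insert_self _ _, rfl⟩), fun b hb => ?_⟩
        obtain ⟨h', hh, rfl⟩ := mem_tl.1 hb
        exact h _ (mem_tl.2 ⟨h', mem_insert_of_mem hh, rfl⟩)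
      · rintro ⟨h1, h2⟩ b hb
        obtain ⟨h', hh, rfl⟩ := mem_tl.1 hb
        rw [mem_insert] at hh
        rcases hh with rfl | hh
        · exact h1
        · exact h2 _ (mem_tl.2 ⟨h', hh, rfl⟩)
    rw [h1]
    constructor
    · rintro ⟨⟨h2, h3⟩, h4, h5⟩
      exact ⟨⟨⟨h2, by omega⟩, h4⟩, h5⟩
    · rintro ⟨⟨⟨h2, h3⟩, h4⟩, h5⟩
      exact ⟨⟨h2, by omega⟩, h4, h5⟩
  rw [hset]

/-- **The two normalizations.** -/
theorem DT_DD {Q k : ℕ} (hQ : 1 ≤ Q) (hk : 1 ≤ k) {C η κ : ℝ} (hC : 1 < C) (hκ : 0 < κ) :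
    ∀ᶠ x : ℕ in atTop, ∀ ω : Ω, Ty Q η x (trc A (Icc 1 x) ω) → ∀ H, Fa Q k C x H → Hk Q k 1 C x H ∧
      |DD Q A H x ω - DT Q A (trc A (Icc 1 x) ω) H x ω| ≤ κ * (1 + |DT Q A (trc A (Icc 1 x) ω) H x ω|) := by
  have hC0 : 0 < C := by linarith
  have hc0 := c0_pos (k := k) hQ hC0
  have hq := qq_pos hQ
  filter_upwards [eT_close (k := k) (η := η) hQ hC, pr_ge (k := k) hQ zero_le_one hC0, eT_ge (k := k) (η := η) hQ hC0,
    log_tendsto.eventually_ge_atTop 1, log_tendsto.eventually_ge_atTop (2 * (qq Q ^ k) ^ 2 / (c0 Q k C * κ ^ 2)),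
    ev_log_pow (k + 2) (show 0 < c0 Q k C / 2 by positivity), eventually_ge_atTop 1] with x h1 h2 h3 h4 h5 h6 h7 ω ht H hH
  obtain ⟨hHk, hcl⟩ := h1 _ ht H hH
  refine ⟨hHk, ?_⟩
  have hx : (1 : ℝ) ≤ x := by exact_mod_cast h7
  obtain ⟨t, htd⟩ : ∃ t, t = trc A (Icc 1 x) ω := ⟨_, rfl⟩
  rw [← htd] at hcl ht ⊢
  obtain ⟨P, hP⟩ : ∃ P, P = pr Q H x := ⟨_, rfl⟩
  obtain ⟨e, he⟩ : ∃ e, e = eT Q t H := ⟨_, rfl⟩
  obtain ⟨L, hL⟩ : ∃ L, L = Real.log x := ⟨_, rfl⟩
  have hpr := h2 H hHk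
  have heg := h3 t ht H hH
  have he00 := e0_eq (Q := Q) (k := k) hC0 h4
  rw [← hL] at h4 h5 h6 hcl hpr he00
  rw [← hP] at hcl hpr
  rw [← he] at hcl heg
  have hL0 : 0 < L := by linarith
  have hP0 : 0 < P := lt_of_lt_of_le (by positivity) hpr
  have he0 : 0 < e := lt_of_lt_of_le (by rw [he00]; positivity) heg
  obtain ⟨a, ha⟩ : ∃ a, a = Real.sqrt (2 * P * L) := ⟨_, rfl⟩
  obtain ⟨b, hb⟩ : ∃ b, b = Real.sqrt (2 * e * L) := ⟨_, rfl⟩
  have ha0 : 0 < a := by rw [ha]; exact Real.sqrt_pos.2 (by positivity)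
  have hb0 : 0 < b := by rw [hb]; exact Real.sqrt_pos.2 (by positivity)
  have ha2 : a ^ 2 = 2 * P * L := by rw [ha]; exact Real.sq_sqrt (by positivity)
  have hb2 : b ^ 2 = 2 * e * L := by rw [hb]; exact Real.sq_sqrt (by positivity)
  have hpr' : c0 Q k C * x ≤ P * L ^ (k + 1) := by
    rw [mul_div_assoc', div_le_iff₀ (by positivity)] at hpr
    exact hpr
  -- the difference of the means
  have hea : |e - P| ≤ κ * a := by
    refine hcl.trans ?_
    refine abs_le_of_sq_le_sq' ?_ (by positivity) |>.2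
    rw [div_pow, mul_pow, mul_pow, mul_pow, Real.sq_sqrt (by linarith), ha2, div_le_iff₀ (by positivity)]
    rw [div_le_iff₀ (by positivity)] at h5
    have e1 : 2 ^ 2 * (qq Q ^ k) ^ 2 * x ≤ 2 * κ ^ 2 * L * (c0 Q k C * x) := by
      have f1 := mul_le_mul_of_nonneg_right h5 (show 0 ≤ 2 * (x : ℝ) by positivity)
      linarith
    have e2 : 2 * κ ^ 2 * L * (c0 Q k C * x) ≤ 2 * κ ^ 2 * L * (P * L ^ (k + 1)) :=
      mul_le_mul_of_nonneg_left hpr' (by positivity)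
    refine e1.trans (e2.trans ?_)
    have e3 : L * L ^ (k + 1) ≤ L * (L ^ k) ^ 2 := by
      refine mul_le_mul_of_nonneg_left ?_ hL0.le
      rw [← pow_mul]
      exact pow_le_pow_right₀ h4 (by omega)
    have e4 := mul_le_mul_of_nonneg_left e3 (show 0 ≤ 2 * κ ^ 2 * P by positivity)
    linarith
  have haP : a ≤ P := by
    refine abs_le_of_sq_le_sq' ?_ hP0.le |>.2
    rw [ha2]
    have e1 : 2 * L ≤ P := by
      have e2 : 2 * L * L ^ (k + 1) ≤ P * L ^ (k + 1) := by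
        have e3 : L * L ^ (k + 1) = L ^ (k + 2) := by ring
        linarith
      exact le_of_mul_le_mul_right e2 (by positivity)
    nlinarith
  have hba : |b - a| ≤ κ * a := by
    have e1 : (b - a) * (b + a) = 2 * L * (e - P) := by
      have : (b - a) * (b + a) = b ^ 2 - a ^ 2 := by ring
      rw [this, ha2, hb2]
      ring
    have e2 : |b - a| * (b + a) = 2 * L * |e - P| := by
      rw [← abs_of_pos (show 0 < b + a by linarith), ← abs_mul, e1, abs_mul, abs_of_pos (by positivity : 0 < 2 * L)]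
    have e3 : |b - a| * a ≤ |b - a| * (b + a) := mul_le_mul_of_nonneg_left (by linarith) (abs_nonneg _)
    have e4 : 2 * L * |e - P| ≤ 2 * L * (κ * a) := mul_le_mul_of_nonneg_left hea (by positivity)
    have e5 : 2 * L * (κ * a) ≤ κ * a * a := by
      have e6 : 2 * L ≤ a := by
        refine abs_le_of_sq_le_sq' ?_ ha0.le |>.2
        rw [ha2]
        have e7 : 2 * L ≤ P := by
          have e8 : 2 * L * L ^ (k + 1) ≤ P * L ^ (k + 1) := by
            have e9 : L * L ^ (k + 1) = L ^ (k + 2) := by ring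
            linarith
          exact le_of_mul_le_mul_right e8 (by positivity)
        nlinarith
      have := mul_le_mul_of_nonneg_right e6 (show 0 ≤ κ * a by positivity)
      linarith
    exact le_of_mul_le_mul_right (by linarith : |b - a| * a ≤ κ * a * a) ha0
  have hD1 : DD Q A H x ω * a = DT Q A t H x ω * b + (e - P) := by
    have e1 : DD Q A H x ω * a = Nt A H 1 (x + 1) ω - P := by
      unfold DD
      rw [← hP, ← hL, ← ha]
      exact div_mul_cancel₀ _ ha0.ne'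
    have e2 : DT Q A t H x ω * b = nm A t (fun m => tl m H) ω - e := by
      unfold DT
      rw [← he, ← hL, ← hb]
      exact div_mul_cancel₀ _ hb0.ne'
    rw [e1, e2, Nt_trc, ← htd]
    ring
  obtain ⟨u, hu⟩ : ∃ u, u = DD Q A H x ω := ⟨_, rfl⟩
  obtain ⟨v, hv⟩ : ∃ v, v = DT Q A t H x ω := ⟨_, rfl⟩
  rw [← hu, ← hv] at hD1
  rw [← hu, ← hv]
  have h8 : (u - v) * a = v * (b - a) + (e - P) := by linarith
  have h9 : |u - v| * a ≤ κ * (1 + |v|) * a := by
    rw [← abs_of_pos ha0, ← abs_mul, h8, abs_of_pos ha0]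
    refine (abs_add_le _ _).trans ?_
    rw [abs_mul]
    have e1 := mul_le_mul_of_nonneg_left hba (abs_nonneg v)
    linarith
  exact le_of_mul_le_mul_right h9 ha0

end Pool.Agent.Q106.MD
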