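import Pool.Agent.Q106.MD.UPair
import Pool.Agent.Q106.MD.ShLow

/-!
# Blocks of shifts
-/

set_option autoImplicit false

namespace Pool.Agent.Q106.MD

open Finset MeasureTheory ProbabilityTheory Filter Pool.Agent.Q120.GM Pool.Agent.Q106.UR
open scoped Topology

section PZ

variable {Ω : Type*} [MeasurableSpace Ω] {μ : Measure Ω} [IsProbabilityMeasure μ]

/-- **The inequality of Paley and Zygmund.** -/
theorem pz {κ : Type*} [DecidableEq κ] (G : Finset κ) (X : κ → Set Ω) (hX : ∀ j ∈ G, MeasurableSet (X j)) {a a' b' : ℝ}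
    (ha : 0 < a) (h1 : ∀ j ∈ G, a ≤ μ.real (X j)) (h2 : ∀ j ∈ G, μ.real (X j) ≤ a')
    (h3 : ∀ i ∈ G, ∀ j ∈ G, i ≠ j → μ.real (X i ∩ X j) ≤ b') (hb : 0 ≤ b') (hG : G.Nonempty) :
    ((G.card : ℝ) * a) ^ 2 / (4 * (G.card * a' + (G.card : ℝ) ^ 2 * b')) ≤ μ.real {ω | G.card * a / 2 ≤ num G X ω} := by
  obtain ⟨g1, g2⟩ := num_int (μ := μ) G X hX
  obtain ⟨M, hM⟩ : ∃ M, M = (G.card : ℝ) * a := ⟨_, rfl⟩
  obtain ⟨S, hS⟩ : ∃ S, S = (G.card : ℝ) * a' + (G.card : ℝ) ^ 2 * b' := ⟨_, rfl⟩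
  have hGc : (0 : ℝ) < G.card := by exact_mod_cast card_pos.2 hG
  have hM0 : 0 < M := by rw [hM]; positivity
  have ha' : a ≤ a' := by
    obtain ⟨j, hj⟩ := hG
    exact (h1 j hj).trans (h2 j hj)
  have hS0 : 0 < S := by
    rw [hS]
    have : 0 < a' := by linarith
    positivity
  rw [← hM, ← hS]
  have hsq : ∀ ω, num G X ω ^ 2 = ∑ i ∈ G, ∑ j ∈ G, (X i ∩ X j).indicator (fun _ => (1 : ℝ)) ω := by
    intro ω
    unfold num
    rw [sq, sum_mul_sum]
    refine sum_congr rfl (fun i _ => sum_congr rfl (fun j _ => ?_))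
    by_cases hi : ω ∈ X i
    · by_cases hj : ω ∈ X j
      · rw [Set.indicator_of_mem hi, Set.indicator_of_mem hj, Set.indicator_of_mem (show ω ∈ X i ∩ X j from ⟨hi, hj⟩), one_mul]
      · rw [Set.indicator_of_notMem hj, mul_zero, Set.indicator_of_notMem (fun h => hj h.2)]
    · rw [Set.indicator_of_notMem hi, zero_mul, Set.indicator_of_notMem (fun h => hi h.1)]
  have hint2 : ∀ i ∈ G, ∀ j ∈ G, Integrable ((X i ∩ X j).indicator (fun _ => (1 : ℝ))) μ := fun i hi j hj =>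
    (integrable_const 1).indicator ((hX i hi).inter (hX j hj))
  have hint3 : Integrable (fun ω => num G X ω ^ 2) μ := by
    simp_rw [hsq]
    exact integrable_finsetSum _ (fun i hi => integrable_finsetSum _ (fun j hj => hint2 i hi j hj))
  have h4 : ∫ ω, num G X ω ^ 2 ∂μ ≤ S := by
    simp_rw [hsq]
    rw [integral_finsetSum _ (fun i hi => integrable_finsetSum _ (fun j hj => hint2 i hi j hj))]
    have e1 : ∀ i ∈ G, ∫ ω, ∑ j ∈ G, (X i ∩ X j).indicator (fun _ => (1 : ℝ)) ω ∂μ ≤ a' + G.card * b' := by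
      intro i hi
      rw [integral_finsetSum _ (fun j hj => hint2 i hi j hj)]
      have e2 : ∀ j ∈ G, ∫ ω, (X i ∩ X j).indicator (fun _ => (1 : ℝ)) ω ∂μ ≤ (if j = i then a' else 0) + b' := by
        intro j hj
        rw [integral_indicator_const _ ((hX i hi).inter (hX j hj)), smul_eq_mul, mul_one]
        by_cases hji : j = i
        · rw [if_pos hji, hji, Set.inter_self]
          linarith [h2 i hi]
        · rw [if_neg hji, zero_add]
          exact h3 i hi j hj (Ne.symm hji)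
      refine (sum_le_sum e2).trans (le_of_eq ?_)
      rw [sum_add_distrib, Finset.sum_ite_eq' G i, if_pos hi, sum_const, nsmul_eq_mul]
    refine (sum_le_sum e1).trans (le_of_eq ?_)
    rw [sum_const, nsmul_eq_mul, hS]
    ring
  have h5 : M ≤ ∫ ω, num G X ω ∂μ := by
    rw [g2, hM, ← nsmul_eq_mul, ← sum_const]
    exact sum_le_sum h1
  have hEm : MeasurableSet {ω | M / 2 ≤ num G X ω} := by
    have hm : Measurable (num G X) := by
      unfold num
      exact Finset.measurable_fun_sum _ (fun j hj => measurable_const.indicator (hX j hj))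
    exact measurableSet_le measurable_const hm
  obtain ⟨lam, hlam⟩ : ∃ lam, lam = M / (2 * S) := ⟨_, rfl⟩
  have hlam0 : 0 < lam := by rw [hlam]; positivity
  have hpt : ∀ ω, num G X ω ≤ M / 2 + (lam / 2 * num G X ω ^ 2 + ({ω | M / 2 ≤ num G X ω} : Set Ω).indicator
      (fun _ => 1 / (2 * lam)) ω) := by
    intro ω
    by_cases hω : M / 2 ≤ num G X ω
    · rw [Set.indicator_of_mem (show ω ∈ {ω | M / 2 ≤ num G X ω} from hω)]
      have e1 : num G X ω ≤ lam / 2 * num G X ω ^ 2 + 1 / (2 * lam) := by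
        have e2 := sq_nonneg (lam * num G X ω - 1)
        have e3 : lam / 2 * num G X ω ^ 2 + 1 / (2 * lam) - num G X ω = (lam * num G X ω - 1) ^ 2 / (2 * lam) := by
          field_simp
          ring
        have e4 : 0 ≤ (lam * num G X ω - 1) ^ 2 / (2 * lam) := by positivity
        linarith
      linarith
    · rw [Set.indicator_of_notMem (show ω ∉ {ω | M / 2 ≤ num G X ω} from hω)]
      have : 0 ≤ lam / 2 * num G X ω ^ 2 := by positivity
      push Not at hω
      linarith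
  have hi1 : Integrable (fun ω => lam / 2 * num G X ω ^ 2) μ := hint3.const_mul _
  have hi2 : Integrable (({ω | M / 2 ≤ num G X ω} : Set Ω).indicator (fun _ => 1 / (2 * lam))) μ :=
    (integrable_const _).indicator hEm
  have h6 := integral_mono g1 ((integrable_const (M / 2)).add (hi1.add hi2)) hpt
  have h7 : ∫ ω, ((fun _ : Ω => M / 2) + ((fun ω => lam / 2 * num G X ω ^ 2) +
      ({ω | M / 2 ≤ num G X ω} : Set Ω).indicator (fun _ => 1 / (2 * lam))) : Ω → ℝ) ω ∂μ =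
      M / 2 + (lam / 2 * ∫ ω, num G X ω ^ 2 ∂μ + μ.real {ω | M / 2 ≤ num G X ω} * (1 / (2 * lam))) := by
    rw [integral_add' (integrable_const _) (hi1.add hi2), integral_add' hi1 hi2, integral_const_mul,
      integral_indicator_const _ hEm, smul_eq_mul]
    simp
  rw [h7] at h6
  have h8 : lam / 2 * ∫ ω, num G X ω ^ 2 ∂μ ≤ lam / 2 * S := mul_le_mul_of_nonneg_left h4 (by positivity)
  have h9 : lam / 2 * S = M / 4 := by rw [hlam]; field_simp; ring
  have h10 : M / 4 ≤ μ.real {ω | M / 2 ≤ num G X ω} * (1 / (2 * lam)) := by linarith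
  have h11 : 1 / (2 * lam) = S / M := by rw [hlam]; field_simp
  rw [h11, mul_div_assoc', le_div_iff₀ hM0] at h10
  rw [div_le_iff₀ (by positivity)]
  linarith

end PZ

/-- The shifts. -/
def hb (Q k V b : ℕ) (i : Fin k) (j : ℕ) : ℕ := Q * (b * (k * V) + i * V + j + 1)

/-- The sets of shifts. -/
def Hb (Q k V b : ℕ) (j : Fin k → ℕ) : Finset ℕ := univ.image (fun i => hb Q k V b i (j i))

theorem hb_inj {Q k V b : ℕ} (hQ : 1 ≤ Q) {i i' : Fin k} {j j' : ℕ} (hj : j < V) (hj' : j' < V)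
    (h : hb Q k V b i j = hb Q k V b i' j') : i = i' ∧ j = j' := by
  unfold hb at h
  have h1 := Nat.eq_of_mul_eq_mul_left (by omega) h
  have h2 : (i : ℕ) = i' := by
    rcases lt_trichotomy (i : ℕ) i' with h3 | h3 | h3
    · have h4 : ((i : ℕ) + 1) * V ≤ i' * V := Nat.mul_le_mul_right _ h3
      rw [add_mul] at h4
      omega
    · exact h3
    · have h4 : ((i' : ℕ) + 1) * V ≤ i * V := Nat.mul_le_mul_right _ h3
      rw [add_mul] at h4
      omega
  refine ⟨Fin.ext h2, ?_⟩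
  rw [h2] at h1
  omega

theorem Hb_card {Q k V b : ℕ} (hQ : 1 ≤ Q) {j : Fin k → ℕ} (hj : ∀ i, j i < V) : (Hb Q k V b j).card = k := by
  unfold Hb
  rw [card_image_of_injective _ (fun i i' h => (hb_inj hQ (hj i) (hj i') h).1), card_univ, Fintype.card_fin]

theorem Hb_inj {Q k V b : ℕ} (hQ : 1 ≤ Q) {j j' : Fin k → ℕ} (hj : ∀ i, j i < V) (hj' : ∀ i, j' i < V)
    (h : Hb Q k V b j = Hb Q k V b j') : j = j' := by
  funext i
  have h1 : hb Q k V b i (j i) ∈ Hb Q k V b j' := by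
    rw [← h]
    exact mem_image_of_mem _ (mem_univ i)
  unfold Hb at h1
  rw [mem_image] at h1
  obtain ⟨i', _, h2⟩ := h1
  obtain ⟨h3, h4⟩ := hb_inj hQ (hj' i') (hj i) h2
  rw [← h4, h3]

/-- The ranges. -/
theorem Hb_range {Q k V b w x : ℕ} (hQ : 1 ≤ Q) (hw : w + x + 1 ≤ V) {j : Fin k → ℕ} (hj : ∀ i, j i < w) {h : ℕ}
    (hh : h ∈ Hb Q k V b j) : Q * (b * (k * V)) < h ∧ (∀ m ≤ x, m + h < Q * ((b + 1) * (k * V))) ∧ Q ∣ h := by
  unfold Hb at hh
  rw [mem_image] at hh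
  obtain ⟨i, _, rfl⟩ := hh
  have hj' := hj i
  have hi : (i : ℕ) + 1 ≤ k := i.2
  have h1 : ((i : ℕ) + 1) * V ≤ k * V := Nat.mul_le_mul_right _ hi
  rw [add_mul, one_mul] at h1
  unfold hb
  refine ⟨?_, ?_, dvd_mul_right _ _⟩
  · have h2 : b * (k * V) < b * (k * V) + i * V + j i + 1 := by omega
    exact Nat.mul_lt_mul_of_pos_left h2 (by omega)
  · intro m hm
    have h2 : b * (k * V) + i * V + j i + 1 + x < (b + 1) * (k * V) := by
      rw [add_mul b 1, one_mul]
      omega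
    have h3 := Nat.mul_lt_mul_of_pos_left h2 (show 0 < Q by omega)
    have h4 : m ≤ Q * x := hm.trans (Nat.le_mul_of_pos_left x (by omega))
    rw [mul_add Q _ x] at h3
    omega

variable {Ω : Type*} [MeasurableSpace Ω] {μ : Measure Ω} [IsProbabilityMeasure μ] {A : Ω → Set ℕ}

/-- The block of the integers which matter for `b`. -/
def Sb (Q k V b : ℕ) : Set ℕ := {n | Q * (b * (k * V)) ≤ n ∧ n < Q * ((b + 1) * (k * V))}

theorem Sb_disj {Q k V : ℕ} {b b' : ℕ} (h : b ≠ b') : Disjoint (Sb Q k V b) (Sb Q k V b') := by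
  rw [Set.disjoint_left]
  rintro n ⟨h1, h2⟩ ⟨h3, h4⟩
  rcases lt_or_gt_of_ne h with h5 | h5
  · have h6 : Q * ((b + 1) * (k * V)) ≤ Q * (b' * (k * V)) := Nat.mul_le_mul_left _ (Nat.mul_le_mul_right _ h5)
    omega
  · have h6 : Q * ((b' + 1) * (k * V)) ≤ Q * (b * (k * V)) := Nat.mul_le_mul_left _ (Nat.mul_le_mul_right _ h5)
    omega

/-- The event that the deviation is near `d`. -/
def Xe (Q : ℕ) (A : Ω → Set ℕ) (t : Finset ℕ) (x : ℕ) (d ε : ℝ) (H : Finset ℕ) : Set Ω := {ω | |DT Q A t H x ω - d| < ε}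

omit [MeasurableSpace Ω] in
theorem Xe_F {Q k V b w x : ℕ} (hQ : 1 ≤ Q) (hw : w + x + 1 ≤ V) {j : Fin k → ℕ} (hj : ∀ i, j i < w) {t : Finset ℕ}
    (ht : t ⊆ Icc 1 x) (d ε : ℝ) : MeasurableSet[F A (Sb Q k V b)] (Xe Q A t x d ε (Hb Q k V b j)) := by
  let _ : MeasurableSpace Ω := F A (Sb Q k V b)
  have h1 : Measurable[F A (Sb Q k V b)] (nm A t (fun m => tl m (Hb Q k V b j))) := by
    unfold nm
    refine Finset.measurable_fun_sum _ (fun m hm => F_ind (fun n hn => ?_))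
    obtain ⟨h, hh, rfl⟩ := mem_tl.1 hn
    obtain ⟨r1, r2, _⟩ := Hb_range hQ hw hj hh
    have h2 := mem_Icc.1 (ht hm)
    have h3 := r2 m h2.2
    exact ⟨by omega, h3⟩
  have h2 : Measurable[F A (Sb Q k V b)] (DT Q A t (Hb Q k V b j) x) := (h1.sub_const _).div_const _
  exact measurableSet_lt (h2.sub_const _).abs measurable_const

end Pool.Agent.Q106.MD
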