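import Pool.Agent.Q106.MD.UTy

/-!
# The deviations, given the initial segment
-/

set_option autoImplicit false

namespace Pool.Agent.Q106.MD

open Finset MeasureTheory ProbabilityTheory Filter Pool.Agent.Q120.GM Pool.Agent.Q106.UR
open scoped Topology

/-- Large shifts, divisible by `Q`. -/
structure Fa (Q k : ℕ) (C : ℝ) (x : ℕ) (H : Finset ℕ) : Prop where
  card : H.card = k
  gt : ∀ h ∈ H, x < h
  dvd : ∀ h ∈ H, Q ∣ h
  le : ∀ h ∈ H, (h : ℝ) ≤ (x : ℝ) ^ C

/-- The mean, given the initial segment. -/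
noncomputable def eT (Q : ℕ) (t H : Finset ℕ) : ℝ := ∑ m ∈ t, pT (level Q) (tl m H)

/-- The bounds for the probabilities. -/
theorem pT_bounds {Q k : ℕ} (hQ : 1 ≤ Q) {C : ℝ} (hC : 0 < C) : ∀ᶠ x : ℕ in atTop, ∀ H, Fa Q k C x H →
    ∀ m, 1 ≤ m → m ≤ x → m.Coprime Q → pT (level Q) (tl m H) = qq Q ^ k * gp H m ∧
      (qq Q / ((C + 1) * Real.log x)) ^ k ≤ pT (level Q) (tl m H) ∧ pT (level Q) (tl m H) ≤ (qq Q / Real.log x) ^ k := by
  have hq := qq_pos hQ
  filter_upwards [log_up (B := 1) hC, log_tendsto.eventually_ge_atTop 1, log_tendsto.eventually_ge_atTop (qq Q),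
    eventually_ge_atTop 1] with x h1 h2 h3 h4 H hH m hm1 hmx hmQ
  have hx : (1 : ℝ) ≤ x := by exact_mod_cast h4
  have hl : ∀ h ∈ H, Real.log x ≤ Real.log ((m : ℝ) + h) ∧ Real.log ((m : ℝ) + h) ≤ (C + 1) * Real.log x := by
    intro h hh
    have e1 : (x : ℝ) ≤ h := by exact_mod_cast (hH.gt h hh).le
    have e2 : (0 : ℝ) ≤ m := Nat.cast_nonneg m
    refine ⟨Real.log_le_log (by linarith) (by linarith), h1 m h (by omega) ?_⟩
    rw [one_mul]
    exact hH.le h hh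
  have hlev : ∀ h ∈ H, level Q (m + h) = qq Q * (Real.log ((m : ℝ) + h))⁻¹ := by
    intro h hh
    have e1 := (hl h hh).1
    have e2 : (m + h).Coprime Q := by
      obtain ⟨c, hc⟩ := hH.dvd h hh
      rw [hc, mul_comm Q c, Nat.coprime_add_mul_right_left]
      exact hmQ
    unfold level
    rw [if_pos e2]
    push_cast
    rw [min_eq_right]
    · rfl
    · rw [div_le_one (by linarith)]
      unfold qq at h3
      linarith
  have hpT : pT (level Q) (tl m H) = qq Q ^ k * gp H m := by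
    unfold pT gp
    rw [prod_tl, prod_congr rfl hlev, prod_mul_distrib, prod_const, hH.card]
  refine ⟨hpT, ?_, ?_⟩
  · rw [hpT, div_pow, div_eq_mul_inv]
    refine mul_le_mul_of_nonneg_left ?_ (pow_nonneg hq.le k)
    rw [← inv_pow, ← hH.card, ← prod_const]
    unfold gp
    refine prod_le_prod (fun b _ => inv_nonneg.2 (by positivity)) (fun b hb => ?_)
    exact inv_anti₀ (by linarith [(hl b hb).1]) (hl b hb).2
  · rw [hpT, div_pow, div_eq_mul_inv]
    refine mul_le_mul_of_nonneg_left ?_ (pow_nonneg hq.le k)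
    rw [← inv_pow, ← hH.card]
    exact gp_le (by linarith) (fun b hb => (hl b hb).1)

/-- The size of a typical initial segment. -/
theorem Ty.card_ge {Q : ℕ} {η : ℝ} : ∀ᶠ x : ℕ in atTop, ∀ t, Ty Q η x t → 1 / 2 * (x / Real.log x) ≤ ((t.card : ℕ) : ℝ) := by
  filter_upwards [log_tendsto.eventually_ge_atTop 1, ev_power 4 1 (show 0 < (1 : ℝ) / 2 by norm_num), eventually_ge_atTop 8]
    with x h1 h2 h3 t ht
  have hx : (8 : ℝ) ≤ x := by exact_mod_cast h3
  have hl : 0 < Real.log x := by linarith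
  have h4 := (abs_le.1 (ht.prof x le_rfl)).1
  have h5 : (((t ∩ Icc 2 x).card : ℕ) : ℝ) ≤ ((t.card : ℕ) : ℝ) := by exact_mod_cast card_le_card inter_subset_left
  have h6 : ((x : ℝ) - 1) / Real.log x ≤ ∑ m ∈ Ico 2 (x + 1), (Real.log m)⁻¹ := by
    refine le_trans (le_of_eq ?_) (sum_le_sum (f := fun _ => (Real.log x)⁻¹) (fun m hm => ?_))
    · rw [sum_const, Nat.card_Ico, nsmul_eq_mul, Nat.cast_sub (by omega), div_eq_mul_inv]
      push_cast
      ring
    · rw [mem_Ico] at hm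
      have e1 : (2 : ℝ) ≤ m := by exact_mod_cast hm.1
      have e2 : (m : ℝ) ≤ x := by exact_mod_cast (show m ≤ x by omega)
      exact inv_anti₀ (Real.log_pos (by linarith)) (Real.log_le_log (by linarith) e2)
  have h7 : Real.sqrt x ≤ 1 / 4 * (x / Real.log x) := by
    rw [pow_one, ← Real.sqrt_eq_rpow] at h2
    rw [mul_div_assoc', le_div_iff₀ hl]
    have e1 : Real.sqrt x * Real.sqrt x = x := Real.mul_self_sqrt (by linarith)
    have e2 := mul_le_mul_of_nonneg_left h2 (Real.sqrt_nonneg (x : ℝ))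
    rw [e1] at e2
    linarith
  have h8 : 1 / 2 * (x / Real.log x) + 1 / 4 * (x / Real.log x) ≤ ((x : ℝ) - 1) / Real.log x := by
    rw [← add_mul, mul_div_assoc']
    refine div_le_div_of_nonneg_right ?_ hl.le
    linarith
  linarith

/-- The lower bound for the mean. -/
noncomputable def e0 (Q k : ℕ) (C : ℝ) (x : ℕ) : ℝ := 1 / 2 * (x / Real.log x) * (qq Q / ((C + 1) * Real.log x)) ^ k

theorem eT_ge {Q k : ℕ} (hQ : 1 ≤ Q) {C η : ℝ} (hC : 0 < C) : ∀ᶠ x : ℕ in atTop, ∀ t, Ty Q η x t → ∀ H, Fa Q k C x H →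
    e0 Q k C x ≤ eT Q t H := by
  have hq := qq_pos hQ
  filter_upwards [pT_bounds (k := k) hQ hC, Ty.card_ge (Q := Q) (η := η), log_tendsto.eventually_ge_atTop 1] with x h1 h2 h3 t ht H hH
  have h4 : ((t.card : ℕ) : ℝ) * (qq Q / ((C + 1) * Real.log x)) ^ k ≤ eT Q t H := by
    unfold eT
    rw [← nsmul_eq_mul, ← sum_const]
    refine sum_le_sum (fun m hm => ?_)
    have e1 := mem_Icc.1 (ht.sub hm)
    exact (h1 H hH m e1.1 e1.2 (ht.cop m hm)).2.1
  refine le_trans ?_ h4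
  unfold e0
  exact mul_le_mul_of_nonneg_right (h2 t ht) (by positivity)

theorem e0_eq {Q k : ℕ} {C : ℝ} (hC : 0 < C) {x : ℕ} (hx : 1 ≤ Real.log x) :
    e0 Q k C x = 1 / 2 * (qq Q / (C + 1)) ^ k * (x / Real.log x ^ (k + 1)) := by
  have : 0 < Real.log x := by linarith
  unfold e0
  rw [div_pow, div_pow, mul_pow, pow_succ]
  field_simp

/-- The pairs `(t, H)`. -/
abbrev KT (Q k : ℕ) (C η : ℝ) : Type := {n : ℕ × Finset ℕ × Finset ℕ // Ty Q η n.1 n.2.1 ∧ Fa Q k C n.1 n.2.2}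

/-- `x → ∞`. -/
def lT (Q k : ℕ) (C η : ℝ) : Filter (KT Q k C η) := comap (fun n => n.1.1) atTop

theorem lT_up {Q k : ℕ} {C η : ℝ} {P : KT Q k C η → Prop} (h : ∀ᶠ x : ℕ in atTop, ∀ t H (ht : Ty Q η x t)
    (hH : Fa Q k C x H), P ⟨(x, t, H), ht, hH⟩) : ∀ᶠ n in lT Q k C η, P n := by
  unfold lT
  rw [eventually_comap]
  filter_upwards [h] with x hx n hn
  obtain ⟨⟨x', t, H⟩, ht, hH⟩ := n
  simp only at hn
  subst hn
  exact hx t H ht hH

theorem lT_down {Q k : ℕ} {C η : ℝ} {P : KT Q k C η → Prop} (h : ∀ᶠ n in lT Q k C η, P n) :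
    ∀ᶠ x : ℕ in atTop, ∀ t H (ht : Ty Q η x t) (hH : Fa Q k C x H), P ⟨(x, t, H), ht, hH⟩ := by
  unfold lT at h
  rw [eventually_comap] at h
  filter_upwards [h] with x hx t H ht hH
  exact hx _ rfl

theorem tl_inj' {H : Finset ℕ} (hH : H.Nonempty) {m m' : ℕ} (h : tl m H = tl m' H) : m = m' := by
  by_contra hne
  exact tl_ne hH (Ne.symm hne) h.le

theorem cond_sys {Q k : ℕ} (hQ : 1 ≤ Q) (hk : 1 ≤ k) {C η : ℝ} (hC : 0 < C) :
    PSys (r := 1) (level Q) (lT Q k C η) (fun n _ => n.1.2.1) (fun n _ m => tl m n.1.2.2)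
      (fun n _ => eT Q n.1.2.1 n.1.2.2) (fun n => e0 Q k C n.1.1) (fun n => Real.log n.1.1) ((k : ℝ) ^ 2 + 1) := by
  have hq := qq_pos hQ
  obtain ⟨c, hc⟩ : ∃ c, c = 1 / 2 * (qq Q / (C + 1)) ^ k := ⟨_, rfl⟩
  have hc0 : 0 < c := by rw [hc]; positivity
  have hne : ∀ n : KT Q k C η, n.1.2.2.Nonempty := fun n => card_pos.1 (by rw [n.2.2.card]; omega)
  have hbig : ∀ R : ℝ, ∀ᶠ x : ℕ in atTop, R * Real.log x ≤ e0 Q k C x := by
    intro R
    filter_upwards [ev_log_pow (k + 2) (show 0 < c / (|R| + 1) by positivity), log_tendsto.eventually_ge_atTop 1]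
      with x h1 h2
    have hl : 0 < Real.log x := by linarith
    rw [e0_eq hC h2, ← hc, mul_div_assoc', le_div_iff₀ (by positivity)]
    have h3 : (|R| + 1) * Real.log x ^ (k + 2) ≤ (|R| + 1) * (c / (|R| + 1) * x) :=
      mul_le_mul_of_nonneg_left h1 (by positivity)
    have h4 : (|R| + 1) * (c / (|R| + 1) * x) = c * x := by field_simp
    have h5 : R * Real.log x * Real.log x ^ (k + 1) = R * Real.log x ^ (k + 2) := by ring
    have h6 : R * Real.log x ^ (k + 2) ≤ (|R| + 1) * Real.log x ^ (k + 2) :=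
      mul_le_mul_of_nonneg_right (by linarith [le_abs_self R]) (by positivity)
    linarith
  refine ⟨log_tendsto.comp tendsto_comap, ?_, ?_, ?_, ?_, ?_, ?_, ?_, ?_, ?_⟩
  · intro n i j i' j' _ _ h
    exact ⟨Subsingleton.elim _ _, tl_inj' (hne n) h⟩
  · intro n i j _
    obtain ⟨h, hh⟩ := hne n
    exact ⟨j + h, mem_tl.2 ⟨h, hh, rfl⟩⟩
  · have := sq_nonneg (k : ℝ)
    linarith
  · intro n i j _
    have h1 := meets_card (r := 1) (fun _ => n.1.2.2) (fun _ => n.1.2.1) i j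
    refine h1.trans (le_of_eq ?_)
    rw [Fin.sum_univ_one, n.2.2.card]
  · intro s hs
    refine lT_up ?_
    filter_upwards [log_tendsto.eventually_ge_atTop (qq Q / s), log_tendsto.eventually_ge_atTop 1, eventually_ge_atTop 1]
      with x h2 h3 h4 t H ht hH i m hm b hb
    rw [mem_tl] at hb
    obtain ⟨h, hh, rfl⟩ := hb
    have h5 : (x : ℝ) ≤ ((m + h : ℕ) : ℝ) := by
      have := hH.gt h hh
      exact_mod_cast (show x ≤ m + h by omega)
    have hx : (0 : ℝ) < x := by exact_mod_cast h4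
    refine (level_le (x := (x : ℝ)) (by linarith) hx h5).trans ?_
    rw [div_le_iff₀ hs] at h2
    rw [div_le_iff₀ (by linarith)]
    linarith
  · refine lT_up ?_
    filter_upwards [eT_ge (k := k) (η := η) hQ hC] with x h1 t H ht hH i
    exact h1 t ht H hH
  · intro R
    refine lT_up ?_
    filter_upwards [hbig R] with x h1 t H ht hH
    exact h1
  · intro η' hη'
    refine Eventually.of_forall (fun n i => ?_)
    have h1 : ∑ j ∈ n.1.2.1, pT (level Q) (tl j n.1.2.2) - eT Q n.1.2.1 n.1.2.2 = 0 := by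
      unfold eT
      rw [sub_self]
    show |∑ j ∈ n.1.2.1, pT (level Q) (tl j n.1.2.2) - eT Q n.1.2.1 n.1.2.2| ≤ _
    rw [h1, abs_zero]
    positivity
  · intro η' hη'
    refine lT_up ?_
    filter_upwards [ev_log_pow (3 * k + 4) (show 0 < η' * c ^ 3 by positivity), log_tendsto.eventually_ge_atTop 1,
      eventually_ge_atTop 1] with x h1 h2 h3 t H ht hH
    have hx : (1 : ℝ) ≤ x := by exact_mod_cast h3
    have h4 : (((univ.sigma (fun _ : Fin 1 => t)).card : ℕ) : ℝ) ≤ x := by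
      rw [card_sigma, Fin.sum_univ_one]
      have e1 := card_le_card ht.sub
      rw [Nat.card_Icc, Nat.add_sub_cancel] at e1
      exact_mod_cast e1
    have h5 := pow_le_pow_left₀ (Nat.cast_nonneg _) h4 2
    show Real.log x * (((univ.sigma (fun _ : Fin 1 => t)).card : ℕ) : ℝ) ^ 2 ≤ η' * (e0 Q k C x) ^ 3
    refine (mul_le_mul_of_nonneg_left h5 (by linarith)).trans ?_
    rw [e0_eq hC h2, ← hc]
    have h6 : η' * (c * ((x : ℝ) / Real.log x ^ (k + 1))) ^ 3 = η' * c ^ 3 * (x : ℝ) ^ 3 / Real.log x ^ (3 * k + 3) := by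
      rw [mul_pow, div_pow, ← pow_mul, show (k + 1) * 3 = 3 * k + 3 by ring]
      ring
    rw [h6, le_div_iff₀ (by positivity)]
    have h7 := mul_le_mul_of_nonneg_right h1 (show 0 ≤ (x : ℝ) ^ 2 by positivity)
    have h8 : Real.log x * (x : ℝ) ^ 2 * Real.log x ^ (3 * k + 3) = Real.log x ^ (3 * k + 4) * (x : ℝ) ^ 2 := by
      ring
    rw [h8]
    refine h7.trans (le_of_eq ?_)
    ring

variable {Ω : Type*} [MeasurableSpace Ω] {μ : Measure Ω} [IsProbabilityMeasure μ] {A : Ω → Set ℕ}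

/-- The deviation, given the initial segment `t`. -/
noncomputable def DT (Q : ℕ) (A : Ω → Set ℕ) (t H : Finset ℕ) (x : ℕ) (ω : Ω) : ℝ :=
  (nm A t (fun m => tl m H) ω - eT Q t H) / Real.sqrt (2 * eT Q t H * Real.log x)

theorem cond_gau {Q k : ℕ} (hA : IsModel μ (level Q) A) (hQ : 1 ≤ Q) (hk : 1 ≤ k) {C η : ℝ} (hC : 0 < C) :
    Gau μ (lT Q k C η) (fun n (_ : Fin 1) ω => DT Q A n.1.2.1 n.1.2.2 n.1.1 ω) (fun n => Real.log n.1.1) :=
  gau_of hA (cond_sys hQ hk hC)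

/-- **The probabilities, given the initial segment.** -/
theorem cond_near {Q k : ℕ} (hA : IsModel μ (level Q) A) (hQ : 1 ≤ Q) (hk : 1 ≤ k) {C η : ℝ} (hC : 0 < C) (d : ℝ)
    {ε η' : ℝ} (hε : 0 < ε) (hη' : 0 < η') (hε2 : 2 * ε * |d| ≤ η' / 2) :
    ∀ᶠ x : ℕ in atTop, ∀ t H, Ty Q η x t → Fa Q k C x H →
      (x : ℝ) ^ (-(d ^ 2 + η')) ≤ μ.real {ω | |DT Q A t H x ω - d| < ε} ∧
      μ.real {ω | |DT Q A t H x ω - d| < ε} ≤ (x : ℝ) ^ (-(d ^ 2 - η')) := by
  have hG := cond_gau (k := k) (η := η) hA hQ hk hC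
  filter_upwards [lT_down (hG.lower (fun _ => d) hε hη'), lT_down (hG.upper_at (fun _ => d) hη' hε (by
    rw [Fin.sum_univ_one]; exact hε2)), eventually_ge_atTop 1] with x h1 h2 h3 t H ht hH
  have h4 := h1 t H ht hH
  have h5 := h2 t H ht hH
  rw [Fin.sum_univ_one] at h4 h5
  have h6 : near (fun (n : KT Q k C η) (_ : Fin 1) ω => DT Q A n.1.2.1 n.1.2.2 n.1.1 ω) ⟨(x, t, H), ht, hH⟩ (fun _ => d) ε =
      {ω | |DT Q A t H x ω - d| < ε} := by
    ext ω
    constructor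
    · intro h
      exact h 0
    · intro h i
      exact h
  rw [h6] at h4 h5
  exact ⟨(exp_log_rpow h3 _).symm.le.trans h4, h5.trans (exp_log_rpow h3 _).le⟩

end Pool.Agent.Q106.MD
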