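import Pool.Agent.Q106.MD.UAll

/-!
# Tuples with large shifts: the spectrum of the deviations
-/

set_option autoImplicit false

namespace Pool.Agent.Q106.MD

open Finset MeasureTheory ProbabilityTheory Filter Pool.Agent.Q120.GM Pool.Agent.Q106.UR
open scoped Topology

variable {Ω : Type*} [MeasurableSpace Ω] {μ : Measure Ω} [IsProbabilityMeasure μ] {A : Ω → Set ℕ}

/-- The number of the sets of shifts whose deviation is near `d`. -/
noncomputable def NH (Q k : ℕ) (C : ℝ) (A : Ω → Set ℕ) (d ε : ℝ) (x : ℕ) (ω : Ω) : ℝ :=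
  num (HF Q k 1 C x) (fun H => {ω | |DD Q A H x ω - d| < ε}) ω

/-- **The lower bound for the spectrum.** -/
theorem uni_low {Q k : ℕ} (hA : IsModel μ (level Q) A) (hQ : 1 ≤ Q) (hk : 1 ≤ k) {C : ℝ} (hC : 1 < C) {d ε δ' : ℝ}
    (hd : d ^ 2 < k * C) (hε : 0 < ε) (hδ' : 0 < δ') :
    ∀ᵐ ω ∂μ, ∀ᶠ x : ℕ in atTop, (x : ℝ) ^ (k * C - d ^ 2 - δ') ≤ NH Q k C A d ε x ω := by
  classical
  have hk0 : (0 : ℝ) < k := by exact_mod_cast hk
  obtain ⟨s, hs⟩ : ∃ s, s = min (min ((C - 1) / 2) ((k * C - d ^ 2) / (2 * k))) (δ' / (4 * k)) := ⟨_, rfl⟩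
  have hs0 : 0 < s := by
    rw [hs]
    exact lt_min (lt_min (by linarith) (div_pos (by linarith) (by positivity))) (by positivity)
  have hs1 : s ≤ (C - 1) / 2 := by rw [hs]; exact (min_le_left _ _).trans (min_le_left _ _)
  have hs2 : s * (2 * k) ≤ k * C - d ^ 2 := by
    have h1 : s ≤ (k * C - d ^ 2) / (2 * k) := by rw [hs]; exact (min_le_left _ _).trans (min_le_right _ _)
    rwa [le_div_iff₀ (by positivity)] at h1
  have hs3 : s * (4 * k) ≤ δ' := by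
    have h1 : s ≤ δ' / (4 * k) := by rw [hs]; exact min_le_right _ _
    rwa [le_div_iff₀ (by positivity)] at h1
  obtain ⟨C', hC'⟩ : ∃ C', C' = C - s := ⟨_, rfl⟩
  have hC'1 : 1 < C' := by rw [hC']; linarith
  have hC'C : C' < C := by rw [hC']; linarith
  have hdC : d ^ 2 < k * C' := by
    rw [hC']
    nlinarith
  obtain ⟨e, he⟩ : ∃ e, e = min (s / 4) (δ' / 8) := ⟨_, rfl⟩
  have he0 : 0 < e := by rw [he]; exact lt_min (by positivity) (by positivity)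
  have he1 : 4 * e ≤ C - C' := by
    have : e ≤ s / 4 := by rw [he]; exact min_le_left _ _
    rw [hC']
    linarith
  have he2 : e ≤ δ' / 8 := by rw [he]; exact min_le_right _ _
  obtain ⟨ε₁, hε₁⟩ : ∃ ε₁, ε₁ = min (ε / 2) (e / (8 * (|d| + 1))) := ⟨_, rfl⟩
  have hε₁0 : 0 < ε₁ := by rw [hε₁]; exact lt_min (by positivity) (by positivity)
  have hε₁1 : ε₁ ≤ ε / 2 := by rw [hε₁]; exact min_le_left _ _
  have hε₁2 : 4 * |d| * ε₁ ≤ e / 2 := by
    have h1 : ε₁ ≤ e / (8 * (|d| + 1)) := by rw [hε₁]; exact min_le_right _ _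
    rw [le_div_iff₀ (by positivity)] at h1
    linarith
  obtain ⟨η, hη⟩ : ∃ η, η = e / (8 * ((4 * d ^ 2 + 1) * (C + 1) ^ k)) := ⟨_, rfl⟩
  have hη0 : 0 < η := by rw [hη]; positivity
  have hη1 : 4 * d ^ 2 * η * (C + 1) ^ k ≤ e / 8 := by
    have h1 : η * ((4 * d ^ 2 + 1) * (C + 1) ^ k) = e / 8 := by rw [hη]; field_simp
    have h2 : 0 ≤ η * (C + 1) ^ k := by positivity
    linarith
  obtain ⟨κ, hκ⟩ : ∃ κ, κ = ε / (2 * (1 + (|d| + ε))) := ⟨_, rfl⟩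
  have hκ0 : 0 < κ := by rw [hκ]; positivity
  have hκ1 : κ * (1 + (|d| + ε)) = ε / 2 := by rw [hκ]; field_simp
  filter_upwards [low_ae (μ := μ) (A := A) hA hQ hk hC'1 hC'C hη0 hε₁0 he0 hε₁2 hη1 hdC he1] with ω hω
  filter_upwards [hω, DT_DD (A := A) (η := η) hQ hk hC hκ0, Hb_Fa hQ hk hC'1 hC'C, VB_facts hQ hk hC'1 hC'C,
    (rpow_tendsto (θ := δ' / 2) (by positivity)).eventually_ge_atTop (2 * (4 : ℝ) ^ k), eventually_ge_atTop 1]
    with x h1 h2 h3 h4 h5 h6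
  obtain ⟨ht, b, hb, hSuc⟩ := h1
  obtain ⟨g1, g2, g3, g4, g5, g6⟩ := h4
  have hx0 : (0 : ℝ) < x := by exact_mod_cast h6
  have hx1 : (1 : ℝ) ≤ x := by exact_mod_cast h6
  obtain ⟨t, htd⟩ : ∃ t, t = trc A (Icc 1 x) ω := ⟨_, rfl⟩
  have h2' := h2 ω ht
  rw [← htd] at ht hSuc h2'
  -- the count
  have h7 : nb' Q k C' d ε₁ A t x b ω ≤ NH Q k C A d ε x ω := by
    unfold nb' NH
    rw [num_card, num_card]
    have h8 : (((GG k (wx C' x)).filter (fun j => ω ∈ Xe Q A t x d ε₁ (Hb Q k (Vx C' x) b j))).image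
        (fun j => Hb Q k (Vx C' x) b j)) ⊆ (HF Q k 1 C x).filter (fun H => ω ∈ {ω | |DD Q A H x ω - d| < ε}) := by
      intro H hH
      rw [mem_image] at hH
      obtain ⟨j, hj, rfl⟩ := hH
      rw [mem_filter] at hj
      have hFa := h3 b hb j (mem_GG.1 hj.1)
      obtain ⟨k1, k2⟩ := h2' _ hFa
      rw [mem_filter, mem_HF zero_le_one]
      refine ⟨k1, ?_⟩
      have k3 : |DT Q A t (Hb Q k (Vx C' x) b j) x ω - d| < ε₁ := hj.2
      obtain ⟨u, hu⟩ : ∃ u, u = DD Q A (Hb Q k (Vx C' x) b j) x ω := ⟨_, rfl⟩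
      obtain ⟨v, hv⟩ : ∃ v, v = DT Q A t (Hb Q k (Vx C' x) b j) x ω := ⟨_, rfl⟩
      rw [← hu, ← hv] at k2
      rw [← hv] at k3
      show |DD Q A (Hb Q k (Vx C' x) b j) x ω - d| < ε
      rw [← hu]
      have f1 : |v| ≤ |d| + ε := by
        have f2 := abs_add_le (v - d) d
        rw [sub_add_cancel] at f2
        linarith
      have f2 : κ * (1 + |v|) ≤ ε / 2 := by
        rw [← hκ1]
        exact mul_le_mul_of_nonneg_left (by linarith) hκ0.le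
      have f3 := abs_add_le (u - v) (v - d)
      rw [sub_add_sub_cancel] at f3
      linarith
    have h9 := card_le_card h8
    rw [card_image_of_injOn (fun j hj j' hj' hjj => by
      have a1 := mem_GG.1 (mem_filter.1 (Finset.mem_coe.1 hj)).1
      have a2 := mem_GG.1 (mem_filter.1 (Finset.mem_coe.1 hj')).1
      exact Hb_inj hQ (fun i => (a1 i).trans_le (by omega)) (fun i => (a2 i).trans_le (by omega)) hjj)] at h9
    exact_mod_cast h9
  refine le_trans ?_ h7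
  refine le_trans ?_ hSuc
  rw [card_GG]
  push_cast
  have h8 : ((x : ℝ) ^ C' / 4) ^ k ≤ (wx C' x : ℝ) ^ k := pow_le_pow_left₀ (by positivity) g3 k
  have h9 : ((x : ℝ) ^ C' / 4) ^ k = (x : ℝ) ^ (k * C') / 4 ^ k := by
    rw [div_pow, ← Real.rpow_natCast ((x : ℝ) ^ C') k, ← Real.rpow_mul hx0.le, mul_comm C']
  rw [h9] at h8
  have h10 : (x : ℝ) ^ (k * C') / 4 ^ k * (x : ℝ) ^ (-(d ^ 2 + e)) / 2 ≤ (wx C' x : ℝ) ^ k * (x : ℝ) ^ (-(d ^ 2 + e)) / 2 :=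
    div_le_div_of_nonneg_right (mul_le_mul_of_nonneg_right h8 (by positivity)) zero_le_two
  refine le_trans ?_ h10
  have h11 : (x : ℝ) ^ (k * C') / 4 ^ k * (x : ℝ) ^ (-(d ^ 2 + e)) / 2 = (x : ℝ) ^ (k * C' - d ^ 2 - e) / (2 * 4 ^ k) := by
    rw [show k * C' - d ^ 2 - e = k * C' + -(d ^ 2 + e) by ring, Real.rpow_add hx0]
    field_simp
  rw [h11, le_div_iff₀ (by positivity)]
  calc (x : ℝ) ^ (k * C - d ^ 2 - δ') * (2 * 4 ^ k) ≤ (x : ℝ) ^ (k * C - d ^ 2 - δ') * (x : ℝ) ^ (δ' / 2) :=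
        mul_le_mul_of_nonneg_left h5 (by positivity)
    _ = (x : ℝ) ^ (k * C - d ^ 2 - δ' + δ' / 2) := by rw [← Real.rpow_add hx0]
    _ ≤ _ := by
      refine Real.rpow_le_rpow_of_exponent_le hx1 ?_
      have : k * C' = k * C - s * k := by rw [hC']; ring
      rw [this]
      linarith

/-- **The spectrum of the deviations of all sets of shifts.** -/
theorem uni_all {Q k : ℕ} (hA : IsModel μ (level Q) A) (hQ : 1 ≤ Q) (hk : 1 ≤ k) {C : ℝ} (hC : 1 < C) :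
    ∀ᵐ ω ∂μ,
      (∀ ε > 0, ∀ᶠ x : ℕ in atTop, ∀ H, Hk Q k 1 C x H → DD Q A H x ω ^ 2 ≤ k * C + ε) ∧
      (∀ d : ℝ, d ^ 2 ≤ k * C → ∀ ε > 0, ∀ᶠ x : ℕ in atTop, ∃ H, Hk Q k 1 C x H ∧ |DD Q A H x ω - d| < ε) ∧
      ∀ d : ℝ, d ^ 2 < k * C → ∀ δ > 0, ∃ ε₀ > 0, ∀ ε, 0 < ε → ε ≤ ε₀ → ∀ᶠ x : ℕ in atTop,
        (x : ℝ) ^ (k * C - d ^ 2 - δ) ≤ NH Q k C A d ε x ω ∧ NH Q k C A d ε x ω ≤ (x : ℝ) ^ (k * C - d ^ 2 + δ) := by
  classical
  have hC0 : 0 < C := by linarith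
  have hk0 : (0 : ℝ) < k := by exact_mod_cast hk
  have hE : ∀ n : ℕ, 0 < 1 / ((n : ℝ) + 1) := fun n => by positivity
  have a1 : ∀ᵐ ω ∂μ, ∀ n : ℕ, ∀ᶠ x : ℕ in atTop, ∀ H, Hk Q k 1 C x H → DD Q A H x ω ^ 2 ≤ k * C + 1 / ((n : ℝ) + 1) :=
    ae_all_iff.2 (fun n => uni_up1 hA hQ hC0 (hE n))
  have a2 : ∀ᵐ ω ∂μ, ∀ (q : ℚ) (n m : ℕ), (q : ℝ) ^ 2 < k * C → ∀ᶠ x : ℕ in atTop,
      (x : ℝ) ^ (k * C - (q : ℝ) ^ 2 - 1 / ((m : ℝ) + 1)) ≤ NH Q k C A q (1 / ((n : ℝ) + 1)) x ω := by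
    refine ae_all_iff.2 (fun q => ae_all_iff.2 (fun n => ae_all_iff.2 (fun m => ?_)))
    by_cases h : (q : ℝ) ^ 2 < k * C
    · filter_upwards [uni_low hA hQ hk hC h (hE n) (hE m)] with ω hω _
      exact hω
    · exact Eventually.of_forall (fun ω h1 => absurd h1 h)
  have a3 : ∀ᵐ ω ∂μ, ∀ (q : ℚ) (n m : ℕ), (q : ℝ) ^ 2 ≤ k * C → 8 * (1 / ((n : ℝ) + 1)) * |(q : ℝ)| ≤ 1 / ((m : ℝ) + 1) / 16 →
      ∀ᶠ x : ℕ in atTop, NH Q k C A q (1 / ((n : ℝ) + 1)) x ω ≤ (x : ℝ) ^ (k * C - (q : ℝ) ^ 2 + 1 / ((m : ℝ) + 1)) := by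
    refine ae_all_iff.2 (fun q => ae_all_iff.2 (fun n => ae_all_iff.2 (fun m => ?_)))
    by_cases h : (q : ℝ) ^ 2 ≤ k * C
    · by_cases h' : 8 * (1 / ((n : ℝ) + 1)) * |(q : ℝ)| ≤ 1 / ((m : ℝ) + 1) / 16
      · filter_upwards [uni_up2 hA hQ hC0 h (hE m) (hE n) h'] with ω hω _ _
        exact hω
      · exact Eventually.of_forall (fun ω _ h1 => absurd h1 h')
    · exact Eventually.of_forall (fun ω h1 => absurd h1 h)
  have hmono : ∀ (ω : Ω) (d d' ε ε' : ℝ) (x : ℕ), |d - d'| + ε ≤ ε' → NH Q k C A d ε x ω ≤ NH Q k C A d' ε' x ω := by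
    intro ω d d' ε ε' x h
    unfold NH
    rw [num_card, num_card]
    have : (HF Q k 1 C x).filter (fun H => ω ∈ {ω | |DD Q A H x ω - d| < ε}) ⊆
        (HF Q k 1 C x).filter (fun H => ω ∈ {ω | |DD Q A H x ω - d'| < ε'}) := by
      intro H hH
      rw [mem_filter] at hH ⊢
      refine ⟨hH.1, ?_⟩
      have h1 : |DD Q A H x ω - d| < ε := hH.2
      have h2 := abs_add_le (DD Q A H x ω - d) (d - d')
      rw [sub_add_sub_cancel] at h2
      show |DD Q A H x ω - d'| < ε'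
      linarith
    exact_mod_cast card_le_card this
  -- rational approximation
  have happ : ∀ (d t : ℝ), 0 < t → ∃ q : ℚ, |(q : ℝ) - d| < t ∧ (q : ℝ) ^ 2 < d ^ 2 + t ∧ d ^ 2 - t < (q : ℝ) ^ 2 := by
    intro d t ht
    obtain ⟨q, hq1, hq2, hq3⟩ := Rat.denseRange_cast.exists_mem_open
      (s := {e : ℝ | |e - d| < t} ∩ ({e : ℝ | e ^ 2 < d ^ 2 + t} ∩ {e : ℝ | d ^ 2 - t < e ^ 2}))
      (IsOpen.inter (isOpen_lt (continuous_id.sub continuous_const).abs continuous_const)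
        (IsOpen.inter (isOpen_lt (continuous_id.pow 2) continuous_const) (isOpen_lt continuous_const (continuous_id.pow 2))))
      ⟨d, by
        show |d - d| < t
        rw [sub_self, abs_zero]
        exact ht, by
        show d ^ 2 < d ^ 2 + t
        linarith, by
        show d ^ 2 - t < d ^ 2
        linarith⟩
    exact ⟨q, hq1, hq2, hq3⟩
  filter_upwards [a1, a2, a3] with ω h1 h2 h3
  have hlow : ∀ d : ℝ, d ^ 2 < k * C → ∀ δ > 0, ∀ ε > 0, ∀ᶠ x : ℕ in atTop,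
      (x : ℝ) ^ (k * C - d ^ 2 - δ) ≤ NH Q k C A d ε x ω := by
    intro d hd δ hδ ε hε
    obtain ⟨q, hq1, hq2, _⟩ := happ d (min (min (ε / 2) (δ / 2)) (k * C - d ^ 2))
      (lt_min (lt_min (by positivity) (by positivity)) (by linarith))
    have hq1' : |(q : ℝ) - d| < ε / 2 := hq1.trans_le ((min_le_left _ _).trans (min_le_left _ _))
    have hq2' : (q : ℝ) ^ 2 < d ^ 2 + δ / 2 := by
      have : min (min (ε / 2) (δ / 2)) (k * C - d ^ 2) ≤ δ / 2 := (min_le_left _ _).trans (min_le_right _ _)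
      linarith
    have hq3' : (q : ℝ) ^ 2 < k * C := by
      have : min (min (ε / 2) (δ / 2)) (k * C - d ^ 2) ≤ k * C - d ^ 2 := min_le_right _ _
      linarith
    obtain ⟨n, hn⟩ := exists_nat_one_div_lt (show 0 < ε / 2 by positivity)
    obtain ⟨m, hm⟩ := exists_nat_one_div_lt (show 0 < δ / 2 by positivity)
    filter_upwards [h2 q n m hq3', eventually_ge_atTop 1] with x hx hx1
    have hx1' : (1 : ℝ) ≤ x := by exact_mod_cast hx1
    refine (Real.rpow_le_rpow_of_exponent_le hx1' (by linarith)).trans (hx.trans (hmono ω _ _ _ _ x (by linarith)))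
  refine ⟨fun ε hε => ?_, fun d hd ε hε => ?_, fun d hd δ hδ => ?_⟩
  · obtain ⟨n, hn⟩ := exists_nat_one_div_lt hε
    filter_upwards [h1 n] with x hx H hH
    linarith [hx H hH]
  · -- a point inside
    obtain ⟨t, ht⟩ : ∃ t, t = min (1 / 2) (ε / (2 * (|d| + 1))) := ⟨_, rfl⟩
    have ht0 : 0 < t := by rw [ht]; exact lt_min (by norm_num) (by positivity)
    have ht1 : t ≤ 1 / 2 := by rw [ht]; exact min_le_left _ _
    have ht2 : t * (2 * (|d| + 1)) ≤ ε := by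
      have e1 : t ≤ ε / (2 * (|d| + 1)) := by rw [ht]; exact min_le_right _ _
      rwa [le_div_iff₀ (by positivity)] at e1
    have hkC : 0 < k * C := by positivity
    have hd' : ((1 - t) * d) ^ 2 < k * C := by
      rw [mul_pow]
      have e1 : (1 - t) ^ 2 * d ^ 2 ≤ (1 - t) ^ 2 * (k * C) := mul_le_mul_of_nonneg_left hd (sq_nonneg _)
      have e2 : (1 - t) ^ 2 < 1 := by nlinarith
      have e3 : (1 - t) ^ 2 * (k * C) < 1 * (k * C) := mul_lt_mul_of_pos_right e2 hkC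
      linarith
    filter_upwards [hlow _ hd' 1 one_pos (ε / 2) (by positivity), eventually_ge_atTop 1] with x hx hx1
    have hx0 : (0 : ℝ) < x := by exact_mod_cast hx1
    have h4 : 0 < NH Q k C A ((1 - t) * d) (ε / 2) x ω := lt_of_lt_of_le (Real.rpow_pos_of_pos hx0 _) hx
    unfold NH at h4
    rw [num_card] at h4
    have h5 : 0 < ((HF Q k 1 C x).filter (fun H => ω ∈ {ω | |DD Q A H x ω - (1 - t) * d| < ε / 2})).card := by
      exact_mod_cast h4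
    obtain ⟨H, hH⟩ := card_pos.1 h5
    rw [mem_filter, mem_HF zero_le_one] at hH
    refine ⟨H, hH.1, ?_⟩
    have h6 : |DD Q A H x ω - (1 - t) * d| < ε / 2 := hH.2
    have h7 := abs_add_le (DD Q A H x ω - (1 - t) * d) ((1 - t) * d - d)
    rw [sub_add_sub_cancel] at h7
    have h8 : |(1 - t) * d - d| ≤ ε / 2 := by
      rw [show (1 - t) * d - d = -(t * d) by ring, abs_neg, abs_mul, abs_of_pos ht0]
      nlinarith [abs_nonneg d]
    linarith
  · obtain ⟨m, hm⟩ := exists_nat_one_div_lt (show 0 < δ / 2 by positivity)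
    obtain ⟨n, hn⟩ := exists_nat_one_div_lt (show 0 < 1 / ((m : ℝ) + 1) / (128 * (|d| + 1)) by positivity)
    obtain ⟨q, hq1, hq2, hq3⟩ := happ d (min (min (1 / (2 * ((n : ℝ) + 1))) (δ / 2)) (min 1 (k * C - d ^ 2)))
      (lt_min (lt_min (by positivity) (by positivity)) (lt_min one_pos (by linarith)))
    have hq1' : |(q : ℝ) - d| < 1 / (2 * ((n : ℝ) + 1)) := hq1.trans_le ((min_le_left _ _).trans (min_le_left _ _))
    have hq1'' : |(q : ℝ) - d| < 1 := hq1.trans_le ((min_le_right _ _).trans (min_le_left _ _))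
    have hq2' : (q : ℝ) ^ 2 < k * C := by
      have : min (min (1 / (2 * ((n : ℝ) + 1))) (δ / 2)) (min 1 (k * C - d ^ 2)) ≤ k * C - d ^ 2 :=
        (min_le_right _ _).trans (min_le_right _ _)
      linarith
    have hq3' : d ^ 2 - δ / 2 < (q : ℝ) ^ 2 := by
      have : min (min (1 / (2 * ((n : ℝ) + 1))) (δ / 2)) (min 1 (k * C - d ^ 2)) ≤ δ / 2 :=
        (min_le_left _ _).trans (min_le_right _ _)
      linarith
    have hqd : |(q : ℝ)| ≤ |d| + 1 := by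
      have e1 := abs_add_le ((q : ℝ) - d) d
      rw [sub_add_cancel] at e1
      linarith
    have hqn : 8 * (1 / ((n : ℝ) + 1)) * |(q : ℝ)| ≤ 1 / ((m : ℝ) + 1) / 16 := by
      rw [lt_div_iff₀ (by positivity)] at hn
      have e1 : 8 * (1 / ((n : ℝ) + 1)) * |(q : ℝ)| ≤ 8 * (1 / ((n : ℝ) + 1)) * (|d| + 1) :=
        mul_le_mul_of_nonneg_left hqd (by positivity)
      linarith
    refine ⟨1 / (2 * ((n : ℝ) + 1)), by positivity, fun ε hε hε2 => ?_⟩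
    filter_upwards [hlow d hd δ hδ ε hε, h3 q n m hq2'.le hqn, eventually_ge_atTop 1] with x hx1 hx2 hx3
    refine ⟨hx1, ?_⟩
    have hx3' : (1 : ℝ) ≤ x := by exact_mod_cast hx3
    refine (hmono ω d q ε (1 / ((n : ℝ) + 1)) x ?_).trans (hx2.trans (Real.rpow_le_rpow_of_exponent_le hx3' (by linarith)))
    rw [abs_sub_comm]
    have e1 : 1 / ((n : ℝ) + 1) = 1 / (2 * ((n : ℝ) + 1)) + 1 / (2 * ((n : ℝ) + 1)) := by
      field_simp
      norm_num
    rw [e1]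
    linarith

end Pool.Agent.Q106.MD
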