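import Pool.Agent.Q106.MD.UTr

/-!
# Tuples with large shifts: the upper bounds for all `x`
-/

set_option autoImplicit false

namespace Pool.Agent.Q106.MD

open Finset MeasureTheory ProbabilityTheory Filter Pool.Agent.Q120.GM Pool.Agent.Q106.UR
open scoped Topology

variable {Ω : Type*} [MeasurableSpace Ω] {μ : Measure Ω} [IsProbabilityMeasure μ] {A : Ω → Set ℕ}

theorem gr_facts {δ : ℝ} (hδ : 0 < δ) (hδ1 : δ ≤ 1) : ∀ᶠ x : ℕ in atTop, gr δ 1 x ≤ x ∧ x ≤ 2 * gr δ 1 x ∧ 1 ≤ gr δ 1 x := by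
  filter_upwards [gr_near hδ one_pos, eventually_ge_atTop 1] with x h1 h2
  rw [Real.rpow_one] at h1
  have e1 : δ * gr δ 1 x ≤ 1 * gr δ 1 x := mul_le_mul_of_nonneg_right hδ1 (Nat.cast_nonneg _)
  have e2 : (x : ℝ) ≤ 2 * gr δ 1 x := by linarith [h1.2]
  have e3 : x ≤ 2 * gr δ 1 x := by exact_mod_cast e2
  exact ⟨h1.1, e3, by omega⟩

theorem Hk_mono {Q k : ℕ} {C : ℝ} (hC : 0 < C) {x y : ℕ} (h : x ≤ 2 * y) {H : Finset ℕ} (hH : Hk Q k 1 C x H) :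
    Hk Q k ((2 : ℝ) ^ C) C y H := by
  refine ⟨hH.card, hH.zero, fun b hb => (hH.le b hb).trans ?_, hH.sing⟩
  rw [one_mul, ← Real.mul_rpow (by norm_num) (Nat.cast_nonneg y)]
  refine Real.rpow_le_rpow (Nat.cast_nonneg x) ?_ hC.le
  exact_mod_cast h

/-- **The upper bound.** -/
theorem uni_up1 {Q k : ℕ} (hA : IsModel μ (level Q) A) (hQ : 1 ≤ Q) {C : ℝ} (hC : 0 < C) {ε : ℝ} (hε : 0 < ε) :
    ∀ᵐ ω ∂μ, ∀ᶠ x : ℕ in atTop, ∀ H, Hk Q k 1 C x H → DD Q A H x ω ^ 2 ≤ k * C + ε := by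
  have hB : (0 : ℝ) ≤ (2 : ℝ) ^ C := by positivity
  obtain ⟨R, hR⟩ : ∃ R, R = Real.sqrt (k * C + ε / 2) := ⟨_, rfl⟩
  have hR0 : 0 < R := by rw [hR]; exact Real.sqrt_pos.2 (by positivity)
  have hR2 : R ^ 2 = k * C + ε / 2 := by rw [hR]; exact Real.sq_sqrt (by positivity)
  obtain ⟨t, ht⟩ : ∃ t, t = min 1 (ε / (2 * (2 * R + 1))) := ⟨_, rfl⟩
  have ht0 : 0 < t := by rw [ht]; exact lt_min one_pos (by positivity)
  have ht1 : t ≤ 1 := by rw [ht]; exact min_le_left _ _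
  have ht2 : (2 * R + 1) * t ≤ ε / 2 := by
    have h1 : t ≤ ε / (2 * (2 * R + 1)) := by rw [ht]; exact min_le_right _ _
    rw [le_div_iff₀ (by positivity)] at h1
    linarith
  obtain ⟨η, hη⟩ : ∃ η, η = t / (1 + R) := ⟨_, rfl⟩
  have hη0 : 0 < η := by rw [hη]; positivity
  have hηR : η * (1 + R) = t := by rw [hη]; field_simp
  obtain ⟨δ, hδ0, hδ1, htr⟩ := uni_tr (k := k) hA hQ hB hC hη0
  have hE := union_HF (μ := μ) (k := k) (C := C) hB (E := fun y H => {ω | R ≤ |DD Q A H y ω|}) (M := 1) (a := R ^ 2 - ε / 8)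
    (a' := ε / 4) (by
      filter_upwards [uni_large (k := k) hA hQ hB hC hR0 (show 0 < ε / 8 by positivity)] with y h1 H hH
      rw [one_mul]
      exact h1 H hH) (by rw [hR2]; linarith) (by rw [hR2]; linarith)
  filter_upwards [htr, grid_bc hδ0 one_pos le_rfl (a := ε / 4) (by rw [sub_self]; positivity) (by positivity) hE] with ω h1 h2
  filter_upwards [h1, h2, gr_facts hδ0 hδ1] with x h3 h4 h5 H hH
  have hH' := Hk_mono hC h5.2.1 hH
  have h6 := h3 H hH'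
  have h7 : |DD Q A H (gr δ 1 x) ω| < R := by
    by_contra hcon
    push Not at hcon
    exact h4 ⟨H, hH', hcon⟩
  obtain ⟨u, hu⟩ : ∃ u, u = DD Q A H (gr δ 1 x) ω := ⟨_, rfl⟩
  obtain ⟨v, hv⟩ : ∃ v, v = DD Q A H x ω := ⟨_, rfl⟩
  rw [← hu, ← hv] at h6
  rw [← hu] at h7
  rw [← hv]
  have h8 : |v| ≤ R + t := by
    have e1 := abs_add_le (v - u) u
    rw [sub_add_cancel] at e1
    have e2 : η * (1 + |u|) ≤ η * (1 + R) := mul_le_mul_of_nonneg_left (by linarith) hη0.le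
    linarith
  have h9 : v ^ 2 ≤ (R + t) ^ 2 := by
    rw [← sq_abs v]
    exact pow_le_pow_left₀ (abs_nonneg v) h8 2
  nlinarith

theorem DD_meas {Q : ℕ} (hA : IsModel μ (level Q) A) (H : Finset ℕ) (x : ℕ) : Measurable (DD Q A H x) :=
  ((meas_nm hA _ _).sub_const _).div_const _

/-- **The upper bound for the spectrum.** -/
theorem uni_up2 {Q k : ℕ} (hA : IsModel μ (level Q) A) (hQ : 1 ≤ Q) {C : ℝ} (hC : 0 < C) {d δ' ε : ℝ} (hd : d ^ 2 ≤ k * C)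
    (hδ' : 0 < δ') (hε : 0 < ε) (hε2 : 8 * ε * |d| ≤ δ' / 16) :
    ∀ᵐ ω ∂μ, ∀ᶠ x : ℕ in atTop, num (HF Q k 1 C x) (fun H => {ω | |DD Q A H x ω - d| < ε}) ω ≤
      (x : ℝ) ^ (k * C - d ^ 2 + δ') := by
  classical
  have hB : (0 : ℝ) ≤ (2 : ℝ) ^ C := by positivity
  obtain ⟨η, hη⟩ : ∃ η, η = min (1 / 2) (ε / (2 * (1 + |d| + 2 * ε))) := ⟨_, rfl⟩
  have hη0 : 0 < η := by rw [hη]; exact lt_min (by norm_num) (by positivity)
  have hη1 : η ≤ 1 / 2 := by rw [hη]; exact min_le_left _ _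
  have hη2 : η * (2 * (1 + |d| + 2 * ε)) ≤ ε := by
    have h1 : η ≤ ε / (2 * (1 + |d| + 2 * ε)) := by rw [hη]; exact min_le_right _ _
    rwa [le_div_iff₀ (by positivity)] at h1
  obtain ⟨δ, hδ0, hδ1, htr⟩ := uni_tr (k := k) hA hQ hB hC hη0
  obtain ⟨E, hE⟩ : ∃ E : ℕ → Set Ω, E = fun y : ℕ => {ω | (y : ℝ) ^ (k * C - d ^ 2 + δ' / 2) ≤
    num (HF Q k ((2 : ℝ) ^ C) C y) (fun H => {ω | |DD Q A H y ω - d| < 2 * ε}) ω} := ⟨_, rfl⟩
  have hb : ∀ᶠ y : ℕ in atTop, μ.real (E y) ≤ (y : ℝ) ^ (-(δ' / 4)) := by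
    filter_upwards [uni_near (μ := μ) (A := A) (k := k) hA hQ hB hC d (η := δ' / 8) (ε := 2 * ε) (by positivity) (by positivity) (by linarith),
      eventually_ge_atTop 1, (rpow_tendsto (θ := δ' / 8) (by positivity)).eventually_ge_atTop (((2 : ℝ) ^ C) ^ k)]
      with y h1 h2 h3
    have hy0 : (0 : ℝ) < y := by exact_mod_cast h2
    have hms : ∀ H ∈ HF Q k ((2 : ℝ) ^ C) C y, MeasurableSet {ω | |DD Q A H y ω - d| < 2 * ε} := fun H _ =>
      measurableSet_lt ((DD_meas hA H y).sub_const _).abs measurable_const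
    obtain ⟨g1, g2⟩ := num_int (μ := μ) (HF Q k ((2 : ℝ) ^ C) C y) (fun H => {ω | |DD Q A H y ω - d| < 2 * ε}) hms
    have g3 := mul_meas_ge_le_integral_of_nonneg (μ := μ) (f := num (HF Q k ((2 : ℝ) ^ C) C y)
      (fun H => {ω | |DD Q A H y ω - d| < 2 * ε})) (Eventually.of_forall (fun ω => sum_nonneg (fun H _ =>
        Set.indicator_nonneg (fun _ _ => zero_le_one) ω))) g1 ((y : ℝ) ^ (k * C - d ^ 2 + δ' / 2))
    rw [g2] at g3
    have g4 : ∑ H ∈ HF Q k ((2 : ℝ) ^ C) C y, μ.real {ω | |DD Q A H y ω - d| < 2 * ε} ≤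
        ((2 : ℝ) ^ C) ^ k * (y : ℝ) ^ (k * C) * (y : ℝ) ^ (-(d ^ 2 - δ' / 8)) := by
      refine (sum_le_sum (fun H hH => h1 H ((mem_HF hB).1 hH))).trans ?_
      rw [sum_const, nsmul_eq_mul]
      exact mul_le_mul_of_nonneg_right (card_HF hB h2) (by positivity)
    have g5 : (y : ℝ) ^ (k * C - d ^ 2 + δ' / 2) * μ.real (E y) ≤
        ((2 : ℝ) ^ C) ^ k * (y : ℝ) ^ (k * C) * (y : ℝ) ^ (-(d ^ 2 - δ' / 8)) := by
      rw [hE]
      exact g3.trans g4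
    have g6 : ((2 : ℝ) ^ C) ^ k * (y : ℝ) ^ (k * C) * (y : ℝ) ^ (-(d ^ 2 - δ' / 8)) ≤
        (y : ℝ) ^ (k * C - d ^ 2 + δ' / 2) * (y : ℝ) ^ (-(δ' / 4)) := by
      have e1 : (y : ℝ) ^ (k * C - d ^ 2 + δ' / 2) * (y : ℝ) ^ (-(δ' / 4)) =
          (y : ℝ) ^ (δ' / 8) * ((y : ℝ) ^ (k * C) * (y : ℝ) ^ (-(d ^ 2 - δ' / 8))) := by
        rw [← Real.rpow_add hy0, ← Real.rpow_add hy0, ← Real.rpow_add hy0]
        congr 1
        ring
      rw [e1, mul_assoc]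
      exact mul_le_mul_of_nonneg_right h3 (by positivity)
    exact le_of_mul_le_mul_left (g5.trans g6) (by positivity)
  filter_upwards [htr, grid_bc hδ0 one_pos le_rfl (a := δ' / 4) (by rw [sub_self]; positivity) (by positivity) hb] with ω h1 h2
  filter_upwards [h1, h2, gr_facts hδ0 hδ1, eventually_ge_atTop 1] with x h3 h4 h5 hx1
  rw [hE] at h4
  have h4' : num (HF Q k ((2 : ℝ) ^ C) C (gr δ 1 x)) (fun H => {ω | |DD Q A H (gr δ 1 x) ω - d| < 2 * ε}) ω <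
      ((gr δ 1 x : ℕ) : ℝ) ^ (k * C - d ^ 2 + δ' / 2) := by
    by_contra hcon
    push Not at hcon
    exact h4 hcon
  have hyx : ((gr δ 1 x : ℕ) : ℝ) ≤ x := by exact_mod_cast h5.1
  have hx1' : (1 : ℝ) ≤ x := by exact_mod_cast hx1
  have h6 : ((gr δ 1 x : ℕ) : ℝ) ^ (k * C - d ^ 2 + δ' / 2) ≤ (x : ℝ) ^ (k * C - d ^ 2 + δ') :=
    (Real.rpow_le_rpow (Nat.cast_nonneg _) hyx (by linarith)).trans
      (Real.rpow_le_rpow_of_exponent_le hx1' (by linarith))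
  refine le_trans ?_ (h4'.le.trans h6)
  rw [num_card, num_card]
  have h7 : (HF Q k 1 C x).filter (fun H => ω ∈ {ω | |DD Q A H x ω - d| < ε}) ⊆
      (HF Q k ((2 : ℝ) ^ C) C (gr δ 1 x)).filter (fun H => ω ∈ {ω | |DD Q A H (gr δ 1 x) ω - d| < 2 * ε}) := by
    intro H hH
    rw [mem_filter, mem_HF zero_le_one] at hH
    obtain ⟨hH1, hH2⟩ := hH
    have hH' := Hk_mono hC h5.2.1 hH1
    rw [mem_filter, mem_HF hB]
    refine ⟨hH', ?_⟩
    have h8 := h3 H hH'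
    obtain ⟨u, hu⟩ : ∃ u, u = DD Q A H (gr δ 1 x) ω := ⟨_, rfl⟩
    obtain ⟨v, hv⟩ : ∃ v, v = DD Q A H x ω := ⟨_, rfl⟩
    have hH3 : |v - d| < ε := by rw [hv]; exact hH2
    rw [← hu, ← hv] at h8
    show |DD Q A H (gr δ 1 x) ω - d| < 2 * ε
    rw [← hu]
    have e1 : |u| ≤ |u - v| + |v - d| + |d| := by
      have f1 := abs_add_le (u - v + (v - d)) d
      have f2 := abs_add_le (u - v) (v - d)
      have f3 : u - v + (v - d) + d = u := by ring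
      rw [f3] at f1
      linarith
    rw [abs_sub_comm] at h8
    have e2 : |u| ≤ 2 * (1 + |d| + ε) := by nlinarith [abs_nonneg u]
    have e3 : |u - v| ≤ ε := by
      have f1 : |u - v| ≤ η * (1 + (|u - v| + |v - d| + |d|)) := h8.trans (mul_le_mul_of_nonneg_left (by linarith) hη0.le)
      have f2 : η * |u - v| ≤ 1 / 2 * |u - v| := mul_le_mul_of_nonneg_right hη1 (abs_nonneg _)
      have f3 : η * (1 + |v - d| + |d|) ≤ η * (1 + |d| + 2 * ε) := mul_le_mul_of_nonneg_left (by linarith) hη0.le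
      nlinarith
    have e4 := abs_add_le (u - v) (v - d)
    rw [sub_add_sub_cancel] at e4
    linarith
  exact_mod_cast card_le_card h7

end Pool.Agent.Q106.MD
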