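import Pool.Agent.Q106.MD.UUp

/-!
# Tuples with large shifts: increments, and the upper bounds for all `x`
-/

set_option autoImplicit false

namespace Pool.Agent.Q106.MD

open Finset MeasureTheory ProbabilityTheory Filter Pool.Agent.Q120.GM Pool.Agent.Q106.UR
open scoped Topology

section Chern

variable {Ω : Type*} [MeasurableSpace Ω] {μ : Measure Ω} [IsProbabilityMeasure μ] {ι κ : Type*} [DecidableEq ι]
  [DecidableEq κ] {p : ι → ℝ} {A : Ω → Set ι}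

/-- **Chernoff's bound for numbers of configurations.** -/
theorem chern (hA : IsModel μ p A) (J : Finset κ) (T : κ → Finset ι) {c D s M t : ℝ} (hc : 0 < c) (hD : 1 ≤ D)
    (hcD : 56 * (D * c) ≤ 1) (hs : 0 < s) (hs1 : s * D ≤ 1) (hp : ∀ j ∈ J, ∀ b ∈ T j, p b ≤ s ^ 2)
    (hne : ∀ j ∈ J, (T j).Nonempty) (hinj : ∀ i ∈ J, ∀ j ∈ J, T i = T j → i = j)
    (hdeg : ∀ j ∈ J, ((nb T J j).card : ℝ) ≤ D) (hM : ∑ j ∈ J, pT p (T j) ≤ M) :
    μ.real {ω | t ≤ |nm A J T ω - ∑ j ∈ J, pT p (T j)|} ≤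
      2 * Real.exp (c ^ 2 * M + 29 * (D ^ 2 * c ^ 3) * J.card - c * t) := by
  have hs2 : s ≤ 1 := by nlinarith
  have key : ∀ σ : ℝ, |σ| = 1 → μ.real {ω | t ≤ σ * (nm A J T ω - ∑ j ∈ J, pT p (T j))} ≤
      Real.exp (c ^ 2 * M + 29 * (D ^ 2 * c ^ 3) * J.card - c * t) := by
    intro σ hσ
    have hσ2 : σ ^ 2 = 1 := by rw [← sq_abs, hσ, one_pow]
    obtain ⟨W, hW⟩ : ∃ W, W = ∑ i ∈ J, (σ * c) ^ 2 * pT p (T i) := ⟨_, rfl⟩
    have hWM : W ≤ c ^ 2 * M := by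
      rw [hW, ← mul_sum, mul_pow, hσ2, one_mul]
      exact mul_le_mul_of_nonneg_left hM (sq_nonneg c)
    have hW0 : 0 ≤ W := by
      rw [hW]
      exact sum_nonneg (fun i _ => mul_nonneg (sq_nonneg _) (pT_nonneg hA _))
    have hpat := (pat hA J T (fun _ => σ * c) (h := c) (D := D) (s := s) hc.le
      (fun j _ => by rw [abs_mul, hσ, one_mul, abs_of_pos hc]) hD hcD hs hs2 hp hne hinj hdeg hW).2
    have hbound : W / 2 + s * D * W / 2 + 29 * (D ^ 2 * c ^ 3) * J.card ≤ c ^ 2 * M + 29 * (D ^ 2 * c ^ 3) * J.card := by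
      have e1 : s * D * W ≤ 1 * W := mul_le_mul_of_nonneg_right hs1 hW0
      linarith
    have hpat2 := hpat.trans (Real.exp_le_exp.2 hbound)
    have hsum : ∀ ω, ∑ j ∈ J, σ * c * (ind A (T j) ω - pT p (T j)) = c * (σ * (nm A J T ω - ∑ j ∈ J, pT p (T j))) := by
      intro ω
      unfold nm
      rw [← mul_sum, sum_sub_distrib]
      ring
    simp_rw [hsum] at hpat2
    have hmeas : Measurable (fun ω => σ * (nm A J T ω - ∑ j ∈ J, pT p (T j))) :=
      ((meas_nm hA _ _).sub_const _).const_mul _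
    have hint : Integrable (fun ω => Real.exp (c * (σ * (nm A J T ω - ∑ j ∈ J, pT p (T j))))) μ := by
      refine int_bdd ((hmeas.const_mul c).exp) (Real.exp (c * (J.card : ℝ))) (fun ω => ?_)
      rw [abs_of_pos (Real.exp_pos _)]
      refine Real.exp_le_exp.2 (mul_le_mul_of_nonneg_left ((le_abs_self _).trans ?_) hc.le)
      rw [abs_mul, hσ, one_mul]
      unfold nm
      rw [← sum_sub_distrib]
      refine (abs_sum_le_sum_abs _ _).trans ((sum_le_sum (g := fun _ => (1 : ℝ)) (fun m _ => ?_)).trans (by simp))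
      rw [abs_le]
      have := ind_nonneg (A := A) (T m) ω
      have := ind_le_one (A := A) (T m) ω
      have := pT_nonneg hA (T m)
      have e1 : pT p (T m) ≤ 1 := pT_le_one hA _
      constructor <;> linarith
    have hmk := measure_ge_le_exp_mul_mgf (μ := μ) (X := fun ω => σ * (nm A J T ω - ∑ j ∈ J, pT p (T j))) t hc.le hint
    refine hmk.trans ?_
    have e1 : ProbabilityTheory.mgf (fun ω => σ * (nm A J T ω - ∑ j ∈ J, pT p (T j))) μ c ≤
        Real.exp (c ^ 2 * M + 29 * (D ^ 2 * c ^ 3) * J.card) := hpat2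
    refine (mul_le_mul_of_nonneg_left e1 (Real.exp_pos _).le).trans (le_of_eq ?_)
    rw [← Real.exp_add]
    congr 1
    ring
  have h1 := key 1 (by norm_num)
  have h2 := key (-1) (by norm_num)
  have h5 : {ω | t ≤ |nm A J T ω - ∑ j ∈ J, pT p (T j)|} ⊆
      {ω | t ≤ 1 * (nm A J T ω - ∑ j ∈ J, pT p (T j))} ∪ {ω | t ≤ -1 * (nm A J T ω - ∑ j ∈ J, pT p (T j))} := by
    intro ω hω
    have hω' : t ≤ |nm A J T ω - ∑ j ∈ J, pT p (T j)| := hω
    rcases le_abs.1 hω' with h | h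
    · left
      show t ≤ 1 * (nm A J T ω - ∑ j ∈ J, pT p (T j))
      linarith
    · right
      show t ≤ -1 * (nm A J T ω - ∑ j ∈ J, pT p (T j))
      linarith
  refine (measureReal_mono h5 (measure_ne_top _ _)).trans ((measureReal_union_le _ _).trans ?_)
  linarith

end Chern

variable {Ω : Type*} [MeasurableSpace Ω] {μ : Measure Ω} [IsProbabilityMeasure μ] {A : Ω → Set ℕ}

/-- The centred number of the tuples in `[x + 1, v + 1)`. -/
noncomputable def Ic (Q : ℕ) (A : Ω → Set ℕ) (H : Finset ℕ) (x v : ℕ) (ω : Ω) : ℝ :=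
  Nt A H (x + 1) (v + 1) ω - ∑ m ∈ Ico (x + 1) (v + 1), PP Q (insert 0 H) m

/-- **Uniform bounds for the increments.** -/
theorem inc_uni {Q k : ℕ} (hA : IsModel μ (level Q) A) (hQ : 1 ≤ Q) {B C : ℝ} (hB : 0 ≤ B) (hC : 0 < C) {ε Z : ℝ}
    (hε : 0 < ε) (hZ : 0 ≤ Z) : ∃ δ₀ > 0, δ₀ ≤ 1 ∧ ∀ᶠ x : ℕ in atTop, ∀ H, Hk Q k B C x H → ∀ v : ℕ, x ≤ v →
      (v : ℝ) ≤ x + δ₀ * x →
      μ.real {ω | ε * Real.sqrt (2 * pr Q H x * Real.log x) ≤ |Ic Q A H x v ω|} ≤ 2 * (x : ℝ) ^ (-Z) := by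
  have hc0 := c0_pos (k := k) hQ hC
  have hq := qq_pos hQ
  obtain ⟨β, hβ⟩ : ∃ β, β = (Z + 2) / ε := ⟨_, rfl⟩
  have hβ0 : 0 < β := by rw [hβ]; positivity
  have hβε : β * ε = Z + 2 := by rw [hβ]; field_simp
  obtain ⟨D, hD⟩ : ∃ D : ℝ, D = ((k + 1 : ℕ) : ℝ) ^ 2 + 1 := ⟨_, rfl⟩
  have hD1 : 1 ≤ D := by rw [hD]; nlinarith [sq_nonneg (((k + 1 : ℕ) : ℝ))]
  have hD0 : 0 < D := by linarith
  obtain ⟨δ₀, hδ₀⟩ : ∃ δ₀, δ₀ = min 1 (1 / (2 * β ^ 2)) := ⟨_, rfl⟩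
  have hδ0 : 0 < δ₀ := by rw [hδ₀]; exact lt_min one_pos (by positivity)
  have hδ1 : δ₀ ≤ 1 := by rw [hδ₀]; exact min_le_left _ _
  have hδ2 : δ₀ * (2 * β ^ 2) ≤ 1 := by
    have h1 : δ₀ ≤ 1 / (2 * β ^ 2) := by rw [hδ₀]; exact min_le_right _ _
    rwa [le_div_iff₀ (by positivity)] at h1
  refine ⟨δ₀, hδ0, hδ1, ?_⟩
  filter_upwards [pr_ge (k := k) hQ hB hC, log_tendsto.eventually_ge_atTop 1, log_tendsto.eventually_ge_atTop (qq Q * D ^ 2),
    log_tendsto.eventually_ge_atTop (qq Q),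
    ev_log_pow (k + 2) (show 0 < c0 Q k C * 2 / ((56 * D) ^ 2 * β ^ 2 + 1) by positivity),
    ev_log_pow (3 * k + 6) (show 0 < 8 * c0 Q k C ^ 3 / ((29 * D ^ 2) ^ 2 * β ^ 6 + 1) by positivity),
    ev_log_pow (k + 1) (show 0 < δ₀ * c0 Q k C / (Q + 1) by positivity), eventually_ge_atTop 5]
    with x h1 h2 h3 hlq h4 h5 h6 h7 H hH v hxv hv
  have hx5 : (5 : ℝ) ≤ x := by exact_mod_cast h7
  have hx0 : (0 : ℝ) < x := by linarith
  obtain ⟨L, hL⟩ : ∃ L, L = Real.log x := ⟨_, rfl⟩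
  obtain ⟨P, hP⟩ : ∃ P, P = pr Q H x := ⟨_, rfl⟩
  have hpr := h1 H hH
  rw [← hL] at h2 h3 hlq h4 h5 h6 hpr ⊢
  rw [← hP] at hpr ⊢
  have hL0 : 0 < L := by linarith
  have hP0 : 0 < P := lt_of_lt_of_le (by positivity) hpr
  rw [mul_div_assoc', div_le_iff₀ (by positivity)] at hpr
  -- the parameter
  obtain ⟨c, hc⟩ : ∃ c, c = β * Real.sqrt (L / (2 * P)) := ⟨_, rfl⟩
  have hc0' : 0 < c := by rw [hc]; exact mul_pos hβ0 (Real.sqrt_pos.2 (by positivity))
  have hc2 : c ^ 2 = β ^ 2 * (L / (2 * P)) := by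
    rw [hc, mul_pow, Real.sq_sqrt (by positivity)]
  have hcF : c * Real.sqrt (2 * P * L) = β * L := by
    rw [hc, mul_assoc, ← Real.sqrt_mul (by positivity)]
    have : L / (2 * P) * (2 * P * L) = L ^ 2 := by field_simp
    rw [this, Real.sqrt_sq hL0.le]
  have h56 : 56 * (D * c) ≤ 1 := by
    by_contra hcon
    push Not at hcon
    have e1 : 1 < (56 * (D * c)) ^ 2 := by nlinarith
    have e2 : (56 * (D * c)) ^ 2 = (56 * D) ^ 2 * β ^ 2 * L / (2 * P) := by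
      calc (56 * (D * c)) ^ 2 = (56 * D) ^ 2 * c ^ 2 := by ring
        _ = _ := by
          rw [hc2]
          ring
    rw [e2, lt_div_iff₀ (by positivity)] at e1
    have e3 : ((56 * D) ^ 2 * β ^ 2 + 1) * L ^ (k + 2) ≤ c0 Q k C * 2 * x := by
      have e4 := mul_le_mul_of_nonneg_left h4 (show 0 ≤ (56 * D) ^ 2 * β ^ 2 + 1 by positivity)
      refine e4.trans (le_of_eq ?_)
      field_simp
    have e4 : (56 * D) ^ 2 * β ^ 2 * L * L ^ (k + 1) ≤ 2 * P * L ^ (k + 1) := by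
      have e5 : (56 * D) ^ 2 * β ^ 2 * L * L ^ (k + 1) = (56 * D) ^ 2 * β ^ 2 * L ^ (k + 2) := by ring
      have e6 : 0 < L ^ (k + 2) := by positivity
      rw [e5]
      linarith
    have e5 := le_of_mul_le_mul_right e4 (by positivity : 0 < L ^ (k + 1))
    linarith
  have hcard : ((Ico (x + 1) (v + 1)).card : ℝ) ≤ x := by
    rw [Nat.card_Ico]
    have e1 : ((v + 1 - (x + 1) : ℕ) : ℝ) = v - x := by
      rw [Nat.cast_sub (by omega)]
      push_cast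
      ring
    rw [e1]
    have : δ₀ * x ≤ 1 * x := mul_le_mul_of_nonneg_right hδ1 hx0.le
    linarith
  have h29 : 29 * (D ^ 2 * c ^ 3) * (Ico (x + 1) (v + 1)).card ≤ L := by
    have e0 : 29 * (D ^ 2 * c ^ 3) * (Ico (x + 1) (v + 1)).card ≤ 29 * (D ^ 2 * c ^ 3) * x :=
      mul_le_mul_of_nonneg_left hcard (by positivity)
    refine e0.trans ?_
    refine le_trans ?_ h2
    by_contra hcon
    push Not at hcon
    have e1 : 1 < (29 * (D ^ 2 * c ^ 3) * x) ^ 2 := by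
      have := pow_lt_pow_left₀ hcon zero_le_one two_ne_zero
      rwa [one_pow] at this
    have e2 : (29 * (D ^ 2 * c ^ 3) * x) ^ 2 = (29 * D ^ 2) ^ 2 * β ^ 6 * L ^ 3 * x ^ 2 / (8 * P ^ 3) := by
      calc (29 * (D ^ 2 * c ^ 3) * x) ^ 2 = (29 * D ^ 2) ^ 2 * (c ^ 2) ^ 3 * x ^ 2 := by ring
        _ = _ := by
          rw [hc2]
          field_simp
          ring
    rw [e2, lt_div_iff₀ (by positivity), one_mul] at e1
    have e3 : c0 Q k C ^ 3 * x ^ 3 ≤ P ^ 3 * L ^ (3 * k + 3) := by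
      have e4 := pow_le_pow_left₀ (by positivity) hpr 3
      calc c0 Q k C ^ 3 * x ^ 3 = (c0 Q k C * x) ^ 3 := by ring
        _ ≤ _ := e4
        _ = _ := by ring
    have e4 : ((29 * D ^ 2) ^ 2 * β ^ 6 + 1) * L ^ (3 * k + 6) ≤ 8 * c0 Q k C ^ 3 * x := by
      have e5 := mul_le_mul_of_nonneg_left h5 (show 0 ≤ (29 * D ^ 2) ^ 2 * β ^ 6 + 1 by positivity)
      refine e5.trans (le_of_eq ?_)
      field_simp
    have e5 : (29 * D ^ 2) ^ 2 * β ^ 6 * L ^ 3 * x ^ 2 * L ^ (3 * k + 3) ≤ 8 * P ^ 3 * L ^ (3 * k + 3) := by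
      have e6 : (29 * D ^ 2) ^ 2 * β ^ 6 * L ^ 3 * x ^ 2 * L ^ (3 * k + 3) =
          (29 * D ^ 2) ^ 2 * β ^ 6 * L ^ (3 * k + 6) * x ^ 2 := by ring
      have e7 : 0 < L ^ (3 * k + 6) := by positivity
      have e8 : (29 * D ^ 2) ^ 2 * β ^ 6 * L ^ (3 * k + 6) ≤ 8 * c0 Q k C ^ 3 * x := by linarith
      have e9 := mul_le_mul_of_nonneg_right e8 (show 0 ≤ (x : ℝ) ^ 2 by positivity)
      rw [e6]
      refine e9.trans ?_
      have e10 : 8 * c0 Q k C ^ 3 * x * x ^ 2 = 8 * (c0 Q k C ^ 3 * x ^ 3) := by ring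
      rw [e10]
      linarith
    have e6 := le_of_mul_le_mul_right e5 (by positivity : 0 < L ^ (3 * k + 3))
    linarith
  -- the mean
  have hmean : ∑ m ∈ Ico (x + 1) (v + 1), pT (level Q) (tl m (insert 0 H)) ≤ 3 * δ₀ * P := by
    have hlx : L ≤ Real.log ((x + 1 : ℕ) : ℝ) := by
      rw [hL]
      refine Real.log_le_log hx0 ?_
      push_cast
      linarith
    have e1 := mean_g hQ (insert 0 H) (a := x + 1) (b := v + 1) (by omega) (by linarith) (by linarith)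
    have e2 := (abs_le.1 e1).2
    have e3 := pr_incr hQ H (x := v) (y := x) (by omega) hxv
    rw [← hP] at e3
    have e4 : ((v : ℝ) - x) / (x - 1) * P ≤ 2 * δ₀ * P := by
      refine mul_le_mul_of_nonneg_right ?_ hP0.le
      rw [div_le_iff₀ (by linarith)]
      nlinarith
    have e5 : (Q : ℝ) ≤ δ₀ * P := by
      have e6 : (Q + 1 : ℝ) * L ^ (k + 1) ≤ δ₀ * c0 Q k C * x := by
        have e7 := mul_le_mul_of_nonneg_left h6 (show (0 : ℝ) ≤ Q + 1 by positivity)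
        refine e7.trans (le_of_eq ?_)
        field_simp
      have e7 : (Q : ℝ) * L ^ (k + 1) ≤ δ₀ * P * L ^ (k + 1) := by
        have e8 := mul_le_mul_of_nonneg_left hpr hδ0.le
        have e9 : 0 < L ^ (k + 1) := by positivity
        linarith
      exact le_of_mul_le_mul_right e7 (by positivity)
    have e6 : ∑ m ∈ Ico (x + 1) (v + 1), pT (level Q) (tl m (insert 0 H)) =
        ∑ m ∈ Ico (x + 1) (v + 1), PP Q (insert 0 H) m := rfl
    rw [e6]
    linarith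
  have hch := chern hA (Ico (x + 1) (v + 1)) (fun m => tl m (insert 0 H)) (c := c) (D := D) (s := 1 / D)
    (M := 3 * δ₀ * P) (t := ε * Real.sqrt (2 * P * L)) hc0' hD1 h56 (by positivity) (by rw [div_mul_cancel₀ _ hD0.ne'])
    (fun j hj b' hb' => by
      rw [mem_Ico] at hj
      rw [mem_tl] at hb'
      obtain ⟨h, _, rfl⟩ := hb'
      refine (level_le (x := (x : ℝ)) (by rw [← hL]; exact hL0) hx0 ?_).trans ?_
      · have e1 : x ≤ j + h := by omega
        exact_mod_cast e1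
      · rw [← hL, div_le_iff₀ hL0, one_div, inv_pow, ← div_eq_inv_mul, le_div_iff₀ (by positivity)]
        exact h3)
    (fun j _ => ⟨j, mem_tl.2 ⟨0, mem_insert_self _ _, rfl⟩⟩)
    (fun i _ j _ hij => (tl_inj (mem_insert_self _ _) (mem_insert_self _ _) hij).1)
    (fun j _ => by
      have e1 := nb_card (insert 0 H) (Ico (x + 1) (v + 1)) j
      rw [hH.card'] at e1
      rw [hD]
      exact e1) hmean
  have hset : {ω | ε * Real.sqrt (2 * P * L) ≤ |Ic Q A H x v ω|} = {ω | ε * Real.sqrt (2 * P * L) ≤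
      |nm A (Ico (x + 1) (v + 1)) (fun m => tl m (insert 0 H)) ω -
        ∑ j ∈ Ico (x + 1) (v + 1), pT (level Q) (tl j (insert 0 H))|} := rfl
  rw [hset]
  refine hch.trans ?_
  refine mul_le_mul_of_nonneg_left ?_ zero_le_two
  rw [Real.rpow_def_of_pos hx0, ← hL]
  refine Real.exp_le_exp.2 ?_
  have e1 : c ^ 2 * (3 * δ₀ * P) = 3 / 4 * (δ₀ * (2 * β ^ 2)) * L := by
    rw [hc2]
    field_simp
    ring
  have e2 : c * (ε * Real.sqrt (2 * P * L)) = (Z + 2) * L := by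
    calc c * (ε * Real.sqrt (2 * P * L)) = ε * (c * Real.sqrt (2 * P * L)) := by ring
      _ = _ := by
        rw [hcF]
        linear_combination L * hβε
  rw [e1, e2]
  have e3 : 3 / 4 * (δ₀ * (2 * β ^ 2)) * L ≤ 3 / 4 * 1 * L :=
    mul_le_mul_of_nonneg_right (mul_le_mul_of_nonneg_left hδ2 (by norm_num)) hL0.le
  linarith

end Pool.Agent.Q106.MD
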