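import Pool.Agent.Q106.MD.UBlk

/-!
# Many sets of shifts with a given deviation, given the initial segment
-/

set_option autoImplicit false

namespace Pool.Agent.Q106.MD

open Finset MeasureTheory ProbabilityTheory Filter Pool.Agent.Q120.GM Pool.Agent.Q106.UR
open scoped Topology

/-- The length of the parts. -/
noncomputable def Vx (C' : ℝ) (x : ℕ) : ℕ := ⌊(x : ℝ) ^ C'⌋₊

/-- The number of the choices. -/
noncomputable def wx (C' : ℝ) (x : ℕ) : ℕ := Vx C' x - x - 1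

/-- The number of the blocks. -/
noncomputable def Bx (Q k : ℕ) (C C' : ℝ) (x : ℕ) : ℕ := ⌊(x : ℝ) ^ (C - C') / (Q * k)⌋₊

theorem VB_facts {Q k : ℕ} (hQ : 1 ≤ Q) (hk : 1 ≤ k) {C C' : ℝ} (hC' : 1 < C') (hC : C' < C) : ∀ᶠ x : ℕ in atTop,
    wx C' x + x + 1 ≤ Vx C' x ∧ x < Vx C' x ∧ (x : ℝ) ^ C' / 4 ≤ wx C' x ∧ (Vx C' x : ℝ) ≤ (x : ℝ) ^ C' ∧
      (x : ℝ) ^ (C - C') / (2 * (Q * k)) ≤ ((Ico 1 (Bx Q k C C' x)).card : ℝ) ∧
      ((Bx Q k C C' x : ℕ) : ℝ) * (Q * k) ≤ (x : ℝ) ^ (C - C') := by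
  have hQ0 : (0 : ℝ) < Q := by exact_mod_cast hQ
  have hk0 : (0 : ℝ) < k := by exact_mod_cast hk
  filter_upwards [(rpow_tendsto (θ := C' - 1) (by linarith)).eventually_ge_atTop 4,
    (rpow_tendsto (θ := C - C') (by linarith)).eventually_ge_atTop (4 * (Q * k)), eventually_ge_atTop 4] with x h1 h2 h3
  have hx : (4 : ℝ) ≤ x := by exact_mod_cast h3
  have hx0 : (0 : ℝ) < x := by linarith
  obtain ⟨X, hX⟩ : ∃ X, X = (x : ℝ) ^ C' := ⟨_, rfl⟩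
  obtain ⟨Y, hY⟩ : ∃ Y, Y = (x : ℝ) ^ (C - C') := ⟨_, rfl⟩
  rw [← hY] at h2
  have hY0 : 0 < Y := by rw [hY]; positivity
  have hXx : 4 * (x : ℝ) ≤ X := by
    have e1 : X = (x : ℝ) ^ (C' - 1) * x := by
      nth_rewrite 2 [← Real.rpow_one (x : ℝ)]
      rw [hX, ← Real.rpow_add hx0]
      congr 1
      ring
    rw [e1]
    exact mul_le_mul_of_nonneg_right h1 hx0.le
  have hV1 : (Vx C' x : ℝ) ≤ X := by
    unfold Vx
    rw [← hX]
    exact Nat.floor_le (by linarith)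
  have hV2 : X < Vx C' x + 1 := by
    unfold Vx
    rw [← hX]
    exact Nat.lt_floor_add_one _
  have hV3 : x + 1 ≤ Vx C' x := by
    have : ((x + 1 : ℕ) : ℝ) ≤ Vx C' x := by
      push_cast
      linarith
    exact_mod_cast this
  have hw : ((wx C' x : ℕ) : ℝ) = Vx C' x - x - 1 := by
    unfold wx
    rw [Nat.cast_sub (by omega), Nat.cast_sub (by omega)]
    push_cast
    ring
  have hB1 : ((Bx Q k C C' x : ℕ) : ℝ) ≤ Y / (Q * k) := by
    unfold Bx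
    rw [← hY]
    exact Nat.floor_le (by positivity)
  have hB2 : Y / (Q * k) < Bx Q k C C' x + 1 := by
    unfold Bx
    rw [← hY]
    exact Nat.lt_floor_add_one _
  have hY4 : 4 ≤ Y / (Q * k) := by
    rw [le_div_iff₀ (by positivity)]
    exact h2
  have hB3 : 1 ≤ Bx Q k C C' x := by
    have : (1 : ℝ) ≤ Bx Q k C C' x := by linarith
    exact_mod_cast this
  rw [← hX, ← hY]
  refine ⟨?_, by omega, ?_, hV1, ?_, ?_⟩
  · unfold wx
    omega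
  · rw [hw]
    linarith
  · rw [Nat.card_Ico, Nat.cast_sub hB3]
    push_cast
    have e1 : Y / (2 * (Q * k)) = Y / (Q * k) / 2 := by
      field_simp
    rw [e1]
    linarith
  · rw [le_div_iff₀ (by positivity)] at hB1
    exact hB1

theorem Hb_Fa {Q k : ℕ} (hQ : 1 ≤ Q) (hk : 1 ≤ k) {C C' : ℝ} (hC' : 1 < C') (hC : C' < C) : ∀ᶠ x : ℕ in atTop,
    ∀ b ∈ Ico 1 (Bx Q k C C' x), ∀ j : Fin k → ℕ, (∀ i, j i < wx C' x) → Fa Q k C x (Hb Q k (Vx C' x) b j) := by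
  filter_upwards [VB_facts hQ hk hC' hC, eventually_ge_atTop 1] with x h1 h2 b hb j hj
  obtain ⟨g1, g2, g3, g4, g5, g6⟩ := h1
  have hx0 : (0 : ℝ) < x := by exact_mod_cast h2
  rw [mem_Ico] at hb
  refine ⟨Hb_card hQ (fun i => (hj i).trans_le (by omega)), fun h hh => ?_, fun h hh => (Hb_range hQ g1 hj hh).2.2,
    fun h hh => ?_⟩
  · obtain ⟨r1, _, _⟩ := Hb_range hQ g1 hj hh
    have h3 : 1 * (1 * (1 * Vx C' x)) ≤ Q * (b * (k * Vx C' x)) :=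
      Nat.mul_le_mul hQ (Nat.mul_le_mul hb.1 (Nat.mul_le_mul hk le_rfl))
    omega
  · obtain ⟨_, r2, _⟩ := Hb_range hQ g1 hj hh
    have h3 := r2 0 (Nat.zero_le x)
    have h4 : h ≤ Q * ((b + 1) * (k * Vx C' x)) := by omega
    have h5 : (h : ℝ) ≤ Q * ((b + 1) * (k * Vx C' x)) := by exact_mod_cast h4
    have h6 : ((b : ℝ) + 1) ≤ Bx Q k C C' x := by exact_mod_cast hb.2
    calc (h : ℝ) ≤ Q * ((b + 1) * (k * Vx C' x)) := h5
      _ = ((b + 1) * (Q * k)) * Vx C' x := by ring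
      _ ≤ ((Bx Q k C C' x : ℕ) * (Q * k)) * Vx C' x :=
          mul_le_mul_of_nonneg_right (mul_le_mul_of_nonneg_right h6 (by positivity)) (Nat.cast_nonneg _)
      _ ≤ (x : ℝ) ^ (C - C') * (x : ℝ) ^ C' := mul_le_mul g6 g4 (Nat.cast_nonneg _) (by positivity)
      _ = (x : ℝ) ^ C := by
        rw [← Real.rpow_add hx0]
        congr 1
        ring

variable {Ω : Type*} [MeasurableSpace Ω] {μ : Measure Ω} [IsProbabilityMeasure μ] {A : Ω → Set ℕ}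

/-- The number of the sets of shifts in the block which have the deviation. -/
noncomputable def nb' (Q k : ℕ) (C' d ε : ℝ) (A : Ω → Set ℕ) (t : Finset ℕ) (x b : ℕ) (ω : Ω) : ℝ :=
  num (GG k (wx C' x)) (fun j => Xe Q A t x d ε (Hb Q k (Vx C' x) b j)) ω

/-- Success in a block. -/
def Suc (Q k : ℕ) (C' d ε e : ℝ) (A : Ω → Set ℕ) (t : Finset ℕ) (x b : ℕ) : Set Ω :=
  {ω | ((GG k (wx C' x)).card : ℝ) * (x : ℝ) ^ (-(d ^ 2 + e)) / 2 ≤ nb' Q k C' d ε A t x b ω}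

omit [MeasurableSpace Ω] in
theorem Suc_F {Q k : ℕ} (hQ : 1 ≤ Q) {C' : ℝ} {x : ℕ} (hw : wx C' x + x + 1 ≤ Vx C' x) {t : Finset ℕ} (ht : t ⊆ Icc 1 x)
    (d ε e : ℝ) (b : ℕ) : MeasurableSet[F A (Sb Q k (Vx C' x) b)] (Suc Q k C' d ε e A t x b) := by
  let _ : MeasurableSpace Ω := F A (Sb Q k (Vx C' x) b)
  have h1 : Measurable[F A (Sb Q k (Vx C' x) b)] (nb' Q k C' d ε A t x b) := by
    unfold nb' num
    exact Finset.measurable_fun_sum _ (fun j hj => measurable_const.indicator (Xe_F hQ hw (mem_GG.1 hj) ht d ε))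
  exact measurableSet_le measurable_const h1

/-- **The probability of success.** -/
theorem Suc_prob {Q k : ℕ} (hA : IsModel μ (level Q) A) (hQ : 1 ≤ Q) (hk : 1 ≤ k) {C C' η : ℝ} (hC' : 1 < C') (hC : C' < C)
    (hη : 0 ≤ η) {d ε e : ℝ} (hε : 0 < ε) (he : 0 < e) (hε2 : 4 * |d| * ε ≤ e / 2)
    (hηη : 4 * d ^ 2 * η * (C + 1) ^ k ≤ e / 8) (hd : d ^ 2 < k * C') :
    ∀ᶠ x : ℕ in atTop, ∀ t, Ty Q η x t → ∀ b ∈ Ico 1 (Bx Q k C C' x),
      (x : ℝ) ^ (-(3 * e)) / 8 ≤ μ.real (Suc Q k C' d ε e A t x b) := by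
  have hC0 : 0 < C := by linarith
  filter_upwards [VB_facts hQ hk hC' hC, Hb_Fa hQ hk hC' hC,
    cond_near (μ := μ) (A := A) (k := k) (η := η) hA hQ hk hC0 d (ε := ε) (η' := e) hε he (by linarith),
    pair_near (μ := μ) (A := A) (k := k) (η := η) hA hQ hk hC0 hη (d := d) (ε := ε) (η' := e) he hε2 hηη,
    (rpow_tendsto (θ := k * C' - d ^ 2) (by linarith)).eventually_ge_atTop ((4 : ℝ) ^ k), eventually_ge_atTop 1]
    with x h1 h2 h3 h4 h5 h6 t ht b hb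
  obtain ⟨g1, g2, g3, g4, g5, g6⟩ := h1
  have hx0 : (0 : ℝ) < x := by exact_mod_cast h6
  obtain ⟨G, hG⟩ : ∃ G, G = GG k (wx C' x) := ⟨_, rfl⟩
  have hGc : (G.card : ℝ) = (wx C' x : ℝ) ^ k := by
    rw [hG, card_GG]
    push_cast
    rfl
  have hw0 : 0 < (wx C' x : ℝ) := lt_of_lt_of_le (by positivity) g3
  have hGne : G.Nonempty := by
    rw [← card_pos]
    have : (0 : ℝ) < G.card := by rw [hGc]; positivity
    exact_mod_cast this
  have hFa : ∀ j ∈ G, Fa Q k C x (Hb Q k (Vx C' x) b j) := fun j hj => h2 b hb j (mem_GG.1 (by rw [← hG]; exact hj))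
  have hpz := pz (μ := μ) G (fun j => Xe Q A t x d ε (Hb Q k (Vx C' x) b j)) (fun j hj =>
      F_le hA _ _ (Xe_F hQ g1 (mem_GG.1 (by rw [← hG]; exact hj)) ht.sub d ε)) (a := (x : ℝ) ^ (-(d ^ 2 + e)))
    (a' := (x : ℝ) ^ (-(d ^ 2 - e))) (b' := (x : ℝ) ^ (-(2 * d ^ 2 - e))) (by positivity)
    (fun j hj => (h3 t _ ht (hFa j hj)).1) (fun j hj => (h3 t _ ht (hFa j hj)).2)
    (fun i hi j hj hij => h4 t ht _ _ (hFa i hi) (hFa j hj) (fun h => hij (Hb_inj hQ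
      (fun i' => (mem_GG.1 (by rw [← hG]; exact hi) i').trans_le (by omega))
      (fun i' => (mem_GG.1 (by rw [← hG]; exact hj) i').trans_le (by omega)) h))) (by positivity) hGne
  have hset : {ω | (G.card : ℝ) * (x : ℝ) ^ (-(d ^ 2 + e)) / 2 ≤ num G (fun j => Xe Q A t x d ε (Hb Q k (Vx C' x) b j)) ω} =
      Suc Q k C' d ε e A t x b := by
    unfold Suc nb'
    rw [← hG]
  rw [hset] at hpz
  refine le_trans ?_ hpz
  obtain ⟨N, hN⟩ : ∃ N : ℝ, N = (G.card : ℝ) := ⟨_, rfl⟩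
  rw [← hN]
  have hN0 : 0 < N := by rw [hN, hGc]; positivity
  have hNd : (x : ℝ) ^ (d ^ 2) ≤ N := by
    rw [hN, hGc]
    refine le_trans ?_ (pow_le_pow_left₀ (by positivity) g3 k)
    rw [div_pow, le_div_iff₀ (by positivity), ← Real.rpow_natCast ((x : ℝ) ^ C') k, ← Real.rpow_mul hx0.le]
    calc (x : ℝ) ^ (d ^ 2) * 4 ^ k ≤ (x : ℝ) ^ (d ^ 2) * (x : ℝ) ^ (k * C' - d ^ 2) :=
          mul_le_mul_of_nonneg_left h5 (by positivity)
      _ = _ := by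
        rw [← Real.rpow_add hx0]
        congr 1
        ring
  obtain ⟨u, hu⟩ : ∃ u, u = (x : ℝ) ^ (-(d ^ 2)) := ⟨_, rfl⟩
  obtain ⟨v, hv⟩ : ∃ v, v = (x : ℝ) ^ e := ⟨_, rfl⟩
  have hu0 : 0 < u := by rw [hu]; positivity
  have hv0 : 0 < v := by rw [hv]; positivity
  have e1 : (x : ℝ) ^ (-(d ^ 2 + e)) = u / v := by
    rw [hu, hv, ← Real.rpow_sub hx0]
    congr 1
    ring
  have e2 : (x : ℝ) ^ (-(d ^ 2 - e)) = u * v := by
    rw [hu, hv, ← Real.rpow_add hx0]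
    congr 1
    ring
  have e3 : (x : ℝ) ^ (-(2 * d ^ 2 - e)) = u ^ 2 * v := by
    have f1 : u ^ 2 * v = u * u * v := by ring
    rw [f1, hu, hv, ← Real.rpow_add hx0, ← Real.rpow_add hx0]
    congr 1
    ring
  have e4 : (x : ℝ) ^ (-(3 * e)) = 1 / v ^ 3 := by
    rw [hv, ← Real.rpow_natCast, ← Real.rpow_mul hx0.le, one_div, ← Real.rpow_neg hx0.le]
    congr 1
    push_cast
    ring
  have e5 : 1 ≤ N * u := by
    have f1 : (x : ℝ) ^ (d ^ 2) * u = 1 := by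
      rw [hu, ← Real.rpow_add hx0, add_neg_cancel, Real.rpow_zero]
    have f2 := mul_le_mul_of_nonneg_right hNd hu0.le
    linarith
  rw [e1, e2, e3, e4, le_div_iff₀ (by positivity)]
  have e6 : N * (u * v) + N ^ 2 * (u ^ 2 * v) ≤ 2 * (N ^ 2 * (u ^ 2 * v)) := by
    have f1 := mul_le_mul_of_nonneg_right e5 (show 0 ≤ N * u * v by positivity)
    linarith
  have e7 : 1 / v ^ 3 / 8 * (4 * (N * (u * v) + N ^ 2 * (u ^ 2 * v))) ≤ 1 / v ^ 3 / 8 * (4 * (2 * (N ^ 2 * (u ^ 2 * v)))) :=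
    mul_le_mul_of_nonneg_left (by linarith) (by positivity)
  refine e7.trans (le_of_eq ?_)
  field_simp
  ring

/-- **Failure in all blocks is improbable.** -/
theorem fail_prob {Q k : ℕ} (hA : IsModel μ (level Q) A) (hQ : 1 ≤ Q) (hk : 1 ≤ k) {C C' η : ℝ} (hC' : 1 < C') (hC : C' < C)
    (hη : 0 ≤ η) {d ε e : ℝ} (hε : 0 < ε) (he : 0 < e) (hε2 : 4 * |d| * ε ≤ e / 2)
    (hηη : 4 * d ^ 2 * η * (C + 1) ^ k ≤ e / 8) (hd : d ^ 2 < k * C') (he2 : 4 * e ≤ C - C') :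
    ∀ᶠ x : ℕ in atTop, ∀ t, Ty Q η x t →
      μ.real (⋃ b ∈ Ico 1 (Bx Q k C C' x), Suc Q k C' d ε e A t x b)ᶜ ≤ 1 / (x : ℝ) ^ 2 := by
  have hQ0 : (0 : ℝ) < Q := by exact_mod_cast hQ
  have hk0 : (0 : ℝ) < k := by exact_mod_cast hk
  filter_upwards [Suc_prob (μ := μ) (A := A) hA hQ hk hC' hC hη hε he hε2 hηη hd, VB_facts hQ hk hC' hC,
    ev_power (32 * (Q * k)) 1 he, eventually_ge_atTop 1] with x h1 h2 h3 h4 t ht
  obtain ⟨g1, _, _, _, g5, _⟩ := h2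
  have hx0 : (0 : ℝ) < x := by exact_mod_cast h4
  have hul := union_lb hA (Ico 1 (Bx Q k C C' x)) (fun b => Sb Q k (Vx C' x) b) (fun i _ j _ hij => Sb_disj hij)
    (fun b => Suc Q k C' d ε e A t x b) (fun b _ => Suc_F hQ g1 ht.sub d ε e b)
  have hms : MeasurableSet (⋃ b ∈ Ico 1 (Bx Q k C C' x), Suc Q k C' d ε e A t x b) :=
    Finset.measurableSet_biUnion _ (fun b _ => F_le hA _ _ (Suc_F hQ g1 ht.sub d ε e b))
  rw [probReal_compl_eq_one_sub hms]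
  have h5 : 2 * Real.log x ≤ ∑ b ∈ Ico 1 (Bx Q k C C' x), μ.real (Suc Q k C' d ε e A t x b) := by
    have e1 := sum_le_sum (h1 t ht)
    rw [sum_const, nsmul_eq_mul] at e1
    refine le_trans ?_ e1
    refine le_trans ?_ (mul_le_mul_of_nonneg_right g5 (by positivity))
    have e2 : (x : ℝ) ^ (C - C') / (2 * (Q * k)) * ((x : ℝ) ^ (-(3 * e)) / 8) = (x : ℝ) ^ (C - C' - 3 * e) / (16 * (Q * k)) := by
      rw [show C - C' - 3 * e = (C - C') + -(3 * e) by ring, Real.rpow_add hx0]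
      field_simp
      ring
    rw [e2, le_div_iff₀ (by positivity)]
    have e3 : (x : ℝ) ^ e ≤ (x : ℝ) ^ (C - C' - 3 * e) :=
      Real.rpow_le_rpow_of_exponent_le (by exact_mod_cast h4) (by linarith)
    rw [pow_one] at h3
    linarith
  have h6 : Real.exp (-∑ b ∈ Ico 1 (Bx Q k C C' x), μ.real (Suc Q k C' d ε e A t x b)) ≤ 1 / (x : ℝ) ^ 2 := by
    refine (Real.exp_le_exp.2 (neg_le_neg h5)).trans (le_of_eq ?_)
    rw [Real.exp_neg, one_div]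
    congr 1
    rw [← Real.exp_log (pow_pos hx0 2), Real.log_pow]
    norm_num
  linarith

/-- **Almost surely there are many sets of shifts in some block.** -/
theorem low_ae {Q k : ℕ} (hA : IsModel μ (level Q) A) (hQ : 1 ≤ Q) (hk : 1 ≤ k) {C C' η : ℝ} (hC' : 1 < C') (hC : C' < C)
    (hη : 0 < η) {d ε e : ℝ} (hε : 0 < ε) (he : 0 < e) (hε2 : 4 * |d| * ε ≤ e / 2)
    (hηη : 4 * d ^ 2 * η * (C + 1) ^ k ≤ e / 8) (hd : d ^ 2 < k * C') (he2 : 4 * e ≤ C - C') :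
    ∀ᵐ ω ∂μ, ∀ᶠ x : ℕ in atTop, Ty Q η x (trc A (Icc 1 x) ω) ∧
      ∃ b ∈ Ico 1 (Bx Q k C C' x), ω ∈ Suc Q k C' d ε e A (trc A (Icc 1 x) ω) x b := by
  classical
  obtain ⟨E, hE⟩ : ∃ E : ℕ → Set Ω, E = fun x => {ω | ∃ t ∈ (Icc 1 x).powerset.filter (Ty Q η x),
    (∀ n ∈ Icc 1 x, n ∈ A ω ↔ n ∈ t) ∧ ω ∈ (⋃ b ∈ Ico 1 (Bx Q k C C' x), Suc Q k C' d ε e A t x b)ᶜ} := ⟨_, rfl⟩
  have hb : ∀ᶠ x : ℕ in atTop, μ.real (E x) ≤ 1 / (x : ℝ) ^ 2 := by
    filter_upwards [fail_prob (μ := μ) (A := A) hA hQ hk hC' hC hη.le hε he hε2 hηη hd he2, VB_facts hQ hk hC' hC] with x h1 h2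
    rw [hE]
    refine cond hA (Icc 1 x) {n | x < n} ?_ _ (fun t ht => mem_powerset.1 (mem_filter.1 ht).1) _ (fun t ht => ?_)
      (fun t ht => h1 t (mem_filter.1 ht).2) (by positivity)
    · rw [Set.disjoint_left]
      intro n hn hn'
      have h3 := mem_Icc.1 (Finset.mem_coe.1 hn)
      have h4 : x < n := hn'
      omega
    · have h3 := mem_powerset.1 (mem_filter.1 ht).1
      let _ : MeasurableSpace Ω := F A {n | x < n}
      refine MeasurableSet.compl (Finset.measurableSet_biUnion _ (fun b hb => ?_))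
      rw [mem_Ico] at hb
      refine F_mono (fun n hn => ?_) _ (Suc_F hQ h2.1 h3 d ε e b)
      have h4 : 1 * (1 * (1 * Vx C' x)) ≤ Q * (b * (k * Vx C' x)) :=
        Nat.mul_le_mul hQ (Nat.mul_le_mul hb.1 (Nat.mul_le_mul hk le_rfl))
      have h5 := hn.1
      have h6 := h2.2.1
      show x < n
      omega
  filter_upwards [bc summable_sq hb, ae_typ hA hQ hη] with ω h1 h2
  filter_upwards [h1, h2] with x h3 h4
  refine ⟨h4, ?_⟩
  by_contra hcon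
  refine h3 ?_
  rw [hE]
  refine ⟨trc A (Icc 1 x) ω, ?_, ?_, ?_⟩
  · rw [mem_filter, mem_powerset]
    exact ⟨h4.sub, h4⟩
  · intro n hn
    rw [mem_trc]
    exact ⟨fun h => ⟨hn, h⟩, fun h => h.2⟩
  · intro h5
    rw [Set.mem_iUnion₂] at h5
    obtain ⟨b, hb, h6⟩ := h5
    exact hcon ⟨b, hb, h6⟩

end Pool.Agent.Q106.MD
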