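import Pool.Agent.Q106.MD.ShUp

/-!
# Tuples with large shifts: the mean values
-/

set_option autoImplicit false

namespace Pool.Agent.Q106.MD

open Finset MeasureTheory ProbabilityTheory Filter Pool.Agent.Q120.GM Pool.Agent.Q106.UR
open scoped Topology

/-- The product of the `1 / log (m + h)`. -/
noncomputable def gp (S : Finset ℕ) (m : ℕ) : ℝ := ∏ h ∈ S, (Real.log ((m : ℝ) + h))⁻¹

/-- The sum of the products. -/
noncomputable def lg (S : Finset ℕ) (a b : ℕ) : ℝ := ∑ m ∈ Ico a b, gp S m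

theorem log_shift {m m' h : ℕ} (hm : 2 ≤ m) (h' : m ≤ m') :
    0 < Real.log ((m : ℝ) + h) ∧ Real.log ((m : ℝ) + h) ≤ Real.log ((m' : ℝ) + h) := by
  have h1 : (2 : ℝ) ≤ m := by exact_mod_cast hm
  have h2 : (m : ℝ) ≤ m' := by exact_mod_cast h'
  have h3 : (0 : ℝ) ≤ h := Nat.cast_nonneg h
  exact ⟨Real.log_pos (by linarith), Real.log_le_log (by linarith) (by linarith)⟩

theorem gp_pos {S : Finset ℕ} {m : ℕ} (hm : 2 ≤ m) : 0 < gp S m :=
  prod_pos (fun h _ => inv_pos.2 (log_shift hm le_rfl).1)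

theorem gp_anti {S : Finset ℕ} {m m' : ℕ} (hm : 2 ≤ m) (h : m ≤ m') : gp S m' ≤ gp S m := by
  refine prod_le_prod (fun b _ => ?_) (fun b _ => ?_)
  · exact inv_nonneg.2 (log_shift (hm.trans h) le_rfl).1.le
  · exact inv_anti₀ (log_shift hm h).1 (log_shift hm h).2

theorem gp_le {S : Finset ℕ} {m : ℕ} {t : ℝ} (ht : 0 < t) (h : ∀ b ∈ S, t ≤ Real.log ((m : ℝ) + b)) :
    gp S m ≤ t⁻¹ ^ S.card := by
  unfold gp
  refine (prod_le_prod (fun b hb => ?_) (fun b hb => inv_anti₀ ht (h b hb))).trans (le_of_eq (by rw [prod_const]))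
  exact inv_nonneg.2 (ht.le.trans (h b hb))

theorem gp_ge {S : Finset ℕ} {m : ℕ} (hm : 2 ≤ m) {t : ℝ} (ht : 0 < t) (h : ∀ b ∈ S, Real.log ((m : ℝ) + b) ≤ t) :
    t⁻¹ ^ S.card ≤ gp S m := by
  unfold gp
  rw [← prod_const]
  refine prod_le_prod (fun b _ => inv_nonneg.2 ht.le) (fun b hb => ?_)
  exact inv_anti₀ (log_shift hm le_rfl).1 (h b hb)

theorem lg_nonneg {S : Finset ℕ} {a b : ℕ} (ha : 2 ≤ a) : 0 ≤ lg S a b :=
  sum_nonneg (fun m hm => (gp_pos (ha.trans (mem_Ico.1 hm).1)).le)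

theorem lg_le {S : Finset ℕ} {a b : ℕ} (ha : 2 ≤ a) (hab : a ≤ b) : lg S a b ≤ ((b : ℝ) - a) * gp S a := by
  unfold lg
  refine (sum_le_sum (fun m hm => gp_anti ha (mem_Ico.1 hm).1)).trans (le_of_eq ?_)
  rw [sum_const, Nat.card_Ico, nsmul_eq_mul, Nat.cast_sub hab]

theorem lg_ge {S : Finset ℕ} {a b : ℕ} (ha : 2 ≤ a) (hab : a ≤ b) : ((b : ℝ) - a) * gp S b ≤ lg S a b := by
  unfold lg
  refine le_trans (le_of_eq ?_) (sum_le_sum (fun m hm => gp_anti (m := m) (m' := b) (ha.trans (mem_Ico.1 hm).1)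
    (mem_Ico.1 hm).2.le))
  rw [sum_const, Nat.card_Ico, nsmul_eq_mul, Nat.cast_sub hab]

theorem lg_add {S : Finset ℕ} {a b c : ℕ} (hab : a ≤ b) (hbc : b ≤ c) : lg S a b + lg S b c = lg S a c :=
  sum_Ico_consecutive _ hab hbc

theorem PP_exact {Q : ℕ} (S : Finset ℕ) {m : ℕ} (hm1 : 1 ≤ Real.log m) (hq : qq Q ≤ Real.log m) :
    PP Q S m = (if Good Q S m then 1 else 0) * (qq Q ^ S.card * gp S m) := by
  have hm0 := pos_of_log hm1
  by_cases hg : Good Q S m
  · rw [if_pos hg, one_mul]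
    have h1 : ∀ h ∈ S, level Q (m + h) = qq Q * (Real.log ((m : ℝ) + h))⁻¹ := by
      intro h hh
      have h2 : (0 : ℝ) ≤ h := Nat.cast_nonneg h
      have h3 : Real.log m ≤ Real.log ((m : ℝ) + h) := Real.log_le_log (by linarith) (by linarith)
      unfold level
      rw [if_pos (hg h hh)]
      push_cast
      rw [min_eq_right]
      · rfl
      · rw [div_le_one (by linarith)]
        unfold qq at hq
        linarith
    rw [PP_eq, prod_congr rfl h1, prod_mul_distrib, prod_const]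
    rfl
  · rw [if_neg hg, zero_mul]
    unfold Good at hg
    push Not at hg
    obtain ⟨h, hh, hc⟩ := hg
    rw [PP_eq]
    refine prod_eq_zero hh ?_
    unfold level
    rw [if_neg hc]

theorem two_le_of_log {a : ℕ} (h : 1 ≤ Real.log a) : 2 ≤ a := by
  by_contra hcon
  have : a = 0 ∨ a = 1 := by omega
  rcases this with h0 | h0
  · rw [h0] at h
    norm_num at h
  · rw [h0] at h
    norm_num at h

/-- **The mean number of tuples.** -/
theorem mean_g {Q : ℕ} (hQ : 1 ≤ Q) (S : Finset ℕ) {a b : ℕ} (hab : a ≤ b) (ha1 : 1 ≤ Real.log a)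
    (hq : qq Q ≤ Real.log a) : |∑ m ∈ Ico a b, PP Q S m - sing Q S * lg S a b| ≤ Q := by
  have ha0 := pos_of_log ha1
  have ha2 := two_le_of_log ha1
  have hq0 := qq_pos hQ
  have hQ0 : (0 : ℝ) < Q := by exact_mod_cast hQ
  have hlog : ∀ m, a ≤ m → Real.log a ≤ Real.log m := by
    intro m hm
    have : (a : ℝ) ≤ m := by exact_mod_cast hm
    exact Real.log_le_log (by linarith) this
  have hccQ : (cc Q S : ℝ) ≤ Q := by
    have : cc Q S ≤ Q := by
      unfold cc
      exact (card_filter_le _ _).trans (by rw [card_range])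
    exact_mod_cast this
  have h3 := abel (f := fun m => qq Q ^ S.card * gp S m)
    (w := fun m => (if Good Q S m then (1 : ℝ) else 0) - (cc Q S : ℝ) / Q) (a := a) (B := Q) ?_ ?_ ?_ b hab
  · have h4 : qq Q ^ S.card * gp S a ≤ 1 := by
      have e1 := gp_le (S := S) (m := a) (t := Real.log a) (by linarith) (fun b _ => by
        have : (0 : ℝ) ≤ b := Nat.cast_nonneg b
        exact Real.log_le_log (by linarith) (by linarith))
      have e2 := mul_le_mul_of_nonneg_left e1 (pow_nonneg hq0.le S.card)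
      refine e2.trans ?_
      rw [← mul_pow]
      refine pow_le_one₀ (mul_nonneg hq0.le (inv_nonneg.2 (by linarith))) ?_
      rw [← div_eq_mul_inv, div_le_one (by linarith)]
      exact hq
    have h5 := mul_le_mul_of_nonneg_left h4 hQ0.le
    refine le_trans (le_of_eq ?_) (h3.trans (h5.trans (le_of_eq (mul_one _))))
    congr 1
    unfold lg
    rw [sing_eq, mul_sum, ← sum_sub_distrib]
    refine sum_congr rfl (fun m hm => ?_)
    have e1 := hlog m (mem_Ico.1 hm).1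
    rw [PP_exact S (by linarith) (by linarith)]
    ring
  · intro m hm
    exact mul_le_mul_of_nonneg_left (gp_anti (ha2.trans hm) (Nat.le_succ m)) (pow_nonneg hq0.le _)
  · intro m hm
    exact mul_nonneg (pow_nonneg hq0.le _) (gp_pos (ha2.trans hm)).le
  · intro b' hb'
    rw [sum_sub_distrib, sum_const, Nat.card_Ico, nsmul_eq_mul, Nat.cast_sub hb', ← sum_filter, sum_const, nsmul_eq_mul,
      mul_one]
    have h4 := count_real hQ S a (b' - a)
    rw [show a + (b' - a) = b' by omega, Nat.cast_sub hb'] at h4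
    have h5 : 0 ≤ (cc Q S : ℝ) / Q := by positivity
    have h6 : (Q : ℝ) * ((cc Q S : ℝ) / Q) = cc Q S := by field_simp
    rw [abs_le]
    constructor
    · have : ((b' : ℝ) - a - Q) * ((cc Q S : ℝ) / Q) = ((b' : ℝ) - a) * ((cc Q S : ℝ) / Q) - Q * ((cc Q S : ℝ) / Q) := by
        ring
      linarith [h4.1]
    · have : ((b' : ℝ) - a + Q) * ((cc Q S : ℝ) / Q) = ((b' : ℝ) - a) * ((cc Q S : ℝ) / Q) + Q * ((cc Q S : ℝ) / Q) := by
        ring
      linarith [h4.2]

theorem qq_one {Q : ℕ} (hQ : 1 ≤ Q) : 1 ≤ qq Q := by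
  unfold qq
  have h1 : 0 < Nat.totient Q := Nat.totient_pos.2 hQ
  have h2 : (0 : ℝ) < Nat.totient Q := by exact_mod_cast h1
  rw [le_div_iff₀ h2, one_mul]
  exact_mod_cast Nat.totient_le Q

theorem sing_le {Q : ℕ} (hQ : 1 ≤ Q) (S : Finset ℕ) : sing Q S ≤ qq Q ^ S.card := by
  have hQ0 : (0 : ℝ) < Q := by exact_mod_cast hQ
  have hccQ : (cc Q S : ℝ) / Q ≤ 1 := by
    rw [div_le_one hQ0]
    have : cc Q S ≤ Q := by
      unfold cc
      exact (card_filter_le _ _).trans (by rw [card_range])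
    exact_mod_cast this
  rw [sing_eq]
  exact mul_le_of_le_one_left (pow_nonneg (qq_pos hQ).le _) hccQ

/-- The sets of `k` shifts up to `B x^C`. -/
structure Hk (Q k : ℕ) (B C : ℝ) (x : ℕ) (H : Finset ℕ) : Prop where
  card : H.card = k
  zero : 0 ∉ H
  le : ∀ h ∈ H, (h : ℝ) ≤ B * (x : ℝ) ^ C
  sing : 0 < sing Q (insert 0 H)

theorem Hk.card' {Q k : ℕ} {B C : ℝ} {x : ℕ} {H : Finset ℕ} (h : Hk Q k B C x H) : (insert 0 H).card = k + 1 := by
  rw [card_insert_of_notMem h.zero, h.card]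

/-- The predicted number. -/
noncomputable def pr (Q : ℕ) (H : Finset ℕ) (x : ℕ) : ℝ := sing Q (insert 0 H) * lg (insert 0 H) 2 (x + 1)

/-- Bounds for the logarithms. -/
theorem log_up {B C : ℝ} (hC : 0 < C) : ∀ᶠ x : ℕ in atTop, ∀ m h : ℕ, m ≤ 2 * x → (h : ℝ) ≤ B * (x : ℝ) ^ C →
    Real.log ((m : ℝ) + h) ≤ (C + 1) * Real.log x := by
  have h1 : Tendsto (fun x : ℕ => (x : ℝ) ^ C) atTop atTop := rpow_tendsto hC
  filter_upwards [h1.eventually_ge_atTop 4, eventually_ge_atTop 1, (tendsto_natCast_atTop_atTop (R := ℝ)).eventually_ge_atTop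
    (2 * |B|), log_tendsto.eventually_ge_atTop 1] with x h2 h3 h4 h5 m h hm hh
  have hx : (1 : ℝ) ≤ x := by exact_mod_cast h3
  have hm' : (m : ℝ) ≤ 2 * x := by exact_mod_cast hm
  have h6 : (m : ℝ) + h ≤ (x : ℝ) ^ (C + 1) := by
    rw [Real.rpow_add (by linarith), Real.rpow_one]
    have e1 : B * (x : ℝ) ^ C ≤ |B| * (x : ℝ) ^ C := mul_le_mul_of_nonneg_right (le_abs_self B) (by positivity)
    have e2 : 2 * (|B| * (x : ℝ) ^ C) ≤ x * (x : ℝ) ^ C := by
      have := mul_le_mul_of_nonneg_right h4 (show 0 ≤ (x : ℝ) ^ C by positivity)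
      linarith
    have e3 : 4 * (x : ℝ) ≤ (x : ℝ) ^ C * x := mul_le_mul_of_nonneg_right h2 (by linarith)
    linarith
  rcases Nat.eq_zero_or_pos (m + h) with h7 | h7
  · have : (m : ℝ) + h = 0 := by exact_mod_cast h7
    rw [this, Real.log_zero]
    have : 0 ≤ Real.log x := by linarith
    positivity
  · have h8 : (0 : ℝ) < (m : ℝ) + h := by exact_mod_cast h7
    refine (Real.log_le_log h8 h6).trans (le_of_eq ?_)
    rw [Real.log_rpow (by linarith)]

/-- The constant in the lower bound. -/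
noncomputable def c0 (Q k : ℕ) (C : ℝ) : ℝ := 1 / (2 * Q * (C + 1) ^ (k + 1))

theorem c0_pos {Q k : ℕ} (hQ : 1 ≤ Q) {C : ℝ} (hC : 0 < C) : 0 < c0 Q k C := by
  have hQ0 : (0 : ℝ) < Q := by exact_mod_cast hQ
  unfold c0
  positivity

/-- **Lower bound for the prediction.** -/
theorem pr_ge {Q k : ℕ} (hQ : 1 ≤ Q) {B C : ℝ} (hB : 0 ≤ B) (hC : 0 < C) : ∀ᶠ x : ℕ in atTop, ∀ H, Hk Q k B C x H →
    c0 Q k C * ((x : ℝ) / Real.log x ^ (k + 1)) ≤ pr Q H x := by
  have hQ0 : (0 : ℝ) < Q := by exact_mod_cast hQ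
  filter_upwards [log_up (B := B) hC, log_tendsto.eventually_ge_atTop 1, eventually_ge_atTop 3] with x h1 h2 h3 H hH
  have hx : (3 : ℝ) ≤ x := by exact_mod_cast h3
  have hl : 0 < (C + 1) * Real.log x := by positivity
  have h4 : ∀ b ∈ insert 0 H, Real.log (((x + 1 : ℕ) : ℝ) + b) ≤ (C + 1) * Real.log x := by
    intro b hb
    rw [mem_insert] at hb
    rcases hb with rfl | hb
    · exact h1 (x + 1) 0 (by omega) (by rw [Nat.cast_zero]; positivity)
    · exact h1 (x + 1) b (by omega) (hH.le b hb)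
  have h5 := gp_ge (S := insert 0 H) (m := x + 1) (by omega) hl h4
  rw [hH.card'] at h5
  have h6 := lg_ge (S := insert 0 H) (a := 2) (b := x + 1) le_rfl (by omega)
  have h7 := sing_ge hQ hH.sing
  have h8 : 0 < gp (insert 0 H) (x + 1) := gp_pos (by omega)
  have h9 : (x : ℝ) / 2 * ((C + 1) * Real.log x)⁻¹ ^ (k + 1) ≤ lg (insert 0 H) 2 (x + 1) := by
    refine le_trans ?_ h6
    push_cast
    refine mul_le_mul (by linarith) h5 (by positivity) (by linarith)
  unfold pr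
  refine le_trans (le_of_eq ?_) (mul_le_mul h7 h9 (by positivity) hH.sing.le)
  unfold c0
  rw [inv_pow, mul_pow]
  field_simp

/-- The growth of the prediction. -/
theorem pr_add {Q : ℕ} (H : Finset ℕ) {x y : ℕ} (hy : 1 ≤ y) (hyx : y ≤ x) :
    pr Q H x = pr Q H y + sing Q (insert 0 H) * lg (insert 0 H) (y + 1) (x + 1) := by
  unfold pr
  rw [← mul_add, lg_add (by omega) (by omega)]

theorem pr_incr {Q : ℕ} (hQ : 1 ≤ Q) (H : Finset ℕ) {x y : ℕ} (hy : 2 ≤ y) (hyx : y ≤ x) :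
    sing Q (insert 0 H) * lg (insert 0 H) (y + 1) (x + 1) ≤ (((x : ℝ) - y) / (y - 1)) * pr Q H y := by
  have hy' : (2 : ℝ) ≤ y := by exact_mod_cast hy
  have hyx' : (y : ℝ) ≤ x := by exact_mod_cast hyx
  have h1 := lg_le (S := insert 0 H) (a := y + 1) (b := x + 1) (by omega) (by omega)
  have h2 := lg_ge (S := insert 0 H) (a := 2) (b := y + 1) le_rfl (by omega)
  push_cast at h1 h2
  have hs : 0 ≤ sing Q (insert 0 H) := by
    unfold sing
    positivity
  unfold pr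
  rw [div_mul_eq_mul_div, le_div_iff₀ (by linarith)]
  have h3 : lg (insert 0 H) (y + 1) (x + 1) * ((y : ℝ) - 1) ≤ ((x : ℝ) - y) * lg (insert 0 H) 2 (y + 1) := by
    have e1 := mul_le_mul_of_nonneg_right h1 (show 0 ≤ (y : ℝ) - 1 by linarith)
    have e2 := mul_le_mul_of_nonneg_left h2 (show 0 ≤ (x : ℝ) - y by linarith)
    linarith
  have h4 := mul_le_mul_of_nonneg_left h3 hs
  linarith

theorem pr_nonneg {Q : ℕ} (H : Finset ℕ) (x : ℕ) : 0 ≤ pr Q H x := by
  have hs : 0 ≤ sing Q (insert 0 H) := by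
    unfold sing
    positivity
  exact mul_nonneg hs (lg_nonneg le_rfl)

/-- Upper bound for the prediction. -/
theorem pr_le {Q : ℕ} (hQ : 1 ≤ Q) (H : Finset ℕ) {x : ℕ} (hx : 1 ≤ x) :
    pr Q H x ≤ qq Q ^ (insert 0 H).card * ((x : ℝ) * (Real.log 2)⁻¹ ^ (insert 0 H).card) := by
  unfold pr
  have h1 := lg_le (S := insert 0 H) (a := 2) (b := x + 1) le_rfl (by omega)
  have h2 := gp_le (S := insert 0 H) (m := 2) (t := Real.log 2) (Real.log_pos (by norm_num)) (fun b _ => by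
    have : (0 : ℝ) ≤ b := Nat.cast_nonneg b
    push_cast
    exact Real.log_le_log (by norm_num) (by linarith))
  have hx' : (1 : ℝ) ≤ x := by exact_mod_cast hx
  have hl2 : 0 < Real.log 2 := Real.log_pos (by norm_num)
  refine mul_le_mul (sing_le hQ _) ?_ (lg_nonneg le_rfl) (pow_nonneg (qq_pos hQ).le _)
  refine h1.trans ?_
  push_cast
  have h3 : 0 < gp (insert 0 H) 2 := gp_pos le_rfl
  refine mul_le_mul (by linarith) h2 h3.le (by linarith)

end Pool.Agent.Q106.MD
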