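import Pool.Agent.Q106.MD.UCond

/-!
# Pairs of sets of shifts, given the initial segment
-/

set_option autoImplicit false

namespace Pool.Agent.Q106.MD

open Finset MeasureTheory ProbabilityTheory Filter Pool.Agent.Q120.GM Pool.Agent.Q106.UR
open scoped Topology

section Abs

theorem sum_sub_ite {κ : Type*} [DecidableEq κ] {s t : Finset κ} (h : t ⊆ s) (g : κ → ℝ) (c : ℝ) :
    ∑ U ∈ s, (if U ∈ t then c else 0) * g U = c * ∑ U ∈ t, g U := by
  have h1 : ∀ U ∈ s, (if U ∈ t then c else 0) * g U = if U ∈ t then c * g U else 0 := by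
    intro U _
    split_ifs
    · rfl
    · rw [zero_mul]
  rw [sum_congr rfl h1, Finset.sum_ite_mem, inter_eq_right.2 h, mul_sum]

theorem pair_sum {κ : Type*} [DecidableEq κ] (f₁ f₂ : Finset κ) (g : κ → ℝ) (c₁ c₂ : ℝ) :
    ∑ U ∈ f₁ ∪ f₂, ((if U ∈ f₁ then c₁ else 0) + (if U ∈ f₂ then c₂ else 0)) * g U =
      c₁ * ∑ U ∈ f₁, g U + c₂ * ∑ U ∈ f₂, g U := by
  simp_rw [add_mul]
  rw [sum_add_distrib, sum_sub_ite subset_union_left, sum_sub_ite subset_union_right]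

theorem pair_sq {κ : Type*} [DecidableEq κ] (f₁ f₂ : Finset κ) (g : κ → ℝ) (c₁ c₂ : ℝ) :
    ∑ U ∈ f₁ ∪ f₂, ((if U ∈ f₁ then c₁ else 0) + (if U ∈ f₂ then c₂ else 0)) ^ 2 * g U =
      c₁ ^ 2 * ∑ U ∈ f₁, g U + c₂ ^ 2 * ∑ U ∈ f₂, g U + 2 * c₁ * c₂ * ∑ U ∈ f₁ ∩ f₂, g U := by
  rw [← sum_sub_ite (s := f₁ ∪ f₂) subset_union_left g (c₁ ^ 2),
    ← sum_sub_ite (s := f₁ ∪ f₂) subset_union_right g (c₂ ^ 2),
    ← sum_sub_ite (s := f₁ ∪ f₂) (t := f₁ ∩ f₂) (inter_subset_left.trans subset_union_left) g (2 * c₁ * c₂),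
    ← sum_add_distrib, ← sum_add_distrib]
  refine sum_congr rfl (fun U _ => ?_)
  by_cases h1 : U ∈ f₁ <;> by_cases h2 : U ∈ f₂ <;> simp [h1, h2] <;> ring

variable {Ω : Type*} [MeasurableSpace Ω] {μ : Measure Ω} [IsProbabilityMeasure μ] {ι : Type*} [DecidableEq ι]
  {p : ι → ℝ} {A : Ω → Set ι}

theorem pair_mgf (hA : IsModel μ p A) (f₁ f₂ : Finset (Finset ι)) {c₁ c₂ h D s W : ℝ} (hc : |c₁| + |c₂| ≤ h)
    (hD : 1 ≤ D) (hhD : 56 * (D * h) ≤ 1) (hs : 0 < s) (hs1 : s ≤ 1) (hp : ∀ U ∈ f₁ ∪ f₂, ∀ b ∈ U, p b ≤ s ^ 2)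
    (hne : ∀ U ∈ f₁ ∪ f₂, U.Nonempty) (hdeg : ∀ U ∈ f₁ ∪ f₂, ((nb (fun V => V) (f₁ ∪ f₂) U).card : ℝ) ≤ D)
    (hW : W = c₁ ^ 2 * ∑ U ∈ f₁, pT p U + c₂ ^ 2 * ∑ U ∈ f₂, pT p U + 2 * c₁ * c₂ * ∑ U ∈ f₁ ∩ f₂, pT p U) :
    ∫ ω, Real.exp (c₁ * (nm A f₁ (fun V => V) ω - ∑ U ∈ f₁, pT p U) + c₂ * (nm A f₂ (fun V => V) ω - ∑ U ∈ f₂, pT p U)) ∂μ ≤
      Real.exp (W / 2 + s * D * W / 2 + 29 * (D ^ 2 * h ^ 3) * (f₁ ∪ f₂).card) := by
  have h1 := abs_nonneg c₁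
  have h2 := abs_nonneg c₂
  have h3 := (pat hA (f₁ ∪ f₂) (fun V => V) (fun U => (if U ∈ f₁ then c₁ else 0) + (if U ∈ f₂ then c₂ else 0)) (h := h)
    (D := D) (s := s) (by linarith) (fun U _ => by
      refine (abs_add_le _ _).trans (le_trans (add_le_add ?_ ?_) hc)
      · split_ifs
        · exact le_rfl
        · rw [abs_zero]
          exact h1
      · split_ifs
        · exact le_rfl
        · rw [abs_zero]
          exact h2) hD hhD hs hs1 hp hne (fun _ _ _ _ h => h) hdeg (W := W) (by rw [hW, pair_sq])).2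
  refine le_trans (le_of_eq ?_) h3
  congr 1
  ext ω
  congr 1
  rw [pair_sum]
  unfold nm
  rw [sum_sub_distrib, sum_sub_distrib]

end Abs

theorem sum_tl (m : ℕ) (H : Finset ℕ) : ∑ b ∈ tl m H, b = m * H.card + ∑ b ∈ H, b := by
  unfold tl
  rw [sum_image (fun _ _ _ _ h => add_right_injective m h), sum_add_distrib, sum_const, smul_eq_mul, mul_comm]

theorem tl_zero_inj {m : ℕ} {H H' : Finset ℕ} (h : tl m H = tl m H') : H = H' := by
  unfold tl at h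
  exact image_injective (add_right_injective m) h

/-- **Coinciding tuples.** -/
theorem inter_card {Q k : ℕ} (hk : 1 ≤ k) {η : ℝ} {x : ℕ} {t : Finset ℕ} (ht : Ty Q η x t) {H H' : Finset ℕ}
    (hH : H.card = k) (hH' : H'.card = k) (hne : H ≠ H') (h0 : 0 ≤ η * (x / Real.log x)) :
    ((((t.image (fun m => tl m H)) ∩ (t.image (fun m => tl m H'))).card : ℕ) : ℝ) ≤ η * (x / Real.log x) := by
  have key : ∀ G G' : Finset ℕ, G.card = k → G'.card = k → G ≠ G' → ∑ b ∈ G', b ≤ ∑ b ∈ G, b →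
      ((((t.image (fun m => tl m G)) ∩ (t.image (fun m => tl m G'))).card : ℕ) : ℝ) ≤ η * (x / Real.log x) := by
    intro G G' hG hG' hGG hle
    obtain ⟨a, ha⟩ : ∃ a, a = (∑ b ∈ G, b - ∑ b ∈ G', b) / k := ⟨_, rfl⟩
    have hrel : ∀ m m' : ℕ, tl m G = tl m' G' → m' = m + a := by
      intro m m' h
      have h1 := sum_tl m G
      have h2 := sum_tl m' G'
      rw [h, h2, hG, hG'] at h1
      rw [ha]
      have h3 : m * k + (∑ b ∈ G, b - ∑ b ∈ G', b) = m' * k := by omega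
      have h4 : m * k ≤ m' * k := by omega
      have h5 : m ≤ m' := Nat.le_of_mul_le_mul_right h4 (by omega)
      obtain ⟨c, rfl⟩ := Nat.exists_eq_add_of_le h5
      have h6 : ∑ b ∈ G, b - ∑ b ∈ G', b = c * k := by
        rw [add_mul] at h3
        omega
      rw [h6, Nat.mul_div_cancel _ (by omega)]
    rcases Nat.eq_zero_or_pos a with h0' | h0'
    · have hem : (t.image (fun m => tl m G)) ∩ (t.image (fun m => tl m G')) = ∅ := by
        rw [← Finset.disjoint_iff_inter_eq_empty, Finset.disjoint_left]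
        intro U hU hU'
        rw [mem_image] at hU hU'
        obtain ⟨m, _, h1⟩ := hU
        obtain ⟨m', _, h2⟩ := hU'
        have h3 := hrel m m' (h1.trans h2.symm)
        rw [h0', add_zero] at h3
        subst h3
        exact hGG (tl_zero_inj (h1.trans h2.symm))
      rw [hem, card_empty, Nat.cast_zero]
      exact h0
    · refine le_trans ?_ (ht.ovl a h0')
      have hsub : (t.image (fun m => tl m G)) ∩ (t.image (fun m => tl m G')) ⊆
          (t.filter (fun m => m + a ∈ t)).image (fun m => tl m G) := by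
        intro U hU
        rw [mem_inter, mem_image, mem_image] at hU
        obtain ⟨⟨m, hm, h1⟩, ⟨m', hm', h2⟩⟩ := hU
        have h3 := hrel m m' (h1.trans h2.symm)
        rw [mem_image]
        refine ⟨m, ?_, h1⟩
        rw [mem_filter, ← h3]
        exact ⟨hm, hm'⟩
      exact_mod_cast (card_le_card hsub).trans card_image_le
  rcases le_total (∑ b ∈ H', b) (∑ b ∈ H, b) with h | h
  · exact key H H' hH hH' hne h
  · rw [inter_comm]
    exact key H' H hH' hH (Ne.symm hne) h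

theorem nb_pair {k : ℕ} (t : Finset ℕ) {H H' : Finset ℕ} (hH : H.card = k) (hH' : H'.card = k) {U : Finset ℕ}
    (hU : U ∈ (t.image (fun m => tl m H)) ∪ (t.image (fun m => tl m H'))) :
    ((nb (fun V => V) ((t.image (fun m => tl m H)) ∪ (t.image (fun m => tl m H'))) U).card : ℝ) ≤ 2 * (k : ℝ) ^ 2 + 1 := by
  have hUc : U.card = k := by
    rw [mem_union, mem_image, mem_image] at hU
    rcases hU with ⟨m, _, rfl⟩ | ⟨m, _, rfl⟩
    · rw [card_tl, hH]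
    · rw [card_tl, hH']
  have h1 : nb (fun V => V) ((t.image (fun m => tl m H)) ∪ (t.image (fun m => tl m H'))) U ⊆
      (U ×ˢ H).image (fun q : ℕ × ℕ => tl (q.1 - q.2) H) ∪ (U ×ˢ H').image (fun q : ℕ × ℕ => tl (q.1 - q.2) H') := by
    intro V hV
    unfold nb at hV
    rw [mem_filter, mem_union, mem_image, mem_image, Finset.not_disjoint_iff] at hV
    obtain ⟨h2, b, hb1, hb2⟩ := hV
    rw [mem_union, mem_image, mem_image]
    rcases h2 with ⟨m, _, rfl⟩ | ⟨m, _, rfl⟩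
    · left
      obtain ⟨h, hh, rfl⟩ := mem_tl.1 hb1
      exact ⟨(m + h, h), mem_product.2 ⟨hb2, hh⟩, by simp⟩
    · right
      obtain ⟨h, hh, rfl⟩ := mem_tl.1 hb1
      exact ⟨(m + h, h), mem_product.2 ⟨hb2, hh⟩, by simp⟩
  have h2 := (card_le_card h1).trans (card_union_le _ _)
  have h3 : ((U ×ˢ H).image (fun q : ℕ × ℕ => tl (q.1 - q.2) H)).card ≤ k * k := by
    refine card_image_le.trans ?_
    rw [card_product, hUc, hH]
  have h4 : ((U ×ˢ H').image (fun q : ℕ × ℕ => tl (q.1 - q.2) H')).card ≤ k * k := by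
    refine card_image_le.trans ?_
    rw [card_product, hUc, hH']
  have h5 : (nb (fun V => V) ((t.image (fun m => tl m H)) ∪ (t.image (fun m => tl m H'))) U).card ≤ 2 * (k * k) := by omega
  have h6 : ((nb (fun V => V) ((t.image (fun m => tl m H)) ∪ (t.image (fun m => tl m H'))) U).card : ℝ) ≤ 2 * (k * k) := by
    exact_mod_cast h5
  nlinarith

variable {Ω : Type*} [MeasurableSpace Ω] {μ : Measure Ω} [IsProbabilityMeasure μ] {A : Ω → Set ℕ}

/-- **The joint probabilities, given the initial segment.** -/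
theorem pair_near {Q k : ℕ} (hA : IsModel μ (level Q) A) (hQ : 1 ≤ Q) (hk : 1 ≤ k) {C η : ℝ} (hC : 0 < C) (hη : 0 ≤ η)
    {d ε η' : ℝ} (hη' : 0 < η') (hε2 : 4 * |d| * ε ≤ η' / 2) (hηη : 4 * d ^ 2 * η * (C + 1) ^ k ≤ η' / 8) :
    ∀ᶠ x : ℕ in atTop, ∀ t, Ty Q η x t → ∀ H H', Fa Q k C x H → Fa Q k C x H' → H ≠ H' →
      μ.real ({ω | |DT Q A t H x ω - d| < ε} ∩ {ω | |DT Q A t H' x ω - d| < ε}) ≤ (x : ℝ) ^ (-(2 * d ^ 2 - η')) := by
  have hq := qq_pos hQ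
  obtain ⟨c, hc⟩ : ∃ c, c = 1 / 2 * (qq Q / (C + 1)) ^ k := ⟨_, rfl⟩
  have hc0 : 0 < c := by rw [hc]; positivity
  obtain ⟨D, hD⟩ : ∃ D, D = 2 * (k : ℝ) ^ 2 + 1 := ⟨_, rfl⟩
  have hD1 : 1 ≤ D := by rw [hD]; nlinarith [sq_nonneg (k : ℝ)]
  obtain ⟨s, hs⟩ : ∃ s, s = min 1 (η' / (4 * (D * (4 * d ^ 2 + η' / 4)))) := ⟨_, rfl⟩
  have hs0 : 0 < s := by rw [hs]; exact lt_min one_pos (by positivity)
  have hs1 : s ≤ 1 := by rw [hs]; exact min_le_left _ _
  have hs2 : s * (4 * (D * (4 * d ^ 2 + η' / 4))) ≤ η' := by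
    have h1 : s ≤ η' / (4 * (D * (4 * d ^ 2 + η' / 4))) := by rw [hs]; exact min_le_right _ _
    rwa [le_div_iff₀ (by positivity)] at h1
  filter_upwards [pT_bounds (k := k) hQ hC, eT_ge (k := k) (η := η) hQ hC, log_tendsto.eventually_ge_atTop 1,
    log_tendsto.eventually_ge_atTop (qq Q / s ^ 2), eventually_ge_atTop 1,
    ev_log_pow (k + 2) (show 0 < c / ((56 * D) ^ 2 * (8 * d ^ 2) + 1) by positivity),
    ev_log_pow (3 * k + 6) (show 0 < (η' / 8) ^ 2 * c ^ 3 / ((58 * D ^ 2) ^ 2 * (8 * d ^ 2) ^ 3 + 1) by positivity)]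
    with x h1 h2 h3 h4 h5 h6 h7 t ht H H' hH hH' hne
  have hx : (1 : ℝ) ≤ x := by exact_mod_cast h5
  have hx0 : (0 : ℝ) < x := by linarith
  obtain ⟨L, hL⟩ : ∃ L, L = Real.log x := ⟨_, rfl⟩
  have he0 := e0_eq (Q := Q) (k := k) hC h3
  rw [← hc] at he0
  have hov := inter_card hk ht hH.card hH'.card hne (by
    have : 0 < Real.log x := by linarith
    positivity)
  rw [← hL] at h3 h4 h6 h7 he0 hov
  have hL0 : 0 < L := by linarith
  obtain ⟨e₀, he₀⟩ : ∃ e₀, e₀ = e0 Q k C x := ⟨_, rfl⟩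
  obtain ⟨e₁, he₁⟩ : ∃ e₁, e₁ = eT Q t H := ⟨_, rfl⟩
  obtain ⟨e₂, he₂⟩ : ∃ e₂, e₂ = eT Q t H' := ⟨_, rfl⟩
  have hle1 := h2 t ht H hH
  have hle2 := h2 t ht H' hH'
  rw [← he₀, ← he₁] at hle1
  rw [← he₀, ← he₂] at hle2
  rw [← he₀] at he0
  have he₀0 : 0 < e₀ := by rw [he0]; positivity
  have he₁0 : 0 < e₁ := by linarith
  have he₂0 : 0 < e₂ := by linarith
  obtain ⟨f₁, hf₁⟩ : ∃ f₁, f₁ = t.image (fun m => tl m H) := ⟨_, rfl⟩
  obtain ⟨f₂, hf₂⟩ : ∃ f₂, f₂ = t.image (fun m => tl m H') := ⟨_, rfl⟩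
  rw [← hf₁, ← hf₂] at hov
  have hHn : H.Nonempty := card_pos.1 (by rw [hH.card]; omega)
  have hHn' : H'.Nonempty := card_pos.1 (by rw [hH'.card]; omega)
  have hsum1 : ∀ g : Finset ℕ → ℝ, ∑ U ∈ f₁, g U = ∑ m ∈ t, g (tl m H) := fun g => by
    rw [hf₁, sum_image (fun _ _ _ _ h => tl_inj' hHn h)]
  have hsum2 : ∀ g : Finset ℕ → ℝ, ∑ U ∈ f₂, g U = ∑ m ∈ t, g (tl m H') := fun g => by
    rw [hf₂, sum_image (fun _ _ _ _ h => tl_inj' hHn' h)]
  -- the coefficients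
  obtain ⟨g, hg⟩ : ∃ g, g = 2 * |d| * Real.sqrt (L / (2 * e₀)) := ⟨_, rfl⟩
  have hg0 : 0 ≤ g := by rw [hg]; positivity
  have hg2 : g ^ 2 = 4 * d ^ 2 * (L / (2 * e₀)) := by
    rw [hg, mul_pow, mul_pow, sq_abs, Real.sq_sqrt (by positivity)]
    ring
  have hg3 : g ^ 2 = 2 * d ^ 2 * L ^ (k + 2) / (c * x) := by
    rw [hg2, he0, pow_succ L (k + 1)]
    field_simp
    ring
  obtain ⟨c₁, hc₁⟩ : ∃ c₁, c₁ = 2 * d * Real.sqrt (L / (2 * e₁)) := ⟨_, rfl⟩
  obtain ⟨c₂, hc₂⟩ : ∃ c₂, c₂ = 2 * d * Real.sqrt (L / (2 * e₂)) := ⟨_, rfl⟩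
  have hcg : ∀ e, e₀ ≤ e → |2 * d * Real.sqrt (L / (2 * e))| ≤ g := by
    intro e he
    rw [abs_mul, abs_mul, abs_two, abs_of_nonneg (Real.sqrt_nonneg _), hg]
    refine mul_le_mul_of_nonneg_left (Real.sqrt_le_sqrt ?_) (by positivity)
    exact div_le_div_of_nonneg_left hL0.le (by positivity) (by linarith)
  have hc1g : |c₁| ≤ g := by rw [hc₁]; exact hcg e₁ hle1
  have hc2g : |c₂| ≤ g := by rw [hc₂]; exact hcg e₂ hle2
  have hc1e : c₁ ^ 2 * e₁ = 2 * d ^ 2 * L := by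
    rw [hc₁, mul_pow, mul_pow, Real.sq_sqrt (by positivity)]
    field_simp
  have hc2e : c₂ ^ 2 * e₂ = 2 * d ^ 2 * L := by
    rw [hc₂, mul_pow, mul_pow, Real.sq_sqrt (by positivity)]
    field_simp
  have hcc : 0 ≤ c₁ * c₂ ∧ c₁ * c₂ ≤ g ^ 2 := by
    constructor
    · rw [hc₁, hc₂]
      have : 2 * d * Real.sqrt (L / (2 * e₁)) * (2 * d * Real.sqrt (L / (2 * e₂))) =
        4 * d ^ 2 * (Real.sqrt (L / (2 * e₁)) * Real.sqrt (L / (2 * e₂))) := by ring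
      rw [this]
      positivity
    · refine (le_abs_self _).trans ?_
      rw [abs_mul, sq]
      exact mul_le_mul hc1g hc2g (abs_nonneg _) hg0
  have h56 : 56 * (D * (2 * g)) ≤ 1 := by
    by_contra hcon
    push Not at hcon
    have e1 : 1 < (56 * (D * (2 * g))) ^ 2 := one_lt_pow₀ hcon two_ne_zero
    have e2 : (56 * (D * (2 * g))) ^ 2 = (56 * D) ^ 2 * (8 * d ^ 2) * L ^ (k + 2) / (c * x) := by
      calc (56 * (D * (2 * g))) ^ 2 = (56 * D) ^ 2 * 4 * g ^ 2 := by ring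
        _ = _ := by
          rw [hg3]
          ring
    rw [e2, lt_div_iff₀ (by positivity), one_mul] at e1
    have e3 := mul_le_mul_of_nonneg_left h6 (show 0 ≤ (56 * D) ^ 2 * (8 * d ^ 2) + 1 by positivity)
    have e4 : ((56 * D) ^ 2 * (8 * d ^ 2) + 1) * (c / ((56 * D) ^ 2 * (8 * d ^ 2) + 1) * x) = c * x := by field_simp
    have e5 : 0 < L ^ (k + 2) := by positivity
    linarith
  have hcardU : (((f₁ ∪ f₂).card : ℕ) : ℝ) ≤ 2 * x := by
    have e1 : (f₁ ∪ f₂).card ≤ t.card + t.card := by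
      rw [hf₁, hf₂]
      exact (card_union_le _ _).trans (add_le_add card_image_le card_image_le)
    have e2 := card_le_card ht.sub
    rw [Nat.card_Icc, Nat.add_sub_cancel] at e2
    have e3 : (f₁ ∪ f₂).card ≤ 2 * x := by omega
    exact_mod_cast e3
  have h29 : 29 * (D ^ 2 * (2 * g) ^ 3) * (f₁ ∪ f₂).card ≤ η' / 8 * L := by
    refine (mul_le_mul_of_nonneg_left hcardU (by positivity)).trans ?_
    refine le_trans ?_ (show η' / 8 * 1 ≤ η' / 8 * L from mul_le_mul_of_nonneg_left h3 (by positivity))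
    rw [mul_one]
    by_contra hcon
    push Not at hcon
    have e1 := pow_lt_pow_left₀ hcon (by positivity) two_ne_zero
    have e2 : (29 * (D ^ 2 * (2 * g) ^ 3) * (2 * x)) ^ 2 = (58 * D ^ 2) ^ 2 * (8 * d ^ 2) ^ 3 * L ^ (3 * k + 6) / (c ^ 3 * x) := by
      have f1 : (L ^ (k + 2)) ^ 3 = L ^ (3 * k + 6) := by
        rw [← pow_mul]
        congr 1
        ring
      calc (29 * (D ^ 2 * (2 * g) ^ 3) * (2 * x)) ^ 2 = (58 * D ^ 2) ^ 2 * 64 * (g ^ 2) ^ 3 * x ^ 2 := by ring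
        _ = (58 * D ^ 2) ^ 2 * 64 * (8 * d ^ 6 * (L ^ (k + 2)) ^ 3 / (c ^ 3 * x ^ 3)) * x ^ 2 := by
          rw [hg3]
          ring
        _ = _ := by
          rw [f1]
          field_simp
          ring
    rw [e2, lt_div_iff₀ (by positivity)] at e1
    have e3 := mul_le_mul_of_nonneg_left h7 (show 0 ≤ (58 * D ^ 2) ^ 2 * (8 * d ^ 2) ^ 3 + 1 by positivity)
    have e4 : ((58 * D ^ 2) ^ 2 * (8 * d ^ 2) ^ 3 + 1) * ((η' / 8) ^ 2 * c ^ 3 / ((58 * D ^ 2) ^ 2 * (8 * d ^ 2) ^ 3 + 1) * x) =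
        (η' / 8) ^ 2 * (c ^ 3 * x) := by field_simp
    have e5 : 0 < L ^ (3 * k + 6) := by positivity
    linarith
  -- the variance
  obtain ⟨X, hX⟩ : ∃ X, X = ∑ U ∈ f₁ ∩ f₂, pT (level Q) U := ⟨_, rfl⟩
  have hX0 : 0 ≤ X := by rw [hX]; exact sum_nonneg (fun _ _ => pT_nonneg hA _)
  have hXe : X ≤ 2 * η * (C + 1) ^ k * e₀ := by
    have e1 : X ≤ (((f₁ ∩ f₂).card : ℕ) : ℝ) * (qq Q / L) ^ k := by
      rw [hX, ← nsmul_eq_mul, ← sum_const]
      refine sum_le_sum (fun U hU => ?_)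
      rw [mem_inter, hf₁, mem_image] at hU
      obtain ⟨⟨m, hm, rfl⟩, _⟩ := hU
      have e2 := mem_Icc.1 (ht.sub hm)
      have e3 := (h1 H hH m e2.1 e2.2 (ht.cop m hm)).2.2
      rwa [← hL] at e3
    refine e1.trans ((mul_le_mul_of_nonneg_right hov (by positivity)).trans (le_of_eq ?_))
    rw [he₀]
    unfold e0
    rw [← hL, div_pow, div_pow, mul_pow]
    field_simp
  obtain ⟨W, hW⟩ : ∃ W, W = c₁ ^ 2 * ∑ U ∈ f₁, pT (level Q) U + c₂ ^ 2 * ∑ U ∈ f₂, pT (level Q) U +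
    2 * c₁ * c₂ * ∑ U ∈ f₁ ∩ f₂, pT (level Q) U := ⟨_, rfl⟩
  have hs1e : ∑ U ∈ f₁, pT (level Q) U = e₁ := by rw [hsum1, he₁]; rfl
  have hs2e : ∑ U ∈ f₂, pT (level Q) U = e₂ := by rw [hsum2, he₂]; rfl
  have hWle : W ≤ (4 * d ^ 2 + η' / 4) * L := by
    rw [hW, hs1e, hs2e, hc1e, hc2e, ← hX]
    have e1 : 2 * c₁ * c₂ * X ≤ 2 * g ^ 2 * (2 * η * (C + 1) ^ k * e₀) := by
      have e2 : 2 * c₁ * c₂ * X = 2 * (c₁ * c₂) * X := by ring
      rw [e2]
      exact mul_le_mul (by linarith [hcc.2]) hXe hX0 (by positivity)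
    have e2 : 2 * g ^ 2 * (2 * η * (C + 1) ^ k * e₀) = 2 * (4 * d ^ 2 * η * (C + 1) ^ k) * L := by
      rw [hg2]
      field_simp
    rw [e2] at e1
    have e3 : 2 * (4 * d ^ 2 * η * (C + 1) ^ k) * L ≤ 2 * (η' / 8) * L :=
      mul_le_mul_of_nonneg_right (by linarith) hL0.le
    linarith
  have hW0 : 0 ≤ W := by
    rw [hW, hs1e, hs2e, ← hX]
    have e2 : 2 * c₁ * c₂ * X = 2 * (c₁ * c₂ * X) := by ring
    rw [e2]
    have := mul_nonneg hcc.1 hX0
    positivity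
  have hmgf := pair_mgf hA f₁ f₂ (c₁ := c₁) (c₂ := c₂) (h := 2 * g) (D := D) (s := s) (W := W) (by linarith) hD1 h56 hs0 hs1
    (fun U hU b hb => by
      have e1 : ∃ m ∈ t, ∃ h, x < h ∧ b = m + h := by
        rw [mem_union, hf₁, hf₂, mem_image, mem_image] at hU
        rcases hU with ⟨m, hm, rfl⟩ | ⟨m, hm, rfl⟩
        · obtain ⟨h, hh, e⟩ := mem_tl.1 hb
          exact ⟨m, hm, h, hH.gt h hh, e⟩
        · obtain ⟨h, hh, e⟩ := mem_tl.1 hb
          exact ⟨m, hm, h, hH'.gt h hh, e⟩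
      obtain ⟨m, _, h, hh, e⟩ := e1
      have e2 : (x : ℝ) ≤ b := by exact_mod_cast (show x ≤ b by omega)
      refine (level_le (x := (x : ℝ)) (by rw [← hL]; exact hL0) hx0 e2).trans ?_
      rw [← hL, div_le_iff₀ hL0]
      rw [div_le_iff₀ (by positivity)] at h4
      linarith)
    (fun U hU => by
      rw [mem_union, hf₁, hf₂, mem_image, mem_image] at hU
      rcases hU with ⟨m, hm, rfl⟩ | ⟨m, hm, rfl⟩
      · obtain ⟨h, hh⟩ := hHn
        exact ⟨m + h, mem_tl.2 ⟨h, hh, rfl⟩⟩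
      · obtain ⟨h, hh⟩ := hHn'
        exact ⟨m + h, mem_tl.2 ⟨h, hh, rfl⟩⟩)
    (fun U hU => by
      rw [hf₁, hf₂] at hU ⊢
      rw [hD]
      exact nb_pair t hH.card hH'.card hU) hW
  have hbound : W / 2 + s * D * W / 2 + 29 * (D ^ 2 * (2 * g) ^ 3) * (f₁ ∪ f₂).card ≤ (2 * d ^ 2 + 3 * η' / 8) * L := by
    have e1 : s * D * W ≤ s * D * ((4 * d ^ 2 + η' / 4) * L) := mul_le_mul_of_nonneg_left hWle (by positivity)
    have e2 : s * D * ((4 * d ^ 2 + η' / 4) * L) = (s * (4 * (D * (4 * d ^ 2 + η' / 4)))) * (L / 4) := by ring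
    have e3 := mul_le_mul_of_nonneg_right hs2 (show 0 ≤ L / 4 by positivity)
    linarith
  have hmgf2 := hmgf.trans (Real.exp_le_exp.2 hbound)
  -- Markov's inequality
  have hnm1 : ∀ ω, nm A f₁ (fun V => V) ω = nm A t (fun m => tl m H) ω := fun ω => by
    unfold nm
    exact hsum1 (fun U => ind A U ω)
  have hnm2 : ∀ ω, nm A f₂ (fun V => V) ω = nm A t (fun m => tl m H') ω := fun ω => by
    unfold nm
    exact hsum2 (fun U => ind A U ω)
  have hexp : ∀ ω, c₁ * (nm A f₁ (fun V => V) ω - ∑ U ∈ f₁, pT (level Q) U) +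
      c₂ * (nm A f₂ (fun V => V) ω - ∑ U ∈ f₂, pT (level Q) U) = 2 * L * (d * DT Q A t H x ω + d * DT Q A t H' x ω) := by
    intro ω
    rw [hnm1, hnm2, hs1e, hs2e]
    have e1 := sqrt_id he₁0 hL0 (nm A t (fun m => tl m H) ω - e₁)
    have e2 := sqrt_id he₂0 hL0 (nm A t (fun m => tl m H') ω - e₂)
    have e3 : DT Q A t H x ω = (nm A t (fun m => tl m H) ω - e₁) / Real.sqrt (2 * e₁ * L) := by
      unfold DT
      rw [he₁, hL]
    have e4 : DT Q A t H' x ω = (nm A t (fun m => tl m H') ω - e₂) / Real.sqrt (2 * e₂ * L) := by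
      unfold DT
      rw [he₂, hL]
    rw [e3, e4, hc₁, hc₂]
    linear_combination (-2 * d) * e1 + (-2 * d) * e2
  simp_rw [hexp] at hmgf2
  have hDTm : ∀ G : Finset ℕ, Measurable (DT Q A t G x) := fun G => ((meas_nm hA _ _).sub_const _).div_const _
  have hmeas : Measurable (fun ω => 2 * L * (d * DT Q A t H x ω + d * DT Q A t H' x ω)) :=
    (((hDTm H).const_mul d).add ((hDTm H').const_mul d)).const_mul _
  have hint : Integrable (fun ω => Real.exp (2 * L * (d * DT Q A t H x ω + d * DT Q A t H' x ω))) μ := by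
    have hbd : ∀ (G : Finset ℕ) (e : ℝ) (ω : Ω), |DT Q A t G x ω| ≤
        ((t.card : ℝ) + |eT Q t G|) / Real.sqrt (2 * eT Q t G * Real.log x) := by
      intro G e ω
      unfold DT
      rw [abs_div, abs_of_nonneg (Real.sqrt_nonneg _)]
      refine div_le_div_of_nonneg_right ?_ (Real.sqrt_nonneg _)
      have f1 := nm_nonneg (A := A) t (fun m => tl m G) ω
      have f2 := nm_le (A := A) t (fun m => tl m G) ω
      have f3 := abs_sub (nm A t (fun m => tl m G) ω) (eT Q t G)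
      rw [abs_of_nonneg f1] at f3
      linarith
    refine int_bdd hmeas.exp (Real.exp (2 * L * (|d| * (((t.card : ℝ) + |eT Q t H|) / Real.sqrt (2 * eT Q t H * Real.log x)) +
      |d| * (((t.card : ℝ) + |eT Q t H'|) / Real.sqrt (2 * eT Q t H' * Real.log x))))) (fun ω => ?_)
    rw [abs_of_pos (Real.exp_pos _)]
    refine Real.exp_le_exp.2 (mul_le_mul_of_nonneg_left ?_ (by positivity))
    refine (le_abs_self _).trans ((abs_add_le _ _).trans (add_le_add ?_ ?_))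
    · rw [abs_mul]
      exact mul_le_mul_of_nonneg_left (hbd H 0 ω) (abs_nonneg _)
    · rw [abs_mul]
      exact mul_le_mul_of_nonneg_left (hbd H' 0 ω) (abs_nonneg _)
  have hmem : ({ω | |DT Q A t H x ω - d| < ε} ∩ {ω | |DT Q A t H' x ω - d| < ε}) ⊆
      {ω | Real.exp (L * (4 * d ^ 2 - 4 * |d| * ε)) ≤ Real.exp (2 * L * (d * DT Q A t H x ω + d * DT Q A t H' x ω))} := by
    rintro ω ⟨g1, g2⟩
    have key : ∀ v : ℝ, |v - d| < ε → d ^ 2 - |d| * ε ≤ d * v := by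
      intro v hv
      have e1 : |d * (v - d)| ≤ |d| * ε := by
        rw [abs_mul]
        exact mul_le_mul_of_nonneg_left hv.le (abs_nonneg _)
      have e2 := (abs_le.1 e1).1
      have e3 : d * (v - d) = d * v - d ^ 2 := by ring
      linarith
    have k1 := key _ g1
    have k2 := key _ g2
    show Real.exp _ ≤ Real.exp _
    refine Real.exp_le_exp.2 ?_
    have e1 := mul_le_mul_of_nonneg_left (add_le_add k1 k2) (show 0 ≤ 2 * L by positivity)
    linarith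
  have hmk := mul_meas_ge_le_integral_of_nonneg (μ := μ)
    (f := fun ω => Real.exp (2 * L * (d * DT Q A t H x ω + d * DT Q A t H' x ω)))
    (Eventually.of_forall (fun ω => (Real.exp_pos _).le)) hint (Real.exp (L * (4 * d ^ 2 - 4 * |d| * ε)))
  have h8 := measureReal_mono hmem (measure_ne_top μ _)
  have h9 : Real.exp (L * (4 * d ^ 2 - 4 * |d| * ε)) *
      μ.real ({ω | |DT Q A t H x ω - d| < ε} ∩ {ω | |DT Q A t H' x ω - d| < ε}) ≤ Real.exp ((2 * d ^ 2 + 3 * η' / 8) * L) :=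
    (mul_le_mul_of_nonneg_left h8 (Real.exp_pos _).le).trans (hmk.trans hmgf2)
  have h10 : μ.real ({ω | |DT Q A t H x ω - d| < ε} ∩ {ω | |DT Q A t H' x ω - d| < ε}) ≤
      Real.exp ((2 * d ^ 2 + 3 * η' / 8) * L) / Real.exp (L * (4 * d ^ 2 - 4 * |d| * ε)) := by
    rw [le_div_iff₀ (Real.exp_pos _)]
    linarith
  refine h10.trans ?_
  rw [← Real.exp_sub, ← exp_log_rpow h5, ← hL]
  refine Real.exp_le_exp.2 ?_
  have e1 := mul_le_mul_of_nonneg_right hε2 hL0.le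
  have e2 : 0 ≤ η' * L := by positivity
  linarith

end Pool.Agent.Q106.MD
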