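import Pool.Agent.Q106.MD.UInc

/-!
# Tuples with large shifts: the upper bounds for all `x`
-/

set_option autoImplicit false

namespace Pool.Agent.Q106.MD

open Finset MeasureTheory ProbabilityTheory Filter Pool.Agent.Q120.GM Pool.Agent.Q106.UR
open scoped Topology

open Classical in
/-- The sets of `k` shifts up to `B x^C`, as a finite set. -/
noncomputable def HF (Q k : ℕ) (B C : ℝ) (x : ℕ) : Finset (Finset ℕ) :=
  (powersetCard k (Icc 1 ⌊B * (x : ℝ) ^ C⌋₊)).filter (fun H => Hk Q k B C x H)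

theorem mem_HF {Q k : ℕ} {B C : ℝ} (hB : 0 ≤ B) {x : ℕ} {H : Finset ℕ} : H ∈ HF Q k B C x ↔ Hk Q k B C x H := by
  classical
  unfold HF
  rw [mem_filter, mem_powersetCard]
  constructor
  · rintro ⟨_, h⟩
    exact h
  · intro h
    refine ⟨⟨fun b hb => ?_, h.card⟩, h⟩
    rw [mem_Icc]
    constructor
    · by_contra hcon
      have : b = 0 := by omega
      rw [this] at hb
      exact h.zero hb
    · exact Nat.le_floor (h.le b hb)

theorem card_HF {Q k : ℕ} {B C : ℝ} (hB : 0 ≤ B) {x : ℕ} (hx : 1 ≤ x) :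
    ((HF Q k B C x).card : ℝ) ≤ B ^ k * (x : ℝ) ^ (k * C) := by
  classical
  have hx0 : (0 : ℝ) < x := by exact_mod_cast hx
  have h1 : (HF Q k B C x).card ≤ (Icc 1 ⌊B * (x : ℝ) ^ C⌋₊).card.choose k := by
    unfold HF
    exact (card_filter_le _ _).trans (by rw [card_powersetCard])
  rw [Nat.card_Icc, Nat.add_sub_cancel] at h1
  have h2 : (((⌊B * (x : ℝ) ^ C⌋₊).choose k : ℕ) : ℝ) ≤ (⌊B * (x : ℝ) ^ C⌋₊ : ℝ) ^ k := by
    refine (Nat.choose_le_pow_div (α := ℝ) k _).trans ?_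
    refine div_le_self (by positivity) ?_
    exact_mod_cast Nat.one_le_iff_ne_zero.2 (Nat.factorial_ne_zero k)
  have h3 : (⌊B * (x : ℝ) ^ C⌋₊ : ℝ) ≤ B * (x : ℝ) ^ C := Nat.floor_le (by positivity)
  calc ((HF Q k B C x).card : ℝ) ≤ ((⌊B * (x : ℝ) ^ C⌋₊).choose k : ℕ) := by exact_mod_cast h1
    _ ≤ _ := h2
    _ ≤ (B * (x : ℝ) ^ C) ^ k := pow_le_pow_left₀ (Nat.cast_nonneg _) h3 k
    _ = _ := by
      rw [mul_pow, ← Real.rpow_natCast ((x : ℝ) ^ C) k, ← Real.rpow_mul hx0.le, mul_comm C]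

variable {Ω : Type*} [MeasurableSpace Ω] {μ : Measure Ω} [IsProbabilityMeasure μ] {A : Ω → Set ℕ}

/-- A union bound. -/
theorem union_HF {Q k : ℕ} {B C : ℝ} (hB : 0 ≤ B) {E : ℕ → Finset ℕ → Set Ω} {a : ℝ} {M : ℝ}
    (h : ∀ᶠ x : ℕ in atTop, ∀ H, Hk Q k B C x H → μ.real (E x H) ≤ M * (x : ℝ) ^ (-a)) (ha : k * C < a) {a' : ℝ}
    (ha' : a' < a - k * C) :
    ∀ᶠ x : ℕ in atTop, μ.real {ω | ∃ H, Hk Q k B C x H ∧ ω ∈ E x H} ≤ (x : ℝ) ^ (-a') := by
  filter_upwards [h, eventually_ge_atTop 1,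
    (rpow_tendsto (θ := a - k * C - a') (by linarith)).eventually_ge_atTop (B ^ k * |M|)] with x h1 h2 h3
  have hx0 : (0 : ℝ) < x := by exact_mod_cast h2
  have h4 : {ω | ∃ H, Hk Q k B C x H ∧ ω ∈ E x H} = ⋃ H ∈ HF Q k B C x, E x H := by
    ext ω
    simp only [Set.mem_setOf_eq, Set.mem_iUnion, exists_prop, mem_HF hB]
  rw [h4]
  refine (measureReal_biUnion_finset_le _ _).trans ?_
  have h5 : ∀ H ∈ HF Q k B C x, μ.real (E x H) ≤ |M| * (x : ℝ) ^ (-a) := fun H hH =>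
    (h1 H ((mem_HF hB).1 hH)).trans (mul_le_mul_of_nonneg_right (le_abs_self M) (by positivity))
  refine (sum_le_sum h5).trans ?_
  rw [sum_const, nsmul_eq_mul]
  refine (mul_le_mul_of_nonneg_right (card_HF hB h2) (by positivity)).trans ?_
  have h6 : B ^ k * (x : ℝ) ^ (k * C) * (|M| * (x : ℝ) ^ (-a)) = B ^ k * |M| * (x : ℝ) ^ (-(a - k * C)) := by
    have e1 : (x : ℝ) ^ (-(a - k * C)) = (x : ℝ) ^ (k * C) * (x : ℝ) ^ (-a) := by
      rw [← Real.rpow_add hx0]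
      congr 1
      ring
    rw [e1]
    ring
  rw [h6]
  refine (mul_le_mul_of_nonneg_right h3 (by positivity)).trans (le_of_eq ?_)
  rw [← Real.rpow_add hx0]
  congr 1
  ring

/-- **The deviations at neighbouring points.** -/
theorem tr_det {Q k : ℕ} (hQ : 1 ≤ Q) {B C : ℝ} (hB : 0 ≤ B) (hC : 0 < C) {η δ : ℝ} (hη : 0 < η) (hδ : 0 < δ)
    (hδη : 6 * δ ≤ η) (hδ1 : δ ≤ 1) : ∀ᶠ y : ℕ in atTop, ∀ H, Hk Q k B C y H → ∀ x : ℕ, y ≤ x → (x : ℝ) ≤ y + δ * y →
      ∀ ω : Ω, |Ic Q A H y x ω| < η / 2 * Real.sqrt (2 * pr Q H y * Real.log y) →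
        |DD Q A H x ω - DD Q A H y ω| ≤ η * (1 + |DD Q A H y ω|) := by
  have hc0 := c0_pos (k := k) hQ hC
  filter_upwards [pr_ge (k := k) hQ hB hC, log_tendsto.eventually_ge_atTop 1, log_tendsto.eventually_ge_atTop (qq Q),
    log_tendsto.eventually_ge_atTop (6 / η),
    ev_log_pow (k + 1) (show 0 < c0 Q k C * η ^ 2 / (4 * Q ^ 2 + 1) by positivity), eventually_ge_atTop 3]
    with y h1 h2 h3 h4 h5 h6 H hH x hyx hxy ω hI
  have hy3 : (3 : ℝ) ≤ y := by exact_mod_cast h6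
  have hyx' : (y : ℝ) ≤ x := by exact_mod_cast hyx
  have hpr := h1 H hH
  obtain ⟨P, hP⟩ : ∃ P, P = pr Q H y := ⟨_, rfl⟩
  obtain ⟨P', hP'⟩ : ∃ P', P' = pr Q H x := ⟨_, rfl⟩
  obtain ⟨L, hL⟩ : ∃ L, L = Real.log y := ⟨_, rfl⟩
  obtain ⟨L', hL'⟩ : ∃ L', L' = Real.log x := ⟨_, rfl⟩
  rw [← hL] at h2 h3 h4 h5 hpr hI
  rw [← hP] at hpr hI
  have hL0 : 0 < L := by linarith
  have hP0 : 0 < P := lt_of_lt_of_le (by positivity) hpr
  have hLL : L ≤ L' := by
    rw [hL, hL']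
    exact Real.log_le_log (by linarith) hyx'
  have hL2 : L' ≤ L * (1 + η / 6) := by
    have e1 : L' ≤ Real.log 2 + L := by
      rw [hL, hL', ← Real.log_mul (by norm_num) (by linarith)]
      refine Real.log_le_log (by linarith) ?_
      have : δ * y ≤ 1 * y := mul_le_mul_of_nonneg_right hδ1 (by linarith)
      linarith
    have e2 : Real.log 2 ≤ 1 := by
      have := Real.log_le_sub_one_of_pos (show (0 : ℝ) < 2 by norm_num)
      linarith
    rw [div_le_iff₀ hη] at h4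
    linarith
  have hadd := pr_add (Q := Q) H (x := x) (y := y) (by omega) hyx
  have hinc := pr_incr hQ H (x := x) (y := y) (by omega) hyx
  obtain ⟨G, hG⟩ : ∃ G, G = sing Q (insert 0 H) * lg (insert 0 H) (y + 1) (x + 1) := ⟨_, rfl⟩
  rw [← hG, ← hP] at hadd hinc
  rw [← hP'] at hadd
  have hG0 : 0 ≤ G := by rw [hG]; exact mul_nonneg hH.sing.le (lg_nonneg (by omega))
  have hG1 : G ≤ 3 / 2 * δ * P := by
    refine hinc.trans (mul_le_mul_of_nonneg_right ?_ hP0.le)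
    rw [div_le_iff₀ (by linarith)]
    nlinarith
  have hPP : P ≤ P' := by linarith
  have hP2 : P' ≤ P * (1 + η / 4) := by
    have e1 : 3 / 2 * δ * P ≤ η / 4 * P := mul_le_mul_of_nonneg_right (by linarith) hP0.le
    linarith
  obtain ⟨a, ha⟩ : ∃ a, a = Real.sqrt (2 * P * L) := ⟨_, rfl⟩
  obtain ⟨b, hb⟩ : ∃ b, b = Real.sqrt (2 * P' * L') := ⟨_, rfl⟩
  have ha0 : 0 < a := by rw [ha]; exact Real.sqrt_pos.2 (by positivity)
  have hP'0 : 0 < P' := by linarith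
  have hL'0 : 0 < L' := by linarith
  have hab : a ≤ b := by
    rw [ha, hb]
    exact Real.sqrt_le_sqrt (mul_le_mul (by linarith) hLL hL0.le (by positivity))
  have hb0 : 0 < b := by linarith
  have ha2 : a ^ 2 = 2 * P * L := by rw [ha]; exact Real.sq_sqrt (by positivity)
  have hb2 : b ^ 2 = 2 * P' * L' := by rw [hb]; exact Real.sq_sqrt (by positivity)
  have hba : b ≤ a * (1 + η / 2) := by
    have e1 : b ^ 2 ≤ (a * (1 + η / 2)) ^ 2 := by
      rw [mul_pow, ha2, hb2]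
      have e2 : P' * L' ≤ (P * (1 + η / 4)) * (L * (1 + η / 6)) := mul_le_mul hP2 hL2 hL'0.le (by positivity)
      have e3 : (1 + η / 4) * (1 + η / 6) ≤ (1 + η / 2) ^ 2 := by nlinarith
      have e4 := mul_le_mul_of_nonneg_left e3 (show 0 ≤ P * L by positivity)
      nlinarith
    exact abs_le_of_sq_le_sq' e1 (by positivity) |>.2
  have hmean := mean_g hQ (insert 0 H) (a := y + 1) (b := x + 1) (by omega) (by
    have e1 : L ≤ Real.log ((y + 1 : ℕ) : ℝ) := by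
      rw [hL]
      refine Real.log_le_log (by linarith) ?_
      push_cast
      linarith
    linarith) (by
    have e1 : L ≤ Real.log ((y + 1 : ℕ) : ℝ) := by
      rw [hL]
      refine Real.log_le_log (by linarith) ?_
      push_cast
      linarith
    linarith)
  rw [← hG] at hmean
  -- the error
  obtain ⟨E, hE⟩ : ∃ E, E = ∑ m ∈ Ico (y + 1) (x + 1), PP Q (insert 0 H) m - G := ⟨_, rfl⟩
  rw [← hE] at hmean
  have hQa : (Q : ℝ) ≤ η / 2 * a := by
    have e1 : (2 * Q / η) ^ 2 ≤ a ^ 2 := by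
      rw [ha2]
      have e2 : (4 * (Q : ℝ) ^ 2 + 1) * L ^ (k + 1) ≤ c0 Q k C * η ^ 2 * y := by
        have e3 := mul_le_mul_of_nonneg_left h5 (show (0 : ℝ) ≤ 4 * Q ^ 2 + 1 by positivity)
        refine e3.trans (le_of_eq ?_)
        field_simp
      rw [mul_div_assoc', div_le_iff₀ (by positivity)] at hpr
      have e3 : 4 * (Q : ℝ) ^ 2 * L ^ (k + 1) ≤ P * η ^ 2 * L ^ (k + 1) := by
        have e4 := mul_le_mul_of_nonneg_right hpr (sq_nonneg η)
        have e5 : 0 < L ^ (k + 1) := by positivity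
        linarith
      have e4 := le_of_mul_le_mul_right e3 (by positivity : 0 < L ^ (k + 1))
      have e5 : (2 * (Q : ℝ) / η) ^ 2 = 4 * Q ^ 2 / η ^ 2 := by ring
      rw [e5, div_le_iff₀ (by positivity)]
      have e6 : P * η ^ 2 ≤ 2 * P * L * η ^ 2 := by
        refine mul_le_mul_of_nonneg_right ?_ (sq_nonneg η)
        nlinarith
      linarith
    have e2 := abs_le_of_sq_le_sq' e1 ha0.le |>.2
    rw [div_le_iff₀ hη] at e2
    linarith
  have hDx : DD Q A H x ω * b = DD Q A H y ω * a + Ic Q A H y x ω + E := by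
    have e1 : DD Q A H x ω * b = Nt A H 1 (x + 1) ω - P' := by
      unfold DD
      rw [← hP', ← hL', ← hb]
      exact div_mul_cancel₀ _ hb0.ne'
    have e2 : DD Q A H y ω * a = Nt A H 1 (y + 1) ω - P := by
      unfold DD
      rw [← hP, ← hL, ← ha]
      exact div_mul_cancel₀ _ ha0.ne'
    have e3 := Nt_add A H (a := 1) (b := y + 1) (c := x + 1) (by omega) (by omega) ω
    have e4 : Ic Q A H y x ω = Nt A H (y + 1) (x + 1) ω - ∑ m ∈ Ico (y + 1) (x + 1), PP Q (insert 0 H) m := rfl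
    rw [e1, e2, e4, hE]
    linarith
  rw [← ha] at hI
  obtain ⟨u, hu⟩ : ∃ u, u = DD Q A H y ω := ⟨_, rfl⟩
  obtain ⟨v, hv⟩ : ∃ v, v = DD Q A H x ω := ⟨_, rfl⟩
  obtain ⟨I, hId⟩ : ∃ I, I = Ic Q A H y x ω := ⟨_, rfl⟩
  rw [← hu, ← hv, ← hId] at hDx
  rw [← hId] at hI
  rw [← hu, ← hv]
  have h7 : (v - u) * b = u * (a - b) + I + E := by linarith
  have h8 : |v - u| * b ≤ η * (1 + |u|) * b := by
    rw [← abs_of_pos hb0, ← abs_mul, h7, abs_of_pos hb0]
    have e1 : |u * (a - b) + I + E| ≤ |u| * (b - a) + |I| + |E| := by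
      refine (abs_add_le _ _).trans (add_le_add_left ((abs_add_le _ _).trans (add_le_add_left ?_ _)) _)
      rw [abs_mul, abs_sub_comm, abs_of_nonneg (by linarith : 0 ≤ b - a)]
    have e2 : |u| * (b - a) ≤ |u| * (η / 2 * a) := mul_le_mul_of_nonneg_left (by linarith) (abs_nonneg _)
    have e3 : |u| * (η / 2 * a) ≤ |u| * (η * b) := by
      refine mul_le_mul_of_nonneg_left ?_ (abs_nonneg _)
      nlinarith
    have e4 : η / 2 * a + η / 2 * a ≤ η * b := by nlinarith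
    linarith
  exact le_of_mul_le_mul_right h8 hb0

theorem uni_tr {Q k : ℕ} (hA : IsModel μ (level Q) A) (hQ : 1 ≤ Q) {B C : ℝ} (hB : 0 ≤ B) (hC : 0 < C) {η : ℝ}
    (hη : 0 < η) : ∃ δ > 0, δ ≤ 1 ∧ ∀ᵐ ω ∂μ, ∀ᶠ x : ℕ in atTop, ∀ H, Hk Q k B C (gr δ 1 x) H →
      |DD Q A H x ω - DD Q A H (gr δ 1 x) ω| ≤ η * (1 + |DD Q A H (gr δ 1 x) ω|) := by
  obtain ⟨δ₀, hδ0, hδ1, hinc⟩ := inc_uni (k := k) hA hQ hB hC (ε := η / 2) (Z := k * C + 3) (by positivity) (by positivity)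
  obtain ⟨δ, hδ⟩ : ∃ δ, δ = min δ₀ (η / 6) := ⟨_, rfl⟩
  have hd0 : 0 < δ := by rw [hδ]; exact lt_min hδ0 (by positivity)
  have hd1 : δ ≤ δ₀ := by rw [hδ]; exact min_le_left _ _
  have hd2 : 6 * δ ≤ η := by
    have : δ ≤ η / 6 := by rw [hδ]; exact min_le_right _ _
    linarith
  refine ⟨δ, hd0, hd1.trans hδ1, ?_⟩
  obtain ⟨E, hE⟩ : ∃ E : ℕ → Set Ω, E = fun y => {ω | ∃ H, Hk Q k B C y H ∧ ω ∈ ⋃ v ∈ (range (2 * y + 1)).filter
      (fun v => y ≤ v ∧ (v : ℝ) ≤ y + δ * y), {ω | η / 2 * Real.sqrt (2 * pr Q H y * Real.log y) ≤ |Ic Q A H y v ω|}} := ⟨_, rfl⟩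
  have hb : ∀ᶠ y : ℕ in atTop, μ.real (E y) ≤ (y : ℝ) ^ (-(1 : ℝ)) := by
    rw [hE]
    refine union_HF (k := k) (C := C) hB (M := 6) (a := k * C + 2) (a' := 1) ?_ (by linarith) (by linarith)
    filter_upwards [hinc, eventually_ge_atTop 1] with y h1 h2 H hH
    have hy : (0 : ℝ) < y := by exact_mod_cast h2
    have hy1 : (1 : ℝ) ≤ y := by exact_mod_cast h2
    refine (measureReal_biUnion_finset_le _ _).trans ?_
    refine (sum_le_sum (g := fun _ => 2 * (y : ℝ) ^ (-(k * C + 3))) (fun v hv => ?_)).trans ?_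
    · rw [mem_filter] at hv
      have h3 : δ * y ≤ δ₀ * y := mul_le_mul_of_nonneg_right hd1 hy.le
      exact h1 H hH v hv.2.1 (by linarith [hv.2.2])
    · rw [sum_const, nsmul_eq_mul]
      have h3 : ((((range (2 * y + 1)).filter (fun v : ℕ => y ≤ v ∧ (v : ℝ) ≤ y + δ * y)).card : ℕ) : ℝ) ≤ 3 * y := by
        have e1 := card_filter_le (range (2 * y + 1)) (fun v : ℕ => y ≤ v ∧ (v : ℝ) ≤ y + δ * y)
        rw [card_range] at e1
        have e2 : ((((range (2 * y + 1)).filter (fun v : ℕ => y ≤ v ∧ (v : ℝ) ≤ y + δ * y)).card : ℕ) : ℝ) ≤ (2 * y + 1 : ℕ) := by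
          exact_mod_cast e1
        push_cast at e2
        linarith
      refine (mul_le_mul_of_nonneg_right h3 (by positivity)).trans (le_of_eq ?_)
      have e1 : (y : ℝ) ^ (-(k * C + 2)) = y * (y : ℝ) ^ (-(k * C + 3)) := by
        nth_rewrite 2 [← Real.rpow_one (y : ℝ)]
        rw [← Real.rpow_add hy]
        congr 1
        ring
      rw [e1]
      ring
  have hgr : Tendsto (gr δ 1) atTop atTop := by
    rw [tendsto_atTop]
    intro b
    filter_upwards [gr_near hd0 one_pos, eventually_ge_atTop (2 * b)] with x h1 h2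
    obtain ⟨_, h3⟩ := h1
    rw [Real.rpow_one] at h3
    have e1 : δ * gr δ 1 x ≤ 1 * gr δ 1 x := mul_le_mul_of_nonneg_right (hd1.trans hδ1) (Nat.cast_nonneg _)
    have e2 : (x : ℝ) ≤ 2 * gr δ 1 x := by linarith
    have e3 : x ≤ 2 * gr δ 1 x := by exact_mod_cast e2
    omega
  filter_upwards [grid_bc hd0 one_pos le_rfl (by norm_num) zero_le_one hb] with ω hω
  have htr := hgr.eventually (tr_det (A := A) (k := k) hQ hB hC hη hd0 hd2 (hd1.trans hδ1))
  filter_upwards [hω, htr, gr_near hd0 one_pos, hgr.eventually (eventually_ge_atTop 1)] with x h1 h2 h3 h4 H hH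
  rw [Real.rpow_one] at h3
  refine h2 H hH x h3.1 h3.2 ω ?_
  by_contra hcon
  push Not at hcon
  refine h1 ?_
  rw [hE]
  refine ⟨H, hH, ?_⟩
  rw [Set.mem_iUnion₂]
  refine ⟨x, ?_, hcon⟩
  rw [mem_filter, mem_range]
  refine ⟨?_, h3.1, h3.2⟩
  have e1 : δ * gr δ 1 x ≤ 1 * gr δ 1 x := mul_le_mul_of_nonneg_right (hd1.trans hδ1) (Nat.cast_nonneg _)
  have e2 : (x : ℝ) ≤ 2 * gr δ 1 x := by linarith [h3.2]
  have e3 : x ≤ 2 * gr δ 1 x := by exact_mod_cast e2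
  omega

end Pool.Agent.Q106.MD
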