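import Pool.Agent.Q106.MD.UHi
import Pool.Agent.Q106.UR.Exi

/-!
# Typical initial segments of the random set
-/

set_option autoImplicit false

namespace Pool.Agent.Q106.MD

open Finset MeasureTheory ProbabilityTheory Filter Pool.Agent.Q120.GM Pool.Agent.Q106.UR
open scoped Topology

/-- Typical initial segments. -/
structure Ty (Q : ℕ) (η : ℝ) (x : ℕ) (t : Finset ℕ) : Prop where
  sub : t ⊆ Icc 1 x
  cop : ∀ m ∈ t, m.Coprime Q
  prof : ∀ y ≤ x, |(((t ∩ Icc 2 y).card : ℕ) : ℝ) - ∑ m ∈ Ico 2 (y + 1), (Real.log m)⁻¹| ≤ Real.sqrt x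
  ovl : ∀ a, 1 ≤ a → (((t.filter (fun m => m + a ∈ t)).card : ℕ) : ℝ) ≤ η * (x / Real.log x)

theorem sing_zero {Q : ℕ} (hQ : 1 ≤ Q) : sing Q {0} = 1 := by
  have hQ0 : (Q : ℝ) ≠ 0 := by
    have : (0 : ℝ) < Q := by exact_mod_cast hQ
    exact this.ne'
  have hφ : (Nat.totient Q : ℝ) ≠ 0 := by
    have h1 : 0 < Nat.totient Q := Nat.totient_pos.2 hQ
    have : (0 : ℝ) < Nat.totient Q := by exact_mod_cast h1
    exact this.ne'
  unfold sing cc
  have h1 : (range Q).filter (Good Q {0}) = (range Q).filter (fun n => Q.Coprime n) := by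
    refine filter_congr (fun n _ => ?_)
    unfold Good
    simp only [mem_singleton, forall_eq, add_zero]
    exact Nat.coprime_comm
  rw [h1, ← Nat.totient_eq_card_coprime, card_singleton, pow_one]
  field_simp

/-- The sum of the `1 / log m` is not too large. -/
theorem sum_inv_log_le : ∀ᶠ x : ℕ in atTop, (∑ m ∈ Ico 2 (x + 1), (Real.log m)⁻¹) * Real.log x ≤ 3 * x := by
  filter_upwards [ev_power (2 / Real.log 2) 1 (show 0 < (1 : ℝ) / 2 by norm_num), eventually_ge_atTop 4,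
    (rpow_tendsto (θ := 1 / 2) (by norm_num)).eventually_ge_atTop 3, log_tendsto.eventually_ge_atTop 1] with x h1 h2 h3 h4
  have hx : (4 : ℝ) ≤ x := by exact_mod_cast h2
  have hl2 : 0 < Real.log 2 := Real.log_pos (by norm_num)
  obtain ⟨X, hX⟩ : ∃ X, X = (x : ℝ) ^ ((1 : ℝ) / 2) := ⟨_, rfl⟩
  rw [← hX] at h1 h3
  have hX2 : X ^ 2 = x := by
    rw [hX, ← Real.rpow_natCast, ← Real.rpow_mul (by linarith)]
    norm_num
  obtain ⟨y, hy⟩ : ∃ y : ℕ, y = ⌈X⌉₊ := ⟨_, rfl⟩
  have hy1 : X ≤ y := by rw [hy]; exact Nat.le_ceil _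
  have hy2 : (y : ℝ) < X + 1 := by rw [hy]; exact Nat.ceil_lt_add_one (by linarith)
  have hyx : y ≤ x := by
    have : (y : ℝ) ≤ x := by nlinarith
    exact_mod_cast this
  have hy3 : 2 ≤ y := by
    have : (2 : ℝ) ≤ y := by linarith
    exact_mod_cast this
  have hly : 1 / 2 * Real.log x ≤ Real.log y := by
    have e1 : Real.log X = 1 / 2 * Real.log x := by rw [hX, Real.log_rpow (by linarith)]
    rw [← e1]
    exact Real.log_le_log (by linarith) hy1
  have hL0 : 0 < Real.log x := by linarith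
  rw [← sum_Ico_consecutive _ hy3 (show y ≤ x + 1 by omega)]
  have h5 : ∑ m ∈ Ico 2 y, (Real.log m)⁻¹ ≤ X * (Real.log 2)⁻¹ := by
    refine (sum_le_sum (g := fun _ => (Real.log 2)⁻¹) (fun m hm => ?_)).trans ?_
    · have e1 : (2 : ℝ) ≤ m := by exact_mod_cast (mem_Ico.1 hm).1
      exact inv_anti₀ hl2 (Real.log_le_log (by norm_num) e1)
    · rw [sum_const, Nat.card_Ico, nsmul_eq_mul]
      refine mul_le_mul_of_nonneg_right ?_ (inv_nonneg.2 hl2.le)
      rw [Nat.cast_sub hy3]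
      push_cast
      linarith
  have h6 : ∑ m ∈ Ico y (x + 1), (Real.log m)⁻¹ ≤ (x : ℝ) * (2 / Real.log x) := by
    refine (sum_le_sum (g := fun _ => 2 / Real.log x) (fun m hm => ?_)).trans ?_
    · have e1 : (y : ℝ) ≤ m := by exact_mod_cast (mem_Ico.1 hm).1
      have e2 : 1 / 2 * Real.log x ≤ Real.log m := hly.trans (Real.log_le_log (by linarith) e1)
      rw [inv_eq_one_div, div_le_div_iff₀ (by linarith) hL0]
      linarith
    · rw [sum_const, Nat.card_Ico, nsmul_eq_mul]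
      refine mul_le_mul_of_nonneg_right ?_ (by positivity)
      rw [Nat.cast_sub (by omega)]
      push_cast
      have : (2 : ℝ) ≤ y := by exact_mod_cast hy3
      linarith
  have h7 : X * (Real.log 2)⁻¹ * Real.log x ≤ x := by
    rw [pow_one, div_mul_eq_mul_div, div_le_iff₀ hl2] at h1
    have e1 : X * (Real.log 2)⁻¹ * Real.log x = X * Real.log x / Real.log 2 := by ring
    rw [e1, div_le_iff₀ hl2]
    have e2 : X * Real.log x ≤ X * (X * Real.log 2) := mul_le_mul_of_nonneg_left (by linarith) (by linarith)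
    have e3 : X * (X * Real.log 2) = X ^ 2 * Real.log 2 := by ring
    rw [e3, hX2] at e2
    exact e2
  have h8 : (x : ℝ) * (2 / Real.log x) * Real.log x = 2 * x := by field_simp
  have h9 := mul_le_mul_of_nonneg_right h5 hL0.le
  have h10 := mul_le_mul_of_nonneg_right h6 hL0.le
  rw [add_mul]
  linarith

variable {Ω : Type*} [MeasurableSpace Ω] {μ : Measure Ω} [IsProbabilityMeasure μ] {A : Ω → Set ℕ}

omit [MeasurableSpace Ω] in
theorem Nt_empty (ω : Ω) (x : ℕ) : Nt A ∅ 1 (x + 1) ω = (((trc A (Icc 1 x) ω).card : ℕ) : ℝ) := by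
  unfold Nt
  rw [nm_card]
  congr 1

/-- The profile. -/
theorem ae_prof {Q : ℕ} (hA : IsModel μ (level Q) A) (hQ : 1 ≤ Q) : ∀ᵐ ω ∂μ, ∀ᶠ x : ℕ in atTop, ∀ y ≤ x,
    |((((trc A (Icc 1 x) ω) ∩ Icc 2 y).card : ℕ) : ℝ) - ∑ m ∈ Ico 2 (y + 1), (Real.log m)⁻¹| ≤ Real.sqrt x := by
  filter_upwards [uni_up1 (k := 0) hA hQ (C := 1) one_pos (ε := 1 / 24) (by norm_num)] with ω hω
  have hH : ∀ x, Hk Q 0 1 1 x ∅ := fun x => ⟨rfl, notMem_empty _, fun h hh => absurd hh (notMem_empty _), by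
    rw [show insert 0 (∅ : Finset ℕ) = {0} from rfl, sing_zero hQ]
    exact one_pos⟩
  have hpr : ∀ x, pr Q ∅ x = ∑ m ∈ Ico 2 (x + 1), (Real.log m)⁻¹ := by
    intro x
    unfold pr lg gp
    rw [show insert 0 (∅ : Finset ℕ) = {0} from rfl, sing_zero hQ, one_mul]
    refine sum_congr rfl (fun m _ => ?_)
    rw [prod_singleton, Nat.cast_zero, add_zero]
  have hdec : ∀ x, |((((trc A (Icc 1 x) ω) ∩ Icc 2 x).card : ℕ) : ℝ) - (((trc A (Icc 1 x) ω).card : ℕ) : ℝ)| ≤ 1 := by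
    intro x
    have h1 : (trc A (Icc 1 x) ω).card ≤ ((trc A (Icc 1 x) ω) ∩ Icc 2 x).card + 1 := by
      have h2 : trc A (Icc 1 x) ω ⊆ insert 1 ((trc A (Icc 1 x) ω) ∩ Icc 2 x) := by
        intro m hm
        have h3 := (mem_trc.1 hm).1
        rw [mem_Icc] at h3
        rw [mem_insert, mem_inter, mem_Icc]
        by_cases h4 : m = 1
        · exact Or.inl h4
        · exact Or.inr ⟨hm, by omega, h3.2⟩
      exact (card_le_card h2).trans (card_insert_le _ _)
    have h2 : ((trc A (Icc 1 x) ω) ∩ Icc 2 x).card ≤ (trc A (Icc 1 x) ω).card := card_le_card inter_subset_left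
    have h1' : (((trc A (Icc 1 x) ω).card : ℕ) : ℝ) ≤ ((((trc A (Icc 1 x) ω) ∩ Icc 2 x).card : ℕ) : ℝ) + 1 := by
      exact_mod_cast h1
    have h2' : ((((trc A (Icc 1 x) ω) ∩ Icc 2 x).card : ℕ) : ℝ) ≤ (((trc A (Icc 1 x) ω).card : ℕ) : ℝ) := by
      exact_mod_cast h2
    rw [abs_le]
    constructor <;> linarith
  have hbase : ∀ᶠ y : ℕ in atTop,
      |((((trc A (Icc 1 y) ω) ∩ Icc 2 y).card : ℕ) : ℝ) - ∑ m ∈ Ico 2 (y + 1), (Real.log m)⁻¹| ≤ Real.sqrt y := by
    filter_upwards [hω, sum_inv_log_le, log_tendsto.eventually_ge_atTop 1, eventually_ge_atTop 4] with y h1 h2 h3 h4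
    have hy : (4 : ℝ) ≤ y := by exact_mod_cast h4
    have h5 := h1 ∅ (hH y)
    obtain ⟨P, hP⟩ : ∃ P, P = ∑ m ∈ Ico 2 (y + 1), (Real.log m)⁻¹ := ⟨_, rfl⟩
    obtain ⟨N, hN⟩ : ∃ N : ℝ, N = (((trc A (Icc 1 y) ω).card : ℕ) : ℝ) := ⟨_, rfl⟩
    have hP0 : 0 < P := by
      rw [hP]
      refine sum_pos (fun m hm => inv_pos.2 (Real.log_pos ?_)) ⟨2, by rw [mem_Ico]; omega⟩
      have : (2 : ℝ) ≤ m := by exact_mod_cast (mem_Ico.1 hm).1
      linarith
    unfold DD at h5
    rw [Nt_empty, hpr, ← hP, ← hN] at h5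
    rw [← hP] at h2 ⊢
    have h6 : 0 < 2 * P * Real.log y := by positivity
    rw [div_pow, Real.sq_sqrt h6.le, div_le_iff₀ h6] at h5
    have h7 : (N - P) ^ 2 ≤ y / 4 := by
      refine h5.trans ?_
      have e1 : ((0 : ℕ) : ℝ) * 1 + 1 / 24 = 1 / 24 := by norm_num
      rw [e1]
      linarith
    have h8 : |N - P| ≤ Real.sqrt y / 2 := by
      refine abs_le_of_sq_le_sq ?_ (by positivity)
      rw [div_pow, Real.sq_sqrt (by linarith)]
      linarith
    have h9 := hdec y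
    rw [← hN] at h9
    have h10 : 1 ≤ Real.sqrt y / 2 := by
      have : Real.sqrt 4 ≤ Real.sqrt y := Real.sqrt_le_sqrt hy
      rw [show (4 : ℝ) = 2 ^ 2 by norm_num, Real.sqrt_sq (by norm_num)] at this
      linarith
    have h11 := abs_add_le (((((trc A (Icc 1 y) ω) ∩ Icc 2 y).card : ℕ) : ℝ) - N) (N - P)
    rw [sub_add_sub_cancel] at h11
    linarith
  obtain ⟨N₀, hN₀⟩ := eventually_atTop.1 hbase
  filter_upwards [eventually_ge_atTop (16 * (N₀ + 1) ^ 2)] with x hx y hyx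
  have hx' : (16 * ((N₀ : ℝ) + 1) ^ 2) ≤ x := by exact_mod_cast hx
  have hsub : trc A (Icc 1 x) ω ∩ Icc 2 y = trc A (Icc 1 y) ω ∩ Icc 2 y := by
    ext m
    rw [mem_inter, mem_inter, mem_trc, mem_trc, mem_Icc, mem_Icc, mem_Icc]
    constructor
    · rintro ⟨⟨h1, h2⟩, h3⟩
      exact ⟨⟨⟨h1.1, h3.2⟩, h2⟩, h3⟩
    · rintro ⟨⟨h1, h2⟩, h3⟩
      exact ⟨⟨⟨h1.1, h3.2.trans hyx⟩, h2⟩, h3⟩
  rw [hsub]
  by_cases hy : N₀ ≤ y
  · refine (hN₀ y hy).trans (Real.sqrt_le_sqrt ?_)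
    exact_mod_cast hyx
  · push Not at hy
    have h1 : ((((trc A (Icc 1 y) ω) ∩ Icc 2 y).card : ℕ) : ℝ) ≤ N₀ := by
      have h2 : ((trc A (Icc 1 y) ω) ∩ Icc 2 y).card ≤ (Icc 2 y).card := card_le_card inter_subset_right
      rw [Nat.card_Icc] at h2
      have h3 : ((trc A (Icc 1 y) ω) ∩ Icc 2 y).card ≤ N₀ := by omega
      exact_mod_cast h3
    have hl2 : 0 < Real.log 2 := Real.log_pos (by norm_num)
    have h2 : ∑ m ∈ Ico 2 (y + 1), (Real.log m)⁻¹ ≤ 2 * N₀ := by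
      refine (sum_le_sum (g := fun _ => (2 : ℝ)) (fun m hm => ?_)).trans ?_
      · have e1 : (2 : ℝ) ≤ m := by exact_mod_cast (mem_Ico.1 hm).1
        have e2 : 1 / 2 ≤ Real.log 2 := by
          have := Real.log_two_gt_d9
          linarith
        have e3 : 1 / 2 ≤ Real.log m := e2.trans (Real.log_le_log (by norm_num) e1)
        rw [show (2 : ℝ) = (1 / 2)⁻¹ by norm_num]
        exact inv_anti₀ (by norm_num) e3
      · rw [sum_const, Nat.card_Ico, nsmul_eq_mul]
        have : ((y + 1 - 2 : ℕ) : ℝ) ≤ N₀ := by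
          have : y + 1 - 2 ≤ N₀ := by omega
          exact_mod_cast this
        linarith
    have h3 : 0 ≤ ∑ m ∈ Ico 2 (y + 1), (Real.log m)⁻¹ := sum_nonneg (fun m _ => inv_nonneg.2 (Real.log_natCast_nonneg m))
    have h4 : 4 * ((N₀ : ℝ) + 1) ≤ Real.sqrt x := by
      refine Real.le_sqrt_of_sq_le ?_
      nlinarith
    have h5 : (0 : ℝ) ≤ N₀ := Nat.cast_nonneg _
    have h6 : (0 : ℝ) ≤ ((((trc A (Icc 1 y) ω) ∩ Icc 2 y).card : ℕ) : ℝ) := Nat.cast_nonneg _
    rw [abs_le]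
    constructor <;> linarith

omit [MeasurableSpace Ω] in
theorem sing_of_good {Q : ℕ} (hQ : 1 ≤ Q) {S : Finset ℕ} {m : ℕ} (h : Good Q S m) : 0 < sing Q S := by
  have h1 := count_block Q S m
  have h2 : 1 ≤ cc Q S := by
    rw [← h1]
    exact card_pos.2 ⟨m, by rw [mem_filter, mem_Ico]; exact ⟨⟨le_rfl, by omega⟩, h⟩⟩
  have h3 : (1 : ℝ) ≤ cc Q S := by exact_mod_cast h2
  have hQ0 : (0 : ℝ) < Q := by exact_mod_cast hQ
  rw [sing_eq]
  have := qq_pos hQ
  positivity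

/-- The overlaps. -/
theorem ae_ovl {Q : ℕ} (hA : IsModel μ (level Q) A) (hQ : 1 ≤ Q) {η : ℝ} (hη : 0 < η) : ∀ᵐ ω ∂μ, ∀ᶠ x : ℕ in atTop,
    ∀ a, 1 ≤ a → ((((trc A (Icc 1 x) ω).filter (fun m => m + a ∈ trc A (Icc 1 x) ω)).card : ℕ) : ℝ) ≤
      η * (x / Real.log x) := by
  have hQ0 : (0 : ℝ) < Q := by exact_mod_cast hQ
  have hq := qq_pos hQ
  have hS : ∀ a : ℕ, 1 ≤ a → ({0, a} : Finset ℕ).card = 2 := by
    intro a ha
    rw [card_pair (by omega)]
  have hLL : ∀ x a : ℕ, 1 ≤ a → LL {0, a} x = Real.log x * Real.log ((x : ℝ) + a) := by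
    intro x a ha
    unfold LL
    rw [prod_pair (by omega)]
    simp
  obtain ⟨E, hE⟩ : ∃ E : ℕ → Set Ω, E = fun x => ⋃ a ∈ (Icc 1 x).filter (fun a => 0 < sing Q {0, a}),
    {ω | 2 * MM Q {0, a} x ≤ NN A {0, a} x ω} := ⟨_, rfl⟩
  have hII : 38 / 100 ≤ II 2 := by
    unfold II
    have := Real.log_two_gt_d9
    linarith
  have hb : ∀ᶠ x : ℕ in atTop, μ.real (E x) ≤ 3 * (1 / (x : ℝ) ^ 2) := by
    filter_upwards [tail_up (K := 2) hA hQ (by norm_num) (u := 2) (ε := 1 / 10) (by norm_num) (by norm_num),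
      ev_log_pow 3 (show 0 < 1 / (24 * (Q : ℝ)) by positivity), eventually_ge_atTop 3, log_tendsto.eventually_ge_atTop 1]
      with x h1 h2 h3 h4
    have hx : (3 : ℝ) ≤ x := by exact_mod_cast h3
    have hl : 0 < Real.log x := by linarith
    rw [hE]
    refine (measureReal_biUnion_finset_le _ _).trans ?_
    have h5 : ∀ a ∈ (Icc 1 x).filter (fun a => 0 < sing Q {0, a}), μ.real {ω | 2 * MM Q {0, a} x ≤ NN A {0, a} x ω} ≤
        3 * (1 / (x : ℝ) ^ 3) := by
      intro a ha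
      rw [mem_filter, mem_Icc] at ha
      obtain ⟨⟨ha1, ha2⟩, ha3⟩ := ha
      refine (h1 {0, a} (hS a ha1) ha3).trans ?_
      have e0 : (2 : ℝ) + 1 = 3 := by norm_num
      rw [e0]
      refine mul_le_mul_of_nonneg_left ?_ (by norm_num)
      have ha2' : (a : ℝ) ≤ x := by exact_mod_cast ha2
      have ha1' : (1 : ℝ) ≤ a := by exact_mod_cast ha1
      have e1 : Real.log ((x : ℝ) + a) ≤ 2 * Real.log x := by
        have : (2 : ℝ) * Real.log x = Real.log (x ^ 2) := by rw [Real.log_pow]; norm_num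
        rw [this]
        exact Real.log_le_log (by linarith) (by nlinarith)
      have e2 : x / (2 * Q * Real.log x ^ 2) ≤ MM Q {0, a} x := by
        unfold MM
        rw [hLL x a ha1]
        have f1 := sing_ge hQ ha3
        have f2 : 0 < Real.log ((x : ℝ) + a) := Real.log_pos (by linarith)
        rw [div_le_div_iff₀ (by positivity) (by positivity)]
        have f3 : 1 ≤ Q * sing Q {0, a} := by
          rw [div_le_iff₀ hQ0] at f1
          linarith
        have f4 : (x : ℝ) * (Real.log x * Real.log ((x : ℝ) + a)) ≤ x * (Real.log x * (2 * Real.log x)) :=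
          mul_le_mul_of_nonneg_left (mul_le_mul_of_nonneg_left e1 hl.le) (by linarith)
        have f5 : (x : ℝ) * (Real.log x * (2 * Real.log x)) * 1 ≤ x * (Real.log x * (2 * Real.log x)) * (Q * sing Q {0, a}) :=
          mul_le_mul_of_nonneg_left f3 (by positivity)
        linarith
      have e3 : 3 * Real.log x ≤ MM Q {0, a} x * (II 2 - 1 / 10) := by
        have f1 : 28 / 100 ≤ II 2 - 1 / 10 := by linarith
        have f2 : 12 * Real.log x ≤ x / (2 * Q * Real.log x ^ 2) := by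
          rw [le_div_iff₀ (by positivity)]
          have f3 := mul_le_mul_of_nonneg_left h2 (show 0 ≤ 24 * (Q : ℝ) by positivity)
          have f4 : 24 * (Q : ℝ) * (1 / (24 * Q) * x) = x := by field_simp
          nlinarith
        have f3 : 0 ≤ MM Q {0, a} x := le_trans (by positivity) e2
        nlinarith
      have e4 : Real.exp (-(MM Q {0, a} x * (II 2 - 1 / 10))) ≤ Real.exp (-(3 * Real.log x)) := Real.exp_le_exp.2 (by linarith)
      refine e4.trans (le_of_eq ?_)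
      rw [Real.exp_neg, one_div]
      congr 1
      rw [← Real.exp_log (pow_pos (by linarith : (0 : ℝ) < x) 3), Real.log_pow]
      norm_num
    refine (sum_le_sum h5).trans ?_
    rw [sum_const, nsmul_eq_mul]
    have h6 : ((((Icc 1 x).filter (fun a => 0 < sing Q {0, a})).card : ℕ) : ℝ) ≤ x := by
      have e1 := card_filter_le (Icc 1 x) (fun a => 0 < sing Q {0, a})
      rw [Nat.card_Icc, Nat.add_sub_cancel] at e1
      exact_mod_cast e1
    refine (mul_le_mul_of_nonneg_right h6 (by positivity)).trans (le_of_eq ?_)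
    field_simp
  filter_upwards [bc (summable_sq.mul_left 3) hb, ae_coprime hA] with ω h1 h2
  filter_upwards [h1, log_tendsto.eventually_ge_atTop 1, log_tendsto.eventually_ge_atTop (2 * qq Q ^ 2 / η),
    eventually_ge_atTop 3] with x h3 h4 h5 h6 a ha
  have hx : (3 : ℝ) ≤ x := by exact_mod_cast h6
  have hl : 0 < Real.log x := by linarith
  by_cases hem : ((trc A (Icc 1 x) ω).filter (fun m => m + a ∈ trc A (Icc 1 x) ω)) = ∅
  · rw [hem, card_empty, Nat.cast_zero]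
    positivity
  · obtain ⟨m, hm⟩ := Finset.nonempty_iff_ne_empty.2 hem
    rw [mem_filter, mem_trc, mem_trc, mem_Icc, mem_Icc] at hm
    obtain ⟨⟨⟨m1, m2⟩, m3⟩, ⟨m4, m5⟩, m6⟩ := hm
    have hg : Good Q {0, a} m := by
      intro h hh
      rw [mem_insert, mem_singleton] at hh
      rcases hh with rfl | rfl
      · exact h2 _ m3
      · exact h2 _ m6
    have hs := sing_of_good hQ hg
    have h7 : NN A {0, a} x ω < 2 * MM Q {0, a} x := by
      by_contra hcon
      push Not at hcon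
      refine h3 ?_
      rw [hE, Set.mem_iUnion₂]
      exact ⟨a, by rw [mem_filter, mem_Icc]; exact ⟨⟨ha, by omega⟩, hs⟩, hcon⟩
    have h8 : ((((trc A (Icc 1 x) ω).filter (fun m => m + a ∈ trc A (Icc 1 x) ω)).card : ℕ) : ℝ) ≤ NN A {0, a} x ω := by
      unfold NN
      rw [nm_card]
      have : (trc A (Icc 1 x) ω).filter (fun m => m + a ∈ trc A (Icc 1 x) ω) ⊆ oc A (Icc 1 x) (fun n => tl n {0, a}) ω := by
        intro n hn
        rw [mem_filter, mem_trc, mem_trc] at hn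
        rw [mem_oc]
        refine ⟨hn.1.1, fun b hb => ?_⟩
        obtain ⟨h, hh, rfl⟩ := mem_tl.1 hb
        rw [mem_insert, mem_singleton] at hh
        rcases hh with rfl | rfl
        · exact hn.1.2
        · exact hn.2.2
      exact_mod_cast card_le_card this
    refine h8.trans (h7.le.trans ?_)
    unfold MM
    rw [hLL x a ha]
    have ha1' : (1 : ℝ) ≤ a := by exact_mod_cast ha
    have f1 : Real.log x ≤ Real.log ((x : ℝ) + a) := Real.log_le_log (by linarith) (by linarith)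
    have f2 := sing_le hQ {0, a}
    rw [hS a ha] at f2
    have f0 : 0 < Real.log ((x : ℝ) + a) := by linarith
    rw [mul_div_assoc', mul_div_assoc', div_le_div_iff₀ (by positivity) hl]
    rw [div_le_iff₀ hη] at h5
    have f3 : 2 * sing Q {0, a} ≤ η * Real.log ((x : ℝ) + a) := by
      have := mul_le_mul_of_nonneg_left f1 hη.le
      linarith
    have f4 := mul_le_mul_of_nonneg_right f3 (show 0 ≤ (x : ℝ) * Real.log x by positivity)
    nlinarith

/-- **Initial segments are typical.** -/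
theorem ae_typ {Q : ℕ} (hA : IsModel μ (level Q) A) (hQ : 1 ≤ Q) {η : ℝ} (hη : 0 < η) : ∀ᵐ ω ∂μ, ∀ᶠ x : ℕ in atTop,
    Ty Q η x (trc A (Icc 1 x) ω) := by
  filter_upwards [ae_prof hA hQ, ae_ovl hA hQ hη, ae_coprime hA] with ω h1 h2 h3
  filter_upwards [h1, h2] with x h4 h5
  exact ⟨fun m hm => (mem_trc.1 hm).1, fun m hm => h3 m (mem_trc.1 hm).2, h4, h5⟩

end Pool.Agent.Q106.MD
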