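import Pool.Agent.Q106.MD.UMean
import Pool.Agent.Q106.MD.Spec

/-!
# Tuples with large shifts: uniform tails
-/

set_option autoImplicit false

namespace Pool.Agent.Q106.MD

open Finset MeasureTheory ProbabilityTheory Filter Pool.Agent.Q120.GM Pool.Agent.Q106.UR
open scoped Topology

/-- The lower end. -/
noncomputable def y0 (x : ℕ) : ℕ := ⌈(x : ℝ) ^ ((1 : ℝ) / 3)⌉₊

theorem y0_facts : ∀ᶠ x : ℕ in atTop, y0 x ≤ x ∧ 2 ≤ y0 x ∧ (y0 x : ℝ) ≤ 2 * (x : ℝ) ^ ((1 : ℝ) / 3) ∧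
    1 / 3 * Real.log x ≤ Real.log (y0 x) := by
  have h1 : Tendsto (fun x : ℕ => (x : ℝ) ^ ((1 : ℝ) / 3)) atTop atTop := rpow_tendsto (by norm_num)
  filter_upwards [h1.eventually_ge_atTop 2, eventually_ge_atTop 1] with x h2 h3
  have hx : (1 : ℝ) ≤ x := by exact_mod_cast h3
  have h4 : (x : ℝ) ^ ((1 : ℝ) / 3) ≤ y0 x := Nat.le_ceil _
  have h5 : (y0 x : ℝ) < (x : ℝ) ^ ((1 : ℝ) / 3) + 1 := Nat.ceil_lt_add_one (by positivity)
  have h6 : (x : ℝ) ^ ((1 : ℝ) / 3) * (x : ℝ) ^ ((1 : ℝ) / 3) ≤ x := by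
    rw [← Real.rpow_add (by linarith)]
    exact rpow_le_self' hx (by norm_num)
  refine ⟨?_, ?_, by linarith, ?_⟩
  · have : (y0 x : ℝ) ≤ x := by nlinarith
    exact_mod_cast this
  · have : (2 : ℝ) ≤ y0 x := by linarith
    exact_mod_cast this
  · rw [← Real.log_rpow (by linarith)]
    exact Real.log_le_log (by positivity) h4

/-- The pairs `(x, H)`. -/
abbrev KK (Q k : ℕ) (B C : ℝ) : Type := {n : ℕ × Finset ℕ // Hk Q k B C n.1 n.2}

/-- `x → ∞`. -/
def ll (Q k : ℕ) (B C : ℝ) : Filter (KK Q k B C) := comap (fun n => n.1.1) atTop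

theorem ll_up {Q k : ℕ} {B C : ℝ} {P : KK Q k B C → Prop} (h : ∀ᶠ x : ℕ in atTop, ∀ H (hH : Hk Q k B C x H), P ⟨(x, H), hH⟩) :
    ∀ᶠ n in ll Q k B C, P n := by
  unfold ll
  rw [eventually_comap]
  filter_upwards [h] with x hx n hn
  obtain ⟨⟨x', H⟩, hH⟩ := n
  simp only at hn
  subst hn
  exact hx H hH

theorem ll_down {Q k : ℕ} {B C : ℝ} {P : KK Q k B C → Prop} (h : ∀ᶠ n in ll Q k B C, P n) :
    ∀ᶠ x : ℕ in atTop, ∀ H (hH : Hk Q k B C x H), P ⟨(x, H), hH⟩ := by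
  unfold ll at h
  rw [eventually_comap] at h
  filter_upwards [h] with x hx H hH
  exact hx _ rfl

theorem uni_sys {Q k : ℕ} (hQ : 1 ≤ Q) {B C : ℝ} (hB : 0 ≤ B) (hC : 0 < C) :
    PSys (r := 1) (level Q) (ll Q k B C) (fun n _ => Ico (y0 n.1.1) (n.1.1 + 1)) (fun n _ m => tl m (insert 0 n.1.2))
      (fun n _ => pr Q n.1.2 n.1.1) (fun n => c0 Q k C * ((n.1.1 : ℝ) / Real.log n.1.1 ^ (k + 1)))
      (fun n => Real.log n.1.1) (((k : ℝ) + 1) ^ 2 + 1) := by
  have hc0 := c0_pos (k := k) hQ hC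
  have hq := qq_pos hQ
  have hbig : ∀ R : ℝ, ∀ᶠ x : ℕ in atTop, R * Real.log x ≤ c0 Q k C * ((x : ℝ) / Real.log x ^ (k + 1)) := by
    intro R
    filter_upwards [ev_log_pow (k + 2) (show 0 < c0 Q k C / (|R| + 1) by positivity), log_tendsto.eventually_ge_atTop 1]
      with x h1 h2
    have hl : 0 < Real.log x := by linarith
    rw [mul_div_assoc', le_div_iff₀ (by positivity)]
    have h3 : (|R| + 1) * Real.log x ^ (k + 2) ≤ (|R| + 1) * (c0 Q k C / (|R| + 1) * x) :=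
      mul_le_mul_of_nonneg_left h1 (by positivity)
    have h4 : (|R| + 1) * (c0 Q k C / (|R| + 1) * x) = c0 Q k C * x := by field_simp
    have h5 : R * Real.log x * Real.log x ^ (k + 1) = R * Real.log x ^ (k + 2) := by ring
    have h6 : R * Real.log x ^ (k + 2) ≤ (|R| + 1) * Real.log x ^ (k + 2) :=
      mul_le_mul_of_nonneg_right (by linarith [le_abs_self R]) (by positivity)
    linarith
  refine ⟨log_tendsto.comp tendsto_comap, ?_, ?_, ?_, ?_, ?_, ?_, ?_, ?_, ?_⟩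
  · intro n i j i' j' _ _ h
    exact ⟨Subsingleton.elim _ _, (tl_inj (mem_insert_self _ _) (mem_insert_self _ _) h).1⟩
  · intro n i j _
    exact ⟨j, mem_tl.2 ⟨0, mem_insert_self _ _, rfl⟩⟩
  · have := sq_nonneg ((k : ℝ) + 1)
    linarith
  · intro n i j _
    have h1 := meets_card (r := 1) (fun _ => insert 0 n.1.2) (fun _ => Ico (y0 n.1.1) (n.1.1 + 1)) i j
    refine h1.trans (le_of_eq ?_)
    rw [Fin.sum_univ_one, n.2.card']
    push_cast
    ring
  · intro s hs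
    refine ll_up ?_
    filter_upwards [y0_facts, log_tendsto.eventually_ge_atTop (3 * qq Q / s), log_tendsto.eventually_ge_atTop 1]
      with x h1 h2 h3 H hH i m hm b hb
    have h4 : y0 x ≤ m := (mem_Ico.1 hm).1
    rw [mem_tl] at hb
    obtain ⟨h, _, rfl⟩ := hb
    have h5 : (y0 x : ℝ) ≤ m := by exact_mod_cast h4
    have h6 : (2 : ℝ) ≤ y0 x := by exact_mod_cast h1.2.1
    have h7 := h1.2.2.2
    have h8 : 0 < Real.log (y0 x) := by linarith
    refine (level_le (x := (y0 x : ℝ)) h8 (by linarith) ?_).trans ?_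
    · push_cast
      have : (0 : ℝ) ≤ h := Nat.cast_nonneg h
      linarith
    · rw [div_le_iff₀ hs] at h2
      rw [div_le_iff₀ h8]
      have := mul_le_mul_of_nonneg_left h7 hs.le
      linarith
  · refine ll_up ?_
    filter_upwards [pr_ge (k := k) hQ hB hC] with x h1 H hH i
    exact h1 H hH
  · intro R
    refine ll_up ?_
    filter_upwards [hbig R] with x h1 H hH
    exact h1
  · intro η hη
    refine ll_up ?_
    obtain ⟨M, hM⟩ : ∃ M, M = Q + 2 * (qq Q ^ (k + 1) * (Real.log 2)⁻¹ ^ (k + 1)) := ⟨_, rfl⟩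
    have hl2 : 0 < Real.log 2 := Real.log_pos (by norm_num)
    have hM0 : 0 < M := by
      rw [hM]
      have : (0 : ℝ) ≤ Q := Nat.cast_nonneg Q
      positivity
    filter_upwards [y0_facts, pr_ge (k := k) hQ hB hC, log_tendsto.eventually_ge_atTop (3 * qq Q),
      log_tendsto.eventually_ge_atTop 3, ev_power (M ^ 2 / (η ^ 2 * c0 Q k C)) (k + 1) (show 0 < (1 : ℝ) / 3 by norm_num),
      eventually_ge_atTop 1] with x h1 h2 h3 h4 h5 h6 H hH i
    obtain ⟨g1, g2, g3, g4⟩ := h1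
    have hx : (1 : ℝ) ≤ x := by exact_mod_cast h6
    obtain ⟨X, hX⟩ : ∃ X, X = (x : ℝ) ^ ((1 : ℝ) / 3) := ⟨_, rfl⟩
    have hX1 : 1 ≤ X := by rw [hX]; exact Real.one_le_rpow hx (by norm_num)
    rw [← hX] at g3 h5
    have hX3 : X ^ 3 = x := by
      rw [hX, ← Real.rpow_natCast, ← Real.rpow_mul (by linarith)]
      norm_num
    have e1 := mean_g hQ (insert 0 H) (a := y0 x) (b := x + 1) (by omega) (by linarith) (by linarith)
    have e2 : pr Q H x = sing Q (insert 0 H) * lg (insert 0 H) 2 (y0 x) + sing Q (insert 0 H) * lg (insert 0 H) (y0 x) (x + 1) := by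
      unfold pr
      rw [← mul_add, lg_add g2 (by omega)]
    have e3 : sing Q (insert 0 H) * lg (insert 0 H) 2 (y0 x) ≤ qq Q ^ (k + 1) * (Real.log 2)⁻¹ ^ (k + 1) * (2 * X) := by
      have f1 := sing_le hQ (insert 0 H)
      have f2 := lg_le (S := insert 0 H) (a := 2) (b := y0 x) le_rfl g2
      have f3 := gp_le (S := insert 0 H) (m := 2) (t := Real.log 2) hl2 (fun b _ => by
        have : (0 : ℝ) ≤ b := Nat.cast_nonneg b
        push_cast
        exact Real.log_le_log (by norm_num) (by linarith))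
      rw [hH.card'] at f1 f3
      have f4 : lg (insert 0 H) 2 (y0 x) ≤ 2 * X * (Real.log 2)⁻¹ ^ (k + 1) := by
        refine f2.trans ?_
        push_cast
        refine mul_le_mul (by linarith) f3 (gp_pos le_rfl).le (by linarith)
      have f5 := mul_le_mul f1 f4 (lg_nonneg le_rfl) (by positivity)
      refine f5.trans (le_of_eq (by ring))
    have e4 : 0 ≤ sing Q (insert 0 H) * lg (insert 0 H) 2 (y0 x) := mul_nonneg hH.sing.le (lg_nonneg le_rfl)
    have e5 : |∑ j ∈ Ico (y0 x) (x + 1), pT (level Q) (tl j (insert 0 H)) - pr Q H x| ≤ M * X := by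
      have f1 : ∑ j ∈ Ico (y0 x) (x + 1), pT (level Q) (tl j (insert 0 H)) = ∑ j ∈ Ico (y0 x) (x + 1), PP Q (insert 0 H) j := rfl
      rw [f1, e2]
      have f2 : M * X = Q * X + qq Q ^ (k + 1) * (Real.log 2)⁻¹ ^ (k + 1) * (2 * X) := by
        rw [hM]
        ring
      have f3 : (Q : ℝ) ≤ Q * X := le_mul_of_one_le_right (Nat.cast_nonneg Q) hX1
      rw [abs_le] at e1 ⊢
      constructor
      · linarith [e1.1]
      · linarith [e1.2, mul_nonneg hM0.le (by linarith : 0 ≤ X)]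
    refine e5.trans ?_
    have e6 : (M * X / η) ^ 2 ≤ pr Q H x := by
      refine le_trans ?_ (h2 H hH)
      rw [mul_div_assoc', le_div_iff₀ (by positivity)]
      rw [div_mul_eq_mul_div, div_le_iff₀ (by positivity)] at h5
      have f1 : (M * X / η) ^ 2 * Real.log x ^ (k + 1) = (M ^ 2 * Real.log x ^ (k + 1)) * X ^ 2 / η ^ 2 := by
        field_simp
      rw [f1, div_le_iff₀ (by positivity)]
      have f2 := mul_le_mul_of_nonneg_right h5 (show 0 ≤ X ^ 2 by positivity)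
      refine f2.trans (le_of_eq ?_)
      rw [← hX3]
      ring
    have e7 := Real.le_sqrt_of_sq_le e6
    rw [div_le_iff₀ hη] at e7
    show M * X ≤ η * Real.sqrt (pr Q H x)
    linarith
  · intro η hη
    refine ll_up ?_
    filter_upwards [ev_log_pow (3 * k + 4) (show 0 < η * c0 Q k C ^ 3 / 4 by positivity), log_tendsto.eventually_ge_atTop 1,
      eventually_ge_atTop 1] with x h1 h2 h3 H hH
    have hx : (1 : ℝ) ≤ x := by exact_mod_cast h3
    have h4 : (((univ.sigma (fun _ : Fin 1 => Ico (y0 x) (x + 1))).card : ℕ) : ℝ) ≤ 2 * x := by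
      rw [card_sigma, Fin.sum_univ_one, Nat.card_Ico]
      have : x + 1 - y0 x ≤ 2 * x := by omega
      exact_mod_cast this
    have h5 := pow_le_pow_left₀ (Nat.cast_nonneg _) h4 2
    show Real.log x * (((univ.sigma (fun _ : Fin 1 => Ico (y0 x) (x + 1))).card : ℕ) : ℝ) ^ 2 ≤
      η * (c0 Q k C * ((x : ℝ) / Real.log x ^ (k + 1))) ^ 3
    refine (mul_le_mul_of_nonneg_left h5 (by linarith)).trans ?_
    have h6 : η * (c0 Q k C * ((x : ℝ) / Real.log x ^ (k + 1))) ^ 3 =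
        η * c0 Q k C ^ 3 * (x : ℝ) ^ 3 / Real.log x ^ (3 * k + 3) := by
      rw [mul_pow, div_pow, ← pow_mul, show (k + 1) * 3 = 3 * k + 3 by ring]
      ring
    rw [h6, le_div_iff₀ (by positivity)]
    have h7 := mul_le_mul_of_nonneg_right h1 (show 0 ≤ 4 * (x : ℝ) ^ 2 by positivity)
    have h8 : Real.log x * (2 * (x : ℝ)) ^ 2 * Real.log x ^ (3 * k + 3) = Real.log x ^ (3 * k + 4) * (4 * (x : ℝ) ^ 2) := by
      ring
    rw [h8]
    refine h7.trans (le_of_eq ?_)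
    ring

variable {Ω : Type*} [MeasurableSpace Ω] {μ : Measure Ω} [IsProbabilityMeasure μ] {A : Ω → Set ℕ}

/-- The number of the tuples. -/
noncomputable def Nt (A : Ω → Set ℕ) (H : Finset ℕ) (a b : ℕ) (ω : Ω) : ℝ := nm A (Ico a b) (fun m => tl m (insert 0 H)) ω

omit [MeasurableSpace Ω] in
theorem Nt_add (A : Ω → Set ℕ) (H : Finset ℕ) {a b c : ℕ} (hab : a ≤ b) (hbc : b ≤ c) (ω : Ω) :
    Nt A H a b ω + Nt A H b c ω = Nt A H a c ω := sum_Ico_consecutive _ hab hbc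

omit [MeasurableSpace Ω] in
theorem Nt_le (A : Ω → Set ℕ) (H : Finset ℕ) (a b : ℕ) (ω : Ω) : 0 ≤ Nt A H a b ω ∧ Nt A H a b ω ≤ (b - a : ℕ) := by
  refine ⟨nm_nonneg _ _ _, (nm_le _ _ _).trans (by rw [Nat.card_Ico])⟩

/-- The normalized deviation. -/
noncomputable def DD (Q : ℕ) (A : Ω → Set ℕ) (H : Finset ℕ) (x : ℕ) (ω : Ω) : ℝ :=
  (Nt A H 1 (x + 1) ω - pr Q H x) / Real.sqrt (2 * pr Q H x * Real.log x)

/-- The deviation in the main part. -/
noncomputable def De (Q k : ℕ) (B C : ℝ) (A : Ω → Set ℕ) : KK Q k B C → Fin 1 → Ω → ℝ :=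
  dev A (fun n _ => Ico (y0 n.1.1) (n.1.1 + 1)) (fun n _ m => tl m (insert 0 n.1.2))
      (fun n _ => pr Q n.1.2 n.1.1) (fun n => Real.log n.1.1)

theorem uni_gau {Q k : ℕ} (hA : IsModel μ (level Q) A) (hQ : 1 ≤ Q) {B C : ℝ} (hB : 0 ≤ B) (hC : 0 < C) :
    Gau μ (ll Q k B C) (De Q k B C A) (fun n => Real.log n.1.1) := gau_of hA (uni_sys hQ hB hC)

omit [MeasurableSpace Ω] in
/-- The first terms do not matter. -/
theorem full_close {Q k : ℕ} (hQ : 1 ≤ Q) {B C : ℝ} (hB : 0 ≤ B) (hC : 0 < C) {ε : ℝ} (hε : 0 < ε) :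
    ∀ᶠ x : ℕ in atTop, ∀ H (hH : Hk Q k B C x H), ∀ ω, |DD Q A H x ω - De Q k B C A ⟨(x, H), hH⟩ 0 ω| ≤ ε := by
  have hc0 := c0_pos (k := k) hQ hC
  filter_upwards [y0_facts, pr_ge (k := k) hQ hB hC, log_tendsto.eventually_ge_atTop 1,
    ev_power (2 / (ε ^ 2 * c0 Q k C)) k (show 0 < (1 : ℝ) / 3 by norm_num), eventually_ge_atTop 1]
    with x h1 h2 h3 h4 h5 H hH ω
  obtain ⟨g1, g2, g3, _⟩ := h1
  have hx : (1 : ℝ) ≤ x := by exact_mod_cast h5
  have hpr := h2 H hH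
  obtain ⟨X, hX⟩ : ∃ X, X = (x : ℝ) ^ ((1 : ℝ) / 3) := ⟨_, rfl⟩
  have hX1 : 1 ≤ X := by rw [hX]; exact Real.one_le_rpow hx (by norm_num)
  rw [← hX] at g3 h4
  have hX3 : X ^ 3 = x := by
    rw [hX, ← Real.rpow_natCast, ← Real.rpow_mul (by linarith)]
    norm_num
  have hpr0 : 0 < pr Q H x := lt_of_lt_of_le (by positivity) hpr
  have hd : 0 < Real.sqrt (2 * pr Q H x * Real.log x) := Real.sqrt_pos.2 (by positivity)
  have e1 : DD Q A H x ω - De Q k B C A ⟨(x, H), hH⟩ 0 ω = Nt A H 1 (y0 x) ω / Real.sqrt (2 * pr Q H x * Real.log x) := by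
    have e2 := Nt_add A H (a := 1) (b := y0 x) (c := x + 1) (by omega) (by omega) ω
    have e3 : De Q k B C A ⟨(x, H), hH⟩ 0 ω = (Nt A H (y0 x) (x + 1) ω - pr Q H x) / Real.sqrt (2 * pr Q H x * Real.log x) := rfl
    rw [e3]
    unfold DD
    rw [← sub_div]
    congr 1
    linarith
  obtain ⟨f1, f2⟩ := Nt_le A H 1 (y0 x) ω
  rw [e1, abs_of_nonneg (div_nonneg f1 hd.le), div_le_iff₀ hd]
  have f3 : ((y0 x - 1 : ℕ) : ℝ) ≤ y0 x := by exact_mod_cast Nat.sub_le _ _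
  have f4 : 2 * X / ε ≤ Real.sqrt (2 * pr Q H x * Real.log x) := by
    refine Real.le_sqrt_of_sq_le ?_
    have e2 : 2 * (c0 Q k C * ((x : ℝ) / Real.log x ^ (k + 1))) * Real.log x ≤ 2 * pr Q H x * Real.log x :=
      mul_le_mul_of_nonneg_right (by linarith) (by linarith)
    refine le_trans ?_ e2
    have e3 : 2 * (c0 Q k C * ((x : ℝ) / Real.log x ^ (k + 1))) * Real.log x = 2 * c0 Q k C * x / Real.log x ^ k := by
      have : 0 < Real.log x := by linarith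
      rw [pow_succ]
      field_simp
    rw [e3, le_div_iff₀ (by positivity)]
    rw [div_mul_eq_mul_div, div_le_iff₀ (by positivity)] at h4
    have e4 : (2 * X / ε) ^ 2 * Real.log x ^ k = (2 * Real.log x ^ k) * (2 * X ^ 2) / ε ^ 2 := by
      ring
    rw [e4, div_le_iff₀ (by positivity)]
    have e5 := mul_le_mul_of_nonneg_right h4 (show 0 ≤ 2 * X ^ 2 by positivity)
    refine e5.trans (le_of_eq ?_)
    rw [← hX3]
    ring
  rw [div_le_iff₀ hε] at f4
  linarith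

/-- **Uniform tails.** -/
theorem uni_large {Q k : ℕ} (hA : IsModel μ (level Q) A) (hQ : 1 ≤ Q) {B C : ℝ} (hB : 0 ≤ B) (hC : 0 < C) {R η : ℝ}
    (hR : 0 < R) (hη : 0 < η) : ∀ᶠ x : ℕ in atTop, ∀ H, Hk Q k B C x H →
      μ.real {ω | R ≤ |DD Q A H x ω|} ≤ (x : ℝ) ^ (-(R ^ 2 - η)) := by
  obtain ⟨t, ht⟩ : ∃ t, t = min (R / 2) (η / (4 * R)) := ⟨_, rfl⟩
  have ht0 : 0 < t := by rw [ht]; exact lt_min (by positivity) (by positivity)
  have ht1 : t ≤ R / 2 := by rw [ht]; exact min_le_left _ _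
  have ht2 : t * (4 * R) ≤ η := by
    have : t ≤ η / (4 * R) := by rw [ht]; exact min_le_right _ _
    rwa [le_div_iff₀ (by positivity)] at this
  have h1 := ll_down ((uni_gau (k := k) hA hQ hB hC).large 0 (R := R - t) (η := η / 4) (by linarith) (by positivity))
  filter_upwards [h1, full_close (A := A) (k := k) hQ hB hC ht0, eventually_ge_atTop 1,
    log_tendsto.eventually_ge_atTop (4 * Real.log 2 / η)] with x h2 h3 h4 h5 H hH
  obtain ⟨g1, g2⟩ := h2 H hH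
  have h6 : {ω | R ≤ |DD Q A H x ω|} ⊆ {ω | R - t ≤ De Q k B C A ⟨(x, H), hH⟩ 0 ω} ∪
      {ω | De Q k B C A ⟨(x, H), hH⟩ 0 ω ≤ -(R - t)} := by
    intro ω hω
    have h7 : R ≤ |DD Q A H x ω| := hω
    have h8 := abs_le.1 (h3 H hH ω)
    rcases le_abs.1 h7 with h | h
    · left
      show R - t ≤ De Q k B C A ⟨(x, H), hH⟩ 0 ω
      linarith [h8.2]
    · right
      show De Q k B C A ⟨(x, H), hH⟩ 0 ω ≤ -(R - t)
      linarith [h8.1]
  refine (measureReal_mono h6 (measure_ne_top _ _)).trans ((measureReal_union_le _ _).trans ?_)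
  have h7 : Real.exp (-(Real.log x * ((R - t) ^ 2 - η / 4))) + Real.exp (-(Real.log x * ((R - t) ^ 2 - η / 4))) ≤
      (x : ℝ) ^ (-(R ^ 2 - η)) := by
    rw [← exp_log_rpow h4, ← two_mul]
    have e1 : (2 : ℝ) = Real.exp (Real.log 2) := (Real.exp_log (by norm_num)).symm
    rw [e1, ← Real.exp_add]
    refine Real.exp_le_exp.2 ?_
    rw [div_le_iff₀ hη] at h5
    have hl : 0 ≤ Real.log x := Real.log_natCast_nonneg x
    have e2 : R ^ 2 - η / 2 ≤ (R - t) ^ 2 := by nlinarith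
    have e3 := mul_le_mul_of_nonneg_left e2 hl
    linarith
  exact (add_le_add g1 g2).trans h7

/-- **Uniform local bounds.** -/
theorem uni_near {Q k : ℕ} (hA : IsModel μ (level Q) A) (hQ : 1 ≤ Q) {B C : ℝ} (hB : 0 ≤ B) (hC : 0 < C) (d : ℝ) {η ε : ℝ}
    (hη : 0 < η) (hε : 0 < ε) (hε2 : 4 * ε * |d| ≤ η / 2) : ∀ᶠ x : ℕ in atTop, ∀ H, Hk Q k B C x H →
      μ.real {ω | |DD Q A H x ω - d| < ε} ≤ (x : ℝ) ^ (-(d ^ 2 - η)) := by
  have h1 := ll_down ((uni_gau (k := k) hA hQ hB hC).upper_at (fun _ => d) (δ := 2 * ε) hη (by positivity)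
    (by rw [Fin.sum_univ_one]; linarith))
  filter_upwards [h1, full_close (A := A) (k := k) hQ hB hC hε, eventually_ge_atTop 1] with x h2 h3 h4 H hH
  have h5 := h2 H hH
  have h6 : {ω | |DD Q A H x ω - d| < ε} ⊆ near (De Q k B C A) ⟨(x, H), hH⟩ (fun _ => d) (2 * ε) := by
    intro ω hω i
    have h7 : |DD Q A H x ω - d| < ε := hω
    have h8 := abs_le.1 (h3 H hH ω)
    rw [Subsingleton.elim i 0]
    rw [abs_lt] at h7 ⊢
    constructor
    · linarith [h7.1, h8.2]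
    · linarith [h7.2, h8.1]
  refine (measureReal_mono h6 (measure_ne_top _ _)).trans (h5.trans (le_of_eq ?_))
  rw [Fin.sum_univ_one]
  exact exp_log_rpow h4 _

end Pool.Agent.Q106.MD
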